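import Pool.Agent.P.MP_b8021b_nt.KR.BasicP

/-! The analytic datum of a cycle. -/

namespace Pool.Agent.P.MP_b8021b_nt.KR

open Finset
open scoped Classical

noncomputable section

namespace PAn

variable {F : Type} [Field F]

/-- the values of the norm of a function on the support of a chain -/
def vals (c : Path F →₀ ℝ) (a : F) : Set ℝ :=
  {r | ∃ γ ∈ c.support, ∃ t ∈ Set.Icc (0 : ℝ) 1, ‖γ.j t a‖ = r}

/-- the sup norm on the support of a chain -/
def nN (c : Path F →₀ ℝ) (a : F) : ℝ := sSup (vals c a)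

/-- the total variation along a chain -/
def nD (c : Path F →₀ ℝ) (b : F) : ℝ :=
  ∑ γ ∈ c.support, |c γ| * ∫ t in (0 : ℝ)..1, ‖γ.d b t‖

theorem bdd (c : Path F →₀ ℝ) (a : F) : BddAbove (vals c a) := by
  have h : vals c a = ⋃ γ ∈ c.support, (fun t => ‖γ.j t a‖) '' Set.Icc (0 : ℝ) 1 := by
    ext r
    simp only [vals, Set.mem_ofPred_eq, Set.mem_iUnion, Set.mem_image, exists_prop]
  rw [h]
  refine (Set.Finite.bddAbove_biUnion c.support.finite_toSet).2 fun γ _ => ?_
  exact (isCompact_Icc.image (γ.cont a).norm).bddAbove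

theorem le_nN {c : Path F →₀ ℝ} {γ : Path F} (hγ : γ ∈ c.support) {t : ℝ}
    (ht : t ∈ Set.Icc (0 : ℝ) 1) (a : F) : ‖γ.j t a‖ ≤ nN c a :=
  le_csSup (bdd c a) ⟨γ, hγ, t, ht, rfl⟩

theorem nN_le {c : Path F →₀ ℝ} {a : F} {r : ℝ} (hr : 0 ≤ r)
    (h : ∀ γ ∈ c.support, ∀ t ∈ Set.Icc (0 : ℝ) 1, ‖γ.j t a‖ ≤ r) : nN c a ≤ r := by
  refine Real.sSup_le ?_ hr
  rintro _ ⟨γ, hγ, t, ht, rfl⟩
  exact h γ hγ t ht

theorem nN_nonneg (c : Path F →₀ ℝ) (a : F) : 0 ≤ nN c a := by
  refine Real.sSup_nonneg ?_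
  rintro _ ⟨γ, _, t, _, rfl⟩
  exact norm_nonneg _

theorem nN_add (c : Path F →₀ ℝ) (a b : F) : nN c (a + b) ≤ nN c a + nN c b := by
  refine nN_le (add_nonneg (nN_nonneg c a) (nN_nonneg c b)) fun γ hγ t ht => ?_
  rw [map_add]
  exact (norm_add_le _ _).trans (add_le_add (le_nN hγ ht a) (le_nN hγ ht b))

theorem nN_mul (c : Path F →₀ ℝ) (a b : F) : nN c (a * b) ≤ nN c a * nN c b := by
  refine nN_le (mul_nonneg (nN_nonneg c a) (nN_nonneg c b)) fun γ hγ t ht => ?_
  rw [map_mul, norm_mul]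
  exact mul_le_mul (le_nN hγ ht a) (le_nN hγ ht b) (norm_nonneg _) (nN_nonneg c a)

theorem norm_rat [CharZero F] (φ : F →+* ℂ) (q : ℚ) : ‖φ q‖ = |(q : ℝ)| := by
  rw [map_ratCast, Complex.norm_ratCast]

theorem nN_rat [CharZero F] (c : Path F →₀ ℝ) (q : ℚ) : nN c q ≤ |(q : ℝ)| :=
  nN_le (abs_nonneg _) fun _ _ _ _ => (norm_rat _ q).le

theorem int_d (γ : Path F) (b : F) :
    IntervalIntegrable (fun t => ‖γ.d b t‖) MeasureTheory.volume 0 1 :=
  (γ.cont_d b).norm.intervalIntegrable _ _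

theorem nD_nonneg (c : Path F →₀ ℝ) (b : F) : 0 ≤ nD c b :=
  sum_nonneg fun _ _ => mul_nonneg (abs_nonneg _)
    (intervalIntegral.integral_nonneg zero_le_one fun _ _ => norm_nonneg _)

theorem nD_add (c : Path F →₀ ℝ) (a b : F) : nD c (a + b) ≤ nD c a + nD c b := by
  rw [nD, nD, nD, ← sum_add_distrib]
  refine sum_le_sum fun γ _ => ?_
  rw [← mul_add, ← intervalIntegral.integral_add (int_d γ a) (int_d γ b)]
  refine mul_le_mul_of_nonneg_left ?_ (abs_nonneg _)
  refine intervalIntegral.integral_mono_on zero_le_one (int_d γ _)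
    ((int_d γ a).add (int_d γ b)) fun t _ => ?_
  rw [γ.d_add]
  exact norm_add_le _ _

theorem nD_mul (c : Path F →₀ ℝ) (a b : F) :
    nD c (a * b) ≤ nN c a * nD c b + nN c b * nD c a := by
  rw [nD, nD, nD, mul_sum, mul_sum, ← sum_add_distrib]
  refine sum_le_sum fun γ hγ => ?_
  rw [mul_left_comm (nN c a), mul_left_comm (nN c b), ← mul_add,
    ← intervalIntegral.integral_const_mul (nN c a), ← intervalIntegral.integral_const_mul (nN c b),
    ← intervalIntegral.integral_add ((int_d γ b).const_mul _) ((int_d γ a).const_mul _)]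
  refine mul_le_mul_of_nonneg_left ?_ (abs_nonneg _)
  refine intervalIntegral.integral_mono_on zero_le_one (int_d γ _)
    (((int_d γ b).const_mul _).add ((int_d γ a).const_mul _)) fun t ht => ?_
  rw [γ.d_mul]
  refine (norm_add_le _ _).trans ?_
  rw [norm_mul, norm_mul, add_comm, mul_comm ‖γ.d a t‖]
  exact add_le_add (mul_le_mul_of_nonneg_right (le_nN hγ ht a) (norm_nonneg _))
    (mul_le_mul_of_nonneg_right (le_nN hγ ht b) (norm_nonneg _))

theorem nD_rat [CharZero F] (c : Path F →₀ ℝ) (q : ℚ) : nD c q = 0 := by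
  simp [nD, Path.d_rat]

theorem lamC_sum' (c : Path F →₀ ℝ) (a b : F) :
    lamC c a b = ∑ γ ∈ c.support, c γ * γ.lam a b := rfl

theorem regC_sum' (c : Path F →₀ ℝ) (a b : F) :
    regC c a b = ∑ γ ∈ c.support, c γ * γ.reg a b := rfl

theorem lam_bound (c : Path F →₀ ℝ) (a b : F) : |lamC c a b| ≤ nN c a * nD c b := by
  rw [lamC_sum', nD, mul_sum]
  refine (abs_sum_le_sum_abs _ _).trans (sum_le_sum fun γ hγ => ?_)
  rw [abs_mul, mul_left_comm (nN c a), ← intervalIntegral.integral_const_mul]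
  refine mul_le_mul_of_nonneg_left ?_ (abs_nonneg _)
  rw [γ.lam_eq]
  refine (intervalIntegral.abs_integral_le_integral_abs zero_le_one).trans ?_
  refine intervalIntegral.integral_mono_on zero_le_one
    ((γ.cont_lam a b).abs.intervalIntegrable _ _) ((int_d γ b).const_mul _) fun t ht => ?_
  refine (Complex.abs_im_le_norm _).trans ?_
  rw [norm_mul]
  exact mul_le_mul_of_nonneg_right (le_nN hγ ht a) (norm_nonneg _)

theorem lamC_add_right (c : Path F →₀ ℝ) (a b b' : F) :
    lamC c a (b + b') = lamC c a b + lamC c a b' := by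
  simp only [lamC_sum', Path.lam_add_right, mul_add, sum_add_distrib]

/-- the pairing as a biadditive map -/
def Lam (c : Path F →₀ ℝ) : F →+ F →+ ℝ :=
  AddMonoidHom.mk' (fun a => AddMonoidHom.mk' (lamC c a) (lamC_add_right c a))
    fun a a' => AddMonoidHom.ext fun b => lamC_add_left c a a' b

theorem lam_leib (γ : Path F) (a b e : F) :
    γ.lam a (b * e) = γ.lam (a * b) e + γ.lam (a * e) b := by
  rw [γ.lam_eq, γ.lam_eq, γ.lam_eq, ← intervalIntegral.integral_add
    ((γ.cont_lam _ _).intervalIntegrable _ _) ((γ.cont_lam _ _).intervalIntegrable _ _)]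
  refine intervalIntegral.integral_congr fun t _ => ?_
  simp only [γ.d_mul, map_mul, ← Complex.add_im]
  congr 1
  ring

theorem has_re {v : ℝ → ℂ} {w : ℂ} {t : ℝ} (h : HasDerivAt v w t) :
    HasDerivAt (fun s => (v s).re) w.re t :=
  Complex.reCLM.hasFDerivAt.comp_hasDerivAt t h

theorem has_im {v : ℝ → ℂ} {w : ℂ} {t : ℝ} (h : HasDerivAt v w t) :
    HasDerivAt (fun s => (v s).im) w.im t :=
  Complex.imCLM.hasFDerivAt.comp_hasDerivAt t h

theorem lam_one (γ : Path F) (b : F) : γ.lam 1 b = (γ.j 1 b).im - (γ.j 0 b).im := by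
  rw [γ.lam_eq]
  simp only [map_one, one_mul]
  exact intervalIntegral.integral_eq_sub_of_hasDerivAt (f := fun s => (γ.j s b).im)
    (fun t _ => has_im (γ.hasDerivAt b t))
    ((Complex.continuous_im.comp (γ.cont_d b)).intervalIntegrable _ _)

theorem reg_mul (γ : Path F) {f g : F} (hf : f ≠ 0) (hg : g ≠ 0) (s : F) :
    γ.reg (f * g) s = γ.reg f s + γ.reg g s := by
  rw [Path.reg, Path.reg, Path.reg, ← intervalIntegral.integral_add
    ((γ.cont_reg _ _).intervalIntegrable _ _) ((γ.cont_reg _ _).intervalIntegrable _ _)]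
  refine intervalIntegral.integral_congr fun t _ => ?_
  simp only [γ.darg_mul hf hg, map_mul, norm_mul]
  rw [Real.log_mul (norm_ne_zero_iff.2 (γ.ne hf t)) (norm_ne_zero_iff.2 (γ.ne hg t))]
  ring

theorem reg_rat [CharZero F] (γ : Path F) (q : ℚ) (s : F) :
    γ.reg q s = Real.log |(q : ℝ)| * γ.lam s⁻¹ s := by
  rw [Path.reg, γ.lam_eq, ← intervalIntegral.integral_const_mul]
  refine intervalIntegral.integral_congr fun t _ => ?_
  simp only [norm_rat, γ.darg_eq, γ.d_rat, zero_div, Complex.zero_im, mul_zero, sub_zero,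
    map_inv₀]
  rw [div_eq_inv_mul]

theorem has_log {v : ℝ → ℂ} {w : ℂ} {t : ℝ} (h : HasDerivAt v w t) (h0 : v t ≠ 0) :
    HasDerivAt (fun s => Real.log ‖v s‖) (w / v t).re t := by
  have hp : (v t).re * (v t).re + (v t).im * (v t).im ≠ 0 := by
    rw [← Complex.normSq_apply]
    exact (Complex.normSq_pos.2 h0).ne'
  have h1 := ((((has_re h).fun_mul (has_re h)).fun_add ((has_im h).fun_mul (has_im h))).log
    hp).const_mul (1 / 2 : ℝ)
  have e : (fun s => Real.log ‖v s‖) =
      fun s => (1 / 2 : ℝ) * Real.log ((v s).re * (v s).re + (v s).im * (v s).im) := by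
    funext s
    rw [← Complex.normSq_apply, Complex.normSq_eq_norm_sq, Real.log_pow]
    push_cast
    ring
  rw [e]
  refine h1.congr_deriv ?_
  rw [Complex.div_re, Complex.normSq_apply]
  field_simp
  ring

theorem slit {z : ℂ} (h : ‖z‖ < 1) : 1 - z ∈ Complex.slitPlane := by
  have := Complex.mem_slitPlane_of_norm_lt_one (z := -z) (by rwa [norm_neg])
  rwa [← sub_eq_add_neg] at this

/-- the boundary term -/
def bdry (x s : F) (φ : F →+* ℂ) : ℝ := Real.log ‖φ s‖ * (Complex.log (1 - φ x)).im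

theorem parts (γ : Path F) {x s : F} (hs : s ≠ 0)
    (hx : ∀ t ∈ Set.Icc (0 : ℝ) 1, ‖γ.j t x‖ < 1) :
    γ.reg (1 - x) s + (bdry x s (γ.j 1) - bdry x s (γ.j 0)) =
      ∫ t in (0 : ℝ)..1, (Complex.log (1 - γ.j t x) * (γ.d s t / γ.j t s)).im := by
  have hI : Set.uIcc (0 : ℝ) 1 = Set.Icc 0 1 := Set.uIcc_of_le zero_le_one
  have hw : Continuous fun t => γ.d s t / γ.j t s := (γ.cont_d s).div (γ.cont s) (γ.ne hs)
  have hL : ContinuousOn (fun t => Complex.log (1 - γ.j t x)) (Set.uIcc (0 : ℝ) 1) := by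
    refine ContinuousOn.clog (continuous_const.sub (γ.cont x)).continuousOn fun t ht => ?_
    exact slit (hx t (hI ▸ ht))
  have hd : ∀ t ∈ Set.uIcc (0 : ℝ) 1, HasDerivAt (fun u => bdry x s (γ.j u))
      ((γ.d s t / γ.j t s).re * (Complex.log (1 - γ.j t x)).im +
        Real.log ‖γ.j t s‖ * γ.darg (1 - x) t) t := by
    intro t ht
    have h1 := has_log (γ.hasDerivAt s t) (γ.ne hs t)
    have h2 : HasDerivAt (fun u => γ.j u (1 - x)) (γ.d (1 - x) t) t := γ.hasDerivAt _ t
    have h3 : γ.j t (1 - x) ∈ Complex.slitPlane := by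
      rw [map_sub, map_one]
      exact slit (hx t (hI ▸ ht))
    have h4 := has_im (h2.clog_real h3)
    have h5 := h1.fun_mul h4
    simp only [map_sub, map_one] at h5
    simpa only [bdry, γ.darg_eq, map_sub, map_one] using h5
  have hi : IntervalIntegrable (fun t => (γ.d s t / γ.j t s).re * (Complex.log (1 - γ.j t x)).im +
      Real.log ‖γ.j t s‖ * γ.darg (1 - x) t) MeasureTheory.volume 0 1 := by
    refine ContinuousOn.intervalIntegrable ?_
    refine ContinuousOn.add ?_ ((γ.cont_log s).mul (γ.cont_darg _)).continuousOn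
    exact (Complex.continuous_re.comp hw).continuousOn.mul
      (Complex.continuous_im.comp_continuousOn hL)
  rw [← intervalIntegral.integral_eq_sub_of_hasDerivAt hd hi, Path.reg,
    ← intervalIntegral.integral_add ((γ.cont_reg _ _).intervalIntegrable _ _) hi]
  refine intervalIntegral.integral_congr fun t _ => ?_
  simp only [Complex.mul_im, Complex.log_re, γ.darg_eq s, map_sub, map_one]
  ring

theorem series (γ : Path F) {x s : F} (hs : s ≠ 0) {r : ℝ} (hr : r < 1)
    (hx : ∀ t ∈ Set.Icc (0 : ℝ) 1, ‖γ.j t x‖ ≤ r) :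
    HasSum (fun n : ℕ => -γ.lam (x ^ (n + 1) * s⁻¹) s / (n + 1))
      (∫ t in (0 : ℝ)..1, (Complex.log (1 - γ.j t x) * (γ.d s t / γ.j t s)).im) := by
  have hr0 : 0 ≤ r := (norm_nonneg _).trans (hx 0 ⟨le_rfl, zero_le_one⟩)
  have hw : Continuous fun t => γ.d s t / γ.j t s := (γ.cont_d s).div (γ.cont s) (γ.ne hs)
  have hI : ∀ t ∈ Set.uIoc (0 : ℝ) 1, t ∈ Set.Icc (0 : ℝ) 1 := fun t ht => by
    rw [Set.uIoc_of_le zero_le_one] at ht
    exact ⟨ht.1.le, ht.2⟩
  have e : (fun n : ℕ => -γ.lam (x ^ (n + 1) * s⁻¹) s / (n + 1)) = fun n : ℕ =>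
      ∫ t in (0 : ℝ)..1, -(γ.j t x ^ (n + 1) * (γ.d s t / γ.j t s)).im / (n + 1) := by
    funext n
    rw [intervalIntegral.integral_div, intervalIntegral.integral_neg, γ.lam_eq]
    simp only [map_mul, map_pow, map_inv₀, div_eq_inv_mul, mul_assoc]
  rw [e]
  refine intervalIntegral.hasSum_integral_of_dominated_convergence
    (fun n t => r ^ n * ‖γ.d s t / γ.j t s‖) (fun n => ?_) (fun n => ?_) ?_ ?_ ?_
  · exact ((Complex.continuous_im.comp (((γ.cont x).pow _).mul hw)).neg.div_const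
      _).aestronglyMeasurable
  · refine Filter.Eventually.of_forall fun t ht => ?_
    have h1 : (1 : ℝ) ≤ (n : ℝ) + 1 := by simp
    rw [Real.norm_eq_abs, abs_div, abs_neg, abs_of_nonneg (zero_le_one.trans h1)]
    refine (div_le_self (abs_nonneg _) h1).trans ((Complex.abs_im_le_norm _).trans ?_)
    rw [norm_mul, norm_pow]
    refine mul_le_mul_of_nonneg_right ?_ (norm_nonneg _)
    exact (pow_le_pow_left₀ (norm_nonneg _) (hx t (hI t ht)) _).trans
      (pow_le_pow_of_le_one hr0 hr.le (Nat.le_succ n))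
  · exact Filter.Eventually.of_forall fun t _ =>
      (summable_geometric_of_lt_one hr0 hr).mul_right _
  · simp only [tsum_mul_right]
    exact (continuous_const.mul hw.norm).intervalIntegrable _ _
  · refine Filter.Eventually.of_forall fun t ht => ?_
    have h1 := Complex.hasSum_taylorSeries_neg_log ((hx t (hI t ht)).trans_lt hr)
    have h2 := (hasSum_nat_add_iff' 1).2 h1
    have h3 := Complex.hasSum_im (h2.mul_right (-(γ.d s t / γ.j t s)))
    simp only [range_one, sum_singleton, Nat.cast_zero, div_zero, sub_zero, neg_mul_neg] at h3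
    have e' : ∀ n : ℕ, (γ.j t x ^ (n + 1) / ((n + 1 : ℕ) : ℂ) * -(γ.d s t / γ.j t s)).im =
        -(γ.j t x ^ (n + 1) * (γ.d s t / γ.j t s)).im / (n + 1) := fun n => by
      rw [div_mul_eq_mul_div, Complex.div_natCast_im, mul_neg, Complex.neg_im, Nat.cast_succ]
    simpa only [e'] using h3

end PAn

open PAn in
theorem p_an : S_An := by
  intro F _ _ c hc
  refine ⟨{ Λ := Lam c, reg := regC c, N := nN c, N' := nD c, leib := ?_, exact := ?_
            bound := lam_bound c, N_nonneg := nN_nonneg c, N_add := nN_add c, N_mul := nN_mul c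
            N_rat := nN_rat c, N'_nonneg := nD_nonneg c, N'_add := nD_add c, N'_mul := nD_mul c
            N'_rat := nD_rat c, reg_mul := ?_, reg_rat := ?_, reg_ser := ?_ },
    fun _ _ => rfl, fun _ _ => rfl⟩
  · intro a b e
    change lamC c a (b * e) = lamC c (a * b) e + lamC c (a * e) b
    simp only [lamC_sum', lam_leib, mul_add, sum_add_distrib]
  · intro b
    change lamC c 1 b = 0
    rw [lamC_eq]
    simp only [lam_one]
    exact hc.ev_zero fun φ => (φ b).im
  · intro f g s hf hg _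
    simp only [regC_sum', PAn.reg_mul _ hf hg, mul_add, sum_add_distrib]
  · intro q s _ _
    change regC c q s = Real.log |(q : ℝ)| * lamC c s⁻¹ s
    simp only [regC_sum', lamC_sum', PAn.reg_rat, mul_sum, mul_left_comm]
  · intro x s hs hx
    change HasSum (fun n : ℕ => -lamC c (x ^ (n + 1) * s⁻¹) s / (n + 1)) (regC c (1 - x) s)
    have h0 : ∑ γ ∈ c.support, c γ * (bdry x s (γ.j 1) - bdry x s (γ.j 0)) = 0 :=
      hc.ev_zero (bdry x s)
    have h1 : regC c (1 - x) s = ∑ γ ∈ c.support, c γ *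
        ∫ t in (0 : ℝ)..1, (Complex.log (1 - γ.j t x) * (γ.d s t / γ.j t s)).im := by
      refine (add_zero _).symm.trans ((congrArg (regC c (1 - x) s + ·) h0.symm).trans ?_)
      rw [regC_sum', ← sum_add_distrib]
      refine sum_congr rfl fun γ hγ => ?_
      rw [← mul_add, parts γ hs fun t ht => (le_nN hγ ht x).trans_lt hx]
    have h2 : (fun n : ℕ => -lamC c (x ^ (n + 1) * s⁻¹) s / (n + 1)) = fun n : ℕ =>
        ∑ γ ∈ c.support, c γ * (-γ.lam (x ^ (n + 1) * s⁻¹) s / (n + 1)) := by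
      funext n
      rw [lamC_sum', ← sum_neg_distrib, sum_div]
      refine sum_congr rfl fun γ _ => ?_
      ring
    rw [h1, h2]
    exact hasSum_sum fun γ hγ => (series γ hs hx fun t ht => le_nN hγ ht x).mul_left _

end

end Pool.Agent.P.MP_b8021b_nt.KR
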