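import Pool.Agent.P.MP_b8021b_nt.KR.PAna1
import Pool.Agent.P.MP_b8021b_nt.VC.BasicA

/-! The regulator term on a section. -/

namespace Pool.Agent.P.MP_b8021b_nt.KR

open Polynomial Finset Pool.Agent.P.MP_b8021b_nt.VC
open scoped Classical IntermediateField

namespace PAna

variable {R E : Type} [CommRing R] [Algebra ℤ[X] R] [Field E] (p : VC.Par R) (θ : R →+* E) (w : E)

theorem sec_eq (hG : p.G = X) (hz : θ (zR R) ≠ 0) (s : p.Co) :
    secE p θ w s = θ (p.toTab.el p.g0) + θ (p.toTab.el p.k0) * w +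
      (p.r : E) ^ p.n0 * θ (zR R) ^ p.dd * ∑ j, (s j : E) * psi p θ w j := by
  have h : ∀ (i : Fin p.e) (b : Bool), (p.r : E) ^ p.n0 * θ (zR R) ^ p.dd *
      ∑ k : Fin (p.d i + 1), (s ⟨(i, b), k⟩ : E) * psi p θ w ⟨(i, b), k⟩ =
      aeval (θ (zR R)) (C ((p.r : ℤ) ^ p.n0) * p.G * p.hp s (i, b)) * θ (p.y i) *
        if b then w else 1 := fun i b => by
    simp only [hG, Par.hp, map_mul, map_sum, aeval_X, map_pow, eq_intCast, map_intCast,
      map_natCast, mul_sum, sum_mul, psi]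
    refine sum_congr rfl fun k _ => ?_
    field_simp
    ring
  rw [Fintype.sum_sigma, Fintype.sum_prod_type, mul_sum, secE]
  simp only [Fintype.sum_bool, mul_add, h, Tab.map_el, Par.gp, Par.cp, map_add, add_mul,
    sum_add_distrib, sum_mul, if_true, Bool.false_eq_true, if_false, mul_one]
  ring

theorem cen_eq (hG : p.G = X) (hz : θ (zR R) ≠ 0) (S0 : ℕ) :
    ∑ j, (VC.cen p S0 j : E) * psi p θ w j = S0 := by
  have h1 : p.d p.toTab.i0 + 1 = p.dd := by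
    have := p.d_add p.toTab.i0
    rwa [Par.ρ, hG, natDegree_X, p.toTab.κ_i0] at this
  rw [sum_eq_single (⟨(p.toTab.i0, false), Fin.last _⟩ : p.Ix)]
  · simp [VC.cen, psi, h1, p.toTab.y_i0, hz]
  · rintro ⟨i, k⟩ - hne
    rw [VC.cen, if_neg, Int.cast_zero, zero_mul]
    rintro ⟨h2, h3⟩
    dsimp only at h2 h3
    subst h2
    exact hne (congrArg _ (Fin.ext h3))
  · simp

end PAna

open PAna in
theorem p_ana (hSer : S_Ser) (hCoef : S_Coef) (hContF : S_ContF) : S_Ana := by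
  intro R E _ _ _ _ p θ w a τ M hG hz h0 hM ϑ c₀ hϑ hc₀
  have hz0 : θ (zR R) ≠ 0 := fun h => hz (h ▸ isAlgebraic_zero)
  have hr : (p.r : E) ≠ 0 := Nat.cast_ne_zero.2 p.hr.ne_zero
  have hr1 : (1 : ℝ) ≤ p.r := by exact_mod_cast p.hr.one_le
  have hD : 1 ≤ 2 * p.e * p.dd := by
    have := p.hdd p.toTab.i0
    exact Nat.mul_pos (Nat.mul_pos two_pos p.he.pos) (by omega)
  obtain ⟨CF, CF0, hCF⟩ := hContF R p hG
  obtain ⟨b, hb⟩ : ∃ b, b = (θ (p.toTab.el p.g0) + θ (p.toTab.el p.k0) * w) /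
    ((p.r : E) ^ p.n0 * θ (zR R) ^ p.dd) := ⟨_, rfl⟩
  obtain ⟨x₀, hx₀⟩ : ∃ x, x = θ (zR R) ^ (2 * p.e * p.dd) / (θ (zR R) - τ) ^ M := ⟨_, rfl⟩
  have s1 : 0 ≤ ∑ j, a.N (psi p θ w j) := sum_nonneg fun j _ => a.N_nonneg _
  have s2 : 0 ≤ ∑ j, a.N' (psi p θ w j) := sum_nonneg fun j _ => a.N'_nonneg _
  have b1 := a.N_nonneg b
  have b2 := a.N'_nonneg b
  obtain ⟨C, hC⟩ : ∃ C, C = CF + (a.N b + ∑ j, a.N (psi p θ w j)) +
    (a.N' b + ∑ j, a.N' (psi p θ w j)) + 1 := ⟨_, rfl⟩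
  obtain ⟨η₁, η0, H⟩ := core a hSer hCoef (θ (zR R)) τ hD hM hz h0 (C := C)
    (A := ((p.r : ℝ) ^ p.n0) ^ (2 * p.e)) (c₀ := c₀ / 2) (by rw [hC]; positivity)
    (one_le_pow₀ (one_le_pow₀ hr1)) hϑ (by positivity)
  refine ⟨min η₁ (min 1 (c₀ / (2 * (|a.Λ x₀ b| + 1)))), by positivity, ?_⟩
  intro η η0 hη S0 L hS hL s hs hs0
  simp only [le_min_iff] at hη
  obtain ⟨e1, e2, e3⟩ := hη
  rw [le_div_iff₀ (by positivity)] at e3
  have S0p : (0 : ℝ) < S0 := by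
    refine lt_of_le_of_ne S0.cast_nonneg fun h => ?_
    rw [← h, mul_zero] at hS
    linarith
  have hS1 : 1 ≤ η * S0 := hS.trans (by
    rw [sq, mul_assoc]
    exact mul_le_of_le_one_left (by positivity) e2)
  have S0e : (S0 : E) ≠ 0 := Nat.cast_ne_zero.2 (by exact_mod_cast S0p.ne')
  have hδ : ∀ j, |((s j - VC.cen p S0 j : ℤ) : ℝ)| ≤ η * S0 := fun j => by
    have h1 := mem_Ioo.1 (Fintype.mem_piFinset.1 hs j)
    have h2 : |s j - VC.cen p S0 j| ≤ (L : ℤ) := abs_le.2 ⟨by omega, by omega⟩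
    exact le_trans (by exact_mod_cast h2) hL
  have hq : |(((S0 : ℚ)⁻¹ : ℚ) : ℝ)| = (S0 : ℝ)⁻¹ := by simp
  have nrm : ∀ N : E → ℝ, (∀ x, 0 ≤ N x) → (∀ x y, N (x + y) ≤ N x + N y) →
      (∀ f : p.Ix → E, N (∑ j, f j) ≤ ∑ j, N (f j)) →
      (∀ (q : ℚ) x, N (q * x) ≤ |(q : ℝ)| * N x) →
      N ((((S0 : ℚ)⁻¹ : ℚ) : E) * (b + ∑ j, ((s j - VC.cen p S0 j : ℤ) : E) * psi p θ w j)) ≤
        (N b + ∑ j, N (psi p θ w j)) * η := fun N n0 n1 n2 n3 => by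
    refine (n3 _ _).trans ?_
    have h1 : ∑ j, N (((s j - VC.cen p S0 j : ℤ) : E) * psi p θ w j) ≤
        η * S0 * ∑ j, N (psi p θ w j) := by
      rw [mul_sum]
      refine sum_le_sum fun j _ => le_trans ?_ (mul_le_mul_of_nonneg_right (hδ j) (n0 _))
      simpa only [Rat.cast_intCast] using n3 ((s j - VC.cen p S0 j : ℤ) : ℚ) (psi p θ w j)
    have h2 := (n1 b _).trans (add_le_add le_rfl ((n2 _).trans h1))
    have h3 := mul_le_mul_of_nonneg_right hS1 (n0 b)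
    rw [hq, inv_mul_le_iff₀ S0p]
    linarith
  obtain ⟨k1, Rg, R', k2, k3, k4⟩ := H η η0 e1 e2 ((S0 : ℝ) ^ (2 * p.e))
    (((p.r : ℤ) ^ p.n0 * S0) ^ (2 * p.e)) (p.F s) (S0 * ((p.r : E) ^ p.n0 * θ (zR R) ^ p.dd))
    ((((S0 : ℚ)⁻¹ : ℚ) : E) * (b + ∑ j, ((s j - VC.cen p S0 j : ℤ) : E) * psi p θ w j))
    (secE p θ w s) (by positivity) (by push_cast; rw [mul_pow]) (p.natDegree_F_le s)
    (fun k => by
      refine le_trans (le_of_eq ?_) ((hCF η S0 L e2 hS1 hL s hs k).trans ?_)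
      · push_cast
        rfl
      · gcongr
        rw [hC]
        linarith)
    (mul_mem (natCast_mem _ _) (mul_mem (pow_mem (natCast_mem _ _) _)
      (pow_mem (IntermediateField.mem_adjoin_simple_self ℚ _) _))) hs0
    (by
      simp only [Int.cast_sub, sub_mul, sum_sub_distrib]
      rw [sec_eq p θ w hG hz0, cen_eq p θ w hG hz0, hb]
      push_cast
      field_simp
      ring)
    ((nrm a.N a.N_nonneg a.N_add (a.N_sum _) a.N_smul).trans (by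
      gcongr
      rw [hC]
      linarith))
    ((nrm a.N' a.N'_nonneg a.N'_add (a.N'_sum _) a.N'_smul).trans (by
      gcongr
      rw [hC]
      linarith))
  refine ⟨k1, Rg, R', k2, k3, fun h => k4 ?_⟩
  rw [← hx₀] at h ⊢
  rw [a.smul_right, map_add, map_sum, abs_mul, hq, le_inv_mul_iff₀ S0p]
  simp only [int_right]
  simp only [mul_comm (a.Λ x₀ _)] at h
  have h1 := abs_add_le (a.Λ x₀ b + ∑ j, ((s j - VC.cen p S0 j : ℤ) : ℝ) * a.Λ x₀ (psi p θ w j))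
    (-a.Λ x₀ b)
  rw [add_neg_cancel_comm, abs_neg] at h1
  have h2 := mul_le_mul_of_nonneg_right hS (abs_nonneg (a.Λ x₀ b))
  have h3 := mul_le_mul_of_nonneg_left e3 (show 0 ≤ η * S0 by positivity)
  have h4 : 0 ≤ η ^ 2 * S0 := by positivity
  linarith

end Pool.Agent.P.MP_b8021b_nt.KR
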