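import Pool.Agent.P.MP_b8021b_nt.KR.PBR1
import Pool.Agent.P.MP_b8021b_nt.VC.BContr

/-! Part B with a Remez inequality off a small set of sections: the contraction step. -/

namespace Pool.Agent.P.MP_b8021b_nt.KR.PBR

open Pool.Agent.P.MP_b8021b_nt.VE Pool.Agent.P.MP_b8021b_nt.VC Pool.Agent.P.MP_b8021b_nt.VC.B
open Polynomial Finset
open scoped Classical

variable {kp CR δ : ℝ}

/-- oscillation on a cell -/
theorem osc {P X T S : Type} [Fintype P] [Fintype X] [Fintype T] [Fintype S] {Nc u d : ℕ}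
    {G : Sys P X T S Nc u} {Bad : Finset S} {ε : ℝ} (hG : OkR G kp d CR δ Bad ε) (hε : ε < 1)
    (hδ : 0 < δ) {s : S} (hs : s ∉ Bad) {φ₀ κ M : ℝ} (hM : 0 ≤ M)
    (h : ∀ t, |G.A s (G.box.τ t) + (u + 2) * φ₀ + κ * G.Lg d s t| ≤ M) {t t' : T}
    (ht : G.box.cell t = G.box.cell t') :
    |G.A s (G.box.τ t) + (u + 2) * φ₀ + κ * G.Lg d s t -
      (G.A s (G.box.τ t') + (u + 2) * φ₀ + κ * G.Lg d s t')| ≤ CR / Nc * M := by
  have := (hG.rem s hs ((u + 2) * φ₀) κ M hM ?_).2 t t' ht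
  · refine le_trans (le_of_eq ?_) this
    congr 1
    ring
  · refine le_trans ?_ (Nat.cast_le.2 (card_le_card (s := univ) fun c _ => ?_))
    · rw [Finset.card_univ]
      nlinarith [Nat.cast_nonneg (α := ℝ) (Fintype.card (Fin Nc × Fin Nc))]
    · obtain ⟨t, ht⟩ := Contr.cell_surj hG.des.base hG.box.cell hε c
      simp only [mem_filter, mem_univ, true_and]
      exact ⟨t, ht, h t⟩

open Contr hiding osc in
theorem ct (hk : 1 ≤ kp) (hδ : 0 < δ) (hCnt : S_Cnt) (hTK : B.S_TK kp) (hOne : B.S_One kp)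
    (hLoc : B.S_Loc kp) (hFE : S_FE) (hL2 : S_L2) (hSA : SA kp CR δ) : Ct kp CR δ := by
  intro u d hu
  obtain ⟨c, Cc, hc0, hCc, hcnt⟩ := hCnt.2.2.2.2.2 u hu
  obtain ⟨Ct₀, hCt₀, htk⟩ := hTK
  obtain ⟨Ct, hCtd⟩ : ∃ Ct, Ct = kp ^ 2 * Ct₀ := ⟨_, rfl⟩
  have hCt : 1 ≤ Ct := hCtd ▸ one_le_mul_of_one_le_of_one_le (one_le_pow₀ hk) hCt₀
  obtain ⟨CL, ε₀, hCL, hε₀, hl2⟩ := hL2 u hu
  obtain ⟨CF, -, hfe⟩ := hFE u hu
  obtain ⟨K, h₀, N₁, hK, hh₀, hsa⟩ := hSA u d hu
  set n : ℝ := u + 2 with hn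
  have hn0 : 0 < n := by positivity
  set C1 : ℝ := (3 * CR ^ 2 + (2 * n + 1) ^ 2 * (3 + n * (2 * Cc + 1) + n * (CL * K + CL + 1)) +
    50 * n ^ 2 * Ct) / (n * c) with hC1
  have hC10 : 0 ≤ C1 := by positivity
  refine ⟨1 + C1 * K ^ 2, h₀, max 1 N₁, le_add_of_nonneg_right (by positivity), hh₀,
    fun Nc hNc ε' hε' => ?_⟩
  have hNc1 : 1 ≤ Nc := (le_max_left _ _).trans hNc
  have : NeZero Nc := ⟨by omega⟩
  set η := min ε' (min ε₀ 1) with hη
  have hη0 : 0 < η := by positivity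
  have hη1 : η ≤ 1 := (min_le_right _ _).trans (min_le_right _ _)
  have hηε : η ≤ ε' := min_le_left _ _
  have hηε₀ : η ≤ ε₀ := (min_le_right _ _).trans (min_le_left _ _)
  obtain ⟨εS, hεS, hsa⟩ := hsa Nc ((le_max_right _ _).trans hNc) η hη0
  set e1 : ℝ := η / (1 + Fintype.card (Fin Nc × Fin Nc)) with he1
  obtain ⟨εO, hεO, hone⟩ := hOne u hu e1 (by positivity)
  have he2 : η / CL ≤ η := div_le_self hη0.le hCL
  have he3 : CL * (η / CL) = η := by field_simp
  obtain ⟨εL, hεL, hloc⟩ := hLoc u hu (Fintype.card (Fin Nc × Fin Nc)) (η / CL) (by positivity)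
  refine ⟨min (min εS εO) (min εL (min (η ^ 2) (1 / (12 * n)))), by positivity, ?_⟩
  intro P X T S _ _ _ _ G Bad hG a lam h θ hlam hh hθ hθ1 hPT
  set ε := min (min εS εO) (min εL (min (η ^ 2) (1 / (12 * n)))) with hε
  have hεη : ε ≤ η ^ 2 := (min_le_right _ _).trans ((min_le_right _ _).trans (min_le_left _ _))
  have hεn : ε ≤ 1 / (12 * n) :=
    (min_le_right _ _).trans ((min_le_right _ _).trans (min_le_right _ _))
  have hb := hG.des.base
  have hε1 : ε < 1 := lt_of_le_of_lt hεn (by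
    rw [div_lt_one (by positivity)]
    have : (0 : ℝ) ≤ u := Nat.cast_nonneg u
    linarith)
  have hN : 12 * (u + 2) ≤ G.b.N := by
    have h1 := hb.Npos.trans (mul_le_mul_of_nonneg_right hεn (Nat.cast_nonneg _))
    rw [div_mul_eq_mul_div, le_div_iff₀ (by positivity), hn] at h1
    exact_mod_cast (show ((12 * (u + 2) : ℝ)) ≤ G.b.N by linarith)
  obtain ⟨hP1, -, hP2, -⟩ := hcnt G.b.N hN
  have hO : OneP G.b G.σT G.σS u G.μ e1 := hone P X T S G.b G.σT G.σS G.μ
    (des_mono hG.des ((min_le_left _ _).trans (min_le_right _ _)))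
  have hT : TKP kp G.b G.σS Ct ε := fun β bb h1 h2 => by
    rw [hCtd, mul_div_cancel_left₀ _ (pow_pos hb.kp_pos 2).ne']
    exact ((htk P X S G.b G.σS ε hε1.le hb hG.des.sS).1 β bb h1 h2).1
  have hεL' : ε ≤ εL := (min_le_right _ _).trans (min_le_left _ _)
  obtain ⟨G1, -, hG1m, hG1⟩ := hloc P X T S (Fin Nc × Fin Nc) G.b G.σT G.σS G.μ G.box.cell le_rfl
    (des_mono hG.des hεL') (cell_mono hG.box.cell hεL')
  obtain ⟨G2, hG2w, hG2B, hG2⟩ := hsa P X T S G Bad
    (ok_mono hG ((min_le_left _ _).trans (min_le_left _ _))) a lam h hlam hh hPT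
  choose! φ₀ κ hG2 using hG2
  choose pt hpt using cell_surj hb hG.box.cell hε1
  have hl := fun s (hs : s ∈ G1) => hl2 X T (Fin Nc × Fin Nc) G.b.N _ _ _ _ (η / CL)
    (he2.trans hηε₀) (hG1 s hs).2
  have hh0 : 0 ≤ h := le_trans (Finset.sum_nonneg fun t _ => Finset.sum_nonneg fun x _ =>
    flag_nonneg hb hG.des.sT x t) hPT.2
  have hΛ : 0 < K * lam := by positivity
  have hlΛ : lam ≤ K * lam := le_mul_of_one_le_left hlam.le hK
  have hdiv : ∀ z : ℝ, |z| ≤ K * lam → |z / (K * lam)| ≤ 1 := fun z hz => by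
    rw [abs_div, abs_of_pos hΛ]; exact div_le_one_of_le₀ hz hΛ.le
  set Gs := G1 ∩ G2 with hGs
  set f : T → X → ℝ := fun t x => if G.σT.on x t ∧ |G.c₁ x t - a x| ≤ lam then
    (G.c₁ x t - a x) / (K * lam) else 0 with hf
  set ψ' : S → X → ℝ := fun s x =>
    G.c₂ x s - a x + G.β / (u + 2) - φ₀ s - κ s * G.b.v (G.b.pr x) with hψ'
  set ψ : S → X → ℝ := fun s x => if s ∈ Gs ∧ |ψ' s x| ≤ K * lam then ψ' s x / (K * lam) else 0
    with hψ
  set At : S → T → ℝ := fun s t => G.A s (G.box.τ t) + (u + 2) * φ₀ s + κ s * G.Lg d s t with hAt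
  set g : S → Fin Nc × Fin Nc → ℝ := fun s c => if s ∈ Gs then At s (pt c) / (K * lam) else 0
    with hg
  have hf1 : ∀ t x, |f t x| ≤ 1 := fun t x => by
    simp only [hf]
    split_ifs with h1
    · exact hdiv _ (h1.2.trans hlΛ)
    · simp
  have hfa : ∀ t x, f t (G.b.ι x) = -f t x := fun t x => by
    simp only [hf]
    by_cases h1 : G.σT.on x t
    · have h2 : G.c₁ (G.b.ι x) t - a (G.b.ι x) = -(G.c₁ x t - a x) := by
        rw [hG.anti x t h1, hPT.1]; ring
      rw [h2, abs_neg]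
      by_cases h3 : |G.c₁ x t - a x| ≤ lam
      · rw [if_pos ⟨hG.box.inv x t h1, h3⟩, if_pos ⟨h1, h3⟩]; ring
      · rw [if_neg fun h => h3 h.2, if_neg fun h => h3 h.2]; ring
    · rw [if_neg fun h => h1 ((on_iota hb hG.box.inv x t).1 h.1), if_neg fun h => h1 h.1]; ring
  have hψ1 : ∀ s x, |ψ s x| ≤ 1 := fun s x => by
    simp only [hψ]
    split_ifs with h1
    · exact hdiv _ h1.2
    · simp
  have hg1 : ∀ s c, |g s c| ≤ 1 := fun s c => by
    simp only [hg]
    split_ifs with h1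
    · exact hdiv _ ((hG2 s (mem_inter.1 h1).2).2 _)
    · simp
  have hd : (u + 2) * ∑ s, G.σS.wt s * ∑ x, G.σS.m G.b s x * P1 G.b.N u (G.b.lev (G.b.pr x)) *
        (ψ s x - levMean (fun x => G.b.lev (G.b.pr x)) (G.σS.m G.b s) (ψ s)
          (G.b.lev (G.b.pr x))) ^ 2 ≤
      ∑ t, ∑ s, ∑ x, G.μ t s x * (∑ i, ψ s (x i) + g s (G.box.cell t)) ^ 2 + Ct * η := by
    have h1 : ∀ s, (u + 2) * (G.σS.wt s * ∑ x, G.σS.m G.b s x * P1 G.b.N u (G.b.lev (G.b.pr x)) *
        (ψ s x - levMean (fun x => G.b.lev (G.b.pr x)) (G.σS.m G.b s) (ψ s)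
          (G.b.lev (G.b.pr x))) ^ 2) ≤
        ∑ t, ∑ x, G.μ t s x * (∑ i, ψ s (x i) + g s (G.box.cell t)) ^ 2 + G.σS.wt s * η := by
      intro s
      by_cases hs : s ∈ Gs
      · have hs1 := (mem_inter.1 hs).1
        have hw := (hG1 s hs1).1
        have h2 := (hl s hs1).2.2.2.2 (ψ s) (g s) 1 (hψ1 s) (hg1 s)
        have h3 : 0 ≤ (∑ c, Form G.b.N u (levMean (fun x => G.b.lev (G.b.pr x)) (G.σS.m G.b s)
            (ψ s)) (g s c)) / Fintype.card (Fin Nc × Fin Nc) :=
          div_nonneg (Finset.sum_nonneg fun c _ => (hfe G.b.N hN _ _).1) (Nat.cast_nonneg _)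
        have h4 : G.σS.wt s * ∑ t, ∑ x, G.μ t s x / G.σS.wt s *
            (∑ i, ψ s (x i) + g s (G.box.cell t)) ^ 2 =
            ∑ t, ∑ x, G.μ t s x * (∑ i, ψ s (x i) + g s (G.box.cell t)) ^ 2 := by
          simp only [Finset.mul_sum univ _ (G.σS.wt s)]
          have := hw.ne'
          exact Finset.sum_congr rfl fun t _ => Finset.sum_congr rfl fun x _ => by field_simp
        rw [he3, one_pow, mul_one] at h2
        rw [← h4, ← mul_add, mul_left_comm]
        exact mul_le_mul_of_nonneg_left (by linarith) hw.le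
      · have h2 : ψ s = fun _ => 0 := by
          funext x; simp only [hψ]; rw [if_neg fun h => hs h.1]
        have h3 := mul_nonneg (hG.des.sS.nonneg s) hη0.le
        have h4 : 0 ≤ ∑ t, ∑ x, G.μ t s x * (∑ i, ψ s (x i) + g s (G.box.cell t)) ^ 2 :=
          Finset.sum_nonneg fun t _ => Finset.sum_nonneg fun x _ =>
            mul_nonneg (hG.des.mix.tup.nonneg t s x) (sq_nonneg _)
        refine le_trans (le_of_eq ?_) (add_nonneg h4 h3)
        rw [h2]
        simp [levMean]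
    have h2 := Finset.sum_le_sum (s := univ) fun s _ => h1 s
    rw [← Finset.mul_sum, Finset.sum_add_distrib, ← Finset.sum_mul, hG.des.sS.sum,
      Finset.sum_comm] at h2
    nlinarith
  have hcore := core hG.des hP1 (fun i hi => (hP2 i hi).1) hO hCt hT hη0 hη1 hεη
    (le_of_eq (by rw [he1]; field_simp)) hG.box.inv hf1 hfa hψ1 G.box.cell hg1 hd
  have hup := upper hG.des.mix.tup
    (fun t s x => ∑ i, f t (x i) - (∑ i, ψ s (x i) + g s (G.box.cell t))) (K := 2 * n + 1)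
    (o := CR / Nc) (fun t s x => by
      have h1 : |∑ i, f t (x i)| ≤ n := by
        refine (Finset.abs_sum_le_sum_abs _ _).trans
          ((Finset.sum_le_card_nsmul _ _ 1 fun i _ => hf1 t (x i)).trans (le_of_eq ?_))
        simp [hn]
      have h2 : |∑ i, ψ s (x i)| ≤ n := by
        refine (Finset.abs_sum_le_sum_abs _ _).trans
          ((Finset.sum_le_card_nsmul _ _ 1 fun i _ => hψ1 s (x i)).trans (le_of_eq ?_))
        simp [hn]
      have h3 := hg1 s (G.box.cell t)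
      rw [abs_le] at h1 h2 h3 ⊢
      constructor <;> linarith [h1.1, h1.2, h2.1, h2.2, h3.1, h3.2])
    Gs (fun t x => lam < |G.c₁ x t - a x|) (fun s x => K * lam < |ψ' s x|)
    (fun t s x h0 hs h1 h2 => by
      have e1 : ∑ i, f t (x i) = (∑ i, (G.c₁ (x i) t - a (x i))) / (K * lam) := by
        rw [Finset.sum_div]
        refine Finset.sum_congr rfl fun i _ => ?_
        simp only [hf]
        rw [if_pos ⟨((hG.des.mix.tup.supp t s x h0).1 i).1, not_lt.1 (h1 i)⟩]
      have e2 : ∑ i, ψ s (x i) = (∑ i, ψ' s (x i)) / (K * lam) := by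
        rw [Finset.sum_div]
        refine Finset.sum_congr rfl fun i _ => ?_
        simp only [hψ]
        rw [if_pos ⟨hs, not_lt.1 (h2 i)⟩]
      have e3 : ∑ i, (G.c₁ (x i) t - a (x i)) = ∑ i, ψ' s (x i) + At s t := by
        simp only [hψ', hAt, Finset.sum_sub_distrib, Finset.sum_add_distrib, ← Finset.mul_sum,
          hG.eqn t s x h0, hG.size t s x h0, Finset.sum_const, Finset.card_univ, Fintype.card_fin,
          nsmul_eq_mul]
        push_cast
        have : (u + 2 : ℝ) ≠ 0 := hn0.ne'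
        field_simp
        ring
      have e4 := osc hG hε1 hδ (hG2B s (mem_inter.1 hs).2) hΛ.le (hG2 s (mem_inter.1 hs).2).2
        (hpt (G.box.cell t)).symm
      simp only [hg]
      rw [e1, e2, e3, if_pos hs, ← add_div, ← sub_div, add_sub_add_left_eq_sub, abs_div,
        abs_of_pos hΛ, div_le_iff₀ hΛ]
      exact e4)
  have hsplit : ∀ A : Finset S, ∑ t, ∑ s ∈ A, ∑ x, G.μ t s x ≤
      η + 2 * ∑ s ∈ A ∩ G1, G.σS.wt s := by
    intro A
    have h1 := loc_sum (μ := G.μ) G.σS.wt (A ∩ G1) (fun _ _ _ => 1) (fun _ => 2) (fun s hs => by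
      have hs1 := (mem_inter.1 hs).2
      refine ⟨(hG1 s hs1).1, ?_⟩
      have := (abs_le.1 (hl s hs1).1).2
      simp only [mul_one]
      linarith)
    simp only [mul_one] at h1
    rw [← Finset.sum_mul] at h1
    have h2 : ∀ t, ∑ s ∈ A, ∑ x, G.μ t s x ≤
        ∑ s with s ∉ G1, ∑ x, G.μ t s x + ∑ s ∈ A ∩ G1, ∑ x, G.μ t s x := by
      intro t
      rw [← Finset.sum_inter_add_sum_sdiff A G1, add_comm]
      refine add_le_add_left (Finset.sum_le_sum_of_subset_of_nonneg ?_ fun s _ _ =>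
        Finset.sum_nonneg fun x _ => hG.des.mix.tup.nonneg t s x) _
      intro s hs
      exact mem_filter.2 ⟨mem_univ _, (mem_sdiff.1 hs).2⟩
    have h3 := Finset.sum_le_sum (s := univ) fun t _ => h2 t
    rw [Finset.sum_add_distrib] at h3
    linarith
  have m1 : ∑ t, ∑ s, ∑ x, G.μ t s x ≤ 3 := by
    have h1 := hsplit univ
    have h2 := wt_le hG.des.sS (univ ∩ G1) zero_le_one
    simp only [mul_one] at h2
    linarith
  have m2 : ∑ t, ∑ s with s ∉ Gs, ∑ x, G.μ t s x ≤ 3 * η := by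
    have h1 := hsplit (univ.filter fun s => s ∉ Gs)
    have h2 : ∑ s ∈ (univ.filter fun s => s ∉ Gs) ∩ G1, G.σS.wt s ≤ η := by
      refine le_trans (Finset.sum_le_sum_of_subset_of_nonneg ?_ fun s _ _ =>
        hG.des.sS.nonneg s) hG2w
      intro s hs
      obtain ⟨h3, h4⟩ := mem_inter.1 hs
      exact mem_filter.2 ⟨mem_univ _, fun h5 => (mem_filter.1 h3).2 (mem_inter.2 ⟨h4, h5⟩)⟩
    linarith
  have m3 : ∑ t, ∑ s, ∑ x, G.μ t s x * (if lam < |G.c₁ (x 0) t - a (x 0)| then 1 else 0) ≤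
      2 * Cc * h + η := by
    have h1 := one_mass hG.des hε1.le hO (fun i hi => (hP2 i hi).2)
      fun t x => lam < |G.c₁ x t - a x|
    have h2 := mul_le_mul_of_nonneg_left hPT.2 (show 0 ≤ 2 * Cc by positivity)
    have h3 : e1 ≤ η := div_le_self hη0.le (le_add_of_nonneg_right (Nat.cast_nonneg _))
    exact h1.trans (add_le_add h2 h3)
  have m4 : ∑ t, ∑ s ∈ Gs, ∑ x, G.μ t s x * (if K * lam < |ψ' s (x 0)| then 1 else 0) ≤
      CL * (K * h + η) + η := by
    refine (loc_sum G.σS.wt Gs _ (fun _ => CL * (K * h + η) + η) fun s hs => ?_).trans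
      (wt_le hG.des.sS Gs (by positivity))
    obtain ⟨hs1, hs2⟩ := mem_inter.1 hs
    refine ⟨(hG1 s hs1).1, ?_⟩
    have h1 := ((hl s hs1).2.2.1 fun x => K * lam < |ψ' s x|).1
    have h2 := mul_le_mul_of_nonneg_left (hG2 s hs2).1 (show 0 ≤ CL by positivity)
    rw [mul_div_assoc] at h1
    simp only [mul_ite, mul_one, mul_zero, ← Finset.sum_filter]
    exact h1.trans (add_le_add h2 he2)
  set V := ∑ t, ∑ x, G.σT.flag G.b x t * (f t x - bar G.b G.σT f x) ^ 2 with hV
  set w : ℝ := h + 1 / (Nc : ℝ) ^ 2 + ε' with hw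
  have hNc2 : (0 : ℝ) ≤ 1 / (Nc : ℝ) ^ 2 := by positivity
  have w1 : h ≤ w := by linarith
  have w2 : 1 / (Nc : ℝ) ^ 2 ≤ w := by linarith
  have w3 : η ≤ w := by linarith
  have hVw : V ≤ C1 * w := by
    have k1 : (CR / Nc) ^ 2 * ∑ t, ∑ s, ∑ x, G.μ t s x ≤ 3 * CR ^ 2 * w := by
      calc _ ≤ (CR / Nc) ^ 2 * 3 := mul_le_mul_of_nonneg_left m1 (sq_nonneg _)
        _ = 3 * CR ^ 2 * (1 / (Nc : ℝ) ^ 2) := by ring
        _ ≤ _ := mul_le_mul_of_nonneg_left w2 (by positivity)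
    have k3 : 2 * Cc * h + η ≤ (2 * Cc + 1) * w := by
      have := mul_le_mul_of_nonneg_left w1 (show 0 ≤ 2 * Cc by positivity)
      linarith
    have k4 : CL * (K * h + η) + η ≤ (CL * K + CL + 1) * w := by
      have := mul_le_mul_of_nonneg_left w1 (show 0 ≤ CL * K by positivity)
      have := mul_le_mul_of_nonneg_left w3 (show 0 ≤ CL by positivity)
      linarith
    have k5 := mul_le_mul_of_nonneg_left (add_le_add (add_le_add
      (m2.trans (show 3 * η ≤ 3 * w by linarith)) (mul_le_mul_of_nonneg_left (m3.trans k3) hn0.le))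
      (mul_le_mul_of_nonneg_left (m4.trans k4) hn0.le)) (sq_nonneg (2 * n + 1))
    have k6 := mul_le_mul_of_nonneg_left w3 (show 0 ≤ 50 * n ^ 2 * Ct by positivity)
    rw [hC1, div_mul_eq_mul_div, le_div_iff₀ (by positivity)]
    have k7 := hup.trans (add_le_add k1 k5)
    rw [← hn] at hcore
    linarith
  refine ⟨fun x => a x + K * lam * bar G.b G.σT f x, fun x => ?_, ?_⟩
  · simp only [hPT.1, bar_anti hb hG.box.inv hfa]; ring
  have hθ2 : 0 < θ ^ 2 := by positivity
  calc _ ≤ ∑ t, ∑ x with lam < |G.c₁ x t - a x|, G.σT.flag G.b x t + V * (K ^ 2 / θ ^ 2) := by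
        rw [hV, Finset.sum_mul, ← Finset.sum_add_distrib]
        refine Finset.sum_le_sum fun t _ => ?_
        rw [Finset.sum_filter, Finset.sum_filter, Finset.sum_mul, ← Finset.sum_add_distrib]
        refine Finset.sum_le_sum fun x _ => ?_
        have h1 := flag_nonneg hb hG.des.sT x t
        have h2 : 0 ≤ G.σT.flag G.b x t * (f t x - bar G.b G.σT f x) ^ 2 * (K ^ 2 / θ ^ 2) := by
          positivity
        split_ifs with h3 h4 h4
        · linarith
        · by_cases h5 : G.σT.on x t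
          · have h6 : G.c₁ x t - (a x + K * lam * bar G.b G.σT f x) =
                lam * (K * (f t x - bar G.b G.σT f x)) := by
              have : f t x = (G.c₁ x t - a x) / (K * lam) := by
                simp only [hf]; rw [if_pos ⟨h5, not_lt.1 h4⟩]
              rw [this]; field_simp; ring
            rw [h6, abs_mul, abs_of_pos hlam, mul_comm θ, mul_lt_mul_iff_right₀ hlam] at h3
            have h7 : θ ^ 2 ≤ (K * (f t x - bar G.b G.σT f x)) ^ 2 := by
              rw [← sq_abs (K * _)]; exact pow_le_pow_left₀ hθ.le h3.le 2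
            rw [zero_add, mul_assoc]
            refine le_mul_of_one_le_right h1 ?_
            rw [← mul_div_assoc, le_div_iff₀ hθ2]
            linarith [mul_pow K (f t x - bar G.b G.σT f x) 2]
          · have : G.σT.flag G.b x t = 0 := by simp [Side.flag, Side.m, h5]
            rw [this]; simp
        · linarith
        · linarith
    _ ≤ w / θ ^ 2 + C1 * w * (K ^ 2 / θ ^ 2) := by
        refine add_le_add (hPT.2.trans (w1.trans ?_))
          (mul_le_mul_of_nonneg_right hVw (by positivity))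
        rw [le_div_iff₀ hθ2]
        exact mul_le_of_le_one_right (hh0.trans w1) (pow_le_one₀ hθ.le hθ1)
    _ = _ := by ring

end Pool.Agent.P.MP_b8021b_nt.KR.PBR
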