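import Pool.Agent.P.MP_b8021b_nt.KR.PBR2
import Pool.Agent.P.MP_b8021b_nt.KR.PBR3
import Pool.Agent.P.MP_b8021b_nt.VC.BAll

/-! Part B with a Remez inequality off a small set of sections: the iteration. -/

namespace Pool.Agent.P.MP_b8021b_nt.KR

open Pool.Agent.P.MP_b8021b_nt.VE Pool.Agent.P.MP_b8021b_nt.VC Pool.Agent.P.MP_b8021b_nt.VC.B
open Polynomial Finset
open scoped Classical

namespace PBR

variable {kp CR δ : ℝ}

open Rig in
theorem rig (hSA : SA kp CR δ) (hTail : Tl kp CR δ) (hContr : Ct kp CR δ) (u d NR : ℕ)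
    (hu : 6 ≤ u) : ∃ (Nc : ℕ) (ε : ℝ), NR ≤ Nc ∧ 1 ≤ Nc ∧
    0 < ε ∧ ∀ (P X T S : Type) [Fintype P] [Fintype X] [Fintype T] [Fintype S]
      (G : Sys P X T S Nc u) (Bad : Finset S), OkR G kp d CR δ Bad ε →
      (∀ e, ∃ t, G.box.cell t = e) ∧ ∀ lam : ℝ, 0 < lam → ∃ s ∉ Bad, ∃ φ₀ k : ℝ,
        ∀ t, |G.A s (G.box.τ t) + φ₀ + k * G.Lg d s t| ≤ lam := by
  obtain ⟨CS, hS, NS, CS1, hS0, hSA⟩ := hSA u d hu
  obtain ⟨CT, hT, NT, CT1, hT0, hTail⟩ := hTail u d hu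
  obtain ⟨CC, hC, NC, CC1, hC0, hContr⟩ := hContr u d hu
  obtain ⟨K, hKd⟩ : ∃ K : ℝ, K = 4 * CC * CT ^ 2 := ⟨_, rfl⟩
  have K1 : 1 ≤ K := by rw [hKd]; nlinarith [one_le_pow₀ CT1 (n := 2)]
  obtain ⟨h, h0, hh⟩ := small (ι := Fin 4) ![1, 1, 1, 4 * K * CT] ![hS, hT, hC, 1]
  have a1 : h < hS := by simpa using hh 0 hS0
  have a2 : h < hT := by simpa using hh 1 hT0
  have a3 : h < hC := by simpa using hh 2 hC0
  have a4 : 4 * K * CT * h < 1 := by simpa using hh 3 one_pos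
  obtain ⟨Nc, hNc⟩ : ∃ Nc, NR + NS + NT + NC + ⌈2 * K / h⌉₊ + 1 ≤ Nc := ⟨_, le_rfl⟩
  have e1 : 0 < h / (8 * K) := by positivity
  obtain ⟨εS, εS0, hSA⟩ := hSA Nc (by omega) (1 / 2) one_half_pos
  obtain ⟨εT, εT0, hTail⟩ := hTail Nc (by omega) _ e1
  obtain ⟨εC, εC0, hContr⟩ := hContr Nc (by omega) _ e1
  refine ⟨Nc, min (min εS εT) (min εC (1 / 2)), by omega, by omega, by positivity, ?_⟩
  intro P X T S _ _ _ _ G Bad hG
  have hhalf : min (min εS εT) (min εC (1 / 2)) ≤ 1 / 2 := (min_le_right _ _).trans (min_le_right _ _)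
  have hSA := hSA P X T S G Bad (PBR.ok_mono hG ((min_le_left _ _).trans (min_le_left _ _)))
  have hTail := hTail P X T S G Bad (PBR.ok_mono hG ((min_le_left _ _).trans (min_le_right _ _)))
  have hContr := hContr P X T S G Bad (PBR.ok_mono hG ((min_le_right _ _).trans (min_le_left _ _)))
  have hN1 : (1 : ℝ) ≤ Nc := by exact_mod_cast (show 1 ≤ Nc by omega)
  have hN2 : 2 * K / h ≤ Nc :=
    (Nat.le_ceil _).trans (by exact_mod_cast (show ⌈2 * K / h⌉₊ ≤ Nc by omega))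
  have c1 : K * (CT * h ^ 2) ≤ h / 4 := by nlinarith
  have c2 : K * (h / (8 * K)) = h / 8 := by field_simp
  have c3 : K * (1 / (Nc : ℝ) ^ 2) ≤ h / 2 := by
    rw [div_le_iff₀ h0] at hN2
    rw [mul_one_div, div_le_iff₀ (by positivity)]
    nlinarith [mul_le_mul_of_nonneg_left hN1 (show 0 ≤ h * Nc by positivity)]
  have c4 : CT * h ^ 2 + h / (8 * K) ≤ hC := by
    have : 0 ≤ CT * h ^ 2 + h / (8 * K) := by positivity
    nlinarith
  have step : ∀ a lam, 0 < lam → G.PT a lam h → ∃ a', G.PT a' (lam / 2) h := by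
    intro a lam l0 hP
    obtain ⟨a', h1⟩ := hTail a lam h l0 a2.le hP
    obtain ⟨a'', h2, h3⟩ := hContr a' (CT * lam) _ (1 / (2 * CT)) (by positivity) c4
      (by positivity) (by rw [div_le_one (by positivity)]; linarith) h1
    rw [show 1 / (2 * CT) * (CT * lam) = lam / 2 by field_simp] at h3
    refine ⟨a'', h2, h3.trans ?_⟩
    rw [show CC * (CT * h ^ 2 + h / (8 * K) + 1 / (Nc : ℝ) ^ 2 + h / (8 * K)) /
      (1 / (2 * CT)) ^ 2 = K * (CT * h ^ 2) + K * (h / (8 * K)) + K * (1 / (Nc : ℝ) ^ 2) +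
        K * (h / (8 * K)) from ?_]
    · linarith
    · generalize h / (8 * K) = z
      rw [hKd]
      field_simp
      ring
  obtain ⟨l₀, l0, hl⟩ := start G h0.le
  have iter : ∀ k : ℕ, ∃ a, G.PT a (l₀ * (1 / 2) ^ k) h := by
    intro k
    induction k with
    | zero => exact ⟨0, by simpa using hl⟩
    | succ k ih =>
      obtain ⟨a, ha⟩ := ih
      obtain ⟨a', ha'⟩ := step a _ (by positivity) ha
      exact ⟨a', by rwa [show l₀ * (1 / 2) ^ (k + 1) = l₀ * (1 / 2) ^ k / 2 by ring]⟩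
  refine ⟨Contr.cell_surj hG.des.base hG.box.cell (hhalf.trans_lt one_half_lt_one),
    fun lam hlam => ?_⟩
  have CS0 : 0 < CS := by linarith
  obtain ⟨k, hk⟩ := exists_pow_lt_of_lt_one (div_pos hlam (mul_pos CS0 l0))
    (show (1 / 2 : ℝ) < 1 by norm_num)
  obtain ⟨a, ha⟩ := iter k
  obtain ⟨Gd, g1, g2, g3⟩ := hSA a _ h (by positivity) a1.le ha
  obtain ⟨s, hs⟩ : ∃ s, s ∈ Gd := by
    by_contra hn
    push Not at hn
    rw [filter_true_of_mem fun s _ => hn s, hG.des.sS.sum] at g1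
    norm_num at g1
  obtain ⟨φ₀, κ, -, g4⟩ := g3 s hs
  refine ⟨s, g2 s hs, (u + 2) * φ₀, κ, fun t => (g4 t).trans ?_⟩
  rw [lt_div_iff₀ (mul_pos CS0 l0)] at hk
  nlinarith

end PBR

theorem p_bR : S_BR := by
  intro kp CR δ u d N₀ hu hCR hδ
  by_cases hk : 1 ≤ kp
  swap
  · exact ⟨N₀ + 1, 1, by omega, by omega, one_pos,
      fun _ _ _ _ _ _ _ _ _ _ hG => absurd hG.des.base.one_le hk⟩
  have hCnt := p_cntP
  have hFE := p_fe hCnt
  have hL2 := p_l2 hCnt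
  have hTK := B.p_tk hk
  have hOne := B.p_one hk hCnt hTK
  have hCond := B.p_cond hk hCnt hTK
  have hLoc := B.p_loc hk hCnt hTK
  have hSA := PBR.sa hCR hδ hCond hLoc (p_locS hCnt hFE hL2)
  exact PBR.rig hSA (PBR.tl hCnt hTK hOne hCond hLoc hL2 (p_locT hCnt hFE hL2) hSA)
    (PBR.ct hk hδ hCnt hTK hOne hLoc hFE hL2 hSA) u d N₀ hu

end Pool.Agent.P.MP_b8021b_nt.KR
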