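import Pool.Agent.P.MP_b8021b_nt.KR.St

/-! The Bloch-Wigner function. -/

namespace Pool.Agent.P.MP_b8021b_nt.KR

namespace PBW

open Complex Filter Topology

theorem re_fd {g : ℂ → ℂ} {g' z : ℂ} (h : HasDerivAt g g' z) :
    HasFDerivAt (fun w => (g w).re) (reCLM.comp (ContinuousLinearMap.mul ℝ ℂ g')) z := by
  refine (reCLM.hasFDerivAt.comp z (h.hasFDerivAt.restrictScalars ℝ)).congr_fderiv ?_
  ext v
  simp
  ring

theorem im_fd {g : ℂ → ℂ} {g' z : ℂ} (h : HasDerivAt g g' z) :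
    HasFDerivAt (fun w => (g w).im) (imCLM.comp (ContinuousLinearMap.mul ℝ ℂ g')) z := by
  refine (imCLM.hasFDerivAt.comp z (h.hasFDerivAt.restrictScalars ℝ)).congr_fderiv ?_
  ext v
  simp
  ring

theorem lognorm_fd {z : ℂ} (hz : z ≠ 0) :
    HasFDerivAt (fun w : ℂ => Real.log ‖w‖) (reCLM.comp (ContinuousLinearMap.mul ℝ ℂ z⁻¹)) z := by
  have h1 : HasDerivAt (fun w : ℂ => log (w / z)) z⁻¹ z := by
    have := ((hasDerivAt_id z).div_const z).clog (by simp [div_self hz])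
    simpa [div_self hz] using this
  refine ((re_fd h1).const_add (Real.log ‖z‖)).congr_of_eventuallyEq ?_
  filter_upwards [isOpen_ne.mem_nhds hz] with w hw
  rw [log_re, norm_div, Real.log_div (norm_ne_zero_iff.2 hw) (norm_ne_zero_iff.2 hz)]
  ring

/-- the differential of the Bloch-Wigner function -/
noncomputable def eta (z : ℂ) : ℂ →L[ℝ] ℝ :=
  Real.log ‖z‖ • imCLM.comp (ContinuousLinearMap.mul ℝ ℂ (-(1 - z)⁻¹)) -
    Real.log ‖1 - z‖ • imCLM.comp (ContinuousLinearMap.mul ℝ ℂ z⁻¹)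

theorem eta_apply (z v : ℂ) :
    eta z v = Real.log ‖z‖ * (-(1 - z)⁻¹ * v).im - Real.log ‖1 - z‖ * (z⁻¹ * v).im := rfl

theorem mem_ball {z : ℂ} (h : 1 / 4 < (1 - z)⁻¹.re) : z ∈ Metric.ball (-1 : ℂ) 2 := by
  have h1 : 1 - z ≠ 0 := fun e => by rw [e] at h; norm_num at h
  have h2 := normSq_pos.2 h1
  rw [inv_re, lt_div_iff₀ h2, normSq_apply] at h
  rw [Metric.mem_ball, dist_eq_norm, ← sq_lt_sq₀ (norm_nonneg _) (by norm_num), Complex.sq_norm,
    normSq_apply]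
  simp only [sub_re, sub_im, one_re, one_im, neg_re, neg_im] at h ⊢
  nlinarith

theorem slit {z : ℂ} (h : z ∈ Metric.ball (-1 : ℂ) 2) : 1 - z ∈ slitPlane := by
  rw [Metric.mem_ball, dist_eq_norm] at h
  have := (re_le_norm _).trans_lt h
  simp only [sub_re, neg_re, one_re] at this
  exact Or.inl (by simp only [sub_re, one_re]; linarith)

theorem log_d {z : ℂ} (h : z ∈ Metric.ball (-1 : ℂ) 2) :
    HasDerivAt (fun w : ℂ => log (1 - w)) (-(1 - z)⁻¹) z := by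
  have := ((hasDerivAt_id z).const_sub 1).clog (slit h)
  simpa [neg_div] using this

theorem exists_D0 : ∃ D : ℂ → ℝ, ∀ z : ℂ, 1 / 4 < (1 - z)⁻¹.re → z ≠ 0 → HasFDerivAt D (eta z) z := by
  have h0 : DifferentiableOn ℂ (dslope (fun w : ℂ => log (1 - w)) 0) (Metric.ball (-1 : ℂ) 2) :=
    (differentiableOn_dslope (Metric.isOpen_ball.mem_nhds (by simp))).2
      fun z hz => (log_d hz).differentiableAt.differentiableWithinAt
  obtain ⟨L, hL⟩ := h0.isExactOn_ball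
  refine ⟨fun w => (log (1 - w)).im * Real.log ‖w‖ - (L w).im, fun z hz h => ?_⟩
  have hb := mem_ball hz
  refine (((im_fd (log_d hb)).mul (lognorm_fd h)).sub (im_fd (hL z hb))).congr_fderiv ?_
  refine ContinuousLinearMap.ext fun v => ?_
  have e : dslope (fun w : ℂ => log (1 - w)) 0 z = log (1 - z) * z⁻¹ := by
    rw [dslope_of_ne _ h, slope_def_field]
    simp [div_eq_mul_inv]
  rw [eta_apply, e, ← log_re (1 - z)]
  simp only [sub_apply, add_apply,
    smul_apply, ContinuousLinearMap.comp_apply, ContinuousLinearMap.mul_apply',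
    imCLM_apply, reCLM_apply, smul_eq_mul, mul_assoc, mul_im (log (1 - z))]
  ring

theorem inv_fd {D : ℂ → ℝ} {z : ℂ} (h0 : z ≠ 0) (h1 : 1 - z ≠ 0)
    (h : HasFDerivAt D (eta z⁻¹) z⁻¹) : HasFDerivAt (fun w => -D w⁻¹) (eta z) z := by
  refine (h.comp z ((hasDerivAt_inv h0).hasFDerivAt.restrictScalars ℝ)).neg.congr_fderiv ?_
  refine ContinuousLinearMap.ext fun v => ?_
  have e1 : (1 : ℂ) - z⁻¹ = -((1 - z) / z) := by field_simp; ring
  have e2 : -(1 - z⁻¹)⁻¹ * (v * -(z ^ 2)⁻¹) = -(1 - z)⁻¹ * v - z⁻¹ * v := by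
    rw [e1]; field_simp; ring
  have e3 : z⁻¹⁻¹ * (v * -(z ^ 2)⁻¹) = -(z⁻¹ * v) := by field_simp
  have e4 : Real.log ‖1 - z⁻¹‖ = Real.log ‖1 - z‖ - Real.log ‖z‖ := by
    rw [e1, norm_neg, norm_div, Real.log_div (norm_ne_zero_iff.2 h1) (norm_ne_zero_iff.2 h0)]
  have e5 : ((eta z⁻¹).comp (ContinuousLinearMap.restrictScalars ℝ
      (ContinuousLinearMap.toSpanSingleton ℂ (-(z ^ 2)⁻¹)))) v = eta z⁻¹ (v * -(z ^ 2)⁻¹) := rfl
  rw [neg_apply, e5, eta_apply, eta_apply, e2, e3, e4, norm_inv, Real.log_inv,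
    sub_im, neg_im]
  ring

theorem exists_D : ∃ D : ℂ → ℝ, ∀ z : ℂ, z ≠ 0 → 1 - z ≠ 0 → HasFDerivAt D (eta z) z := by
  obtain ⟨D0, h0⟩ := exists_D0
  have h1 : ∀ z : ℂ, z ≠ 0 → 1 - z ≠ 0 → (1 - z)⁻¹.re < 3 / 4 →
      HasFDerivAt (fun w => -D0 w⁻¹) (eta z) z := fun z a b c => by
    refine inv_fd a b (h0 _ ?_ (inv_ne_zero a))
    have b' : z - 1 ≠ 0 := fun e => b (by linear_combination -e)
    have e : (1 - z⁻¹)⁻¹ = 1 - (1 - z)⁻¹ := by field_simp; ring
    rw [e, sub_re, one_re]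
    linarith
  have hT : ∃ c, ∀ w ∈ {w : ℂ | 1 / 4 < w.re} ∩ {w : ℂ | w.re < 3 / 4},
      D0 (1 - w⁻¹) - -D0 (1 - w⁻¹)⁻¹ = c := by
    have key : ∀ w ∈ {w : ℂ | 1 / 4 < w.re} ∩ {w : ℂ | w.re < 3 / 4},
        HasFDerivAt (fun w : ℂ => D0 (1 - w⁻¹) - -D0 (1 - w⁻¹)⁻¹) (0 : ℂ →L[ℝ] ℝ) w := by
      rintro w ⟨a, b⟩
      simp only [Set.mem_ofPred_eq] at a b
      have w0 : w ≠ 0 := fun e => by rw [e] at a; norm_num at a
      have w1 : 1 - w⁻¹ ≠ 0 := fun e => by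
        rw [inv_eq_one.1 (sub_eq_zero.1 e).symm] at b; norm_num at b
      have e : (1 - (1 - w⁻¹))⁻¹ = w := by simp
      have d := (h0 (1 - w⁻¹) (by rwa [e]) w1).sub
        (h1 (1 - w⁻¹) w1 (by simpa using w0) (by rwa [e]))
      rw [sub_self] at d
      have d2 := d.comp w (((hasDerivAt_inv w0).const_sub 1).hasFDerivAt.restrictScalars ℝ)
      rw [ContinuousLinearMap.zero_comp] at d2
      exact d2
    refine IsOpen.exists_is_const_of_fderiv_eq_zero (𝕜 := ℝ)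
      ((isOpen_lt continuous_const continuous_re).inter (isOpen_lt continuous_re continuous_const))
      ((convex_halfSpace_re_gt _).inter (convex_halfSpace_re_lt _)).isPreconnected
      (fun w hw => (key w hw).differentiableAt.differentiableWithinAt) fun w hw => (key w hw).fderiv
  obtain ⟨c, hc⟩ := hT
  have h2 : ∀ z : ℂ, 1 / 4 < (1 - z)⁻¹.re → (1 - z)⁻¹.re < 3 / 4 → D0 z = -D0 z⁻¹ + c :=
    fun z a b => by
      have := hc _ ⟨a, b⟩
      rw [inv_inv, sub_sub_cancel] at this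
      linarith
  refine ⟨fun z => if 1 / 2 < (1 - z)⁻¹.re then D0 z else -D0 z⁻¹ + c, fun z a b => ?_⟩
  have hr : ContinuousAt (fun w : ℂ => (1 - w)⁻¹.re) z :=
    continuous_re.continuousAt.comp ((continuousAt_const.sub continuousAt_id).inv₀ b)
  rcases lt_or_ge (1 / 4) (1 - z)⁻¹.re with h | h
  · refine (h0 z h a).congr_of_eventuallyEq ?_
    filter_upwards [continuousAt_const.eventually_lt hr h] with w hw
    split_ifs with h'
    · rfl
    · exact (h2 w hw (by linarith)).symm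
  · have h3 : (1 - z)⁻¹.re < 3 / 4 := by linarith
    refine ((h1 z a b h3).add_const c).congr_of_eventuallyEq ?_
    filter_upwards [hr.eventually_lt continuousAt_const h3] with w hw
    split_ifs with h'
    · exact h2 w (by linarith) hw
    · rfl

end PBW

theorem p_bW : S_BW := by
  obtain ⟨D, hD⟩ := PBW.exists_D
  refine ⟨D, fun f f' t hf h0 h1 => ?_⟩
  refine ((hD (f t) h0 (sub_ne_zero.2 h1.symm)).comp_hasDerivAt t hf).congr_deriv ?_
  rw [PBW.eta_apply, neg_div, div_eq_inv_mul, div_eq_inv_mul, neg_mul]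

end Pool.Agent.P.MP_b8021b_nt.KR
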