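import Pool.Agent.P.MP_b8021b_nt.KR.St
import Pool.Agent.P.MP_b8021b_nt.VE.BasicS

/-! Growth of the coefficient of a regular form. -/

namespace Pool.Agent.P.MP_b8021b_nt.KR

open Polynomial Finset Pool.Agent.P.MP_b8021b_nt.VE Pool.Agent.P.MP_b8021b_nt.VC
open scoped Classical

namespace PBnd

variable {F : Type} [Field F] [CharZero F]

theorem bd_adj (f : F) (R : ℝ) {a : F} (ha : a ∈ Algebra.adjoin ℚ {f}) :
    ∃ C : ℝ, 0 ≤ C ∧ ∀ j : F →+* ℂ, ‖j f‖ ≤ R → ‖j a‖ ≤ C := by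
  induction ha using Algebra.adjoin_induction with
  | mem x hx =>
    obtain rfl : x = f := hx
    exact ⟨|R|, abs_nonneg R, fun j hj => hj.trans (le_abs_self R)⟩
  | algebraMap q =>
    exact ⟨‖(q : ℂ)‖, norm_nonneg _, fun j _ => by rw [eq_ratCast, map_ratCast]⟩
  | add x y _ _ hx hy =>
    obtain ⟨C, h0, h1⟩ := hx
    obtain ⟨D, k0, k1⟩ := hy
    exact ⟨C + D, add_nonneg h0 k0, fun j hj => by
      rw [map_add]
      exact (norm_add_le _ _).trans (add_le_add (h1 j hj) (k1 j hj))⟩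
  | mul x y _ _ hx hy =>
    obtain ⟨C, h0, h1⟩ := hx
    obtain ⟨D, k0, k1⟩ := hy
    exact ⟨C * D, mul_nonneg h0 k0, fun j hj => by
      rw [map_mul, norm_mul]
      exact mul_le_mul (h1 j hj) (k1 j hj) (norm_nonneg _) h0⟩

theorem root_bd {z : ℂ} {n : ℕ} {c : ℕ → ℂ} {C : ℕ → ℝ} (hC : ∀ i, 0 ≤ C i)
    (hc : ∀ i, ‖c i‖ ≤ C i) (h : z ^ n + ∑ i ∈ range n, c i * z ^ i = 0) :
    ‖z‖ ≤ 1 + ∑ i ∈ range n, C i := by
  have hs : 0 ≤ ∑ i ∈ range n, C i := sum_nonneg fun i _ => hC i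
  by_contra hz
  have h1 : 1 ≤ ‖z‖ := by linarith [not_le.1 hz]
  cases n with
  | zero => simp at h
  | succ m =>
    have h2 : ‖z‖ ^ (m + 1) ≤ (∑ i ∈ range (m + 1), C i) * ‖z‖ ^ m := by
      rw [← norm_pow, eq_neg_of_add_eq_zero_left h, norm_neg, sum_mul]
      refine (norm_sum_le _ _).trans (sum_le_sum fun i hi => ?_)
      rw [norm_mul, norm_pow]
      exact mul_le_mul (hc i) (pow_le_pow_right₀ h1 (Nat.lt_succ_iff.1 (mem_range.1 hi)))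
        (by positivity) (hC i)
    rw [pow_succ'] at h2
    have h3 := le_of_mul_le_mul_right h2 (by positivity)
    linarith [not_le.1 hz]

theorem bd_int (f : F) (R : ℝ) {a : F} (ha : IsIntegral (Algebra.adjoin ℚ {f}) a) :
    ∃ C : ℝ, 0 ≤ C ∧ ∀ j : F →+* ℂ, ‖j f‖ ≤ R → ‖j a‖ ≤ C := by
  obtain ⟨P, hP, h0⟩ := ha
  choose C h1 h2 using fun i => bd_adj f R (P.coeff i).2
  refine ⟨1 + ∑ i ∈ range P.natDegree, C i,
    add_nonneg zero_le_one (sum_nonneg fun i _ => h1 i), fun j hj =>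
      root_bd (c := fun i => j (P.coeff i)) h1 (fun i => h2 i j hj) ?_⟩
  rw [eval₂_eq_sum_range, sum_range_succ, hP.coeff_natDegree, map_one, one_mul, add_comm] at h0
  simpa using congrArg j h0

theorem val_aeval (p : GPt F) {f : F} {c : Qb} (h : p.Val f c) (g : ℚ[X]) :
    p.Val (aeval f g) (aeval c g) :=
  p.val_eval₂ (fun q => p.val_rat q) h g

theorem mem_aeval (p : GPt F) {f : F} (h : f ∈ p.v.valuationSubring) (g : ℚ[X]) :
    aeval f g ∈ p.v.valuationSubring := by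
  obtain ⟨c, hc⟩ := p.exists_val h
  exact (val_aeval p hc g).mem

theorem ne_aeval {f : F} (hf : Transcendental ℚ f) {g : ℚ[X]} (hg : g ≠ 0) : aeval f g ≠ 0 :=
  fun h => hf ⟨g, hg, h⟩

/-- clearing the pole at one point -/
theorem clear_one {φ f : F} (hf : Transcendental ℚ f) (hφ : φ ≠ 0) (b : ℂ) (p : GPt F) :
    ∃ g : ℚ[X], aeval b g ≠ 0 ∧ (f ∈ p.v.valuationSubring →
      ¬ p.Val (aeval f (minpoly ℚ b)) 0 → φ * aeval f g ∈ p.v.valuationSubring) := by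
  by_cases h : f ∈ p.v.valuationSubring ∧ ¬ p.Val (aeval f (minpoly ℚ b)) 0
  swap
  · exact ⟨1, by simp, fun h1 h2 => absurd ⟨h1, h2⟩ h⟩
  obtain ⟨c, hc⟩ := p.exists_val h.1
  have hi : IsIntegral ℚ c := ((AlgebraicClosure.isAlgebraic ℚ).isAlgebraic c).isIntegral
  have h0 := ne_aeval hf (minpoly.ne_zero hi)
  have h1 : 0 < p.ord (aeval f (minpoly ℚ c)) :=
    GPt.Val.ord_pos (by simpa using val_aeval p hc (minpoly ℚ c)) h0
  refine ⟨minpoly ℚ c ^ (-p.ord φ).toNat, ?_, fun _ _ => ?_⟩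
  · rw [map_pow]
    refine pow_ne_zero _ fun e => h.2 ?_
    rw [← minpoly.eq_of_irreducible_of_monic (minpoly.irreducible hi) e (minpoly.monic hi)]
    simpa using val_aeval p hc (minpoly ℚ c)
  · rw [map_pow, ← p.ord_nonneg_iff (mul_ne_zero hφ (pow_ne_zero _ h0)),
      p.ord_mul hφ (pow_ne_zero _ h0), p.ord_pow]
    have h2 := Int.self_le_toNat (-p.ord φ)
    nlinarith [Int.natCast_nonneg (-p.ord φ).toNat]

/-- clearing all poles -/
theorem clear (hF : VC.S_Fin) (hC : IsCurve F) {φ f : F} (hf : Transcendental ℚ f) (hφ : φ ≠ 0)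
    (b : ℂ) : ∃ G : ℚ[X], aeval b G ≠ 0 ∧ ∀ p : GPt F, f ∈ p.v.valuationSubring →
      ¬ p.Val (aeval f (minpoly ℚ b)) 0 → φ * aeval f G ∈ p.v.valuationSubring := by
  choose g g1 g2 using clear_one hf hφ b
  have hS := (hF F hC).1 φ hφ
  refine ⟨∏ p ∈ hS.toFinset, g p, ?_, fun p h1 h2 => ?_⟩
  · rw [map_prod]
    exact prod_ne_zero_iff.2 fun p _ => g1 p
  · by_cases hp : p ∈ hS.toFinset
    · rw [← mul_prod_erase _ _ hp, map_mul, ← mul_assoc]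
      exact mul_mem (g2 p h1 h2) (mem_aeval p h1 _)
    · refine mul_mem ((p.ord_nonneg_iff hφ).1 (le_of_eq ?_)) (mem_aeval p h1 _)
      by_contra e
      exact hp (hS.mem_toFinset.2 fun e' => e e'.symm)

/-- a power of the cleared function is divisible by the minimal polynomial -/
theorem integral (hI : S_Int) (hF : VC.S_Fin) (hC : IsCurve F) {φ f : F}
    (hf : Transcendental ℚ f) (hφ : φ ≠ 0) {b : ℂ} (hb : IsIntegral ℚ b)
    (h : ∀ p : GPt F, p.Val (aeval f (minpoly ℚ b)) 0 → p.Val (φ * aeval f (minpoly ℚ b)) 0) :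
    ∃ (G : ℚ[X]) (N : ℕ), aeval b G ≠ 0 ∧ 1 ≤ N ∧ IsIntegral (Algebra.adjoin ℚ {f})
      ((φ * aeval f (minpoly ℚ b) * aeval f G) ^ N / aeval f (minpoly ℚ b)) := by
  obtain ⟨G, G1, G2⟩ := clear hF hC hf hφ b
  have h0 := ne_aeval hf (minpoly.ne_zero hb)
  have hG : aeval f G ≠ 0 := ne_aeval hf fun e => G1 (by rw [e, map_zero])
  obtain ⟨M, hM⟩ := (((hF F hC).1 _ h0).image fun p => p.ord (aeval f (minpoly ℚ b))).bddAbove
  refine ⟨G, M.toNat + 1, G1, by omega, hI F hC f _ hf fun p hp => ?_⟩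
  have h1 := mul_ne_zero (mul_ne_zero hφ h0) hG
  rw [← p.ord_nonneg_iff (div_ne_zero (pow_ne_zero _ h1) h0), p.ord_div (pow_ne_zero _ h1) h0,
    p.ord_pow]
  by_cases hv : p.Val (aeval f (minpoly ℚ b)) 0
  · have a1 := (h p hv).ord_pos (mul_ne_zero hφ h0)
    have a2 := p.ord_nonneg (mem_aeval p hp G)
    have a3 : p.ord (aeval f (minpoly ℚ b)) ≤ M := hM ⟨p, (hv.ord_pos h0).ne', rfl⟩
    have a4 := Int.self_le_toNat M
    rw [p.ord_mul (mul_ne_zero hφ h0) hG]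
    push_cast
    nlinarith [Int.natCast_nonneg M.toNat]
  · have a1 : p.ord (aeval f (minpoly ℚ b)) = 0 :=
      le_antisymm (not_lt.1 fun e => hv (p.val_zero_of_ord_pos e)) (p.ord_nonneg (mem_aeval p hp _))
    have a2 := p.ord_nonneg (G2 p hp hv)
    rw [a1, sub_zero, mul_right_comm, p.ord_mul (mul_ne_zero hφ hG) h0, a1, add_zero]
    positivity

theorem near {b : ℂ} (hb : IsIntegral ℚ b) {G : ℚ[X]} (hG : aeval b G ≠ 0) :
    ∃ ρ c : ℝ, 0 < ρ ∧ 0 < c ∧ ∀ x : ℂ, ‖x - b‖ ≤ ρ →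
      c * ‖x - b‖ ≤ ‖aeval x (minpoly ℚ b)‖ ∧ c ≤ ‖aeval x G‖ := by
  obtain ⟨Q, hQ⟩ : X - C b ∣ (minpoly ℚ b).map (algebraMap ℚ ℂ) := by
    rw [dvd_iff_isRoot, IsRoot, eval_map_algebraMap]
    exact minpoly.aeval ℚ b
  have h1 : Q.eval b ≠ 0 := by
    have h2 := (minpoly.irreducible hb).separable.aeval_derivative_ne_zero (minpoly.aeval ℚ b)
    rw [← eval_map_algebraMap, ← derivative_map, hQ] at h2
    simpa using h2
  have h3 : Continuous fun x : ℂ => min ‖Q.eval x‖ ‖aeval x G‖ :=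
    Q.continuous.norm.min G.continuous_aeval.norm
  have h4 : 0 < min ‖Q.eval b‖ ‖aeval b G‖ := lt_min (norm_pos_iff.2 h1) (norm_pos_iff.2 hG)
  obtain ⟨ρ, r0, r1⟩ := Metric.eventually_nhds_iff.1
    (h3.continuousAt.eventually (lt_mem_nhds (half_lt_self h4)))
  refine ⟨ρ / 2, _, half_pos r0, half_pos h4, fun x hx => ?_⟩
  have h5 := (r1 (y := x) (by rw [dist_eq_norm]; linarith)).le
  refine ⟨?_, h5.trans (min_le_right _ _)⟩
  rw [← eval_map_algebraMap (minpoly ℚ b), hQ, eval_mul, norm_mul, mul_comm]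
  simp only [eval_sub, eval_X, eval_C]
  exact mul_le_mul_of_nonneg_left (h5.trans (min_le_left _ _)) (norm_nonneg _)

theorem map_aeval (j : F →+* ℂ) (f : F) (g : ℚ[X]) : j (aeval f g) = aeval (j f) g :=
  (aeval_algHom_apply j.toRatAlgHom f g).symm

theorem final {y P Gx u c C₀ : ℝ} {N : ℕ} (hN : 1 ≤ N) (hy : 0 ≤ y) (hu : 0 < u) (hc : 0 < c)
    (hC : 0 ≤ C₀) (h1 : c * u ≤ P) (h2 : c ≤ Gx) (h3 : (y * P * Gx) ^ N / P ≤ C₀) :
    y ≤ C₀ ^ (N : ℝ)⁻¹ * c ^ ((N : ℝ)⁻¹ - 1) / c * u ^ ((N : ℝ)⁻¹ - 1) := by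
  have hP : 0 < P := (mul_pos hc hu).trans_le h1
  have hG : 0 < Gx := hc.trans_le h2
  have hθ : (N : ℝ)⁻¹ - 1 ≤ 0 := sub_nonpos.2 (inv_le_one_of_one_le₀ (by exact_mod_cast hN))
  have a1 : y * P * Gx ≤ (C₀ * P) ^ (N : ℝ)⁻¹ := by
    rw [← Real.pow_rpow_inv_natCast (by positivity : 0 ≤ y * P * Gx) (by omega : N ≠ 0)]
    exact Real.rpow_le_rpow (by positivity) ((div_le_iff₀ hP).1 h3) (by positivity)
  have a2 : P ^ ((N : ℝ)⁻¹ - 1) ≤ (c * u) ^ ((N : ℝ)⁻¹ - 1) :=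
    Real.rpow_le_rpow_of_nonpos (mul_pos hc hu) h1 hθ
  rw [Real.mul_rpow hC hP.le] at a1
  rw [Real.mul_rpow hc.le hu.le, Real.rpow_sub_one hP.ne'] at a2
  have a3 : y * c ≤ C₀ ^ (N : ℝ)⁻¹ * (P ^ (N : ℝ)⁻¹ / P) := by
    rw [← mul_div_assoc, le_div_iff₀ hP]
    refine le_trans ?_ a1
    rw [mul_right_comm]
    exact mul_le_mul_of_nonneg_left h2 (by positivity)
  rw [div_mul_eq_mul_div, le_div_iff₀ hc, mul_assoc]
  exact a3.trans (mul_le_mul_of_nonneg_left a2 (by positivity))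

theorem loc (hI : S_Int) (hF : VC.S_Fin) (hC : IsCurve F) {φ f : F}
    (hf : Transcendental ℚ f) {b : ℂ} (hb : IsIntegral ℚ b)
    (h : ∀ p : GPt F, p.Val (aeval f (minpoly ℚ b)) 0 → p.Val (φ * aeval f (minpoly ℚ b)) 0) :
    ∃ ρ C θ : ℝ, 0 < ρ ∧ 0 ≤ C ∧ 0 < θ ∧ θ ≤ 1 ∧
      ∀ j : F →+* ℂ, ‖j f - b‖ ≤ ρ → ‖j φ‖ ≤ C * ‖j f - b‖ ^ (θ - 1) := by
  rcases eq_or_ne φ 0 with rfl | hφ
  · exact ⟨1, 0, 1, one_pos, le_rfl, one_pos, le_rfl, fun j _ => by simp⟩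
  obtain ⟨G, N, G1, hN, hi⟩ := integral hI hF hC hf hφ hb h
  obtain ⟨ρ, c, r0, c0, hn⟩ := near hb G1
  obtain ⟨C₀, C1, C2⟩ := bd_int f (‖b‖ + ρ) hi
  have hN' : (1 : ℝ) ≤ N := by exact_mod_cast hN
  refine ⟨ρ, C₀ ^ (N : ℝ)⁻¹ * c ^ ((N : ℝ)⁻¹ - 1) / c, (N : ℝ)⁻¹, r0, by positivity, by positivity,
    inv_le_one_of_one_le₀ hN', fun j hj => ?_⟩
  have h1 : j f ≠ b := fun e => ne_aeval hf (minpoly.ne_zero hb) (j.injective (by
    rw [map_aeval, e, minpoly.aeval, map_zero]))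
  have h2 := C2 j (by linarith [norm_sub_norm_le (j f) b])
  rw [map_div₀, map_pow, map_mul, map_mul, map_aeval, map_aeval, norm_div, norm_pow, norm_mul,
    norm_mul] at h2
  exact final hN (norm_nonneg _) (norm_pos_iff.2 (sub_ne_zero.2 h1)) c0 C1 (hn _ hj).1 (hn _ hj).2
    h2

end PBnd

theorem p_bnd (hI : S_Int) (hF : VC.S_Fin) : S_Bnd := by
  intro F _ _ hC φ f hf hR
  refine ⟨fun b hb => PBnd.loc hI hF hC hf hb.isIntegral fun p =>
    (hR p).2 _ (minpoly.ne_zero hb.isIntegral), ?_⟩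
  have h0 : f ≠ 0 := fun e => hf (e ▸ isAlgebraic_zero)
  obtain ⟨ρ, C, θ, r0, C0, t0, -, h⟩ := PBnd.loc (φ := φ * f ^ 2) (f := f⁻¹) (b := 0) hI hF hC
    (fun e => hf (IsAlgebraic.inv_iff.1 e)) isIntegral_zero fun p hp => by
      rw [minpoly.zero, aeval_X] at hp ⊢
      have h1 := hp.ord_pos (inv_ne_zero h0)
      rw [p.ord_inv] at h1
      rw [show φ * f ^ 2 * f⁻¹ = φ * f by field_simp]
      exact (hR p).1 (by omega)
  refine ⟨ρ⁻¹, C, θ, C0, t0, fun j hj => ?_⟩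
  have h1 : 0 < ‖j f‖ := (inv_pos.2 r0).trans_le hj
  have h2 := h j (by
    rw [sub_zero, map_inv₀, norm_inv]
    exact inv_le_of_inv_le₀ r0 hj)
  rw [sub_zero, map_inv₀, norm_inv, map_mul, map_pow, norm_mul, norm_pow, Real.inv_rpow h1.le,
    ← Real.rpow_neg h1.le] at h2
  refine le_of_mul_le_mul_right (h2.trans (le_of_eq ?_)) (pow_pos h1 2)
  rw [mul_assoc, ← Real.rpow_natCast, ← Real.rpow_add h1]
  congr 2
  push_cast
  ring

end Pool.Agent.P.MP_b8021b_nt.KR
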