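import Pool.Agent.P.MP_b8021b_nt.KR.St

/-! Local holomorphic branches of the complex embeddings of a function field. -/

namespace Pool.Agent.P.MP_b8021b_nt.KR

open Polynomial Finset Filter Topology Pool.Agent.P.MP_b8021b_nt.VE
open scoped Classical IntermediateField

namespace PBr

variable {F : Type} [Field F] [CharZero F]

theorem aeval_smooth (p : ℚ[X]) : ContDiff ℂ 1 fun x : ℂ => aeval x p := by
  have e : (fun x : ℂ => aeval x p) =
      fun x : ℂ => ∑ i ∈ range (p.natDegree + 1), p.coeff i • x ^ i :=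
    funext fun x => aeval_eq_sum_range x
  rw [e]
  exact ContDiff.sum fun i _ => (contDiff_id.pow i).const_smul _

theorem emb {K F : Type} [Field K] [Field F] [Algebra K F] [Algebra K ℂ] (f : F)
    (hf : Transcendental K f) (x : ℂ) (hx : Transcendental K x) :
    ∃ e : K⟮f⟯ →+* ℂ, e (IntermediateField.AdjoinSimple.gen K f) = x := by
  refine ⟨((K⟮x⟯.val.comp (RatFunc.algEquivOfTranscendental x hx).toAlgHom).comp
    (RatFunc.algEquivOfTranscendental f hf).symm.toAlgHom).toRingHom, ?_⟩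
  simp

theorem frac {K F : Type} [Field K] [Field F] [Algebra K F] (f : F) (hf : Transcendental K f)
    (a : K⟮f⟯) : ∃ q p : K[X], q ≠ 0 ∧ aeval (IntermediateField.AdjoinSimple.gen K f) q * a =
      aeval (IntermediateField.AdjoinSimple.gen K f) p := by
  obtain ⟨u, hu⟩ := (RatFunc.algEquivOfTranscendental f hf).surjective a
  refine ⟨u.denom, u.num, u.denom_ne_zero, ?_⟩
  rw [← hu, ← RatFunc.algEquivOfTranscendental_algebraMap f hf,
    ← RatFunc.algEquivOfTranscendental_algebraMap f hf, ← map_mul]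
  congr 1
  have h0 : algebraMap K[X] (RatFunc K) u.denom ≠ 0 :=
    RatFunc.algebraMap_ne_zero u.denom_ne_zero
  calc algebraMap K[X] (RatFunc K) u.denom * u
      = algebraMap K[X] (RatFunc K) u.denom *
        (algebraMap K[X] (RatFunc K) u.num / algebraMap K[X] (RatFunc K) u.denom) := by
        rw [RatFunc.num_div_denom]
    _ = _ := by field_simp

/-- an element of the rational function field as a function -/
theorem exists_ev (f : F) (hf : Transcendental ℚ f) (a : ℚ⟮f⟯) :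
    ∃ (D : ℚ[X]) (u : ℂ → ℂ), D ≠ 0 ∧ (∀ x : ℂ, aeval x D ≠ 0 → ContDiffAt ℂ 1 u x) ∧
      ∀ (e : ℚ⟮f⟯ →+* ℂ) (x : ℂ), e (IntermediateField.AdjoinSimple.gen ℚ f) = x →
        Transcendental ℚ x → e a = u x := by
  obtain ⟨q, r, hq, h1'⟩ := frac f hf a
  have h1 : aeval (IntermediateField.AdjoinSimple.gen ℚ f) q * a =
      aeval (IntermediateField.AdjoinSimple.gen ℚ f) r := h1'
  refine ⟨q, fun x => aeval x r / aeval x q, hq, fun x hx =>
    (aeval_smooth _).contDiffAt.div (aeval_smooth _).contDiffAt hx, fun e x he hx => ?_⟩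
  have h3 : ∀ p : ℚ[X], e (aeval (IntermediateField.AdjoinSimple.gen ℚ f) p) = aeval x p :=
    fun p => by rw [← he]; exact (aeval_algHom_apply e.toRatAlgHom _ p).symm
  have h4 : aeval x q ≠ 0 := fun h => hx ⟨q, hq, h⟩
  have h5 := congrArg e h1
  rw [map_mul, h3, h3] at h5
  rw [eq_div_iff h4, mul_comm, h5]

/-- the coefficients of a polynomial as functions -/
theorem exists_co (f : F) (hf : Transcendental ℚ f) (p : ℚ⟮f⟯[X]) (N : ℕ) :
    ∃ (D : ℚ[X]) (c : ℕ → ℂ → ℂ), D ≠ 0 ∧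
      (∀ i ∈ range N, ∀ x : ℂ, aeval x D ≠ 0 → ContDiffAt ℂ 1 (c i) x) ∧
      ∀ (e : ℚ⟮f⟯ →+* ℂ) (x : ℂ), e (IntermediateField.AdjoinSimple.gen ℚ f) = x →
        Transcendental ℚ x → ∀ i, e (p.coeff i) = c i x := by
  choose D u h1 h2 h3 using fun i => exists_ev f hf (p.coeff i)
  refine ⟨∏ i ∈ range N, D i, u, prod_ne_zero_iff.2 fun i _ => h1 i, fun i hi x hx =>
    h2 i x ?_, fun e x he hx i => h3 i e x he hx⟩
  rw [map_prod] at hx
  exact prod_ne_zero_iff.1 hx i hi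

/-- a polynomial as a function of two variables -/
theorem exists_Ev (f : F) (hf : Transcendental ℚ f) (p : ℚ⟮f⟯[X]) :
    ∃ (D : ℚ[X]) (U : ℂ × ℂ → ℂ), D ≠ 0 ∧
      (∀ x w : ℂ, aeval x D ≠ 0 → ContDiffAt ℂ 1 U (x, w)) ∧
      ∀ (e : ℚ⟮f⟯ →+* ℂ) (x : ℂ), e (IntermediateField.AdjoinSimple.gen ℚ f) = x →
        Transcendental ℚ x → ∀ w, p.eval₂ e w = U (x, w) := by
  obtain ⟨D, c, h1, h2, h3⟩ := exists_co f hf p (p.natDegree + 1)
  refine ⟨D, fun v => ∑ i ∈ range (p.natDegree + 1), c i v.1 * v.2 ^ i, h1, fun x w hx => ?_,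
    fun e x he hx w => ?_⟩
  · exact ContDiffAt.sum fun i hi =>
      (ContDiffAt.comp (g := c i) (f := Prod.fst) (x, w) (h2 i hi x hx) contDiffAt_fst).mul
        (contDiffAt_snd.pow i)
  · rw [eval₂_eq_sum_range]
    exact sum_congr rfl fun i _ => by rw [h3 e x he hx i]

/-- the monic polynomial with given lower coefficients -/
noncomputable def Px (d : ℕ) (c : ℕ → ℂ → ℂ) (x : ℂ) : ℂ[X] :=
  X ^ d + ∑ i ∈ range d, C (c i x) * X ^ i

theorem Px_deg (d : ℕ) (c : ℕ → ℂ → ℂ) (x : ℂ) :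
    (∑ i ∈ range d, C (c i x) * X ^ i : ℂ[X]).degree < d := by
  refine (degree_sum_le _ _).trans_lt ?_
  refine (Finset.sup_lt_iff (WithBot.bot_lt_coe d)).2 fun i hi => ?_
  exact (degree_C_mul_X_pow_le i _).trans_lt (Nat.cast_lt.2 (mem_range.1 hi))

theorem Px_monic (d : ℕ) (c : ℕ → ℂ → ℂ) (x : ℂ) : (Px d c x).Monic :=
  monic_X_pow_add (Px_deg d c x)

theorem Px_natDegree (d : ℕ) (c : ℕ → ℂ → ℂ) (x : ℂ) : (Px d c x).natDegree = d := by
  refine natDegree_eq_of_degree_eq_some ?_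
  rw [Px, degree_add_eq_left_of_degree_lt, degree_X_pow]
  rw [degree_X_pow]
  exact Px_deg d c x

theorem Px_smooth {d : ℕ} {c : ℕ → ℂ → ℂ} {x : ℂ} (h : ∀ i ∈ range d, ContDiffAt ℂ 1 (c i) x)
    (w : ℂ) : ContDiffAt ℂ 1 (fun v : ℂ × ℂ => (Px d c v.1).eval v.2) (x, w) := by
  simp only [Px, eval_add, eval_pow, eval_X, eval_finsetSum, eval_mul, eval_C]
  exact (contDiffAt_snd.pow d).add (ContDiffAt.sum fun i hi =>
    (ContDiffAt.comp (g := c i) (f := Prod.fst) (x, w) (h i hi) contDiffAt_fst).mul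
      (contDiffAt_snd.pow i))

theorem Px_der {d : ℕ} {c : ℕ → ℂ → ℂ} {x : ℂ} (h : ∀ i ∈ range d, ContDiffAt ℂ 1 (c i) x)
    (w : ℂ) : ContinuousAt (fun y : ℂ => (derivative (Px d c y)).eval w) x := by
  simp only [Px, derivative_add, derivative_sum, derivative_C_mul, eval_add, eval_finsetSum,
    eval_mul, eval_C]
  exact continuousAt_const.add
    (tendsto_finsetSum _ fun i hi => (h i hi).continuousAt.mul continuousAt_const)

theorem dense_tr : Dense {x : ℂ | Transcendental ℚ x} := (Algebraic.countable ℚ ℂ).dense_compl ℂ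

theorem lim_one {h : ℂ → ℂ} {τ : ℂ} (hc : ContinuousAt h τ)
    (h1 : ∀ x, Transcendental ℚ x → h x = 1) : h τ = 1 := by
  have : (𝓝[{x : ℂ | Transcendental ℚ x}] τ).NeBot :=
    mem_closure_iff_nhdsWithin_neBot.1 (dense_tr τ)
  exact tendsto_nhds_unique' this
    (hc.continuousWithinAt (s := {x : ℂ | Transcendental ℚ x})).tendsto
    (tendsto_const_nhds.congr' (eventually_nhdsWithin_of_forall fun x hx => (h1 x hx).symm))

/-- the branch through a simple root -/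
theorem branch {d : ℕ} {c : ℕ → ℂ → ℂ} {τ w : ℂ} (h : ∀ i ∈ range d, ContDiffAt ℂ 1 (c i) τ)
    (h0 : (Px d c τ).eval w = 0) (h1 : (derivative (Px d c τ)).eval w ≠ 0) :
    ∃ ψ : ℂ → ℂ, ψ τ = w ∧ ∀ᶠ x in 𝓝 τ, ContDiffAt ℂ 1 ψ x ∧ (Px d c x).eval (ψ x) = 0 := by
  have cdf := Px_smooth h w
  set G : ℂ × ℂ → ℂ := fun v => (Px d c v.1).eval v.2 with hG
  have hi : (fderiv ℂ G (τ, w) ∘L ContinuousLinearMap.inr ℂ ℂ ℂ).IsInvertible := by
    have a1 : HasFDerivAt (fun y : ℂ => G (τ, y))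
        (fderiv ℂ G (τ, w) ∘L ContinuousLinearMap.inr ℂ ℂ ℂ) w :=
      HasFDerivAt.comp (g := G) (f := fun y : ℂ => (τ, y)) w
        (cdf.differentiableAt one_ne_zero).hasFDerivAt (hasFDerivAt_prodMk_right τ w)
    have a2 : HasDerivAt (fun y : ℂ => G (τ, y)) ((derivative (Px d c τ)).eval w) w :=
      (Px d c τ).hasDerivAt w
    rw [a1.unique a2.hasFDerivAt]
    refine ContinuousLinearMap.IsInvertible.of_inverse
      (g := ((derivative (Px d c τ)).eval w)⁻¹ • (1 : ℂ →L[ℂ] ℂ)) ?_ ?_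
    · ext
      simp [h1]
    · ext
      simp [h1]
  refine ⟨cdf.implicitFunction one_ne_zero hi, cdf.implicitFunction_apply_self one_ne_zero hi, ?_⟩
  have b1 := (cdf.contDiffAt_implicitFunction one_ne_zero hi).eventually (by simp)
  have b2 := cdf.eventually_apply_implicitFunction one_ne_zero hi
  filter_upwards [b1, b2] with x hx1 hx2
  exact ⟨hx1, hx2.trans h0⟩

/-- all the branches -/
theorem branches {d : ℕ} {c : ℕ → ℂ → ℂ} {τ : ℂ} (h : ∀ i ∈ range d, ContDiffAt ℂ 1 (c i) τ)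
    (h1 : ∀ w, (Px d c τ).eval w = 0 → (derivative (Px d c τ)).eval w ≠ 0) :
    ∃ ψ : Fin d → ℂ → ℂ, ∀ᶠ x in 𝓝 τ, (∀ i, ContDiffAt ℂ 1 (ψ i) x) ∧
      (∀ i, (Px d c x).eval (ψ i x) = 0) ∧ (Function.Injective fun i => ψ i x) ∧
      ∀ w, (Px d c x).eval w = 0 → ∃ i, ψ i x = w := by
  have hsep : (Px d c τ).Separable := by
    refine (Polynomial.isCoprime_iff_aeval_ne_zero_of_isAlgClosed ℂ ℂ _ _).2 fun a => ?_
    by_cases ha : (Px d c τ).eval a = 0
    · exact Or.inr (by simpa using h1 a ha)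
    · exact Or.inl (by simpa using ha)
  have hcard : Fintype.card ((Px d c τ).rootSet ℂ) = d :=
    (card_rootSet_eq_natDegree hsep (IsAlgClosed.splits _)).trans (Px_natDegree d c τ)
  let E := (Fintype.equivFinOfCardEq hcard).symm
  have hr : ∀ i, (Px d c τ).eval (E i : ℂ) = 0 := fun i => by
    simpa using aeval_eq_zero_of_mem_rootSet (E i).2
  choose ψ hψ0 hψ using fun i => branch h (hr i) (h1 _ (hr i))
  have hne : ∀ i j, ∀ᶠ x in 𝓝 τ, ψ i x = ψ j x → i = j := fun i j => by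
    by_cases hij : i = j
    · exact Eventually.of_forall fun _ _ => hij
    · have a : ψ i τ ≠ ψ j τ := by
        rw [hψ0, hψ0]
        exact fun e => hij (E.injective (Subtype.ext e))
      have b := ((hψ i).self_of_nhds.1.continuousAt.sub
        (hψ j).self_of_nhds.1.continuousAt).eventually_ne (sub_ne_zero.2 a)
      filter_upwards [b] with x hx e
      exact absurd (sub_eq_zero.2 e) hx
  refine ⟨ψ, ?_⟩
  filter_upwards [eventually_all.2 hψ, eventually_all.2 fun i => eventually_all.2 (hne i)]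
    with x hx1 hx2
  have hinj : Function.Injective fun i => ψ i x := fun i j e => hx2 i j e
  refine ⟨fun i => (hx1 i).1, fun i => (hx1 i).2, hinj, fun w hw => ?_⟩
  have hsub : univ.image (fun i => ψ i x) ⊆ (Px d c x).roots.toFinset := fun z hz => by
    obtain ⟨i, _, rfl⟩ := mem_image.1 hz
    exact Multiset.mem_toFinset.2 ((mem_roots (Px_monic d c x).ne_zero).2 (hx1 i).2)
  have heq := eq_of_subset_of_card_le hsub (by
    rw [card_image_of_injective _ hinj, card_univ, Fintype.card_fin]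
    exact (Multiset.toFinset_card_le _).trans ((card_roots' _).trans (Px_natDegree d c x).le))
  have hw' : w ∈ univ.image (fun i => ψ i x) := by
    rw [heq]
    exact Multiset.mem_toFinset.2 ((mem_roots (Px_monic d c x).ne_zero).2 hw)
  obtain ⟨i, _, hi⟩ := mem_image.1 hw'
  exact ⟨i, hi⟩

theorem hom_aeval {K M : Type} [Field K] [Field M] [Algebra K M] (σ : M →+* ℂ) (θ : M)
    (q : K[X]) : σ (aeval θ q) = q.eval₂ (σ.comp (algebraMap K M)) (σ θ) := by
  rw [aeval_def, hom_eval₂]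

theorem exists_hom {K M : Type} [Field K] [Field M] [Algebra K M] (pb : PowerBasis K M)
    (j : K →+* ℂ) (x : ℂ) (hx : (minpoly K pb.gen).eval₂ j x = 0) :
    ∃ σ : M →+* ℂ, σ.comp (algebraMap K M) = j ∧ σ pb.gen = x := by
  let : Algebra K ℂ := j.toAlgebra
  refine ⟨(pb.lift x hx).toRingHom, ?_, pb.lift_gen x hx⟩
  ext a
  exact (pb.lift x hx).commutes a

end PBr

open PBr in
theorem p_br (hCrv : VC.S_Crv) : S_Br := by
  intro F _ _ hF f hf n φ
  have : FiniteDimensional ℚ⟮f⟯ F := (hCrv.2.1 ℚ F f hf).1 hF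
  let pb : PowerBasis ℚ⟮f⟯ F := Field.powerBasisOfFiniteOfSeparable ℚ⟮f⟯ F
  set P := minpoly ℚ⟮f⟯ pb.gen with hP
  have hm : P.Monic := minpoly.monic pb.isIntegral_gen
  have hp : P.Separable := Algebra.IsSeparable.isSeparable ℚ⟮f⟯ pb.gen
  obtain ⟨A, B, hAB⟩ := hp
  obtain ⟨D, c, hD, hc1, hc2⟩ := exists_co f hf P P.natDegree
  obtain ⟨DA, UA, hDA, hA1, hA2⟩ := exists_Ev f hf A
  obtain ⟨DB, UB, hDB, hB1, hB2⟩ := exists_Ev f hf B
  choose pa hpa using fun a : F => pb.exists_eq_aeval' a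
  choose Da Ua hDa ha1 ha2 using fun a : F => exists_Ev f hf (pa a)
  have hmap : ∀ (e : ℚ⟮f⟯ →+* ℂ) (x : ℂ), e (IntermediateField.AdjoinSimple.gen ℚ f) = x →
      Transcendental ℚ x → P.map e = Px P.natDegree c x := fun e x he hx => by
    conv_lhs => rw [hm.as_sum]
    simp only [Px, Polynomial.map_add, Polynomial.map_pow, map_X, Polynomial.map_sum,
      Polynomial.map_mul, map_C, hc2 e x he hx]
  have hval : ∀ (σ : F →+* ℂ) (x : ℂ), σ f = x → Transcendental ℚ x → ∀ a,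
      σ a = Ua a (x, σ pb.gen) := fun σ x h1 hx a => by
    rw [← ha2 a (σ.comp (algebraMap ℚ⟮f⟯ F)) x h1 hx, ← hom_aeval, ← hpa]
  refine ⟨P.natDegree, D * DA * DB * ∏ k, Da (φ k), mul_ne_zero (mul_ne_zero (mul_ne_zero hD hDA)
    hDB) (prod_ne_zero_iff.2 fun k _ => hDa _), fun τ hτ => ?_⟩
  have hq : ∀ x : ℂ, aeval x (D * DA * DB * ∏ k, Da (φ k)) ≠ 0 → aeval x D ≠ 0 ∧
      aeval x DA ≠ 0 ∧ aeval x DB ≠ 0 ∧ ∀ k, aeval x (Da (φ k)) ≠ 0 := fun x hx => by
    simp only [map_mul, map_prod, ne_eq, mul_eq_zero, not_or, prod_eq_zero_iff, mem_univ,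
      true_and, not_exists] at hx
    exact ⟨hx.1.1.1, hx.1.1.2, hx.1.2, hx.2⟩
  obtain ⟨t1, t2, t3, -⟩ := hq τ hτ
  have hcτ := fun i hi => hc1 i hi τ t1
  have hsimple : ∀ w, (Px P.natDegree c τ).eval w = 0 →
      (derivative (Px P.natDegree c τ)).eval w ≠ 0 := fun w hw h0 => by
    have hpt : ContinuousAt (fun y : ℂ => (y, w)) τ := by fun_prop
    have a := lim_one (τ := τ) (h := fun y => UA (y, w) * (Px P.natDegree c y).eval w +
        UB (y, w) * (derivative (Px P.natDegree c y)).eval w)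
      (((ContinuousAt.comp (f := fun y : ℂ => (y, w)) (hA1 τ w t2).continuousAt hpt).mul
        (ContinuousAt.comp (f := fun y : ℂ => (y, w)) (Px_smooth hcτ w).continuousAt hpt)).add
        ((ContinuousAt.comp (f := fun y : ℂ => (y, w)) (hB1 τ w t3).continuousAt hpt).mul
          (Px_der hcτ w))) fun x hx => by
      obtain ⟨e, he⟩ := emb f hf x hx
      have b := congrArg (eval₂ e w) hAB
      rw [eval₂_add, eval₂_mul, eval₂_mul, eval₂_one, hA2 e x he hx, hB2 e x he hx,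
        eval₂_eq_eval_map, eval₂_eq_eval_map, ← derivative_map, hmap e x he hx] at b
      exact b
    simp only [hw, h0, mul_zero, add_zero] at a
    exact zero_ne_one a
  obtain ⟨ψ, hψ⟩ := branches hcτ hsimple
  have hev := hψ.and ((aeval_smooth _).continuous.continuousAt.eventually_ne hτ)
  obtain ⟨ρ, hρ, hball⟩ := Metric.eventually_nhds_iff_ball.1 hev
  have hex : ∀ (i : Fin P.natDegree) (x : ℂ), x ∈ Metric.ball τ ρ ∧ Transcendental ℚ x →
      ∃ σ : F →+* ℂ, σ f = x ∧ σ pb.gen = ψ i x := fun i x hx => by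
    obtain ⟨e, he⟩ := emb f hf x hx.2
    obtain ⟨σ, h1, h2⟩ := exists_hom pb e (ψ i x) (by
      rw [eval₂_eq_eval_map, hmap e x he hx.2]
      exact (hball x hx.1).1.2.1 i)
    exact ⟨σ, (DFunLike.congr_fun h1 (IntermediateField.AdjoinSimple.gen ℚ f)).trans he, h2⟩
  obtain ⟨x₀, hx₀, hx₀'⟩ := dense_tr.exists_mem_open Metric.isOpen_ball
    ⟨τ, Metric.mem_ball_self hρ⟩
  have hex' : ∀ (i : Fin P.natDegree) (x : ℂ), ∃ σ : F →+* ℂ,
      x ∈ Metric.ball τ ρ ∧ Transcendental ℚ x → σ f = x ∧ σ pb.gen = ψ i x := fun i x => by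
    by_cases hx : x ∈ Metric.ball τ ρ ∧ Transcendental ℚ x
    · obtain ⟨σ, hσ⟩ := hex i x hx
      exact ⟨σ, fun _ => hσ⟩
    · obtain ⟨σ, -⟩ := hex i x₀ ⟨hx₀', hx₀⟩
      exact ⟨σ, fun h => absurd h hx⟩
  choose J hJ using hex'
  have hsm : ∀ (i : Fin P.natDegree) (a : F), ∀ x ∈ Metric.ball τ ρ, aeval x (Da a) ≠ 0 →
      ContDiffAt ℂ 1 (fun y => Ua a (y, ψ i y)) x := fun i a x hx h0 =>
    ContDiffAt.comp (g := Ua a) (f := fun y => (y, ψ i y)) x (ha1 a x (ψ i x) h0)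
      (contDiffAt_id.prodMk ((hball x hx).1.1 i))
  refine ⟨ρ, fun i k x => Ua (φ k) (x, ψ i x), J, hρ, fun i k x hx => ?_, fun x hx ht => ?_,
    fun i s hs hst a => ?_⟩
  · exact ((hsm i (φ k) x hx ((hq x (hball x hx).2).2.2.2 k)).differentiableAt
      one_ne_zero).differentiableWithinAt
  · refine ⟨fun i => ⟨(hJ i x ⟨hx, ht⟩).1, fun k => ?_⟩, fun i j e => ?_, fun j hj => ?_⟩
    · rw [hval _ x (hJ i x ⟨hx, ht⟩).1 ht, (hJ i x ⟨hx, ht⟩).2]
    · refine (hball x hx).1.2.2.1 ?_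
      have e' : J i x = J j x := e
      exact (hJ i x ⟨hx, ht⟩).2.symm.trans (e' ▸ (hJ j x ⟨hx, ht⟩).2)
    · obtain ⟨i, hi⟩ := (hball x hx).1.2.2.2 (j pb.gen) (by
        rw [← hmap (j.comp (algebraMap ℚ⟮f⟯ F)) x hj ht, ← eval₂_eq_eval_map, ← hom_aeval, hP,
          minpoly.aeval, map_zero])
      refine ⟨i, RingHom.ext fun a => ?_⟩
      rw [hval _ x (hJ i x ⟨hx, ht⟩).1 ht, hval j x hj ht, (hJ i x ⟨hx, ht⟩).2, hi]
  · have e : (fun t => J i (s t) a) = (fun y => Ua a (y, ψ i y)) ∘ s := funext fun t => by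
      rw [hval _ (s t) (hJ i _ (hst t)).1 (hst t).2, (hJ i _ (hst t)).2]
      rfl
    rw [e]
    refine contDiff_iff_contDiffAt.2 fun t => ContDiffAt.comp t ?_ hs.contDiffAt
    exact (hsm i a (s t) (hst t).1 fun h => (hst t).2 ⟨_, hDa a, h⟩).restrict_scalars ℝ

end Pool.Agent.P.MP_b8021b_nt.KR
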