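import Pool.Agent.P.MP_b8021b_nt.KR.St
import Pool.Agent.P.MP_b8021b_nt.VC.PC2

/-! The section side of the cochain, without reciprocity. -/

namespace Pool.Agent.P.MP_b8021b_nt.KR

open Polynomial Finset NumberField IsDedekindDomain Pool.Agent.P.MP_b8021b_nt.VE
  Pool.Agent.P.MP_b8021b_nt.VC
open scoped Classical ComplexConjugate

noncomputable section

open VC.C2P in
theorem p_c2 (hRep : VE.S_Rep) (hArch : VC.S_Arch2) : S_C2 := by
  intro R A A' _ _ _ _ _ _ p D j φ hj hφ s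
  have hFT := finiteType D p.toTab hj
  obtain ⟨α, β, hα, hsl⟩ := p.slope_F
  have hF0 := F_ne p s
  have hpz : ∀ g : ℤ[X], g ≠ 0 → D.pz j g ≠ 0 := fun g hg h => hg (p.toTab.alg_injective
    (hj.inj (D.j_injective (by rw [map_zero, map_zero, map_zero]; exact h))))
  have hdvd : p.sec D j s ∣ D.pz j (p.F s) := D.fn_dvd_nm j p.toTab _ _
  have hσ : p.sec D j s ≠ 0 := fun h => hpz _ hF0 (zero_dvd_iff.1 (h ▸ hdvd))
  refine ⟨hσ, ?_⟩
  have key : ∀ P : zs (p.sec D j s), ∃ (c : p.Pn → ℝ) (J : Type) (_ : Fintype J) (m : J → ℝ)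
      (ϑ : J → ℂ), (∀ i, aeval (ϑ i) (p.FR s) = 0) ∧
      ∀ (n : ℕ) (t : ℤ × ℤ) (x : Fin n → p.Pn), p.Adm t → p.Good t s x →
        φ P (p.fib D j t) = φ P (D.pz j p.G) / p.ρ + ∑ i, c (x i) +
          ∑ i, m i * (Real.log ‖ϑ i - (((t.1 : ℝ) / t.2 : ℝ) : ℂ)‖ -
            Real.log ‖aeval (ϑ i) p.G‖ / p.ρ) - (β : ℝ) / (α * p.ρ) * φ P (p.r : A') := by
    rintro ⟨P, hP⟩
    have hP' : D.pz j (p.F s) ∈ P.asIdeal := Ideal.mem_of_dvd _ hdvd ((mem_zs hσ).mp hP)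
    obtain ⟨K, _, _, π, hsurj, hker⟩ := exists_res P.asIdeal P.isMaximal
    have hk : ∀ h, π h = 0 ↔ h ∈ P.asIdeal := fun h => by rw [← hker, RingHom.mem_ker]
    let Φ : K → ℝ := fun z => φ P (hsurj z).choose
    have hΦ : ∀ h, Φ (π h) = φ P h := by
      intro h
      apply hφ.congr
      rw [← hk, map_sub, (hsurj _).choose_spec, sub_self]
    have hΦmul : ∀ a b, a ≠ 0 → b ≠ 0 → Φ (a * b) = Φ a + Φ b := by
      intro a b ha hb
      obtain ⟨a, rfl⟩ := hsurj a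
      obtain ⟨b, rfl⟩ := hsurj b
      rw [← map_mul, hΦ, hΦ, hΦ]
      exact hφ.mul _ _ _ (by rwa [← hk]) (by rwa [← hk])
    have hθ : aeval (π (D.pz j X)) (p.F s) = 0 := by rw [← D.map_pz, hk]; exact hP'
    obtain ⟨c, J, _, m, ϑ, h1, h2⟩ := field_part p s hRep hα (hsl s) K Φ hΦmul _ hθ
    refine ⟨c, J, inferInstance, m, ϑ, h1, fun n t x ht hx => ?_⟩
    have h3 := h2 n t x ht hx
    rw [← D.map_pz, hΦ] at h3
    rw [← hΦ (p.fib D j t), ← hΦ (p.r : A'), VC.Par.fib, D.map_pz]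
    simpa only [map_sub, map_mul, aeval_C, aeval_X, eq_intCast, map_intCast, map_natCast]
      using h3
  choose c J hJ m ϑ h1 h3 using key
  have hFR : p.FR s ≠ 0 := by
    rw [VC.Par.FR, Ne, Polynomial.map_eq_zero_iff (RingHom.injective_int _)]
    exact hF0
  obtain ⟨Q, q1, q2, -⟩ := hArch (Σ P, J P) (fun i => (ord i.1.1 (p.sec D j s) : ℝ) * m i.1 i.2)
    (fun i => Real.log ‖aeval (ϑ i.1 i.2) p.G‖ / p.ρ) (fun i => ϑ i.1 i.2) (p.FR s) hFR
    (fun i => h1 i.1 i.2) (fun i i' h => by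
      rcases h with h | h
      · rw [h]
      · rw [h, norm_conj])
  refine ⟨fun x => ∑ P : zs (p.sec D j s), (ord P.1 (p.sec D j s) : ℝ) * c P x, Q, _,
    pair φ (p.sec D j s) (D.pz j p.G) / p.ρ -
      (β : ℝ) / (α * p.ρ) * pair φ (p.sec D j s) (p.r : A'),
    q1.trans (Nat.sub_le_sub_right (natDegree_map_le.trans (p.natDegree_F_le s)) 1), q2,
    fun n t x ht hx => ?_⟩
  have ps : ∀ h, pair φ (p.sec D j s) h =
      ∑ P : zs (p.sec D j s), (ord P.1 (p.sec D j s) : ℝ) * φ P h := fun h => by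
    rw [pair_eq_sum_zs φ hσ, ← sum_coe_sort]
  rw [ps, ps, ps, Fintype.sum_sigma, sum_comm, sum_div, mul_sum, ← sum_sub_distrib,
    ← sum_add_distrib, ← sum_add_distrib]
  refine sum_congr rfl fun P _ => ?_
  rw [h3 P n t x ht hx, ← mul_sum]
  simp only [mul_assoc]
  rw [← mul_sum]
  ring

end

end Pool.Agent.P.MP_b8021b_nt.KR
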