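import Pool.Agent.P.MP_b8021b_nt.KR.St

/-! Basic lemmas on paths and chains. -/

namespace Pool.Agent.P.MP_b8021b_nt.KR

open Finset
open scoped Classical

noncomputable section

variable {F M N : Type} [Field F] [Field M] [Field N]

namespace Path

variable (γ : Path F)

theorem ext' {γ γ' : Path F} (h : ∀ t a, γ.j t a = γ'.j t a) : γ = γ' := by
  cases γ
  cases γ'
  congr
  exact funext fun t => RingHom.ext (h t)

/-- the derivative of a function along a path -/
def d (a : F) (t : ℝ) : ℂ := deriv (fun s => γ.j s a) t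

theorem cont (a : F) : Continuous fun t => γ.j t a := (γ.smooth a).continuous

theorem cont_d (a : F) : Continuous (γ.d a) := (γ.smooth a).continuous_deriv le_rfl

theorem hasDerivAt (a : F) (t : ℝ) : HasDerivAt (fun s => γ.j s a) (γ.d a t) t :=
  ((γ.smooth a).differentiable one_ne_zero t).hasDerivAt

theorem ne {a : F} (ha : a ≠ 0) (t : ℝ) : γ.j t a ≠ 0 := (map_ne_zero _).2 ha

theorem d_add (a b : F) (t : ℝ) : γ.d (a + b) t = γ.d a t + γ.d b t := by
  refine HasDerivAt.unique (γ.hasDerivAt _ t) ?_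
  simpa only [map_add] using (γ.hasDerivAt a t).fun_add (γ.hasDerivAt b t)

theorem d_mul (a b : F) (t : ℝ) : γ.d (a * b) t = γ.d a t * γ.j t b + γ.j t a * γ.d b t := by
  refine HasDerivAt.unique (γ.hasDerivAt _ t) ?_
  simpa only [map_mul] using (γ.hasDerivAt a t).fun_mul (γ.hasDerivAt b t)

theorem d_neg (a : F) (t : ℝ) : γ.d (-a) t = -γ.d a t := by
  refine HasDerivAt.unique (γ.hasDerivAt _ t) ?_
  simpa only [map_neg] using (γ.hasDerivAt a t).fun_neg

theorem d_sub (a b : F) (t : ℝ) : γ.d (a - b) t = γ.d a t - γ.d b t := by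
  rw [sub_eq_add_neg, d_add, d_neg, sub_eq_add_neg]

theorem d_one (t : ℝ) : γ.d 1 t = 0 := by simp [d]

theorem d_zero (t : ℝ) : γ.d 0 t = 0 := by simp [d]

theorem d_rat [CharZero F] (q : ℚ) (t : ℝ) : γ.d q t = 0 := by simp [d]

theorem darg_eq (f : F) (t : ℝ) : γ.darg f t = (γ.d f t / γ.j t f).im := rfl

theorem lam_eq (a b : F) : γ.lam a b = ∫ t in (0 : ℝ)..1, (γ.j t a * γ.d b t).im := rfl

theorem cont_darg (f : F) : Continuous (γ.darg f) := by
  rcases eq_or_ne f 0 with rfl | hf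
  · have : γ.darg 0 = fun _ => 0 := funext fun t => by simp [darg_eq]
    rw [this]
    exact continuous_const
  · exact Complex.continuous_im.comp ((γ.cont_d f).div (γ.cont f) (γ.ne hf))

theorem cont_log (f : F) : Continuous fun t => Real.log ‖γ.j t f‖ := by
  rcases eq_or_ne f 0 with rfl | hf
  · simpa using continuous_const
  · exact (γ.cont f).norm.log fun t => norm_ne_zero_iff.2 (γ.ne hf t)

theorem cont_lam (a b : F) : Continuous fun t => (γ.j t a * γ.d b t).im :=
  Complex.continuous_im.comp ((γ.cont a).mul (γ.cont_d b))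

theorem cont_reg (f g : F) : Continuous fun t =>
    Real.log ‖γ.j t f‖ * γ.darg g t - Real.log ‖γ.j t g‖ * γ.darg f t :=
  ((γ.cont_log f).mul (γ.cont_darg g)).sub ((γ.cont_log g).mul (γ.cont_darg f))

theorem darg_mul {f g : F} (hf : f ≠ 0) (hg : g ≠ 0) (t : ℝ) :
    γ.darg (f * g) t = γ.darg f t + γ.darg g t := by
  have := γ.ne hf t
  have := γ.ne hg t
  rw [darg_eq, darg_eq, darg_eq, ← Complex.add_im, d_mul, map_mul]
  congr 1
  field_simp

theorem lam_add_left (a a' b : F) : γ.lam (a + a') b = γ.lam a b + γ.lam a' b := by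
  rw [lam_eq, lam_eq, lam_eq, ← intervalIntegral.integral_add
    ((γ.cont_lam a b).intervalIntegrable _ _) ((γ.cont_lam a' b).intervalIntegrable _ _)]
  simp only [map_add, add_mul, Complex.add_im]

theorem lam_add_right (a b b' : F) : γ.lam a (b + b') = γ.lam a b + γ.lam a b' := by
  rw [lam_eq, lam_eq, lam_eq, ← intervalIntegral.integral_add
    ((γ.cont_lam a b).intervalIntegrable _ _) ((γ.cont_lam a b').intervalIntegrable _ _)]
  simp only [d_add, mul_add, Complex.add_im]

theorem lam_zero_left (b : F) : γ.lam 0 b = 0 := by simp [lam_eq]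

theorem comap_j (γ : Path M) (j : F →+* M) (t : ℝ) (a : F) : (γ.comap j).j t a = γ.j t (j a) := rfl

theorem comap_comap (γ : Path N) (j : F →+* M) (j' : M →+* N) :
    (γ.comap j').comap j = γ.comap (j'.comp j) := rfl

theorem comap_id : γ.comap (RingHom.id F) = γ := rfl

theorem comap_lam (γ : Path M) (j : F →+* M) (a b : F) :
    (γ.comap j).lam a b = γ.lam (j a) (j b) := rfl

theorem comap_reg (γ : Path M) (j : F →+* M) (a b : F) :
    (γ.comap j).reg a b = γ.reg (j a) (j b) := rfl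

end Path

variable {c c' : Path F →₀ ℝ}

/-- the linear extension of a function of paths -/
def ev (Φ : Path F → ℝ) : (Path F →₀ ℝ) →ₗ[ℝ] ℝ := Finsupp.linearCombination ℝ Φ

theorem ev_apply (Φ : Path F → ℝ) (c : Path F →₀ ℝ) : ev Φ c = c.sum fun γ n => n * Φ γ := rfl

theorem lamC_eq (c : Path F →₀ ℝ) (a b : F) : lamC c a b = ev (fun γ => γ.lam a b) c := rfl

theorem regC_eq (c : Path F →₀ ℝ) (a b : F) : regC c a b = ev (fun γ => γ.reg a b) c := rfl

theorem lamC_sum {ι : Type} (s : Finset ι) (r : ι → ℝ) (c : ι → Path F →₀ ℝ) (a b : F) :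
    lamC (∑ i ∈ s, r i • c i) a b = ∑ i ∈ s, r i * lamC (c i) a b := by
  simp only [lamC_eq, map_sum, map_smul, smul_eq_mul]

theorem regC_sum {ι : Type} (s : Finset ι) (r : ι → ℝ) (c : ι → Path F →₀ ℝ) (a b : F) :
    regC (∑ i ∈ s, r i • c i) a b = ∑ i ∈ s, r i * regC (c i) a b := by
  simp only [regC_eq, map_sum, map_smul, smul_eq_mul]

theorem lamC_zero_left (c : Path F →₀ ℝ) (b : F) : lamC c 0 b = 0 := by
  simp [lamC, Path.lam_zero_left]

theorem lamC_add_left (c : Path F →₀ ℝ) (a a' b : F) :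
    lamC c (a + a') b = lamC c a b + lamC c a' b := by
  simp only [lamC, Path.lam_add_left, mul_add, Finsupp.sum_add]

theorem lamC_nsmul_left (c : Path F →₀ ℝ) (n : ℕ) (a b : F) :
    lamC c (n * a) b = n * lamC c a b := by
  induction n with
  | zero => simp [lamC_zero_left]
  | succ n ih => push_cast; rw [add_mul, one_mul, lamC_add_left, ih]; ring

/-- the boundary -/
def bd (F : Type) [Field F] : (Path F →₀ ℝ) →ₗ[ℝ] (F →+* ℂ) →₀ ℝ :=
  Finsupp.lmapDomain ℝ ℝ (fun γ : Path F => γ.j 1) - Finsupp.lmapDomain ℝ ℝ fun γ : Path F => γ.j 0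

theorem isCycle_iff : IsCycle c ↔ bd F c = 0 := by
  rw [bd, LinearMap.sub_apply, sub_eq_zero]
  rfl

theorem IsCycle.sum {ι : Type} (s : Finset ι) (r : ι → ℝ) {c : ι → Path F →₀ ℝ}
    (h : ∀ i ∈ s, IsCycle (c i)) : IsCycle (∑ i ∈ s, r i • c i) := by
  rw [isCycle_iff, map_sum]
  exact sum_eq_zero fun i hi => by rw [map_smul, isCycle_iff.1 (h i hi), smul_zero]

/-- boundary terms vanish on a cycle -/
theorem IsCycle.ev_zero (h : IsCycle c) (Ψ : (F →+* ℂ) → ℝ) :
    ev (fun γ => Ψ (γ.j 1) - Ψ (γ.j 0)) c = 0 := by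
  have k : ∀ e : Path F → F →+* ℂ, Finsupp.linearCombination ℝ Ψ (c.mapDomain e) =
      c.sum fun γ n => n * Ψ (e γ) := fun e => by
    rw [Finsupp.linearCombination_mapDomain]
    rfl
  have := congrArg (Finsupp.linearCombination ℝ Ψ) h
  rw [k, k] at this
  simp only [ev_apply, mul_sub, Finsupp.sum_sub, this, sub_self]

theorem IsLift.comp {j : F →+* M} {j' : M →+* N} {c : Path F →₀ ℝ} {c' : Path M →₀ ℝ}
    {c'' : Path N →₀ ℝ} (h : IsLift j c c') (h' : IsLift j' c' c'') : IsLift (j'.comp j) c c'' :=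
  fun γ => (h' γ).trans (h _)

theorem IsLift.unique {j : F →+* M} {c : Path F →₀ ℝ} {c' c'' : Path M →₀ ℝ} (h : IsLift j c c')
    (h' : IsLift j c c'') : c' = c'' := Finsupp.ext fun γ => (h γ).trans (h' γ).symm

theorem IsLift.id (c : Path F →₀ ℝ) : IsLift (RingHom.id F) c c := fun _ => rfl

end

end Pool.Agent.P.MP_b8021b_nt.KR
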