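import Pool.Agent.P.MP_b8021b_nt.KR.Basic
import Pool.Agent.P.MP_b8021b_nt.KR.BasicP
import Pool.Agent.P.MP_b8021b_nt.VC.StS

/-! If the regulator of a cycle factors through the tame symbols, its periods are real. -/

namespace Pool.Agent.P.MP_b8021b_nt.KR

open Pool.Agent.P.MP_b8021b_nt.VE Pool.Agent.P.MP_b8021b_nt.VC

theorem p_clA (hConst : S_Const) (hCov : S_Cov) (hUp : S_Up) (hLiftC : S_LiftC) (hRegM : S_RegM) (hCrv : VC.S_Crv) (hRes : VC.S_Res) : S_ClA := by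
  intro F _ _ hF r l c hc hrel φ f hf hφ
  obtain ⟨k, M, _, _, _, _, _, _, _, O, hO⟩ := hConst F hF
  have hM : IsCurve M := (hCrv.1 F M).1 hF
  obtain ⟨res, e, h1, -⟩ := hRes F M hF
  obtain ⟨⟨c', hc'⟩, hL⟩ := hLiftC F M c
  obtain ⟨hcy, hlam, -⟩ := hL c' hc'
  obtain ⟨q, hq, hqp⟩ := Nat.exists_infinite_primes r
  have hrel' := hUp F M hF r res l c c' (fun q => (h1 q _).2 rfl) hc hc' hrel
  have hV := hCov k M hM O q _ c' hO hqp (hcy hc) (hrel'.mono hq)
  have hf' : Transcendental ℚ (algebraMap F M f) := fun h =>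
    hf ((isAlgebraic_algHom_iff (algebraMap F M).toRatAlgHom (algebraMap F M).injective).1 h)
  have h0 := hV _ _ hf' ((hRegM.2 F M (algebraMap F M) hF hM φ f).1 hφ)
  rw [hlam, Algebra.trace_algebraMap, nsmul_eq_mul, lamC_nsmul_left] at h0
  have hn : (Module.finrank F M : ℝ) ≠ 0 := Nat.cast_ne_zero.2 Module.finrank_pos.ne'
  exact (mul_eq_zero.1 h0).resolve_left hn

end Pool.Agent.P.MP_b8021b_nt.KR
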