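import Pool.Agent.P.MP_b8021b_nt.KR.St
import Pool.Agent.P.MP_b8021b_nt.VC.PConst

/-! A rational point over a finite extension of the field of constants. -/

namespace Pool.Agent.P.MP_b8021b_nt.KR

open Polynomial Pool.Agent.P.MP_b8021b_nt.VE Pool.Agent.P.MP_b8021b_nt.VC
open scoped Classical IntermediateField

theorem p_const (hCrv : VC.S_Crv) (hFin : VC.S_Fin) (hSplit : VC.S_Split) : S_Const := by
  intro F _ _ hF
  have : Algebra.IsAlgebraic ℚ Qb := AlgebraicClosure.isAlgebraic ℚ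
  have : IsAlgClosure ℚ Qb := AlgebraicClosure.instIsAlgClosure ℚ
  obtain ⟨f, hf, hf'⟩ := id hF
  obtain ⟨p, -⟩ := (hFin F hF).2.2.1 f hf
  let k : IntermediateField ℚ F := algebraicClosure ℚ F
  have hac : algebraicClosure k F = ⊥ := algebraicClosure.algebraicClosure_eq_bot ℚ F
  have : Algebra.IsAlgebraic ℚ k := algebraicClosure.isAlgebraic ℚ F
  obtain ⟨τ, hτ⟩ := p.exists_emb (algebraMap k F)
  obtain ⟨κ, hL, hLv⟩ := (hFin F hF).2.1 p
  have hκ : ∀ a c, p.Val a c → c ∈ κ := fun a c h => (hLv c).2 ⟨a, h⟩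
  have : NumberField κ := {}
  let t : k →+* κ := (τ : k →+* Qb).codRestrict κ fun b => hκ _ _ (hτ b)
  let _ : Algebra k κ := t.toAlgebra
  have : IsScalarTower ℚ k κ := IsScalarTower.of_algebraMap_eq' (Subsingleton.elim _ _)
  have : FiniteDimensional k κ := Module.Finite.of_restrictScalars_finite ℚ k κ
  obtain ⟨M, _, _, _, φ, hM⟩ := Const.ext hSplit hF hac κ (algebraMap κ Qb)
  obtain ⟨q, ⟨q1, q2⟩, q3⟩ := hM p hτ
  let _ : Algebra κ M := φ.toAlgebra
  have : CharZero M := (RingHom.charZero_iff φ.injective).1 inferInstance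
  have hMc : IsCurve M := (hCrv.1 F M).1 hF
  refine ⟨κ, M, inferInstance, inferInstance, inferInstance, inferInstance, inferInstance,
    inferInstance, inferInstance, q, fun a c h => ?_⟩
  obtain ⟨b, rfl⟩ := (InfiniteGalois.mem_range_algebraMap_iff_fixed (k := κ) c).2 fun σ => by
    obtain ⟨s, hs, -⟩ := (hFin M hMc).2.2.2.2 σ.toRingEquiv q
    have e : ∀ a c, c ∈ κ → q.Val a c → s.Val a c := fun a c hc h => by
      have h2 := hs a c h
      rwa [show σ.toRingEquiv c = c from σ.commutes ⟨c, hc⟩] at h2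
    obtain rfl := q3 s ⟨fun a c h => e _ c (hκ a c h) (q1 a c h), fun b => e _ _ b.2 (q2 b)⟩
    exact (hs a c h).unique h
  exact ⟨b, q2 b⟩

end Pool.Agent.P.MP_b8021b_nt.KR
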