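import Pool.Agent.P.MP_b8021b_nt.KR.St
import Pool.Agent.P.MP_b8021b_nt.VC.StA

/-! The coefficients of the norm form of a section are close to those of the central section. -/

namespace Pool.Agent.P.MP_b8021b_nt.KR

open Polynomial Finset Pool.Agent.P.MP_b8021b_nt.VE Pool.Agent.P.MP_b8021b_nt.VC
open scoped Classical

namespace PContF

variable {ι : Type}

/-- the coefficients of the family `f` are dominated by `a` times those of a fixed polynomial -/
def Dom (a : ι → ℝ) (f : ι → ℤ[X]) : Prop :=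
  ∃ P : ℝ[X], (∀ k, 0 ≤ P.coeff k) ∧ ∀ x k, |((f x).coeff k : ℝ)| ≤ a x * P.coeff k

theorem Dom.add {a : ι → ℝ} {f g : ι → ℤ[X]} (hf : Dom a f) (hg : Dom a g) :
    Dom a fun x => f x + g x := by
  obtain ⟨P, hP, h⟩ := hf
  obtain ⟨Q, hQ, h'⟩ := hg
  refine ⟨P + Q, fun k => by rw [coeff_add]; exact add_nonneg (hP k) (hQ k), fun x k => ?_⟩
  rw [coeff_add, coeff_add, Int.cast_add, mul_add]
  exact (abs_add_le _ _).trans (add_le_add (h x k) (h' x k))

theorem Dom.mul {a b : ι → ℝ} {f g : ι → ℤ[X]} (hf : Dom a f) (hg : Dom b g) :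
    Dom (fun x => a x * b x) fun x => f x * g x := by
  obtain ⟨P, hP, h⟩ := hf
  obtain ⟨Q, hQ, h'⟩ := hg
  refine ⟨P * Q, fun k => ?_, fun x k => ?_⟩
  · rw [coeff_mul]
    exact sum_nonneg fun u _ => mul_nonneg (hP _) (hQ _)
  · rw [coeff_mul, coeff_mul, Int.cast_sum, mul_sum]
    refine (abs_sum_le_sum_abs _ _).trans (sum_le_sum fun u _ => ?_)
    rw [Int.cast_mul, abs_mul]
    calc |((f x).coeff u.1 : ℝ)| * |((g x).coeff u.2 : ℝ)|
        ≤ a x * P.coeff u.1 * (b x * Q.coeff u.2) :=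
          mul_le_mul (h x _) (h' x _) (abs_nonneg _) ((abs_nonneg _).trans (h x _))
      _ = a x * b x * (P.coeff u.1 * Q.coeff u.2) := by ring

theorem Dom.mono {a b : ι → ℝ} {f : ι → ℤ[X]} (hf : Dom a f) (hab : ∀ x, a x ≤ b x) :
    Dom b f := by
  obtain ⟨P, hP, h⟩ := hf
  exact ⟨P, hP, fun x k => (h x k).trans (mul_le_mul_of_nonneg_right (hab x) (hP k))⟩

theorem Dom.of_eq {a : ι → ℝ} {f g : ι → ℤ[X]} (hf : Dom a f) (hfg : ∀ x, f x = g x) :
    Dom a g := by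
  have : f = g := funext hfg
  exact this ▸ hf

theorem dom_zero (a : ι → ℝ) : Dom a fun _ => 0 :=
  ⟨0, fun k => by simp, fun x k => by simp⟩

theorem dom_const (f : ℤ[X]) : Dom (fun _ : ι => (1 : ℝ)) fun _ => f := by
  have key : ∀ k, (∑ l ∈ f.support, monomial l |(f.coeff l : ℝ)|).coeff k = |(f.coeff k : ℝ)| := by
    intro k
    rw [finsetSum_coeff]
    simp only [coeff_monomial]
    rw [sum_ite_eq' f.support k]
    split_ifs with h
    · rfl
    · rw [notMem_support_iff.1 h]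
      simp
  refine ⟨∑ l ∈ f.support, monomial l |(f.coeff l : ℝ)|, fun k => ?_, fun x k => ?_⟩
  · rw [key]
    exact abs_nonneg _
  · rw [key, one_mul]

theorem dom_C {a : ι → ℝ} {t : ι → ℤ} (h : ∀ x, |(t x : ℝ)| ≤ a x) : Dom a fun x => C (t x) := by
  refine ⟨1, fun k => ?_, fun x k => ?_⟩
  · rw [coeff_one]
    split_ifs <;> norm_num
  · rw [coeff_C, coeff_one]
    split_ifs with hk
    · simpa using h x
    · simp

/-- `f` is close to `g` at the scale `S ^ m` -/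
def Cl (η S : ι → ℝ) (m : ℕ) (f g : ι → ℤ[X]) : Prop :=
  Dom (fun x => S x ^ m) g ∧ Dom (fun x => η x * S x ^ m) fun x => f x - g x

variable {η S : ι → ℝ}

theorem Cl.add {m : ℕ} {f g f' g' : ι → ℤ[X]} (h : Cl η S m f g) (h' : Cl η S m f' g') :
    Cl η S m (fun x => f x + f' x) fun x => g x + g' x :=
  ⟨h.1.add h'.1, (h.2.add h'.2).of_eq fun x => by ring⟩

theorem Cl.of_eq {m m' : ℕ} {f g f' g' : ι → ℤ[X]} (h : Cl η S m f g) (hm : m = m')
    (hf : ∀ x, f x = f' x) (hg : ∀ x, g x = g' x) : Cl η S m' f' g' := by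
  have h1 : f = f' := funext hf
  have h2 : g = g' := funext hg
  exact hm ▸ h1 ▸ h2 ▸ h

theorem Cl.mul (h1 : ∀ x, η x ≤ 1) (hS : ∀ x, 0 ≤ S x) {m m' : ℕ} {f g f' g' : ι → ℤ[X]}
    (h : Cl η S m f g) (h' : Cl η S m' f' g') :
    Cl η S (m + m') (fun x => f x * f' x) fun x => g x * g' x := by
  have hf' : Dom (fun x => S x ^ m') f' :=
    (h'.1.add (h'.2.mono fun x => mul_le_of_le_one_left (pow_nonneg (hS x) _) (h1 x))).of_eq
      fun x => by ring
  refine ⟨(h.1.mul h'.1).mono fun x => by rw [pow_add], ?_⟩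
  refine (((h.2.mul hf').mono fun x => ?_).add ((h.1.mul h'.2).mono fun x => ?_)).of_eq
    fun x => by ring
  · exact le_of_eq (by ring)
  · exact le_of_eq (by ring)

theorem cl_zero (m : ℕ) : Cl η S m (fun _ => 0) fun _ => 0 :=
  ⟨dom_zero _, (dom_zero _).of_eq fun x => by simp⟩

theorem cl_const (f : ℤ[X]) : Cl η S 0 (fun _ => f) fun _ => f :=
  ⟨(dom_const f).mono fun x => by simp, (dom_zero _).of_eq fun x => by simp⟩

theorem cl_sum {α : Type} (t : Finset α) {m : ℕ} {f g : α → ι → ℤ[X]}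
    (h : ∀ i, Cl η S m (f i) (g i)) :
    Cl η S m (fun x => ∑ i ∈ t, f i x) fun x => ∑ i ∈ t, g i x := by
  induction t using Finset.induction_on with
  | empty => exact (cl_zero m).of_eq rfl (by simp) (by simp)
  | insert a t ha ih =>
    exact ((h a).add ih).of_eq rfl (fun x => by rw [sum_insert ha]) fun x => by rw [sum_insert ha]

theorem cl_prod (h1 : ∀ x, η x ≤ 1) (hS : ∀ x, 0 ≤ S x) {α : Type} (t : Finset α) {m : ℕ}
    {f g : α → ι → ℤ[X]} (h : ∀ i, Cl η S m (f i) (g i)) :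
    Cl η S (m * t.card) (fun x => ∏ i ∈ t, f i x) fun x => ∏ i ∈ t, g i x := by
  induction t using Finset.induction_on with
  | empty => exact (cl_const 1).of_eq (by simp) (by simp) (by simp)
  | insert a t ha ih =>
    exact ((h a).mul h1 hS ih).of_eq (by rw [card_insert_of_notMem ha]; ring)
      (fun x => by rw [prod_insert ha]) fun x => by rw [prod_insert ha]

theorem cl_det (h1 : ∀ x, η x ≤ 1) (hS : ∀ x, 0 ≤ S x) {n m : ℕ}
    {M N : ι → Matrix (Fin n) (Fin n) ℤ[X]}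
    (h : ∀ a b, Cl η S m (fun x => M x a b) fun x => N x a b) :
    Cl η S (m * n) (fun x => (M x).det) fun x => (N x).det := by
  refine (cl_sum univ (f := fun σ x => ((Equiv.Perm.sign σ : ℤ) : ℤ[X]) * ∏ i, M x (σ i) i)
    (g := fun σ x => ((Equiv.Perm.sign σ : ℤ) : ℤ[X]) * ∏ i, N x (σ i) i) fun σ => ?_).of_eq rfl
    (fun x => (Matrix.det_apply' _).symm) fun x => (Matrix.det_apply' _).symm
  exact ((cl_const _).mul h1 hS (cl_prod h1 hS univ fun i => h (σ i) i)).of_eq (by simp)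
    (fun x => rfl) fun x => rfl

theorem cl_mat (h1 : ∀ x, η x ≤ 1) (hS : ∀ x, 0 ≤ S x) {n m m' : ℕ}
    {M N M' N' : ι → Matrix (Fin n) (Fin n) ℤ[X]}
    (h : ∀ a b, Cl η S m (fun x => M x a b) fun x => N x a b)
    (h' : ∀ a b, Cl η S m' (fun x => M' x a b) fun x => N' x a b) (a b : Fin n) :
    Cl η S (m + m') (fun x => (M x * M' x) a b) fun x => (N x * N' x) a b :=
  (cl_sum univ fun c => (h a c).mul h1 hS (h' c b)).of_eq rfl
    (fun _ => Matrix.mul_apply.symm) fun _ => Matrix.mul_apply.symm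

variable {R : Type} [CommRing R] [Algebra ℤ[X] R]

theorem mat_el (T : Tab R) (g : Fin T.e → ℤ[X]) (a b : Fin T.e) :
    Algebra.leftMulMatrix T.y (T.el g) a b =
      ∑ i, g i * Algebra.leftMulMatrix T.y (T.y i) a b := by
  rw [Tab.el, map_sum, Matrix.sum_apply]
  refine sum_congr rfl fun i _ => ?_
  rw [map_smul, Matrix.smul_apply, smul_eq_mul]

theorem cl_el (h1 : ∀ x, η x ≤ 1) (hS : ∀ x, 0 ≤ S x) (T : Tab R) {m : ℕ}
    {g g' : ι → Fin T.e → ℤ[X]} (h : ∀ i, Cl η S m (fun x => g x i) fun x => g' x i)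
    (a b : Fin T.e) :
    Cl η S m (fun x => Algebra.leftMulMatrix T.y (T.el (g x)) a b)
      fun x => Algebra.leftMulMatrix T.y (T.el (g' x)) a b :=
  (cl_sum univ fun i => (h i).mul h1 hS (cl_const _)).of_eq rfl
    (fun x => (mat_el T (g x) a b).symm) fun x => (mat_el T (g' x) a b).symm

theorem mat_nm (T : Tab R) (r : ℕ) (u v : R) (a b : Fin T.e) :
    Algebra.leftMulMatrix T.y (u ^ 2 + (r : R) * v ^ 2) a b =
      (Algebra.leftMulMatrix T.y u * Algebra.leftMulMatrix T.y u) a b +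
        (r : ℤ[X]) * (Algebra.leftMulMatrix T.y v * Algebra.leftMulMatrix T.y v) a b := by
  rw [← nsmul_eq_mul, map_add, map_nsmul, sq, sq, map_mul, map_mul, Matrix.add_apply,
    Matrix.smul_apply, nsmul_eq_mul]

theorem cl_nm (h1 : ∀ x, η x ≤ 1) (hS : ∀ x, 0 ≤ S x) (T : Tab R) (r : ℕ)
    {g g' c c' : ι → Fin T.e → ℤ[X]} (hg : ∀ i, Cl η S 1 (fun x => g x i) fun x => g' x i)
    (hc : ∀ i, Cl η S 1 (fun x => c x i) fun x => c' x i) :
    Cl η S (2 * T.e) (fun x => T.nm r (g x) (c x)) fun x => T.nm r (g' x) (c' x) := by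
  have key : ∀ a b, Cl η S 2
      (fun x => Algebra.leftMulMatrix T.y (T.el (g x) ^ 2 + (r : R) * T.el (c x) ^ 2) a b)
      fun x => Algebra.leftMulMatrix T.y (T.el (g' x) ^ 2 + (r : R) * T.el (c' x) ^ 2) a b := by
    intro a b
    have e1 := cl_mat h1 hS (cl_el h1 hS T hg) (cl_el h1 hS T hg) a b
    have e2 := (cl_const (r : ℤ[X])).mul h1 hS
      (cl_mat h1 hS (cl_el h1 hS T hc) (cl_el h1 hS T hc) a b)
    exact (e1.add (e2.of_eq rfl (fun _ => rfl) fun _ => rfl)).of_eq rfl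
      (fun x => (mat_nm T r _ _ a b).symm) fun x => (mat_nm T r _ _ a b).symm
  exact (cl_det h1 hS key).of_eq rfl (fun x => (Algebra.norm_eq_matrix_det T.y _).symm)
    fun x => (Algebra.norm_eq_matrix_det T.y _).symm

theorem hp_cen (p : VC.Par R) (S0 : ℕ) (i : Fin p.e × Bool) :
    p.hp (VC.cen p S0) i = if i = (p.toTab.i0, false) then C (S0 : ℤ) * X ^ p.d i.1 else 0 := by
  rw [VC.Par.hp]
  split_ifs with h
  · rw [sum_eq_single (Fin.last (p.d i.1))]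
    · simp [VC.cen, h]
    · intro j _ hj
      have : (j : ℕ) ≠ p.d i.1 := fun e => hj (Fin.ext e)
      simp [VC.cen, this]
    · simp
  · simp [VC.cen, h]

theorem nm_cen (p : VC.Par R) (hG : p.G = X) (hd : p.d p.toTab.i0 + 1 = p.dd) (S0 : ℕ) :
    p.toTab.nm p.r (fun i => C ((p.r : ℤ) ^ p.n0) * p.G * p.hp (VC.cen p S0) (i, false))
      (fun i => C ((p.r : ℤ) ^ p.n0) * p.G * p.hp (VC.cen p S0) (i, true)) =
      C (((p.r : ℤ) ^ p.n0 * S0) ^ (2 * p.e)) * X ^ (2 * p.e * p.dd) := by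
  have e1 : p.toTab.el (fun i => C ((p.r : ℤ) ^ p.n0) * p.G * p.hp (VC.cen p S0) (i, true)) = 0 := by
    simp [Tab.el, hp_cen]
  have e2 : p.toTab.el (fun i => C ((p.r : ℤ) ^ p.n0) * p.G * p.hp (VC.cen p S0) (i, false)) =
      algebraMap ℤ[X] R (C ((p.r : ℤ) ^ p.n0 * S0) * X ^ p.dd) := by
    rw [Tab.el, sum_eq_single p.toTab.i0]
    · rw [hp_cen, if_pos rfl, (p.toTab.y0 p.toTab.i0 rfl).1, Algebra.algebraMap_eq_smul_one, hG,
        ← hd, C_mul]
      congr 1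
      ring
    · intro j _ hj
      rw [hp_cen, if_neg (fun e => hj (congrArg Prod.fst e)), mul_zero, zero_smul]
    · simp
  rw [Tab.nm, e1, e2, zero_pow two_ne_zero, mul_zero, add_zero, ← map_pow,
    Algebra.norm_algebraMap_of_basis p.toTab.y, Fintype.card_fin, ← pow_mul, mul_pow, ← C_pow,
    ← pow_mul, mul_comm p.dd]

/-- the admissible parameters -/
abbrev Ix (p : VC.Par R) : Type :=
  {x : ℝ × ℕ × ℕ × p.Co // x.1 ≤ 1 ∧ 1 ≤ x.1 * x.2.1 ∧ (x.2.2.1 : ℝ) ≤ x.1 * x.2.1 ∧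
    x.2.2.2 ∈ VC.Sset p x.2.1 x.2.2.1}

theorem mem_sset (p : VC.Par R) {S0 L : ℕ} {s : p.Co} (hs : s ∈ VC.Sset p S0 L) (j : p.Ix) :
    |((s j - VC.cen p S0 j : ℤ) : ℝ)| ≤ L := by
  rw [VC.Sset, Fintype.mem_piFinset] at hs
  have h := Finset.mem_Ioo.1 (hs j)
  have h2 : |s j - VC.cen p S0 j| ≤ (L : ℤ) := abs_le.2 ⟨by linarith [h.1], by linarith [h.2]⟩
  exact_mod_cast h2

theorem cl_hp (p : VC.Par R) (i : Fin p.e × Bool) :
    Cl (fun x : Ix p => x.1.1) (fun x => (x.1.2.1 : ℝ)) 1 (fun x => p.hp x.1.2.2.2 i)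
      fun x => p.hp (VC.cen p x.1.2.1) i := by
  have h1 : ∀ x : Ix p, x.1.1 ≤ 1 := fun x => x.2.1
  have hS : ∀ x : Ix p, (0 : ℝ) ≤ x.1.2.1 := fun x => Nat.cast_nonneg _
  refine cl_sum univ fun j => ?_
  refine (Cl.mul h1 hS (m := 1) (f := fun x => C (x.1.2.2.2 ⟨i, j⟩))
    (g := fun x => C (VC.cen p x.1.2.1 ⟨i, j⟩)) ⟨dom_C fun x => ?_, ?_⟩ (cl_const (X ^ j.1))).of_eq rfl
    (fun _ => rfl) fun _ => rfl
  · rw [VC.cen, pow_one]
    split_ifs
    · simp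
    · simp
  · refine (dom_C (t := fun x : Ix p => x.1.2.2.2 ⟨i, j⟩ - VC.cen p x.1.2.1 ⟨i, j⟩)
      fun x => ?_).of_eq fun x => C_sub
    rw [pow_one]
    exact (mem_sset p x.2.2.2.2 ⟨i, j⟩).trans x.2.2.2.1

theorem cl_sec (p : VC.Par R) (g : ℤ[X]) (i : Fin p.e × Bool) :
    Cl (fun x : Ix p => x.1.1) (fun x => (x.1.2.1 : ℝ)) 1
      (fun x => g + C ((p.r : ℤ) ^ p.n0) * p.G * p.hp x.1.2.2.2 i)
      fun x => C ((p.r : ℤ) ^ p.n0) * p.G * p.hp (VC.cen p x.1.2.1) i := by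
  have h1 : ∀ x : Ix p, x.1.1 ≤ 1 := fun x => x.2.1
  have hS : ∀ x : Ix p, (0 : ℝ) ≤ x.1.2.1 := fun x => Nat.cast_nonneg _
  have e1 : Cl (fun x : Ix p => x.1.1) (fun x => (x.1.2.1 : ℝ)) 1 (fun _ => g) fun _ => 0 :=
    ⟨dom_zero _, ((dom_const g).mono fun x => by rw [pow_one]; exact x.2.2.1).of_eq
      fun x => by simp⟩
  have e2 := (cl_const (C ((p.r : ℤ) ^ p.n0) * p.G)).mul h1 hS (cl_hp p i)
  exact (e1.add (e2.of_eq rfl (fun _ => rfl) fun _ => rfl)).of_eq rfl (fun _ => rfl)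
    fun _ => zero_add _

end PContF

open PContF in
theorem p_contF (hDeg : VC.S_Deg) : S_ContF := by
  intro R _ _ p hG
  have hd : p.d p.toTab.i0 + 1 = p.dd := by
    have h := ((hDeg R p).2.2.1.2.2.2.2 p.toTab.i0).1
    have h1 : p.ρ = 1 := by rw [VC.Par.ρ, hG, natDegree_X]
    have h2 : p.κ p.toTab.i0 = 0 := by
      rw [Tab.κ, (p.toTab.y0 p.toTab.i0 rfl).2, zero_add]
      exact Nat.div_eq_of_lt (by have := p.toTab.he.pos; omega)
    omega
  have h1 : ∀ x : Ix p, x.1.1 ≤ 1 := fun x => x.2.1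
  have hS : ∀ x : Ix p, (0 : ℝ) ≤ x.1.2.1 := fun x => Nat.cast_nonneg _
  obtain ⟨-, P, hP, h⟩ := cl_nm h1 hS p.toTab p.r (fun i => cl_sec p (p.g0 i) (i, false))
    fun i => cl_sec p (p.k0 i) (i, true)
  refine ⟨∑ k ∈ P.support, P.coeff k, sum_nonneg fun k _ => hP k, ?_⟩
  intro η S0 L hη h2 h3 s hs k
  have h4 := h ⟨(η, S0, L, s), hη, h2, h3, hs⟩ k
  have h5 : P.coeff k ≤ ∑ k ∈ P.support, P.coeff k := by
    by_cases hk : k ∈ P.support
    · exact single_le_sum (fun k _ => hP k) hk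
    · rw [notMem_support_iff.1 hk]
      exact sum_nonneg fun k _ => hP k
  have h6 : 0 ≤ η := by
    by_contra hn
    have : η * S0 ≤ 0 := mul_nonpos_of_nonpos_of_nonneg (le_of_not_ge hn) (Nat.cast_nonneg _)
    linarith
  simp only [nm_cen p hG hd, coeff_sub, coeff_C_mul, coeff_X_pow] at h4
  have h7 : η * (S0 : ℝ) ^ (2 * p.e) * P.coeff k ≤
      (∑ k ∈ P.support, P.coeff k) * η * (S0 : ℝ) ^ (2 * p.e) := by
    have := mul_le_mul_of_nonneg_left h5 (mul_nonneg h6 (pow_nonneg (Nat.cast_nonneg S0) (2 * p.e)))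
    linarith
  refine le_trans (le_of_eq ?_) (h4.trans h7)
  congr 1
  push_cast
  split_ifs
  · rw [mul_one]
    rfl
  · rw [mul_zero]
    rfl

end Pool.Agent.P.MP_b8021b_nt.KR
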