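import Pool.Agent.P.MP_b8021b_nt.KR.Basic
import Pool.Agent.P.MP_b8021b_nt.KR.BasicP
import Pool.Agent.P.MP_b8021b_nt.VC.PCov1A

/-! Curves with a rational point: passage to the Weil restriction cover. -/

namespace Pool.Agent.P.MP_b8021b_nt.KR

open Finset Pool.Agent.P.MP_b8021b_nt.VE Pool.Agent.P.MP_b8021b_nt.VC
open scoped Classical IntermediateField

namespace PCov

/-- everything that is used of the pull-back along one homomorphism -/
theorem pull (hUp : S_Up) (hLiftC : S_LiftC) (hCrv : VC.S_Crv) (hRes : VC.S_Res) {F M : Type}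
    [Field F] [CharZero F] [Field M] [CharZero M] (hF : IsCurve F) (hM : IsCurve M) {r : ℕ}
    {l : GPt F → Qb → ℝ} {c : Path F →₀ ℝ} (hc : IsCycle c) (hl : Rel r l (regC c))
    (j : F →+* M) : ∃ (res : GPt M → GPt F) (c' : Path M →₀ ℝ) (n : ℕ),
      (∀ q p, Le j q p ↔ res q = p) ∧ IsLift j c c' ∧ IsCycle c' ∧
      (∀ a b, lamC c' a (j b) = lamC c (@Algebra.trace F M _ _ j.toAlgebra a) b) ∧
      Rel r (fun q => l (res q)) (regC c') ∧ n ≠ 0 ∧
      ∀ a b, lamC c' (j a) (j b) = n * lamC c a b := by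
  let _ : Algebra F M := j.toAlgebra
  have := Cov1.fin_hom hCrv hF hM
  obtain ⟨res, e, h1, -⟩ := hRes F M hF
  obtain ⟨⟨c', h2⟩, h3⟩ := hLiftC F M c
  obtain ⟨h4, h5, -⟩ := h3 c' h2
  refine ⟨res, c', Module.finrank F M, h1, h2, h4 hc, h5,
    hUp F M hF r res l c c' (fun q => (h1 q _).2 rfl) hc h2 hl, Module.finrank_pos.ne',
    fun a b => ?_⟩
  have h6 := h5 (algebraMap F M a) b
  rw [Algebra.trace_algebraMap, nsmul_eq_mul, lamC_nsmul_left] at h6
  exact h6

/-- transport along an isomorphism -/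
theorem lam_equiv {M : Type} [Field M] (σ σ' : M →+* M) (h1 : σ.comp σ' = RingHom.id M)
    (h2 : σ'.comp σ = RingHom.id M) {c c' : Path M →₀ ℝ} (h : IsLift σ c c') (x y : M) :
    lamC c' (σ x) (σ y) = lamC c x y := by
  have k1 : ∀ γ : Path M, (γ.comap σ).comap σ' = γ := fun γ => by
    rw [Path.comap_comap, h1, Path.comap_id]
  have k2 : ∀ γ : Path M, (γ.comap σ').comap σ = γ := fun γ => by
    rw [Path.comap_comap, h2, Path.comap_id]
  refine sum_nbij' (fun γ => γ.comap σ) (fun γ => γ.comap σ') (fun γ hγ => ?_) (fun γ hγ => ?_)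
    (fun γ _ => k1 γ) (fun γ _ => k2 γ) fun γ _ => ?_
  · rwa [Finsupp.mem_support_iff, ← h γ, ← Finsupp.mem_support_iff]
  · rwa [Finsupp.mem_support_iff, h, k2, ← Finsupp.mem_support_iff]
  · rw [h γ]
    rfl

/-- the chain rule along a cycle -/
theorem chain (hAn : S_An) (hDer : S_Der) {F : Type} [Field F] [CharZero F] (hF : IsCurve F)
    {f : F} (hf : Transcendental ℚ f) : ∃ D : Derivation ℚ F F, D f = 1 ∧
      ∀ c : Path F →₀ ℝ, IsCycle c → ∀ a b, lamC c a b = lamC c (a * D b) f := by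
  obtain ⟨D, h1, -, -, -, -, h2⟩ := hDer F hF f hf
  refine ⟨D, h1, fun c hc a b => ?_⟩
  obtain ⟨A, h3, -⟩ := hAn F c hc
  rw [← h3, ← h3]
  exact h2 A.Λ A.leib a b

theorem transc {F M : Type} [Field F] [CharZero F] [Field M] [CharZero M] (j : F →+* M) {f : F}
    (hf : Transcendental ℚ f) : Transcendental ℚ (j f) := fun h =>
  hf ((isAlgebraic_algHom_iff j.toRatAlgHom j.injective).1 h)

end PCov

open PCov in
theorem p_cov (hWr : S_Wr) (hUp : S_Up) (hLiftC : S_LiftC) (hAn : S_An) (hGeo : S_Geo) (hTrZ : S_TrZ) (hDer : S_Der) (hReg : S_Reg) (hRegM : S_RegM) (hCrv : VC.S_Crv) (hFin : VC.S_Fin) (hRes : VC.S_Res) : S_Cov := by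
  intro k F _ _ _ _ _ hF O r l c hO hr hc hl φ₀ f₀ hf₀ hφ₀
  obtain ⟨f, M, G, _, _, _, _, _, χ, ω, O', j, hf, hM, hω, hχ, hχ', hO', hj, hρ⟩ :=
    hWr k F hF O r hO hr
  choose res cs n h1 h2 h3 h4 h5 h6 h7 using fun s => pull hUp hLiftC hCrv hRes hF hM hc hl (j s)
  have hcM : IsCycle (∑ s, ((χ s : ℤ) : ℝ) • cs s) := IsCycle.sum _ _ fun s _ => h3 s
  obtain ⟨A, hΛ, hR⟩ := hAn M _ hcM
  have hsq : ∀ g, ((χ g : ℤ) : ℝ) * ((χ g : ℤ) : ℝ) = 1 := fun g => by
    rcases Int.units_eq_one_or (χ g) with h | h <;> rw [h] <;> simp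
  have key := hGeo M G hM χ r ω O' (fun q u => ∑ s, ((χ s : ℤ) : ℝ) * l (res s q) u) A hr hω hχ hχ'
    hO' ((Rel.sum (hFin M hM).1 _ h5).congr fun a b _ _ => by rw [hR, regC_sum])
    (fun g q q' h u _ => by
      have e : ∀ s, res (g * s) q = res s q' := fun s => (h1 _ _ _).1 fun a e he => by
        rw [← hj]
        exact h _ _ ((h1 s q' _).2 rfl a e he)
      rw [← Equiv.sum_comp (Equiv.mulLeft g) fun s => ((χ s : ℤ) : ℝ) * l (res s q) u, mul_sum]
      refine sum_congr rfl fun s _ => ?_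
      rw [Equiv.coe_mulLeft, e, map_mul, Units.val_mul, Int.cast_mul, ← mul_assoc, ← mul_assoc,
        hsq, one_mul])
    (fun g x y => by
      have e : ∀ s, lamC (cs (g * s)) (g • x) (g • y) = lamC (cs s) x y := fun s =>
        lam_equiv (MulSemiringAction.toRingHom G M g) (MulSemiringAction.toRingHom G M g⁻¹)
          (RingHom.ext fun a => smul_inv_smul g a) (RingHom.ext fun a => inv_smul_smul g a)
          (fun γ => by
            rw [h2 (g * s) γ, h2 s, Path.comap_comap]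
            exact congrArg (fun i => c (γ.comap i)) (RingHom.ext fun a => (hj g s a).symm)) x y
      rw [hΛ, hΛ, lamC_sum, lamC_sum,
        ← Equiv.sum_comp (Equiv.mulLeft g) fun s => ((χ s : ℤ) : ℝ) * lamC (cs s) (g • x) (g • y),
        mul_sum]
      refine sum_congr rfl fun s _ => ?_
      rw [Equiv.coe_mulLeft, e, map_mul, Units.val_mul, Int.cast_mul, mul_assoc])
  obtain ⟨D, hD, hch⟩ := chain hAn hDer hF hf
  have hφ : RegV (φ₀ * D f₀) f := (hReg F hF φ₀ f₀ hf₀).2 f D hD hφ₀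
  rw [hch c hc]
  generalize φ₀ * D f₀ = φ at hφ
  have h8 : A.Λ (j 1 φ) (j 1 f) = 0 :=
    key _ _ (transc (j 1) hf) ((hRegM.2 F M (j 1) hF hM φ f).1 hφ)
  rw [hΛ, lamC_sum, sum_eq_single 1 (fun s _ hs => ?_) fun h => (h (mem_univ _)).elim, h7,
    map_one, Units.val_one, Int.cast_one, one_mul] at h8
  · exact (mul_eq_zero.1 h8).resolve_left (Nat.cast_ne_zero.2 (h6 1))
  · obtain ⟨ρ, h9, h10⟩ := hρ s hs
    obtain ⟨D', hD', hch'⟩ := chain hAn hDer hM (transc (j s) hf)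
    rw [hch' _ (h3 s), h9, hD', mul_one, h4, h10 φ (hTrZ k F hF φ f hf hφ), lamC_zero_left,
      mul_zero]

end Pool.Agent.P.MP_b8021b_nt.KR
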