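import Pool.Agent.P.MP_b8021b_nt.KR.St
import Pool.Agent.P.MP_b8021b_nt.VE.BasicS

/-! Logarithmic derivatives at a geometric point. -/

namespace Pool.Agent.P.MP_b8021b_nt.KR

open Polynomial Pool.Agent.P.MP_b8021b_nt.VE Pool.Agent.P.MP_b8021b_nt.VC
open scoped Classical IntermediateField

namespace PDL

variable {F : Type} [Field F]

/-- an element of a valuation ring over a Dedekind ring has a denominator outside the centre -/
theorem denom {R : Type} [CommRing R] [IsDedekindDomain R] [Algebra R F] [IsFractionRing R F]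
    (p : GPt F) (hR : ∀ r, algebraMap R F r ∈ p.v.valuationSubring) {b : F}
    (hb : b ∈ p.v.valuationSubring) :
    ∃ s r : R, p.v (algebraMap R F s) = 1 ∧ algebraMap R F s * b = algebraMap R F r := by
  obtain ⟨x, y, hy, rfl⟩ := IsFractionRing.div_surjective (A := R) b
  have hy0 : y ≠ 0 := nonZeroDivisors.ne_zero hy
  have hy1 : algebraMap R F y ≠ 0 := by simpa using hy0
  let I : Ideal R := Ideal.span {x} ⊔ Ideal.span {y}
  have hI : I ≠ 0 := by
    intro h
    have : y ∈ I := Ideal.mem_sup_right (Ideal.mem_span_singleton_self y)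
    rw [h] at this
    exact hy0 this
  obtain ⟨J, hJ⟩ : I ∣ Ideal.span {y} := Ideal.dvd_iff_le.2 le_sup_right
  obtain ⟨J', hJ'⟩ : I ∣ Ideal.span {x} := Ideal.dvd_iff_le.2 le_sup_left
  have h1 : J' ⊔ J = 1 := by
    refine mul_left_cancel₀ hI ?_
    rw [Ideal.mul_sup, ← hJ, ← hJ', mul_one]
  obtain ⟨s', hs', s, hs, hss⟩ := Submodule.mem_sup.1
    (show (1 : R) ∈ J' ⊔ J by rw [h1, Ideal.one_eq_top]; exact Submodule.mem_top)
  by_cases h : p.v (algebraMap R F s) < 1
  · have h2 : p.v (algebraMap R F s') = 1 := by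
      refine le_antisymm (hR s') (not_lt.1 fun h' => ?_)
      have h3 := p.v.map_add_lt h' h
      rw [← map_add, hss, map_one, map_one] at h3
      exact lt_irrefl _ h3
    have h3 : y * s' ∈ Ideal.span {x} :=
      hJ' ▸ Ideal.mul_mem_mul (Ideal.mem_sup_right (Ideal.mem_span_singleton_self y)) hs'
    obtain ⟨c, hc⟩ := Ideal.mem_span_singleton'.1 h3
    have h4 : algebraMap R F c * (algebraMap R F x / algebraMap R F y) = algebraMap R F s' := by
      rw [← mul_div_assoc, ← map_mul, hc, map_mul, mul_div_cancel_left₀ _ hy1]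
    refine ⟨c, s', le_antisymm (hR c) ?_, h4⟩
    rw [← h2, ← h4, map_mul]
    exact mul_le_of_le_one_right' hb
  · have h3 : x * s ∈ Ideal.span {y} :=
      hJ ▸ Ideal.mul_mem_mul (Ideal.mem_sup_left (Ideal.mem_span_singleton_self x)) hs
    obtain ⟨c, hc⟩ := Ideal.mem_span_singleton'.1 h3
    refine ⟨s, c, le_antisymm (hR s) (not_lt.1 h), ?_⟩
    rw [← mul_div_assoc, ← map_mul, mul_comm s, ← hc, map_mul, mul_div_cancel_right₀ _ hy1]

/-- every element has a pole of finite order -/
theorem exists_pow (p : GPt F) {π : F} (hπ : p.ord π = 1) (x : F) :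
    ∃ N : ℕ, π ^ N * x ∈ p.v.valuationSubring := by
  have h0 : π ≠ 0 := by
    rintro rfl
    rw [p.ord_zero] at hπ
    exact zero_ne_one hπ
  rcases eq_or_ne x 0 with rfl | hx
  · exact ⟨0, by simp⟩
  · refine ⟨(p.ord x).natAbs, (p.ord_nonneg_iff (mul_ne_zero (pow_ne_zero _ h0) hx)).1 ?_⟩
    rw [p.ord_mul (pow_ne_zero _ h0) hx, p.ord_pow, hπ]
    omega

theorem pow_mono (p : GPt F) {π x : F} (hπ : π ∈ p.v.valuationSubring) {N M : ℕ} (h : N ≤ M)
    (hx : π ^ N * x ∈ p.v.valuationSubring) : π ^ M * x ∈ p.v.valuationSubring := by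
  obtain ⟨k, rfl⟩ := Nat.exists_eq_add_of_le h
  rw [add_comm, pow_add, mul_assoc]
  exact mul_mem (pow_mem hπ k) hx

variable [CharZero F]

open scoped IntermediateField.algebraAdjoinAdjoin in
/-- the derivation has bounded pole order on the local ring -/
theorem bounded (p : GPt F) {π : F} (hπ : p.ord π = 1) (ht : Transcendental ℚ π)
    [FiniteDimensional ℚ⟮π⟯ F] (D : Derivation ℚ F F) (hD : D π = 1) :
    ∃ N : ℕ, ∀ b ∈ p.v.valuationSubring, π ^ N * D b ∈ p.v.valuationSubring := by
  have hπV : π ∈ p.v.valuationSubring := by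
    by_contra h
    have := (p.ord_neg_iff π).2 h
    omega
  let A := Algebra.adjoin ℚ {π}
  let e : ℚ[X] ≃ₐ[ℚ] A := Polynomial.algEquivOfTranscendental ℚ π ht
  have : IsPrincipalIdealRing A := IsPrincipalIdealRing.of_surjective e e.surjective
  let R := integralClosure A F
  have : IsDedekindDomain R := integralClosure.isDedekindDomain A ℚ⟮π⟯ F
  have : IsFractionRing R F := integralClosure.isFractionRing_of_finite_extension ℚ⟮π⟯ F
  have hfin : Module.Finite A R := IsIntegralClosure.finite _ ℚ⟮π⟯ F R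
  have hA : ∀ a : A, (a : F) ∈ p.v.valuationSubring ∧ D a ∈ p.v.valuationSubring := by
    rintro ⟨a, ha⟩
    show a ∈ p.v.valuationSubring ∧ D a ∈ p.v.valuationSubring
    induction ha using Algebra.adjoin_induction with
    | mem x hx =>
      rw [Set.mem_singleton_iff.1 hx, hD]
      exact ⟨hπV, one_mem _⟩
    | algebraMap q =>
      rw [D.map_algebraMap]
      exact ⟨(p.val_rat q).mem, zero_mem _⟩
    | add x y _ _ h1 h2 =>
      rw [map_add]
      exact ⟨add_mem h1.1 h2.1, add_mem h1.2 h2.2⟩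
    | mul x y _ _ h1 h2 =>
      rw [D.leibniz, smul_eq_mul, smul_eq_mul]
      exact ⟨mul_mem h1.1 h2.1, add_mem (mul_mem h1.1 h2.2) (mul_mem h2.1 h1.2)⟩
  have hR : ∀ r : R, algebraMap R F r ∈ p.v.valuationSubring := by
    intro r
    obtain ⟨P, hP, h0⟩ := r.2
    let j : A →+* p.v.integer := (algebraMap A F).codRestrict p.v.integer fun a => (hA a).1
    refine (Valuation.integer.integers p.v).mem_of_integral ⟨P.map j, hP.map j, ?_⟩
    rw [eval₂_map]
    exact h0
  obtain ⟨n, z, hz⟩ := Module.Finite.exists_fin (R := A) (M := R)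
  choose k hk using fun i => exists_pow p hπ (D (algebraMap R F (z i)))
  let N := Finset.univ.sup k
  have hRD : ∀ r : R, π ^ N * D (algebraMap R F r) ∈ p.v.valuationSubring := by
    intro r
    have hr : r ∈ Submodule.span A (Set.range z) := hz ▸ Submodule.mem_top
    induction hr using Submodule.span_induction with
    | mem y hy =>
      obtain ⟨i, rfl⟩ := hy
      exact pow_mono p hπV (Finset.le_sup (f := k) (Finset.mem_univ i)) (hk i)
    | zero => simp
    | add x y _ _ h1 h2 =>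
      rw [map_add, map_add, mul_add]
      exact add_mem h1 h2
    | smul c y _ h1 =>
      have h2 : algebraMap R F (c • y) = (c : F) * algebraMap R F y := rfl
      rw [h2, D.leibniz, smul_eq_mul, smul_eq_mul, mul_add, mul_left_comm]
      exact add_mem (mul_mem (hA c).1 h1)
        (mul_mem (pow_mem hπV N) (mul_mem (hR y) (hA c).2))
  refine ⟨N, fun b hb => ?_⟩
  obtain ⟨s, r, hs, hsb⟩ := denom p hR hb
  have hs0 : algebraMap R F s ≠ 0 := by
    intro h
    rw [h, map_zero] at hs
    exact zero_ne_one hs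
  have hsi : (algebraMap R F s)⁻¹ ∈ p.v.valuationSubring := by
    rw [p.mem_iff, map_inv₀, hs, inv_one]
  have h1 := congrArg D hsb
  rw [D.leibniz, smul_eq_mul, smul_eq_mul] at h1
  have h2 : π ^ N * D b = (algebraMap R F s)⁻¹ *
      (π ^ N * D (algebraMap R F r) - b * (π ^ N * D (algebraMap R F s))) := by
    rw [← h1]
    field_simp
    ring
  rw [h2]
  exact mul_mem hsi (sub_mem (hRD r) (mul_mem hb (hRD s)))

/-- the bound improves by one -/
theorem improve (p : GPt F) {π : F} (hπ : p.ord π = 1) (D : Derivation ℚ F F) (hD : D π = 1)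
    (N : ℕ) (h : ∀ b ∈ p.v.valuationSubring, π ^ (N + 1) * D b ∈ p.v.valuationSubring) :
    ∀ b ∈ p.v.valuationSubring, π ^ N * D b ∈ p.v.valuationSubring := by
  intro b hb
  have hπV : π ∈ p.v.valuationSubring := by
    by_contra h
    have := (p.ord_neg_iff π).2 h
    omega
  have h0 : π ≠ 0 := by
    rintro rfl
    rw [p.ord_zero] at hπ
    exact zero_ne_one hπ
  obtain ⟨c, hc⟩ := p.exists_val hb
  have hval : ∀ g : ℚ[X], p.Val (aeval b g) (aeval c g) := fun g =>
    p.val_eval₂ (fun q => p.val_rat q) hc g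
  have hm : p.Val (aeval b (minpoly ℚ c)) 0 := minpoly.aeval ℚ c ▸ hval _
  have hci : IsIntegral ℚ c := ((AlgebraicClosure.isAlgebraic ℚ).isAlgebraic c).isIntegral
  have hsep : (minpoly ℚ c).Separable := (minpoly.irreducible hci).separable
  have hd : aeval c (derivative (minpoly ℚ c)) ≠ 0 :=
    hsep.aeval_derivative_ne_zero (minpoly.aeval ℚ c)
  have hu := (hval (derivative (minpoly ℚ c))).inv hd
  have hu0 := (hval (derivative (minpoly ℚ c))).ne_zero hd
  have hb1 : aeval b (minpoly ℚ c) / π ∈ p.v.valuationSubring := by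
    rcases eq_or_ne (aeval b (minpoly ℚ c)) 0 with h1 | h1
    · rw [h1, zero_div]
      exact zero_mem _
    · rw [← p.ord_nonneg_iff (div_ne_zero h1 h0), p.ord_div h1 h0, hπ]
      have := hm.ord_pos h1
      omega
  have h2 : aeval b (minpoly ℚ c) = π * (aeval b (minpoly ℚ c) / π) := by field_simp
  have h3 := congrArg D h2
  rw [D.map_aeval, D.leibniz, hD, smul_eq_mul, smul_eq_mul, smul_eq_mul, mul_one] at h3
  have h4 : π ^ N * D b = (aeval b (derivative (minpoly ℚ c)))⁻¹ *
      (π ^ (N + 1) * D (aeval b (minpoly ℚ c) / π) + π ^ N * (aeval b (minpoly ℚ c) / π)) := by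
    rw [pow_succ, mul_assoc, ← mul_add, ← h3, mul_left_comm, inv_mul_cancel_left₀ hu0]
  rw [h4]
  exact mul_mem hu.mem (add_mem (h _ hb1) (mul_mem (pow_mem hπV N) hb1))

/-- the logarithmic derivative with respect to a uniformiser -/
theorem val_log (p : GPt F) {π : F} (hπ : p.ord π = 1) (D : Derivation ℚ F F) (hD : D π = 1)
    (h : ∀ b ∈ p.v.valuationSubring, D b ∈ p.v.valuationSubring) {a : F} (ha : a ≠ 0) :
    p.Val (π * (D a / a)) (p.ord a : Qb) := by
  have h0 : π ≠ 0 := by
    rintro rfl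
    rw [p.ord_zero] at hπ
    exact zero_ne_one hπ
  have hz : ∀ n : ℤ, p.ord (π ^ n) = n := by
    intro n
    obtain ⟨m, rfl | rfl⟩ := n.eq_nat_or_neg
    · rw [zpow_natCast, p.ord_pow, hπ, mul_one]
    · rw [zpow_neg, zpow_natCast, p.ord_inv, p.ord_pow, hπ, mul_one]
  obtain ⟨n, hn⟩ : ∃ n, p.ord a = n := ⟨_, rfl⟩
  have hpn : π ^ n ≠ 0 := zpow_ne_zero n h0
  obtain ⟨u, hu⟩ : ∃ u, u = a / π ^ n := ⟨_, rfl⟩
  have hu0 : u ≠ 0 := hu ▸ div_ne_zero ha hpn
  have hou : p.ord u = 0 := by rw [hu, p.ord_div ha hpn, hz, hn, sub_self]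
  have hau : a = π ^ n * u := by rw [hu]; field_simp
  obtain ⟨c, hc0, hc⟩ := p.exists_val_ne hu0 hou
  obtain ⟨d, hd⟩ := p.exists_val (h u hc.mem)
  have h1 := ((p.val_zero_of_ord_pos (a := π) (by omega)).mul (hd.div hc hc0)).add
    (p.val_intCast n)
  have h2 : π * (D a / a) = π * (D u / u) + n := by
    rw [hau, D.leibniz, D.leibniz_zpow, hD, zpow_sub_one₀ h0]
    simp only [smul_eq_mul, zsmul_eq_mul]
    field_simp
  rw [h2, hn]
  simpa using h1

end PDL

open PDL

theorem p_dL (hDer : S_Der) (hCrv : VC.S_Crv) : S_DL := by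
  intro F _ _ hF D p a g ha hg hDg
  obtain ⟨π, hπv⟩ := p.surj (WithZero.exp (-1))
  have hπ : p.ord π = 1 := by rw [GPt.ord, hπv, WithZero.log_exp, neg_neg]
  have ht : Transcendental ℚ π := by
    intro hw
    have : FiniteDimensional ℚ ℚ⟮π⟯ := IntermediateField.adjoin.finiteDimensional hw.isIntegral
    have h1 : p.ord π = 0 :=
      p.ord_alg (algebraMap ℚ⟮π⟯ F) (IntermediateField.AdjoinSimple.gen ℚ π)
    omega
  have h0 : π ≠ 0 := by
    rintro rfl
    rw [p.ord_zero] at hπ
    exact zero_ne_one hπ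
  have hg0 : g ≠ 0 := by
    rintro rfl
    exact hg p.ord_zero
  have : FiniteDimensional ℚ⟮π⟯ F := (hCrv.2.1 ℚ F π ht).1 hF
  obtain ⟨D0, hD0, -, -, -, hch, -⟩ := hDer F hF π ht
  have hD : ∀ x, D x = D0 x * D π := by
    intro x
    have h1 := congrArg D.liftKaehlerDifferential (hch x)
    rwa [map_smul, D.liftKaehlerDifferential_comp_D, D.liftKaehlerDifferential_comp_D,
      smul_eq_mul] at h1
  obtain ⟨N, hN⟩ := bounded p hπ ht D0 hD0
  have hint : ∀ b ∈ p.v.valuationSubring, D0 b ∈ p.v.valuationSubring := by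
    induction N with
    | zero => simpa using hN
    | succ N ih => exact ih (improve p hπ D0 hD0 N hN)
  have hDπ : D π ≠ 0 := by
    intro h
    rw [hD g, h, mul_zero] at hDg
    exact hDg rfl
  have hD0g : D0 g ≠ 0 := by
    intro h
    rw [hD g, h, zero_mul] at hDg
    exact hDg rfl
  have h1 : D a / a / (D g / g) = π * (D0 a / a) / (π * (D0 g / g)) := by
    rw [hD a, hD g]
    field_simp
  rw [h1]
  exact (val_log p hπ D0 hD0 hint ha).div (val_log p hπ D0 hD0 hint hg0) (Int.cast_ne_zero.2 hg)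

end Pool.Agent.P.MP_b8021b_nt.KR
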