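import Pool.Agent.P.MP_b8021b_nt.KR.St

/-! The derivation attached to a transcendental function on a curve, and the chain rule. -/

namespace Pool.Agent.P.MP_b8021b_nt.KR

open Polynomial Pool.Agent.P.MP_b8021b_nt.VE Pool.Agent.P.MP_b8021b_nt.VC
open scoped IntermediateField TensorProduct

namespace PDer

variable {F : Type} [Field F] [CharZero F]

/-- the elements on which a Leibniz pairing vanishes -/
def killed {A : Type} [AddCommGroup A] (Λ : F →+ F →+ A)
    (hL : ∀ a b c, Λ a (b * c) = Λ (a * b) c + Λ (a * c) b) : Subfield F where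
  carrier := {b | ∀ a, Λ a b = 0}
  mul_mem' := fun {b c} hb hc a => by rw [hL, hb, hc, add_zero]
  one_mem' := fun a => by
    have h := hL a 1 1
    simp only [mul_one] at h
    exact left_eq_add.1 h
  add_mem' := fun {b c} hb hc a => by rw [map_add, hb, hc, add_zero]
  zero_mem' := fun a => map_zero _
  neg_mem' := fun {b} hb a => by rw [map_neg, hb, neg_zero]
  inv_mem' := fun b hb a => by
    by_cases h0 : b = 0
    · rw [h0, inv_zero, map_zero]
    · have h1 : ∀ a, Λ a 1 = 0 := fun a => by
        have h := hL a 1 1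
        simp only [mul_one] at h
        exact left_eq_add.1 h
      have h := hL (a * b⁻¹) b b⁻¹
      rw [mul_inv_cancel₀ h0, h1, hb, add_zero, mul_assoc, inv_mul_cancel₀ h0, mul_one] at h
      exact h.symm

omit [CharZero F] in
theorem pow_eq {A : Type} [AddCommGroup A] (Λ : F →+ F →+ A)
    (hL : ∀ a b c, Λ a (b * c) = Λ (a * b) c + Λ (a * c) b) (x : F) (n : ℕ) :
    ∀ a, Λ a (x ^ (n + 1)) = Λ (a * (((n : F) + 1) * x ^ n)) x := by
  induction n with
  | zero => intro a; simp
  | succ n ih =>
    intro a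
    rw [pow_succ, hL, ih, ← AddMonoidHom.add_apply, ← map_add]
    congr 2
    push_cast
    ring

/-- a Leibniz pairing that kills `f` vanishes -/
theorem zero_of {A : Type} [AddCommGroup A] (Λ : F →+ F →+ A)
    (hL : ∀ a b c, Λ a (b * c) = Λ (a * b) c + Λ (a * c) b) (f : F)
    [Algebra.IsAlgebraic ℚ⟮f⟯ F] (hf : ∀ a, Λ a f = 0) (a x : F) : Λ a x = 0 := by
  have hK : ∀ c : ℚ⟮f⟯, ∀ a, Λ a (algebraMap ℚ⟮f⟯ F c) = 0 := by
    intro c
    have hle : ℚ⟮f⟯ ≤ (killed Λ hL).toIntermediateField
        (fun q => by rw [eq_ratCast]; exact SubfieldClass.ratCast_mem _ q) :=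
      IntermediateField.adjoin_simple_le_iff.2 hf
    exact hle c.2
  have key : ∀ p : ℚ⟮f⟯[X], ∀ a, Λ a (aeval x p) = Λ (a * aeval x (derivative p)) x := by
    intro p
    induction p using Polynomial.induction_on' with
    | add p q hp hq => intro a; simp [hp, hq, mul_add]
    | monomial n c =>
      intro a
      rw [aeval_monomial, derivative_monomial, aeval_monomial, hL, hK, add_zero]
      cases n with
      | zero => simpa using (killed Λ hL).one_mem _
      | succ n =>
        rw [pow_eq Λ hL]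
        congr 2
        simp only [map_mul, map_natCast, Nat.add_sub_cancel]
        push_cast
        ring
  have hi : IsIntegral ℚ⟮f⟯ x := (Algebra.IsAlgebraic.isAlgebraic x).isIntegral
  have hs : (minpoly ℚ⟮f⟯ x).Separable := (minpoly.irreducible hi).separable
  have hne := hs.aeval_derivative_ne_zero (minpoly.aeval ℚ⟮f⟯ x)
  have h0 := key (minpoly ℚ⟮f⟯ x) (a * (aeval x (derivative (minpoly ℚ⟮f⟯ x)))⁻¹)
  rw [minpoly.aeval, map_zero, mul_assoc, inv_mul_cancel₀ hne, mul_one] at h0
  exact h0.symm

/-- extension of derivations along an algebraic extension -/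
theorem ext_aux {S : Type} [CommRing S] [Algebra ℚ S] [Algebra S F]
    [IsScalarTower ℚ S F] (hinj : Function.Injective (algebraMap S F))
    (halg : Algebra.IsAlgebraic S F) (d : Derivation ℚ S F) :
    ∃ D : Derivation ℚ F F, ∀ x, D (algebraMap S F x) = d x := by
  have : IsDomain S := hinj.isDomain _
  have : FaithfulSMul S F := (faithfulSMul_iff_algebraMap_injective S F).2 hinj
  let : Algebra (FractionRing S) F := FractionRing.liftAlgebra S F
  have : IsScalarTower S (FractionRing S) F := FractionRing.isScalarTower_liftAlgebra S F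
  have : Algebra.IsAlgebraic (FractionRing S) F :=
    Algebra.IsAlgebraic.extendScalars (R := S) (IsFractionRing.injective S (FractionRing S))
  have : CharZero (FractionRing S) := (algebraMap (FractionRing S) F).charZero
  have : Algebra.FormallyEtale S (FractionRing S) :=
    Algebra.FormallyEtale.of_isLocalization (nonZeroDivisors S)
  have : Algebra.FormallyEtale (FractionRing S) F :=
    Algebra.FormallyEtale.of_isSeparable (FractionRing S) F
  have : Algebra.FormallyEtale S F := Algebra.FormallyEtale.comp S (FractionRing S) F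
  let e := KaehlerDifferential.tensorKaehlerEquivOfFormallyEtale ℚ S F
  let φ : F ⊗[S] Ω[S⁄ℚ] →ₗ[F] F := d.liftKaehlerDifferential.liftBaseChange F
  refine ⟨(φ ∘ₗ e.symm.toLinearMap).compDer (KaehlerDifferential.D ℚ F), fun x => ?_⟩
  change φ (e.symm (KaehlerDifferential.D ℚ F (algebraMap S F x))) = d x
  rw [KaehlerDifferential.tensorKaehlerEquivOfFormallyEtale_symm_D_algebraMap]
  simp [φ]

theorem exists_der (f : F) (hf : Transcendental ℚ f) [Algebra.IsAlgebraic ℚ⟮f⟯ F] :
    ∃ D : Derivation ℚ F F, D f = 1 := by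
  let : Algebra ℚ[X] F := (aeval f : ℚ[X] →ₐ[ℚ] F).toRingHom.toAlgebra
  have hmap : ∀ p : ℚ[X], algebraMap ℚ[X] F p = aeval f p := fun _ => rfl
  have : IsScalarTower ℚ ℚ[X] F := IsScalarTower.of_algebraMap_eq fun q => by
    rw [hmap, AlgHom.commutes]
  have hinj : Function.Injective (algebraMap ℚ[X] F) := transcendental_iff_injective.1 hf
  have halg : Algebra.IsAlgebraic ℚ[X] F := by
    refine ⟨fun x => ?_⟩
    have h1 : IsAlgebraic (Algebra.adjoin ℚ {f}) x :=
      IntermediateField.isAlgebraic_adjoin_iff.1 (Algebra.IsAlgebraic.isAlgebraic x)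
    obtain ⟨p, hp, hpz⟩ := h1
    let e := Polynomial.algEquivOfTranscendental ℚ f hf
    refine ⟨p.map (e.symm : Algebra.adjoin ℚ {f} →+* ℚ[X]),
      (Polynomial.map_ne_zero_iff e.symm.injective).2 hp, ?_⟩
    rw [aeval_def, eval₂_map]
    have : (algebraMap ℚ[X] F).comp (e.symm : Algebra.adjoin ℚ {f} →+* ℚ[X]) =
        algebraMap (Algebra.adjoin ℚ {f}) F := by
      ext y
      obtain ⟨q, rfl⟩ := e.surjective y
      simp [hmap, e]
    rw [this]
    exact hpz
  obtain ⟨D, hD⟩ := ext_aux hinj halg (Polynomial.mkDerivation ℚ (1 : F))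
  refine ⟨D, ?_⟩
  have := hD X
  rwa [hmap, aeval_X, Polynomial.mkDerivation_X] at this

/-- the pairing `(a, b) ↦ a • d b` of a derivation -/
def pairOf {M : Type} [AddCommGroup M] [Module F M] [Module ℚ M] (d : Derivation ℚ F M) :
    F →+ F →+ M :=
  AddMonoidHom.mk' (fun a => AddMonoidHom.mk' (fun b => a • d b) fun b c => by
    rw [map_add, smul_add]) fun a a' => by
    ext b
    simp [add_smul]

theorem pairOf_apply {M : Type} [AddCommGroup M] [Module F M] [Module ℚ M]
    (d : Derivation ℚ F M) (a b : F) : pairOf d a b = a • d b := rfl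

theorem pairOf_leib {M : Type} [AddCommGroup M] [Module F M] [Module ℚ M]
    (d : Derivation ℚ F M) (a b c : F) :
    pairOf d a (b * c) = pairOf d (a * b) c + pairOf d (a * c) b := by
  simp only [pairOf_apply, Derivation.leibniz, smul_add, mul_smul]

/-- the chain rule for Leibniz pairings -/
theorem chain {A : Type} [AddCommGroup A] (Λ : F →+ F →+ A)
    (hL : ∀ a b c, Λ a (b * c) = Λ (a * b) c + Λ (a * c) b) (f : F)
    [Algebra.IsAlgebraic ℚ⟮f⟯ F] (D : Derivation ℚ F F) (hD : D f = 1) (a b : F) :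
    Λ a b = Λ (a * D b) f := by
  let Γ : F →+ F →+ A := Λ - (pairOf D).compr₂ (Λ.flip f)
  have hΓ : ∀ a b, Γ a b = Λ a b - Λ (a * D b) f := fun a b => rfl
  have h := zero_of Γ (fun a b c => by
    rw [hΓ, hΓ, hΓ, hL, Derivation.leibniz, smul_eq_mul, smul_eq_mul, mul_add, map_add,
      AddMonoidHom.add_apply, mul_assoc, mul_assoc]
    abel) f (fun a => by rw [hΓ, hD, mul_one, sub_self]) a b
  rw [hΓ] at h
  exact sub_eq_zero.1 h

end PDer

theorem p_der (hC : VC.S_Crv) : S_Der := by
  intro F _ _ hF f hf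
  have alg : ∀ g : F, Transcendental ℚ g → Algebra.IsAlgebraic ℚ⟮g⟯ F := fun g hg => by
    have : FiniteDimensional ℚ⟮g⟯ F := (hC.2.1 ℚ F g hg).1 hF
    infer_instance
  have := alg f hf
  obtain ⟨D, hD⟩ := PDer.exists_der f hf
  have hch : ∀ g, KaehlerDifferential.D ℚ F g = D g • KaehlerDifferential.D ℚ F f := fun g => by
    have h := PDer.chain (PDer.pairOf (KaehlerDifferential.D ℚ F)) (PDer.pairOf_leib _) f D hD 1 g
    rwa [PDer.pairOf_apply, PDer.pairOf_apply, one_smul, one_mul] at h
  refine ⟨D, hD, fun g hg h0 => ?_, fun ω => ?_, fun φ hφ => ?_, hch,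
    fun Λ hL a b => PDer.chain Λ hL f D hD a b⟩
  · have := alg g hg
    have h := PDer.zero_of (PDer.pairOf D) (PDer.pairOf_leib D) g
      (fun a => by rw [PDer.pairOf_apply, h0, smul_zero]) 1 f
    rw [PDer.pairOf_apply, hD, one_smul] at h
    exact one_ne_zero h
  · have hω : ω ∈ Submodule.span F (Set.range (KaehlerDifferential.D ℚ F)) := by
      rw [KaehlerDifferential.span_range_derivation]
      trivial
    have hle : Submodule.span F (Set.range (KaehlerDifferential.D ℚ F)) ≤
        Submodule.span F {KaehlerDifferential.D ℚ F f} := by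
      rw [Submodule.span_le]
      rintro _ ⟨g, rfl⟩
      exact Submodule.mem_span_singleton.2 ⟨D g, (hch g).symm⟩
    obtain ⟨φ, hφ⟩ := Submodule.mem_span_singleton.1 (hle hω)
    exact ⟨φ, hφ.symm⟩
  · have h := congrArg D.liftKaehlerDifferential hφ
    rwa [map_smul, Derivation.liftKaehlerDifferential_comp_D, hD, map_zero, smul_eq_mul,
      mul_one] at h

end Pool.Agent.P.MP_b8021b_nt.KR
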