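import Pool.Agent.P.MP_b8021b_nt.KR.Basic

/-! Push-forward of functionals and restriction of the pairing along a finite extension. -/

namespace Pool.Agent.P.MP_b8021b_nt.KR

open Polynomial Finset Pool.Agent.P.MP_b8021b_nt.VE Pool.Agent.P.MP_b8021b_nt.VC
open scoped Classical

namespace PDown

open PTrans

variable {F M : Type} [Field F] [Field M]

theorem l_pow {l : GPt M → Qb → ℝ} (hl : Ad l) (q : GPt M) {u : Qb} (hu : u ≠ 0) (n : ℕ) :
    l q (u ^ n) = n * l q u := by
  induction n with
  | zero => simpa using hl.one q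
  | succ n ih =>
    rw [pow_succ, hl q _ _ (pow_ne_zero n hu) hu, ih]
    push_cast
    ring

theorem b_down {l : GPt M → Qb → ℝ} (hl : Ad l) (j : F →+* M) (p : GPt F) (q : GPt M) (e : ℕ)
    (hle : Le j q p) (he : ∀ a, q.ord (j a) = e * p.ord a) {f g : F} (hf : f ≠ 0) (hg : g ≠ 0) :
    b l q (j f) (j g) = e * l q (val p (ts p f g)) := by
  have hU := ts_U p hf hg
  have e1 : ts q (j f) (j g) = j (ts p f g ^ e) := by
    rw [ts, ts, he, he, map_pow, map_div₀, map_zpow₀, map_zpow₀, div_pow, ← zpow_natCast,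
      ← zpow_natCast, ← zpow_mul, ← zpow_mul, mul_comm (e : ℤ), mul_comm (e : ℤ)]
  rw [b, e1, PTrans.lam, val_eq (hle _ _ (hU.val.2.pow e)), l_pow hl q hU.val.1]

end PDown

open PTrans in
theorem p_down (hFin : VC.S_Fin) (hRes : VC.S_Res) : S_Down := by
  intro F M _ _ _ _ _ hF r res e l R hres he ⟨hl, hV⟩
  obtain ⟨res', e', h1, -, h3, -⟩ := hRes F M hF
  obtain ⟨hf1, -⟩ := hFin F hF
  have hfin : ∀ p, {q | res q = p}.Finite := fun p =>
    (h3 p).1.subset fun q hq => (h1 q p).1 (hq ▸ hres q)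
  have hsum : ∀ (p : GPt F) (φ : GPt M → ℝ),
      ∑ᶠ q ∈ {q | res q = p}, φ q = ∑ q ∈ (hfin p).toFinset, φ q := fun p φ =>
    finsum_mem_eq_finite_toFinset_sum φ (hfin p)
  have hmem : ∀ q p, q ∈ (hfin p).toFinset ↔ res q = p := fun q p => Set.Finite.mem_toFinset _
  refine ⟨fun p u v hu hv => ?_, (hV.comap (algebraMap F M)).congr fun f g hf hg => ?_⟩
  · simp only [hsum]
    rw [← sum_add_distrib]
    exact sum_congr rfl fun q _ => by rw [hl q u v hu hv, mul_add]
  · have hT : ({p : GPt F | p.ord f ≠ 0} ∪ {p : GPt F | p.ord g ≠ 0}).Finite :=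
      (hf1 f hf).union (hf1 g hg)
    have hout : ∀ p, p ∉ hT.toFinset → val p (ts p f g) = 1 := fun p hp => by
      rw [Set.Finite.mem_toFinset, Set.mem_union, not_or] at hp
      rw [ts, not_not.1 hp.1, not_not.1 hp.2, zpow_zero, zpow_zero, div_one, val_eq p.val_one]
    have key : ∀ q, b l q (algebraMap F M f) (algebraMap F M g) =
        e q * l q (val (res q) (ts (res q) f g)) := fun q =>
      PDown.b_down hl _ _ q _ (hres q) (he q) hf hg
    refine congrArg (· - R (algebraMap F M f) (algebraMap F M g)) ?_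
    simp only [B, key]
    rw [finsum_eq_sum_of_support_subset (s := hT.toFinset) _ fun p hp => ?_,
      finsum_eq_sum_of_support_subset (s := hT.toFinset.biUnion fun p => (hfin p).toFinset)
        _ fun q hq => ?_, sum_biUnion fun p _ p' _ hpp => ?_]
    · refine sum_congr rfl fun p _ => ?_
      rw [b, PTrans.lam, hsum]
      exact sum_congr rfl fun q hq => by rw [(hmem q p).1 hq]
    · refine disjoint_left.2 fun q hq hq' => hpp ?_
      rw [← (hmem q p).1 hq, ← (hmem q p').1 hq']
    · rw [mem_coe, mem_biUnion]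
      refine ⟨res q, by_contra fun h => hq ?_, (hmem q _).2 rfl⟩
      simp only [hout _ h, hl.one, mul_zero]
    · by_contra h
      refine hp ?_
      simp only [b, PTrans.lam, hsum, hout p h, hl.one, mul_zero, sum_const_zero]

end Pool.Agent.P.MP_b8021b_nt.KR
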