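import Pool.Agent.P.MP_b8021b_nt.KR.St
import Pool.Agent.P.MP_b8021b_nt.VC.PCore
import Pool.Agent.P.MP_b8021b_nt.VC.BasicA
import Pool.Agent.P.MP_b8021b_nt.VC.BRig

/-! The core statement from the cochain, the design, its rigidity and the regulator term. -/

namespace Pool.Agent.P.MP_b8021b_nt.KR

open Polynomial Finset Pool.Agent.P.MP_b8021b_nt.VE Pool.Agent.P.MP_b8021b_nt.VC
open scoped Classical IntermediateField

namespace PEng

/-- the Remez inequality on one section -/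
theorem one {d d' Nc : ℕ} {C δ ϑ : ℝ} {T : Type} [Fintype T] (β : Box T Nc) (hϑ : ϑ ≤ 1 / 2)
    (hη : 0 < β.η)
    (hR : ∀ (F g R : ℝ → ℝ) (Q : ℝ[X]) (a₀ κ c M : ℝ),
      Q.natDegree ≤ d' → (∀ a ∈ Set.Icc β.τ0 (β.τ0 + β.η), 0 < F a) →
      (∀ a ∈ Set.Icc β.τ0 (β.τ0 + β.η), ∀ a' ∈ Set.Icc β.τ0 (β.τ0 + β.η), F a ≤ 2 * F a') →
      (∀ a ∈ Set.Icc β.τ0 (β.τ0 + β.η), HasDerivAt R (g a) a) →
      a₀ ∈ Set.Icc β.τ0 (β.τ0 + β.η) →
      (∀ a ∈ Set.Icc β.τ0 (β.τ0 + β.η), |F a * g a - Q.eval a| ≤ ϑ * |Q.eval a₀|) → 0 ≤ M →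
      (1 - δ) * (Nc : ℝ) ^ 2 ≤ ((univ.filter fun e => ∃ t, β.cell t = e ∧
        |R (β.τ t) + κ * Real.log (β.b t) + c| ≤ M).card : ℝ) →
      (∀ a ∈ Set.Icc β.τ0 (β.τ0 + β.η), β.η * |g a| ≤ C * M) ∧
        (∀ t, |R (β.τ t) + κ * Real.log (β.b t) + c| ≤ C * M) ∧
        ∀ t t', β.cell t = β.cell t' → |R (β.τ t) + κ * Real.log (β.b t) -
          (R (β.τ t') + κ * Real.log (β.b t'))| ≤ C / Nc * M)
    (F Q : ℝ[X]) (Ar Rg R' : ℝ → ℝ) (b c cs : ℝ) (hF : F.natDegree ≤ d + 1) (hQ : Q.natDegree ≤ d)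
    (pos : ∀ a ∈ Set.Icc β.τ0 (β.τ0 + β.η), 0 < F.eval a)
    (flat : ∀ a ∈ Set.Icc β.τ0 (β.τ0 + β.η), ∀ a' ∈ Set.Icc β.τ0 (β.τ0 + β.η),
      F.eval a ≤ 2 * F.eval a')
    (hAr : ∀ a, F.eval a ≠ 0 → HasDerivAt Ar (Q.eval a / F.eval a) a)
    (hRg : ∀ x ∈ Set.Icc β.τ0 (β.τ0 + β.η), HasDerivAt Rg (R' x) x)
    (hP : ∀ Q : ℝ[X], Q.natDegree ≤ d → ∃ (P : ℝ[X]) (x₀ : ℝ), x₀ ∈ Set.Icc β.τ0 (β.τ0 + β.η) ∧
      P.natDegree ≤ d' ∧ cs ≤ |P.eval x₀| ∧ ∀ x ∈ Set.Icc β.τ0 (β.τ0 + β.η),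
        |Q.eval x - F.eval x * R' x - P.eval x| ≤ ϑ * |P.eval x₀|)
    (A Lg : T → ℝ) (hA : ∀ t, A t = b + Ar (β.τ t) - Rg (β.τ t))
    (hL : ∀ t, Lg t = Real.log (F.eval (β.τ t)) + (d + 1) * Real.log (β.b t) + c)
    (φ₀ κ M : ℝ) (hM : 0 ≤ M) (Z : Finset (Fin Nc × Fin Nc)) (hZ : (1 - δ) * (Nc : ℝ) ^ 2 ≤ Z.card)
    (hc : ∀ e ∈ Z, ∃ t, β.cell t = e ∧ |A t + φ₀ + κ * Lg t| ≤ M) :
    β.η * cs ≤ 4 * F.eval β.τ0 * (C * M) ∧ (∀ t, |A t + φ₀ + κ * Lg t| ≤ C * M) ∧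
      ∀ t t', β.cell t = β.cell t' → |A t + κ * Lg t - (A t' + κ * Lg t')| ≤ C / Nc * M := by
  obtain ⟨P, x₀, hx, hd, h1, h2⟩ := hP (Q + Polynomial.C κ * derivative F) (by
    refine (natDegree_add_le _ _).trans (max_le hQ ((natDegree_C_mul_le _ _).trans ?_))
    have := natDegree_derivative_le F
    omega)
  have e1 : ∀ t, Ar (β.τ t) - Rg (β.τ t) + κ * Real.log (F.eval (β.τ t)) +
      κ * (d + 1) * Real.log (β.b t) + (b + φ₀ + κ * c) = A t + φ₀ + κ * Lg t := fun t => by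
    rw [hA, hL]
    ring
  have e2 : ∀ a ∈ Set.Icc β.τ0 (β.τ0 + β.η), F.eval a * (Q.eval a / F.eval a - R' a +
      κ * ((derivative F).eval a / F.eval a)) =
      (Q + Polynomial.C κ * derivative F).eval a - F.eval a * R' a := fun a ha => by
    have h0 := (pos a ha).ne'
    simp only [eval_add, eval_mul, eval_C]
    field_simp
    ring
  obtain ⟨g1, g2, g3⟩ := hR (fun a => F.eval a)
    (fun a => Q.eval a / F.eval a - R' a + κ * ((derivative F).eval a / F.eval a))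
    (fun a => Ar a - Rg a + κ * Real.log (F.eval a)) P x₀ (κ * (d + 1)) (b + φ₀ + κ * c) M hd pos
    flat (fun a ha => ((hAr a (pos a ha).ne').sub (hRg a ha)).add
      (((F.hasDerivAt a).log (pos a ha).ne').const_mul κ)) hx
    (fun a ha => by rw [e2 a ha]; exact h2 a ha) hM
    (hZ.trans (Nat.cast_le.2 (card_le_card fun e he => by
      obtain ⟨t, a1, a2⟩ := hc e he
      simp only [mem_filter, mem_univ, true_and]
      exact ⟨t, a1, by rw [e1]; exact a2⟩)))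
  refine ⟨?_, fun t => by rw [← e1]; exact g2 t, fun t t' h => ?_⟩
  · have a1 := g1 x₀ hx
    have a2 := h2 x₀ hx
    rw [← e2 x₀ hx] at a2
    have a3 := flat x₀ hx β.τ0 ⟨le_rfl, by linarith⟩
    have a4 := pos x₀ hx
    generalize Q.eval x₀ / F.eval x₀ - R' x₀ + κ * ((derivative F).eval x₀ / F.eval x₀) = g at a1 a2
    have a5 : |P.eval x₀| ≤ |F.eval x₀ * g| + |F.eval x₀ * g - P.eval x₀| := by
      have := abs_sub (F.eval x₀ * g) (F.eval x₀ * g - P.eval x₀)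
      rwa [sub_sub_cancel] at this
    rw [abs_mul, abs_of_pos a4] at a5
    have a6 : ϑ * |P.eval x₀| ≤ 1 / 2 * |P.eval x₀| := mul_le_mul_of_nonneg_right hϑ (abs_nonneg _)
    have a7 : cs ≤ 2 * (F.eval x₀ * |g|) := by linarith
    have a8 : F.eval x₀ * |g| ≤ 2 * F.eval β.τ0 * |g| := mul_le_mul_of_nonneg_right a3 (abs_nonneg _)
    have a9 : 0 ≤ F.eval β.τ0 := by linarith
    calc β.η * cs ≤ β.η * (4 * F.eval β.τ0 * |g|) := mul_le_mul_of_nonneg_left (by linarith) hη.le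
      _ = 4 * F.eval β.τ0 * (β.η * |g|) := by ring
      _ ≤ _ := mul_le_mul_of_nonneg_left a1 (by positivity)
  · refine le_trans (le_of_eq ?_) (g3 t t' h)
    rw [hA, hA, hL, hL]
    congr 1
    ring

/-- the sizes of the points of a good tuple -/
theorem size (hDeg : VC.S_Deg) {R : Type} [CommRing R] [Algebra ℤ[X] R] (p : VC.Par R) {y : ℝ}
    (hy : 0 < y) {u : ℕ} {t : ℤ × ℤ} {s : p.Co} {x : Fin (u + 2) → p.Pn} (ht : p.Adm t)
    (hg : p.Good t s x) : ∑ i, Real.log (((x i).1 : ℝ) / y) =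
      Real.log ((p.FR s).eval ((t.1 : ℝ) / t.2)) +
      (((2 * p.e * p.dd - 1 : ℕ) : ℝ) + 1) * Real.log t.2 +
      (-(p.e0 * Real.log p.r) - (u + 2) * Real.log y) := by
  obtain ⟨-, -, -, -, -, -, -, hN, -⟩ := hDeg R p
  obtain ⟨g1, -, g3⟩ := hg
  have hb : (0 : ℝ) < t.2 := by exact_mod_cast ht.1
  have hr : (0 : ℝ) < p.r := by exact_mod_cast p.hr.pos
  have hq : ∀ i, (0 : ℝ) < (x i).1 := fun i => by exact_mod_cast (g1 i).1.1.pos
  have e := hN s t ht.1.ne'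
  rw [g3] at e
  push_cast at e
  have hp' : 0 < ∏ i, ((x i).1 : ℝ) := Finset.prod_pos fun i _ => hq i
  have hF0 : (p.FR s).eval ((t.1 : ℝ) / t.2) ≠ 0 := fun h0 => by
    rw [h0, mul_zero] at e
    exact (mul_pos (pow_pos hr _) hp').ne' e
  have e' := congrArg Real.log e
  rw [Real.log_mul (pow_pos hr _).ne' hp'.ne', Real.log_mul (pow_pos hb _).ne' hF0,
    Real.log_pow, Real.log_pow, Real.log_prod fun i _ => (hq i).ne'] at e'
  have hk : ((2 * p.e * p.dd - 1 : ℕ) : ℝ) + 1 = (2 * p.e * p.dd : ℕ) := by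
    exact_mod_cast PCore.two_le p
  rw [hk, Finset.sum_congr rfl fun i _ => Real.log_div (hq i).ne' hy.ne',
    Finset.sum_sub_distrib, Finset.sum_const, Finset.card_univ, Fintype.card_fin, nsmul_eq_mul]
  push_cast at e' ⊢
  linarith

theorem dvd_Mf {R : Type} [CommRing R] [Algebra ℤ[X] R] (p : VC.Par R) {z q : ℕ} (hz : p.r ≤ z)
    (hq : q.Prime) (h : q < p.r) : (q : ℤ) ∣ (Mf p z : ℤ) :=
  Int.natCast_dvd_natCast.2 (Dvd.dvd.mul_right (dvd_prod_of_mem (fun l => l)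
    (mem_filter.2 ⟨mem_range.2 (by omega), hq, h.ne⟩)) _)

end PEng

open PEng in
theorem p_eng (hC1 : S_C1) (hC2 : S_C2) (hNT : S_NT) (hRem : S_Rem) (hBR : S_BR) (hTent : S_Tent)
    (hAna : S_Ana) (hDeg : VC.S_Deg) : S_Eng := by
  intro R A A' E _ _ _ _ _ _ _ _ p D j i φ a ν τ z hj hi hφ ha hG hτ hz hpair hν hΛ M k hM
  by_contra hk
  set θ : R →+* E := i.comp (D.j.comp j) with hθ
  have hθz : θ (zR R) = z := hz.symm
  have hinj : Function.Injective θ := hi.comp (D.j_injective.comp hj.inj)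
  have htr : Transcendental ℚ z := by
    have : Algebra.IsAlgebraic ℤ ℚ := IsLocalization.isAlgebraic ℚ (nonZeroDivisors ℤ)
    rw [← (Algebra.IsAlgebraic.transcendental_iff ℤ ℚ (a := z)), transcendental_iff]
    intro g hg
    rw [← hθz, ← map_alg θ g] at hg
    exact p.toTab.alg_injective (hinj (by rw [hg, map_zero, map_zero]))
  have hsec : ∀ s, secE p θ (i D.ω) s = i (p.sec D j s) := fun s => by
    simp [secE, Par.sec, Dbl.fn, hθ]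
  obtain ⟨u, hu, hN⟩ := hNT R p
  obtain ⟨CR, δ, ϑ, N₀, hCR, hδ, hϑ0, hϑ, hR⟩ := hRem (2 * p.e * p.dd + M)
  obtain ⟨Nc, ε, hN₀, hNc, hε, hB⟩ := hBR (4 * p.e) CR δ u (2 * p.e * p.dd - 1) N₀ hu hCR hδ
  have : NeZero Nc := ⟨by omega⟩
  obtain ⟨l, hl⟩ : ∃ l : p.Ix → ℝ, l = fun k =>
    a.Λ (z ^ (2 * p.e * p.dd) / (z - τ) ^ M) (psi p θ (i D.ω) k) := ⟨_, rfl⟩
  have hlk : l k ≠ 0 := by rw [hl]; exact hk
  have hlk' : 0 < |l k| := abs_pos.2 hlk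
  obtain ⟨η₁, hη₁, hN⟩ := hN Nc ε hε
  obtain ⟨η₂, hη₂, hA⟩ := hAna R E p θ (i D.ω) a τ M hG (hθz ▸ htr) (hθz ▸ hΛ) hM ϑ
    (ε / 4 * |l k| / 2) hϑ0 (by positivity)
  obtain ⟨η, hη, b1, b2, b3⟩ : ∃ η : ℝ, 0 < η ∧ η ≤ η₁ ∧ η ≤ η₂ ∧ η ≤ ε / 4 :=
    ⟨min η₁ (min η₂ (ε / 4)), by positivity, min_le_left _ _,
      (min_le_right _ _).trans (min_le_left _ _), (min_le_right _ _).trans (min_le_right _ _)⟩
  obtain ⟨c, c1, c2, c3, c4, c5, c6, hF⟩ := hN η hη b1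
  have cτ : c.τ0 = τ := c1.trans hτ
  choose s0 c₂ Q Ar β h1 h2 h3 using hC2 R A A' p D j φ hj hφ
  have hs0 : ∀ s, secE p θ (i D.ω) s ≠ 0 := fun s => by
    rw [hsec]
    exact (map_ne_zero_iff i hi).2 (s0 s)
  have hA' := fun s : VC.Sset p c.S0 c.L => hA η hη b2 c.S0 c.L c4 c6 s.1 s.2 (hs0 s.1)
  rw [hθz] at hA'
  choose l0 Rg R' r1 r2 r3 using hA'
  choose c₁ a1 a0 a2 using fun t : VC.Tset p c => hC1 R A A' p D j φ hj hφ ha t.1 (hF.adm t.1 t.2)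
  obtain ⟨μ, hμ, hg⟩ := hF.des
  have hL : 0 < (c.L : ℝ) := by
    have : 0 < η * c.S0 := by
      by_contra h
      nlinarith
    linarith
  have hL1 : 1 ≤ c.L := by exact_mod_cast hL
  -- the good sections
  let Bad : Finset (VC.Sset p c.S0 c.L) := univ.filter fun s =>
    |∑ j, l j * ((s.1 j - VC.cen p c.S0 j : ℤ) : ℝ)| < ε / 4 * |l k| * c.L
  have hcs : ∀ s : VC.Sset p c.S0 c.L, ∃ cs : ℝ, 0 < cs ∧ (s ∉ Bad → ∀ Q : ℝ[X],
      Q.natDegree ≤ 2 * p.e * p.dd - 1 → ∃ (P : ℝ[X]) (x₀ : ℝ), x₀ ∈ Set.Icc (τ : ℝ) (τ + η) ∧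
        P.natDegree ≤ 2 * p.e * p.dd + M ∧ cs ≤ |P.eval x₀| ∧ ∀ x ∈ Set.Icc (τ : ℝ) (τ + η),
          |Q.eval x - (p.FR s.1).eval x * R' s x - P.eval x| ≤ ϑ * |P.eval x₀|) := fun s => by
    by_cases hs : s ∈ Bad
    · exact ⟨1, one_pos, fun h => absurd hs h⟩
    have h4 : ε / 4 * |l k| * c.L ≤ |∑ j, l j * ((s.1 j - VC.cen p c.S0 j : ℤ) : ℝ)| :=
      not_lt.1 fun h => hs (mem_filter.2 ⟨mem_univ _, h⟩)
    obtain ⟨cs, d1, d2⟩ := r3 s (by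
      rw [hl] at h4
      refine le_trans ?_ h4
      rw [← hl]
      have := mul_le_mul_of_nonneg_left c5 (show 0 ≤ ε / 4 * |l k| by positivity)
      linarith)
    exact ⟨cs, d1, fun _ => d2⟩
  choose cs cs0 hcs using hcs
  let G : Sys (Pset c.y c.N) (VC.Xset p c.y c.N) (VC.Tset p c) (VC.Sset p c.S0 c.L) Nc u :=
    ⟨VC.base p c.y c.N, VC.sideT p c, VC.sideS p c.y c.N c.S0 c.L, VC.box p c Nc, μ,
      fun x t => c₁ t x.1, fun x s => c₂ s.1 x.1, fun s => p.FR s.1, fun s => Q s.1,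
      fun s x => β s.1 - ν z (i (p.sec D j s.1)) + Ar s.1 x - Rg s x,
      -(p.e0 * Real.log p.r) - (u + 2) * Real.log c.y, 0⟩
  have hI : Set.Icc G.box.τ0 (G.box.τ0 + G.box.η) = Set.Icc (τ : ℝ) (τ + η) := by
    change Set.Icc c.τ0 (c.τ0 + c.η) = _
    rw [cτ, c2]
  have hη' : G.box.η = η := c2
  have key := fun (s : VC.Sset p c.S0 c.L) (hs : s ∉ Bad) =>
    one (d := 2 * p.e * p.dd - 1) G.box hϑ hF.box.mem.ηpos
      (fun F g R Q a₀ κ c M => hR Nc hN₀ _ G.box F g R Q a₀ κ c M hF.box.mem)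
      (p.FR s.1) (Q s.1) (Ar s.1) (Rg s) (R' s) (β s.1 - ν z (i (p.sec D j s.1))) G.c (cs s)
      (by
        rw [PCore.two_le]
        exact natDegree_map_le.trans ((hDeg R p).2.2.2.2.2.2.1 s.1).2.1.le)
      (h1 s.1) (hF.pos s.1 s.2) (hF.flat s.1 s.2) (h2 s.1) (by rw [hI]; exact r1 s)
      (by rw [hI]; exact hcs s hs) (fun t => G.A s (G.box.τ t)) (G.Lg (2 * p.e * p.dd - 1) s)
      (fun _ => rfl) (fun _ => rfl)
  have hcard : (Fintype.card (Fin Nc × Fin Nc) : ℝ) = (Nc : ℝ) ^ 2 := by simp [sq]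
  have hOk : OkR G (4 * p.e) (2 * p.e * p.dd - 1) CR δ Bad ε := by
    refine ⟨hμ, hF.box, fun x t h => a1 t x.1 (mem_Xset.1 x.2).2 h, fun t s x h => ?_,
      fun t s x h => ?_, ?_, fun s hs φ₀ κ M' hM' hc => ?_⟩
    · exact size hDeg p hF.ypos (hF.adm t.1 t.2) (hg t s x h)
    · have hadm := hF.adm t.1 t.2
      obtain ⟨e1, e2⟩ := a2 t _ s.1 _ (hg t s x h)
      have e3 := h3 s.1 _ t.1 _ hadm (hg t s x h)
      have e4 := hpair _ _ (a0 t) (s0 s.1) e1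
      have e5 : i (p.fib D j t.1) = (t.1.2 : E) * z - t.1.1 := by
        change θ (algebraMap ℤ[X] R _) = _
        rw [map_alg θ, hθz]
        simp
      have hb : t.1.2 ≠ 0 := hadm.1.ne'
      have hbE : (t.1.2 : E) ≠ 0 := Int.cast_ne_zero.2 hb
      obtain ⟨-, -, -, t1, t2, -, -, t3, t4⟩ := mem_filter.1 t.2
      have hh : i (p.sec D j s.1) ≠ 0 := (map_ne_zero_iff i hi).2 (s0 s.1)
      have e6 := hν t.1.1 t.1.2 _ hh hb fun q hq hr =>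
        ⟨(dvd_Mf p c3 hq hr).trans t3, (dvd_Mf p c3 hq hr).trans t4⟩
      have e7 : (t.1.2 : E) * z - t.1.1 =
          ((t.1.2 : ℚ) : E) * (z - (((t.1.1 : ℚ) / t.1.2 : ℚ) : E)) := by
        push_cast
        field_simp
      have e8 : z - (((t.1.1 : ℚ) / t.1.2 : ℚ) : E) ≠ 0 := fun h0 => by
        rw [h0, mul_zero, ← e5] at e7
        exact (map_ne_zero_iff i hi).2 (a0 t) e7
      have e9 := r2 s ((t.1.1 : ℚ) / t.1.2) (by
        push_cast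
        rw [← cτ, ← c2]
        exact ⟨t1, t2.le⟩)
      have e10 := l0 s
      rw [hsec] at e9 e10
      rw [e5, e6, e7, a.reg_mul _ _ _ (by exact_mod_cast hb) e8 hh,
        a.reg_rat _ _ (by exact_mod_cast hb) hh, e10, mul_zero, zero_add, ← e9, e2, e3] at e4
      push_cast at e4
      change ∑ i, c₁ t (x i).1 = 0 + ∑ i, c₂ s.1 (x i).1 + (β s.1 - ν z (i (p.sec D j s.1)) +
        Ar s.1 ((t.1.1 : ℝ) / t.1.2) - Rg s ((t.1.1 : ℝ) / t.1.2))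
      linarith
    · have e1 := hTent R p c.S0 c.L l k (ε / 4) hL1 hlk (by positivity)
      have e2 : 1 / (c.L : ℝ) ≤ ε / 2 := by
        rw [div_le_iff₀ hL]
        nlinarith
      refine le_trans (le_of_eq ?_) (e1.trans (by linarith))
      rw [sum_filter, sum_filter, ← sum_coe_sort (VC.Sset p c.S0 c.L)]
      rfl
    · rw [hcard] at hc
      exact (key s hs φ₀ κ M' hM' _ hc fun e he => by
        simpa only [mem_filter, mem_univ, true_and] using he).2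
  obtain ⟨hsurj, hlam⟩ := hB _ _ _ _ G Bad hOk
  obtain ⟨lam, lam0, hsm⟩ := B.Rig.small (fun s : VC.Sset p c.S0 c.L =>
    4 * (p.FR s.1).eval G.box.τ0 * CR) fun s => η * cs s
  obtain ⟨s, hs, φ₀, κ, h4⟩ := hlam lam lam0
  have h5 := (key s hs φ₀ κ lam lam0.le univ (by
    rw [card_univ, hcard]
    nlinarith [sq_nonneg (Nc : ℝ)]) fun e _ => (hsurj e).imp fun t ht => ⟨ht, h4 t⟩).1
  have h6 := hsm s (mul_pos hη (cs0 s))
  rw [hη'] at h5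
  linarith

end Pool.Agent.P.MP_b8021b_nt.KR
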