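import Pool.Agent.P.MP_b8021b_nt.KR.PFA1

/-! A functional that kills exact forms and forms with zeros of high order kills regular forms. -/

namespace Pool.Agent.P.MP_b8021b_nt.KR

open Polynomial Finset WithZero Pool.Agent.P.MP_b8021b_nt.VE Pool.Agent.P.MP_b8021b_nt.VC
open scoped Classical WithZero

namespace PFA

variable {F : Type} [Field F] [CharZero F]

theorem pole (p : GPt F) {z : F} (hz : p.ord z < 0) {q : ℚ[X]} (hq : q ≠ 0) :
    ∃ c, c ≠ 0 ∧ p.Val (aeval z q / z ^ q.natDegree) c := by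
  have h0 : z ≠ 0 := by
    rintro rfl
    rw [p.ord_zero] at hz
    exact lt_irrefl _ hz
  have h1 : p.Val z⁻¹ 0 := p.val_zero_of_ord_pos (by rw [p.ord_inv]; linarith)
  let _ := invertibleOfNonzero h0
  have h2 := eval₂_reverse_mul_pow (algebraMap ℚ F) z q
  rw [invOf_eq_inv, ← aeval_def, ← aeval_def] at h2
  refine ⟨aeval (0 : Qb) (reverse q), ?_, ?_⟩
  · rw [← coeff_zero_eq_aeval_zero', coeff_zero_reverse]
    exact (_root_.map_ne_zero _).2 (leadingCoeff_ne_zero.2 hq)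
  · rw [← h2, mul_div_cancel_right₀ _ (pow_ne_zero _ h0)]
    exact val_aeval p h1 _

theorem exists_sep (Q : ℚ[X]) (hQ : Q ≠ 0) (τ : ℚ) : ∃ q : ℚ[X], q.Separable ∧
    aeval (algebraMap ℚ Qb τ) q ≠ 0 ∧
    ∀ a : Qb, a ≠ algebraMap ℚ Qb τ → aeval a Q = 0 → aeval a q = 0 := by
  obtain ⟨Q', e, hn⟩ := exists_eq_pow_rootMultiplicity_mul_and_not_dvd Q hQ τ
  have h0 : Q' ≠ 0 := by
    rintro rfl
    exact hn (dvd_zero _)
  obtain ⟨q, n, h1, h2, h3⟩ := exists_squarefree_dvd_pow_of_ne_zero h0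
  refine ⟨q, PerfectField.separable_iff_squarefree.2 h1, fun h => hn ?_, fun a ha h => ?_⟩
  · rw [aeval_algebraMap_apply, _root_.map_eq_zero, coe_aeval_eq_eval] at h
    exact (dvd_iff_isRoot.2 h).trans h2
  · rw [e, map_mul, map_pow, map_sub, aeval_X, aeval_C] at h
    have h4 := (mul_eq_zero.1 h).resolve_left (pow_ne_zero _ (sub_ne_zero.2 ha))
    have h5 := aeval_eq_zero_of_dvd_aeval_eq_zero h3 h4
    rw [map_pow] at h5
    exact eq_zero_of_pow_eq_zero h5

/-- the derivation keeps regular functions regular if it does so for a uniformiser -/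
theorem der_mem (D : Derivation ℚ F F) (p : GPt F)
    (hDL : ∀ a g : F, a ≠ 0 → p.ord g ≠ 0 → D g ≠ 0 →
      p.Val (D a / a / (D g / g)) ((p.ord a : Qb) / (p.ord g : Qb)))
    {g : F} (hg : p.ord g = 1) (h0 : D g ≠ 0) (h1 : D g ∈ p.v.valuationSubring) {b : F}
    (hb : b ∈ p.v.valuationSubring) : D b ∈ p.v.valuationSubring := by
  obtain ⟨β, hβ⟩ := p.exists_val hb
  have hs : (minpoly ℚ β).Separable := (minpoly.irreducible (int_qb β)).separable
  have h2 := val_aeval p hβ (minpoly ℚ β)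
  have h3 := val_aeval p hβ (derivative (minpoly ℚ β))
  have h4 := hs.aeval_derivative_ne_zero (minpoly.aeval ℚ β)
  rw [minpoly.aeval] at h2
  have hg0 : g ≠ 0 := by
    rintro rfl
    exact h0 (map_zero D)
  have h5 : D (aeval b (minpoly ℚ β)) ∈ p.v.valuationSubring := by
    rcases eq_or_ne (aeval b (minpoly ℚ β)) 0 with e | e
    · rw [e, map_zero]
      exact zero_mem _
    · have h6 := (hDL _ g e (by omega) h0).mem
      have h7 : aeval b (minpoly ℚ β) / g ∈ p.v.valuationSubring := by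
        rw [← p.ord_nonneg_iff (div_ne_zero e hg0), p.ord_div e hg0, hg]
        linarith [h2.ord_pos e]
      have h8 := mul_mem (mul_mem h6 h7) h1
      rwa [show D (aeval b (minpoly ℚ β)) / aeval b (minpoly ℚ β) / (D g / g) *
        (aeval b (minpoly ℚ β) / g) * D g = D (aeval b (minpoly ℚ β)) by field_simp] at h8
  have h9 := mul_mem h5 (h3.inv h4).mem
  rwa [D.map_aeval, smul_eq_mul, mul_right_comm, mul_inv_cancel₀ (h3.ne_zero h4), one_mul] at h9

omit [CharZero F] in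
theorem exists_bound {a : F} (h : {p : GPt F | p.ord a ≠ 0}.Finite) :
    ∃ K : ℕ, ∀ p : GPt F, p.ord a ≤ K := by
  obtain ⟨K, hK⟩ := (h.image fun p => (p.ord a).toNat).bddAbove
  refine ⟨K, fun p => ?_⟩
  by_cases e : p.ord a = 0
  · omega
  · have := hK ⟨p, e, rfl⟩
    simp only at this
    omega

omit [CharZero F] in
theorem exists_den {z φ : F} (h : {p : GPt F | p.ord φ ≠ 0}.Finite) :
    ∃ q : ℚ[X], q ≠ 0 ∧ ∀ (p : GPt F) (a : Qb), p.Val z a → aeval a q ≠ 0 →
      φ ∈ p.v.valuationSubring := by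
  have : ∀ p : GPt F, ∃ a : Qb, ∀ a', p.Val z a' → a' = a := fun p => by
    by_cases e : ∃ a, p.Val z a
    · obtain ⟨a, ha⟩ := e
      exact ⟨a, fun a' h' => h'.unique ha⟩
    · exact ⟨0, fun a' h' => absurd ⟨a', h'⟩ e⟩
  choose w hw using this
  refine ⟨∏ p ∈ h.toFinset, minpoly ℚ (w p),
    prod_ne_zero_iff.2 fun p _ => minpoly.ne_zero (int_qb _), fun p a ha hq => ?_⟩
  by_contra hn
  refine hq ?_
  rw [map_prod]
  refine prod_eq_zero (h.mem_toFinset.2 ((p.ord_neg_iff φ).2 hn).ne) ?_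
  rw [hw p a ha]
  exact minpoly.aeval _ _

end PFA

open PFA in
theorem p_fA (hDL : S_DL) (hU : S_Unr) (hF : VC.S_Fin) : S_FA := by
  intro F _ _ hC O z τ n n' D L hz hO hτ hD hL hH φ hφ
  rcases eq_or_ne φ 0 with rfl | hφ0
  · exact map_zero L
  have fin := (hF F hC).1
  have hz0 : z ≠ 0 := by
    rintro rfl
    rw [O.ord_zero] at hO
    exact lt_irrefl _ hO
  have hne : ∀ q : ℚ[X], q ≠ 0 → aeval z q ≠ 0 := fun q hq e => by
    obtain ⟨c, hc, h⟩ := pole O hO hq
    exact h.ne_zero hc (by rw [e, zero_div])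
  have htr : Transcendental ℚ z := fun ⟨q, hq, e⟩ => hne q hq e
  obtain ⟨q₁, hq₁, h₁⟩ := hU F hC z htr
  obtain ⟨q₂, hq₂, h₂⟩ := exists_den (z := z) (fin φ hφ0)
  obtain ⟨q, hs, hqτ, hq⟩ := exists_sep (X * q₁ * q₂)
    (mul_ne_zero (mul_ne_zero X_ne_zero hq₁) hq₂) τ
  rw [map_intCast] at hqτ hq
  have hq0 : q ≠ 0 := hs.ne_zero
  have hτ' : (0 : Qb) ≠ τ := (Int.cast_ne_zero.2 hτ).symm
  have hq00 : aeval (0 : Qb) q = 0 := hq 0 hτ' (by simp)
  obtain ⟨d, hd⟩ : ∃ d, q.natDegree = d + 1 := by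
    refine Nat.exists_eq_succ_of_ne_zero fun e => hq0 ?_
    rw [eq_C_of_natDegree_eq_zero e, aeval_C, _root_.map_eq_zero] at hq00
    rw [eq_C_of_natDegree_eq_zero e, hq00, map_zero]
  have hu : z - τ ≠ 0 := by
    have := hne (X - C (τ : ℚ)) (X_sub_C_ne_zero _)
    simpa using this
  have hg : aeval z q ≠ 0 := hne q hq0
  have hDq : ∀ P : ℚ[X], D (aeval z P) = aeval z (derivative P) := fun P => by
    rw [D.map_aeval, hD, smul_eq_mul, mul_one]
  obtain ⟨h, hh⟩ : ∃ h, h = aeval z q / (z - τ) ^ d := ⟨_, rfl⟩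
  have h0 : h ≠ 0 := hh ▸ div_ne_zero hg (pow_ne_zero _ hu)
  have hvu : ∀ (p : GPt F) a, p.Val z a → p.Val (z - τ) (a - τ) :=
    fun p a ha => ha.sub (p.val_intCast τ)
  have hinf : ∀ p : GPt F, p.ord z < 0 →
      p.Val ((z - τ) / z) 1 ∧ ∃ c, c ≠ 0 ∧ p.Val (h / z) c := fun p hp => by
    have h1 : p.Val z⁻¹ 0 := p.val_zero_of_ord_pos (by rw [p.ord_inv]; linarith)
    have h2 : p.Val ((z - τ) / z) 1 := by
      have := p.val_one.sub ((p.val_intCast τ).mul h1)
      rwa [mul_zero, sub_zero, show (1 : F) - τ * z⁻¹ = (z - τ) / z by field_simp] at this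
    obtain ⟨c, hc, h3⟩ := pole p hp hq0
    refine ⟨h2, c, hc, ?_⟩
    have := h3.div (h2.pow d) (by simp)
    rwa [one_pow, div_one, hd, show aeval z q / z ^ (d + 1) / ((z - τ) / z) ^ d = h / z by
      rw [hh, div_pow, pow_succ]; field_simp] at this
  have hcase : ∀ p : GPt F, p.ord (aeval z q) ≠ 0 →
      p.ord z < 0 ∨ ∃ a, p.Val z a ∧ aeval a q = 0 ∧ a - τ ≠ 0 := fun p hp => by
    by_cases e : p.ord z < 0
    · exact Or.inl e
    · obtain ⟨a, ha⟩ := p.exists_val (by_contra fun h' => e ((p.ord_neg_iff z).2 h'))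
      have h1 : aeval a q = 0 := by_contra fun h' => hp ((val_aeval p ha q).ord_eq_zero h')
      refine Or.inr ⟨a, ha, h1, fun h' => hqτ ?_⟩
      rwa [sub_eq_zero.1 h'] at h1
  have hgood : ∀ (p : GPt F) a, p.Val z a → a ≠ τ → aeval a q ≠ 0 →
      a ≠ 0 ∧ aeval a q₁ ≠ 0 ∧ aeval a q₂ ≠ 0 ∧ ∃ c, c ≠ 0 ∧ p.Val h c := fun p a ha h1 h2 => by
    have h3 : aeval a (X * q₁ * q₂) ≠ 0 := fun e => h2 (hq a h1 e)
    rw [map_mul, map_mul, aeval_X] at h3
    have h4 := pow_ne_zero d (sub_ne_zero.2 h1)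
    exact ⟨left_ne_zero_of_mul (left_ne_zero_of_mul h3),
      right_ne_zero_of_mul (left_ne_zero_of_mul h3), right_ne_zero_of_mul h3, _,
      div_ne_zero h2 h4, hh ▸ (val_aeval p ha q).div ((hvu p a ha).pow d) h4⟩
  have hhz : h * z ^ n ≠ 0 := mul_ne_zero h0 (pow_ne_zero _ hz0)
  obtain ⟨K₁, hK₁⟩ := exists_bound (fin _ hhz)
  obtain ⟨ξ, r, hr, e, hξ, hξ'⟩ := core D L hL h0 (fin _ hg).toFinset
    {p | ∃ a, p.Val z a ∧ a ≠ τ ∧ aeval a q ≠ 0}
    (fun p hp => by
      have hp' : p.ord (aeval z q) ≠ 0 := (fin _ hg).mem_toFinset.1 hp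
      have key : ∀ (g : F) (c : Qb), p.ord g ≠ 0 → D g ≠ 0 → c ≠ 0 → p.Val (h * D g / g) c →
          ∃ c : Qb, c ≠ 0 ∧ ∀ b, b ≠ 0 → p.Val (h * D b / b) (c * p.ord b) := by
        intro g c h1 h2 h3 h4
        have h5 : g ≠ 0 := by
          rintro rfl
          exact h2 (map_zero D)
        refine ⟨c / p.ord g, div_ne_zero h3 (Int.cast_ne_zero.2 h1), fun b hb => ?_⟩
        have := h4.mul (hDL F hC D p b g hb h1 h2)
        rwa [show h * D g / g * (D b / b / (D g / g)) = h * D b / b by field_simp,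
          show c * ((p.ord b : Qb) / p.ord g) = c / p.ord g * p.ord b by ring] at this
      rcases hcase p hp' with h1 | ⟨a, ha, h1, h2⟩
      · obtain ⟨-, c, hc, h3⟩ := hinf p h1
        exact key z c h1.ne (hD ▸ one_ne_zero) hc (by rwa [hD, mul_one])
      · have h3 := hs.aeval_derivative_ne_zero h1
        have h4 := val_aeval p ha (derivative q)
        refine key (aeval z q) _ hp' (hDq q ▸ h4.ne_zero h3) (div_ne_zero h3 (pow_ne_zero d h2)) ?_
        have := h4.div ((hvu p a ha).pow d) (pow_ne_zero d h2)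
        rwa [show aeval z (derivative q) / (z - τ) ^ d = h * D (aeval z q) / aeval z q by
          rw [hDq, hh]; field_simp] at this)
    (fun p ⟨a, ha, h1, h2⟩ b hb => by
      obtain ⟨-, h3, -, c, -, h4⟩ := hgood p a ha h1 h2
      have h5 := val_aeval p ha (derivative (minpoly ℚ a))
      have h6 := (minpoly.irreducible (int_qb a)).separable.aeval_derivative_ne_zero
        (minpoly.aeval ℚ a)
      exact mul_mem h4.mem (der_mem D p (hDL F hC D p) (h₁ p a ha h3) (hDq _ ▸ h5.ne_zero h6)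
        (hDq _ ▸ h5.mem) hb))
    (h * φ)
    (fun p hp => by
      rcases hcase p ((fin _ hg).mem_toFinset.1 hp) with h1 | ⟨a, ha, h1, h2⟩
      · obtain ⟨-, c, -, h3⟩ := hinf p h1
        have := h3.mul ((hφ p).1 h1)
        rwa [mul_zero, show h / z * (φ * z) = h * φ by field_simp] at this
      · have := ((hφ p).2 q hq0 (h1 ▸ val_aeval p ha q)).div ((hvu p a ha).pow d) (pow_ne_zero d h2)
        rwa [zero_div, show φ * aeval z q / (z - τ) ^ d = h * φ by rw [hh]; ring] at this)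
    (fun p ⟨a, ha, h1, h2⟩ => by
      obtain ⟨-, -, h3, c, -, h4⟩ := hgood p a ha h1 h2
      exact mul_mem h4.mem (h₂ p a ha h3))
    (K₁ + n' * (-O.ord z).toNat)
  rw [mul_div_cancel_left₀ _ h0] at e
  refine (mul_eq_zero.1 (e.symm.trans ?_)).resolve_left hr
  rcases eq_or_ne ξ 0 with rfl | hξ0
  · rw [zero_div, map_zero]
  have hy : h * z ^ n / ξ ≠ 0 := div_ne_zero hhz hξ0
  obtain ⟨M, hM⟩ := exists_bound (fin _ hy)
  have hord : ∀ p : GPt F, p.ord ((z - τ) ^ M / (h * z ^ n / ξ)) =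
      M * p.ord (z - τ) - p.ord (h * z ^ n) + p.ord ξ := fun p => by
    rw [p.ord_div (pow_ne_zero _ hu) hy, p.ord_div hhz hξ0, p.ord_pow]
    ring
  have hy' : (z - τ) ^ M / (h * z ^ n / ξ) ≠ 0 := div_ne_zero (pow_ne_zero _ hu) hy
  have := hH ((z - τ) ^ M / (h * z ^ n / ξ)) M hy' (fun p hp => ?_) ?_
  · rwa [show z ^ n * ((z - τ) ^ M / (h * z ^ n / ξ)) / (z - τ) ^ M = ξ / h by field_simp] at this
  · obtain ⟨a, ha⟩ := p.exists_val (hz p hp)
    rw [← p.ord_nonneg_iff hy']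
    by_cases h1 : a = τ
    · have h2 : 0 < p.ord (z - τ) := by
        have := hvu p a ha
        rw [h1, sub_self] at this
        exact this.ord_pos hu
      rw [p.ord_div (pow_ne_zero _ hu) hy, p.ord_pow]
      nlinarith [hM p, Int.natCast_nonneg M]
    · rw [hord, (hvu p a ha).ord_eq_zero (sub_ne_zero.2 h1), mul_zero, zero_sub]
      by_cases h2 : aeval a q = 0
      · have h3 := (hξ p ((fin _ hg).mem_toFinset.2
          ((h2 ▸ val_aeval p ha q : p.Val _ 0).ord_pos hg).ne')).resolve_left hξ0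
        have h4 := hK₁ p
        push_cast at h3
        have : (0 : ℤ) ≤ n' * ((-O.ord z).toNat : ℤ) := by positivity
        linarith
      · obtain ⟨h3, -, -, c, hc, h4⟩ := hgood p a ha h1 h2
        rw [(h4.mul (ha.pow n)).ord_eq_zero (mul_ne_zero hc (pow_ne_zero _ h3))]
        simpa using p.ord_nonneg (hξ' p ⟨a, ha, h1, h2⟩)
  · obtain ⟨h1, c, hc, h2⟩ := hinf O hO
    have h3 := h1.ord_eq_zero one_ne_zero
    rw [O.ord_div hu hz0, sub_eq_zero] at h3
    obtain ⟨c', hc', h4⟩ := pole O hO hq0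
    have h5 := h4.ord_eq_zero hc'
    rw [O.ord_div hg (pow_ne_zero _ hz0), O.ord_pow, hd, sub_eq_zero] at h5
    have h6 := (hξ O ((fin _ hg).mem_toFinset.2 (by
      change O.ord (aeval z q) ≠ 0
      rw [h5]
      exact mul_ne_zero (by omega) hO.ne))).resolve_left hξ0
    have h7 := hK₁ O
    rw [hord, h3]
    push_cast at h6
    rw [Int.toNat_of_nonneg (by omega)] at h6
    nlinarith

end Pool.Agent.P.MP_b8021b_nt.KR
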