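import Pool.Agent.P.MP_b8021b_nt.KR.Basic
import Pool.Agent.P.MP_b8021b_nt.VC.PMain

/-! A functional that vanishes on the kernel of the tame symbols factors through them. -/

namespace Pool.Agent.P.MP_b8021b_nt.KR

open Finset WithZero Pool.Agent.P.MP_b8021b_nt.VE Pool.Agent.P.MP_b8021b_nt.VC
open scoped Classical WithZero TensorProduct

noncomputable section

namespace PFac

/-- a real functional that kills the kernel of a homomorphism factors through it -/
theorem factor {G A : Type} [AddCommGroup G] [AddCommGroup A] (T : G →+ A) (R : G →+ ℝ)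
    (h : ∀ x, T x = 0 → R x = 0) : ∃ L : A →+ ℝ, ∀ x, L (T x) = R x := by
  obtain ⟨L, hL⟩ := (Module.Baer.of_divisible ℝ).extension_property_addMonoidHom
    (QuotientAddGroup.kerLift T) (QuotientAddGroup.kerLift_injective T)
    (QuotientAddGroup.lift T.ker R fun x hx => h x hx)
  exact ⟨L, fun x => DFunLike.congr_fun hL (QuotientAddGroup.mk x)⟩

variable {F : Type} [Field F] (p : DVal F)

theorem v_eq {a : F} (ha : a ≠ 0) : p.v a = exp (-p.ord a) := by
  rw [DVal.ord, neg_neg, exp_log (by simpa using ha)]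

theorem ord_mul {a b : F} (ha : a ≠ 0) (hb : b ≠ 0) : p.ord (a * b) = p.ord a + p.ord b := by
  simp only [DVal.ord, map_mul, log_mul (show p.v a ≠ 0 by simpa using ha)
    (show p.v b ≠ 0 by simpa using hb), neg_add]

theorem ord_pos {a : F} (ha : a ≠ 0) : 0 < p.ord a ↔ p.v a < 1 := by
  rw [v_eq p ha, ← exp_zero, exp_lt_exp, neg_lt_zero]

theorem ord_zero {a : F} (h : p.v a = 1) : p.ord a = 0 := by simp [DVal.ord, h]

theorem ord_add {a b : F} (ha : a ≠ 0) (hb : b ≠ 0) (h : a + b ≠ 0) :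
    min (p.ord a) (p.ord b) ≤ p.ord (a + b) := by
  have := p.v.map_add a b
  rw [v_eq p ha, v_eq p hb, v_eq p h, le_max_iff, exp_le_exp, exp_le_exp] at this
  omega

/-- a uniformizer -/
def un : F := (p.surj (exp (-1))).choose

theorem v_un : p.v (un p) = exp (-1) := (p.surj (exp (-1))).choose_spec

theorem un_ne : un p ≠ 0 := fun h => by
  have := v_un p
  rw [h, map_zero] at this
  exact exp_ne_zero this.symm

theorem v_div (f : Fˣ) : p.v (f / un p ^ p.ord f) = 1 := by
  rw [map_div₀, map_zpow₀, v_un, v_eq p f.ne_zero, ← exp_zsmul, ← exp_sub, exp_eq_one]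
  simp

/-- the unit part -/
def up : Fˣ →* (p.v.valuationSubring)ˣ := MonoidHom.mk'
  (fun f => ⟨⟨f / un p ^ p.ord f, (v_div p f).le⟩, ⟨(f / un p ^ p.ord f)⁻¹, by
      rw [Valuation.mem_valuationSubring_iff, map_inv₀, v_div, inv_one]⟩,
    Subtype.ext (mul_inv_cancel₀ (div_ne_zero f.ne_zero (zpow_ne_zero _ (un_ne p)))),
    Subtype.ext (inv_mul_cancel₀ (div_ne_zero f.ne_zero (zpow_ne_zero _ (un_ne p))))⟩)
  fun f g => Units.ext (Subtype.ext (by
    change ((f * g : Fˣ) : F) / un p ^ p.ord ((f * g : Fˣ) : F) =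
      f / un p ^ p.ord f * (g / un p ^ p.ord g)
    rw [Units.val_mul, ord_mul p f.ne_zero g.ne_zero, zpow_add₀ (un_ne p), div_mul_div_comm]))

theorem up_coe (f : Fˣ) : ((up p f : p.v.valuationSubring) : F) = f / un p ^ p.ord f := rfl

/-- the leading coefficient -/
def lc : Fˣ →* p.κˣ :=
  (Units.map (IsLocalRing.residue p.v.valuationSubring : _ →* p.κ)).comp (up p)

theorem lc_coe (f : Fˣ) : (lc p f : p.κ) = IsLocalRing.residue _ (up p f).1 := rfl

theorem lc_one {f : Fˣ} (h : p.v (f - 1 : F) < 1) : p.ord f = 0 ∧ lc p f = 1 := by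
  have h0 : p.ord f = 0 := ord_zero p (by simpa using p.v.map_one_add_of_lt h)
  refine ⟨h0, Units.ext ?_⟩
  rw [lc_coe, Units.val_one, ← sub_eq_zero, ← map_one (IsLocalRing.residue _), ← map_sub,
    IsLocalRing.residue_eq_zero_iff, Valuation.mem_maximalIdeal_iff]
  change p.v (f / un p ^ p.ord f - 1) < 1
  rwa [h0, zpow_zero, div_one]

theorem lc_neg_one : p.ord ((-1 : Fˣ) : F) = 0 ∧ lc p (-1) = -1 := by
  have h0 : p.ord ((-1 : Fˣ) : F) = 0 := ord_zero p (by simp)
  refine ⟨h0, Units.ext ?_⟩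
  have : (up p (-1)).1 = -1 := Subtype.ext (by rw [up_coe, h0]; simp)
  rw [lc_coe, this]
  simp

/-- the tame symbol -/
def tm (f g : Fˣ) : p.κˣ := (-1) ^ (p.ord f * p.ord g) * lc p f ^ p.ord g / lc p g ^ p.ord f

theorem tm_tame (f g : Fˣ) : p.IsTame f g (tm p f g) := by
  let w : (p.v.valuationSubring)ˣ :=
    (-1) ^ (p.ord f * p.ord g) * up p f ^ p.ord g / up p g ^ p.ord f
  have e : ((w : p.v.valuationSubring) : F) =
      (-1) ^ (p.ord f * p.ord g) * (f : F) ^ p.ord g / (g : F) ^ p.ord f := by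
    let j := (Units.coeHom F).comp
      (Units.map (p.v.valuationSubring.subtype : p.v.valuationSubring →* F))
    have e1 : ∀ x : (p.v.valuationSubring)ˣ, j x = ((x : p.v.valuationSubring) : F) := fun _ => rfl
    have e2 : j (-1) = -1 := rfl
    rw [← e1, map_div, map_mul, map_zpow, map_zpow, map_zpow, e2, e1, e1, up_coe, up_coe,
      div_zpow, div_zpow, ← zpow_mul, ← zpow_mul, mul_comm (p.ord g)]
    have := zpow_ne_zero (p.ord f * p.ord g) (un_ne p)
    have := zpow_ne_zero (p.ord f) g.ne_zero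
    field_simp
  refine ⟨e ▸ (w : p.v.valuationSubring).2, ?_⟩
  have e3 : tm p f g = Units.map (IsLocalRing.residue p.v.valuationSubring : _ →* p.κ) w := by
    rw [map_div, map_mul, map_zpow, map_zpow, map_zpow, tm]
    have e4 : Units.map (IsLocalRing.residue p.v.valuationSubring :
        p.v.valuationSubring →* p.κ) (-1) = -1 := Units.ext (by simp)
    rw [e4]
    rfl
  rw [e3]
  exact congrArg (IsLocalRing.residue _) (Subtype.ext e.symm)

theorem tm_left (f f' g : Fˣ) : tm p (f * f') g = tm p f g * tm p f' g := by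
  rw [tm, tm, tm, Units.val_mul, ord_mul p f.ne_zero f'.ne_zero, map_mul, add_mul, zpow_add,
    zpow_add, mul_zpow, div_mul_div_comm, mul_mul_mul_comm]

theorem tm_right (f g g' : Fˣ) : tm p f (g * g') = tm p f g * tm p f g' := by
  rw [tm, tm, tm, Units.val_mul, ord_mul p g.ne_zero g'.ne_zero, map_mul, mul_add, zpow_add,
    zpow_add, mul_zpow, div_mul_div_comm, mul_mul_mul_comm]

theorem tm_st (f g : Fˣ) (h : (f : F) + g = 1) : tm p f g = 1 := by
  rcases lt_trichotomy (p.ord f) 0 with h1 | h1 | h1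
  · have h2 : p.v ((-1 * f⁻¹ * g : Fˣ) - 1 : F) < 1 := by
      have e : ((-1 * f⁻¹ * g : Fˣ) - 1 : F) = -(f : F)⁻¹ := by
        rw [← h]
        have := f.ne_zero
        have e' : (g : F) = 1 - f := by rw [← h]; ring
        simp only [Units.val_mul, Units.val_neg, Units.val_one, Units.val_inv_eq_inv_val, e']
        field_simp
        ring
      rw [e, Valuation.map_neg, map_inv₀, v_eq p f.ne_zero, ← exp_neg, ← exp_zero, exp_lt_exp]
      omega
    obtain ⟨h3, h4⟩ := lc_one p h2
    have e : g = -1 * f * (-1 * f⁻¹ * g) := by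
      simp only [neg_mul, one_mul, mul_neg, neg_neg]
      rw [← mul_assoc, mul_inv_cancel, one_mul]
    have h5 : p.ord g = p.ord f := by
      rw [e, Units.val_mul, ord_mul p (Units.ne_zero _) (Units.ne_zero _), h3, Units.val_mul,
        ord_mul p (Units.ne_zero _) (Units.ne_zero _), (lc_neg_one p).1]
      ring
    have h6 : lc p g = -1 * lc p f := by
      rw [e, map_mul, h4, mul_one, map_mul, (lc_neg_one p).2]
    rw [tm, h5, h6, mul_zpow, mul_div_mul_right_eq_div, div_eq_mul_inv,
      ← zpow_sub, ← mul_sub_one]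
    exact (Int.even_mul_pred_self _).neg_one_zpow
  · rcases lt_trichotomy (p.ord g) 0 with h2 | h2 | h2
    · have h3 := ord_add p (a := 1) (b := -f) one_ne_zero (neg_ne_zero.2 f.ne_zero)
        (by rw [← h]; simp)
      have e : (1 : F) + -f = g := by rw [← h]; ring
      have e2 : p.ord (-(f : F)) = p.ord f := by simp [DVal.ord]
      rw [e, e2, h1, ord_zero p (map_one _)] at h3
      omega
    · simp [tm, h1, h2]
    · have h3 : p.v (f - 1 : F) < 1 := by
        have e : (f - 1 : F) = -g := by rw [← h]; ring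
        rwa [e, Valuation.map_neg, ← ord_pos p g.ne_zero]
      simp [tm, h1, (lc_one p h3).2]
  · have h3 : p.v (g - 1 : F) < 1 := by
      have e : (g - 1 : F) = -f := by rw [← h]; ring
      rwa [e, Valuation.map_neg, ← ord_pos p f.ne_zero]
    simp [tm, (lc_one p h3).1, (lc_one p h3).2]

/-- the tame symbol as a bilinear map -/
def bil : Additive Fˣ →+ Additive Fˣ →+ Additive p.κˣ :=
  AddMonoidHom.mk' (fun f => AddMonoidHom.mk' (fun g => Additive.ofMul (tm p f.toMul g.toMul))
    fun g g' => by rw [toMul_add, tm_right, ofMul_mul])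
    fun f f' => AddMonoidHom.ext fun g => congrArg Additive.ofMul (tm_left p f.toMul f'.toMul _)

/-- the tame symbol on `K₂` -/
def T : K2 F →+ Additive p.κˣ :=
  (Submodule.liftQ _ (TensorProduct.liftAddHom (bil p) fun n f g => by
      rw [map_zsmul, map_zsmul, AddMonoidHom.zsmul_apply]).toIntLinearMap
    (Submodule.span_le.2 (by
      rintro _ ⟨a, b, h, rfl⟩
      exact congrArg Additive.ofMul (tm_st p a b h)))).toAddMonoidHom

theorem T_sym (f g : Fˣ) : T p (sym f g) = Additive.ofMul (tm p f g) := rfl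

theorem kills {α : K2 F} (h : T p α = 0) : p.Kills α := ⟨T p, tm_tame p, h⟩

/-- a real functional of the tame symbol -/
theorem fun_tm (ψ : Additive p.κˣ →+ ℝ) (f g : Fˣ) : ψ (Additive.ofMul (tm p f g)) =
    p.ord g * ψ (Additive.ofMul (lc p f)) - p.ord f * ψ (Additive.ofMul (lc p g)) := by
  have h : ψ (Additive.ofMul (-1)) = 0 := by
    have := ψ.map_add (Additive.ofMul (-1)) (Additive.ofMul (-1))
    rw [← ofMul_mul, neg_mul_neg, mul_one, ofMul_one, map_zero] at this
    linarith
  rw [tm, ofMul_div, ofMul_mul, ofMul_zpow, ofMul_zpow, ofMul_zpow, map_sub, map_add, map_zsmul,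
    map_zsmul, map_zsmul, h]
  simp

/-- the vertical symbol -/
def vs (ψ : Additive p.κˣ →+ ℝ) : VS F where
  o a := p.ord a
  m a := if h : a = 0 then 0 else -ψ (Additive.ofMul (lc p (Units.mk0 a h)))
  o_mul a b ha hb := by rw [ord_mul p ha hb, Int.cast_add]
  m_mul a b ha hb := by
    rw [dif_neg ha, dif_neg hb, dif_neg (mul_ne_zero ha hb), Units.mk0_mul, map_mul, ofMul_mul,
      map_add, neg_add]
  o_add a b ha hb h := by exact_mod_cast ord_add p ha hb h
  m_one x hx h := by
    split_ifs with h0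
    · rfl
    · rw [(lc_one p (f := Units.mk0 _ h0) (by
        simpa using (ord_pos p hx).1 (by exact_mod_cast h))).2, ofMul_one, map_zero, neg_zero]

theorem vs_T (ψ : Additive p.κˣ →+ ℝ) (f g : Fˣ) :
    (vs p ψ).T f g = -ψ (Additive.ofMul (tm p f g)) := by
  rw [fun_tm, VS.T]
  simp only [vs, dif_neg f.ne_zero, dif_neg g.ne_zero, Units.mk0_val]
  ring

theorem exists_prime [CharZero F] (h : ¬p.Hor) : ∃ q : ℕ, q.Prime ∧ 0 < p.ord q := by
  by_contra hc
  refine h fun n hn => ?_
  have h1 : ∀ n : ℕ, p.v n ≤ 1 := fun n => by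
    induction n with
    | zero => simp
    | succ n ih =>
      rw [Nat.cast_succ]
      exact (p.v.map_add _ _).trans (max_le ih (map_one _).le)
  induction n using induction_on_primes with
  | zero => exact absurd rfl hn
  | one => simp
  | prime_mul q n hq ih =>
    rw [Nat.cast_mul, map_mul, ih (right_ne_zero_of_mul hn), mul_one]
    exact le_antisymm (h1 q) (not_lt.1 fun h2 =>
      hc ⟨q, hq, (ord_pos p (Nat.cast_ne_zero.2 hq.ne_zero)).2 h2⟩)

/-- the valuation under a geometric point -/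
def dv (q : GPt F) : DVal F := ⟨q.v, q.surj⟩

/-- the embedding of the residue field -/
def em (q : GPt F) : (dv q).κ →+* Qb :=
  Ideal.Quotient.lift _ q.ρ fun a ha =>
    (q.ker a).2 ((Valuation.mem_maximalIdeal_iff F q.v).1 ha)

theorem exists_emb [CharZero F] (hCrv : VC.S_Crv) (hF : IsCurve F) (v : Place ℚ F) :
    Nonempty (v.κ →+* Qb) := by
  have := Main.alg hCrv hF v
  let e : v.κ →ₐ[ℚ] Qb := IsAlgClosed.lift
  exact ⟨e⟩

theorem exists_pt [CharZero F] (hCrv : VC.S_Crv) (hF : IsCurve F) (h : p.Hor) :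
    ∃ q : GPt F, dv q = p := by
  let v : Place ℚ F := ⟨p.v, p.surj, fun c hc => by
    have h1 : p.v (c.num : F) = 1 := by
      have h2 := h c.num.natAbs (by simpa using hc)
      rcases Int.natAbs_eq c.num with e | e
      · rw [e]; simpa using h2
      · rw [e]; simpa using h2
    rw [eq_ratCast, Rat.cast_def, map_div₀, h1, h c.den c.den_nz, div_one]⟩
  obtain ⟨e⟩ := exists_emb hCrv hF v
  exact ⟨Main.gp v e, rfl⟩

/-- the tame symbol at a geometric point -/
def TG (q : GPt F) : K2 F →+ Additive Qbˣ :=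
  (MonoidHom.toAdditive (Units.map (em q : (dv q).κ →* Qb))).comp (T (dv q))

theorem TG_sym (q : GPt F) (f g : Fˣ) : ((TG q (sym f g)).toMul : Qb) =
    (-1) ^ (q.ord f * q.ord g) * PTrans.val q (PTrans.ts q f g) := by
  obtain ⟨h, e⟩ := tm_tame (dv q) f g
  have h1 : q.Val ((-1) ^ (q.ord f * q.ord g) * (f : F) ^ q.ord g / (g : F) ^ q.ord f)
      (em q (tm (dv q) f g)) := ⟨h, by rw [← e]; rfl⟩
  have h2 : q.Val ((-1) ^ (q.ord f * q.ord g)) ((-1) ^ (q.ord f * q.ord g)) := by
    rcases Int.even_or_odd (q.ord f * q.ord g) with h | h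
    · rw [h.neg_one_zpow, h.neg_one_zpow]; exact q.val_one
    · rw [h.neg_one_zpow, h.neg_one_zpow]; exact q.val_one.neg
  have h3 := h2.mul (PTrans.ts_U q f.ne_zero g.ne_zero).val.2
  rw [PTrans.ts, ← mul_div_assoc] at h3
  exact h1.unique h3

theorem TG_zero (q : GPt F) {α : K2 F} (h : TG q α = 0) : T (dv q) α = 0 := by
  have h1 : em q ((T (dv q) α).toMul : (dv q).κˣ) = 1 := congrArg (fun x => (x.toMul : Qb)) h
  have h2 : (T (dv q) α).toMul = 1 := Units.ext ((em q).injective (by rw [h1]; simp))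
  exact toMul_eq_one.1 h2

end PFac

open PFac in
theorem p_fac (hCrv : VC.S_Crv) (hFin : VC.S_Fin) : S_Fac := by
  intro F _ _ hF V R R' hR hK
  let W := {p // p ∈ V.filter fun p => ¬p.Hor}
  let _ : Fintype W := Finset.fintypeCoeSort _
  let TT : K2 F →+ (GPt F → Additive Qbˣ) × ∀ p : W, Additive p.1.κˣ :=
    (AddMonoidHom.pi TG).prod (AddMonoidHom.pi fun p : W => T p.1)
  obtain ⟨L, hL⟩ := factor TT R fun α h => hK α fun p hp => kills p (by
    by_cases h1 : p.Hor
    · obtain ⟨q, rfl⟩ := exists_pt p hCrv hF h1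
      exact TG_zero q (congrFun (congrArg Prod.fst h) q)
    · exact congrFun (congrArg Prod.snd h) ⟨p, mem_filter.2 ⟨hp.resolve_left h1, h1⟩⟩)
  choose q hq hq' using fun p : W => exists_prime p.1 (mem_filter.1 p.2).2
  let l : GPt F → Qb → ℝ := fun x u =>
    if h : u = 0 then 0 else L (Pi.single x (Additive.ofMul (Units.mk0 u h)), 0)
  have hl : PTrans.Ad l := fun x u v hu hv => by
    simp only [l, dif_neg hu, dif_neg hv, dif_neg (mul_ne_zero hu hv)]
    rw [← map_add, Prod.mk_add_mk, ← Pi.single_add, ← ofMul_mul, Units.mk0_mul, add_zero]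
  refine ⟨univ.sup q + 1, l, hl, W, inferInstance, fun p => vs p.1 (L.comp
    ((AddMonoidHom.inr _ _).comp (AddMonoidHom.single (fun p : W => Additive p.1.κˣ) p))),
    fun p => ⟨q p, hq p, Nat.lt_succ_of_le (le_sup (mem_univ p)), by
      change (0 : ℝ) < (p.1.ord (q p) : ℤ)
      exact_mod_cast hq' p⟩, fun f g hf hg => ?_⟩
  lift f to Fˣ using hf.isUnit
  lift g to Fˣ using hg.isUnit
  let S := ((hFin F hF).1 f hf).toFinset ∪ ((hFin F hF).1 g hg).toFinset
  have hS : ∀ x, x ∉ S → x.ord f = 0 ∧ x.ord g = 0 := fun x hx => by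
    simpa only [S, mem_union, Set.Finite.mem_toFinset, Set.mem_ofPred_eq, not_or, not_not] using hx
  have h1 : ∀ x, PTrans.b l x f g = L (Pi.single x (TG x (sym f g)), 0) := fun x => by
    have h2 := (PTrans.ts_U x hf hg).val.1
    have h3 := Main.Ad.sign (ψ := l x) (hl x) (x.ord f * x.ord g) h2
    rw [← TG_sym] at h3
    rw [PTrans.b, PTrans.lam, ← h3]
    simp only [l, dif_neg (Units.ne_zero _), Units.mk0_val, ofMul_toMul]
  have h2 : (TT (sym f g)).1 = ∑ x ∈ S, Pi.single x (TG x (sym f g)) := by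
    ext1 x
    rw [Finset.sum_apply, sum_eq_single x (fun y _ hy => Pi.single_eq_of_ne hy.symm _) fun hx => ?_,
      Pi.single_eq_same]
    · rfl
    · rw [Pi.single_eq_same, ← toMul_eq_one, ← Units.val_eq_one, TG_sym, PTrans.ts, (hS x hx).1,
        (hS x hx).2]
      simpa using PTrans.val_eq x.val_one
  have h3 : PTrans.B l f g = L ((TT (sym f g)).1, 0) := by
    rw [PTrans.B, finsum_eq_sum_of_support_subset _ (s := S) fun x hx => by_contra fun h =>
      hx (PTrans.b_zero hl x (hS x h).1 (hS x h).2), h2]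
    simp only [h1]
    exact (map_sum (L.comp (AddMonoidHom.inl _ _)) _ _).symm
  have h4 : L (0, (TT (sym f g)).2) = ∑ p : W, L (0, Pi.single p (T p.1 (sym f g))) := by
    rw [← univ_sum_single (TT (sym f g)).2]
    exact map_sum (L.comp (AddMonoidHom.inr _ _)) _ _
  have h5 : L (TT (sym f g)) = L ((TT (sym f g)).1, 0) + L (0, (TT (sym f g)).2) := by
    rw [← map_add, Prod.mk_add_mk, add_zero, zero_add]
  simp only [vs_T, sum_neg_distrib]
  rw [← hR, ← hL, h5, h3, h4, sub_add_cancel_left]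
  rfl

end

end Pool.Agent.P.MP_b8021b_nt.KR
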