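import Pool.Agent.P.MP_b8021b_nt.KR.St
import Pool.Agent.P.MP_b8021b_nt.VC.PGeo

/-! Equivariant data: reduction to a constant quadratic extension. -/

namespace Pool.Agent.P.MP_b8021b_nt.KR

open Polynomial Finset Pool.Agent.P.MP_b8021b_nt.VE Pool.Agent.P.MP_b8021b_nt.VC
open scoped Classical IntermediateField

namespace PGeo

theorem regV_sum (hRegM : S_RegM) {F I : Type} [Field F] [CharZero F] (f : F) (φ : I → F)
    (s : Finset I) (h : ∀ i, RegV (φ i) f) : RegV (∑ i ∈ s, φ i) f := by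
  induction s using Finset.induction_on with
  | empty => simpa using (hRegM.1 F f).1
  | insert i s hi ih =>
    rw [sum_insert hi]
    exact (hRegM.1 F f).2.1 _ _ (h i) ih

end PGeo

open VC.Geo PGeo in
theorem p_geo (hGeo2 : S_Geo2) (hDown : S_Down) (hDer : S_Der) (hReg : S_Reg) (hRegM : S_RegM) (hCrv : VC.S_Crv) (hRes : VC.S_Res) : S_Geo := by
  intro M G _ _ _ _ _ hM χ r ω O l A hr hω hg ⟨g₀, hg₀⟩ hO hl heq hΛ φ f hf hφ
  let F := FixedPoints.subfield G M
  let F' := FixedPoints.subfield χ.ker M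
  have memF : ∀ a : M, a ∈ F ↔ ∀ g : G, g • a = a := fun a => Iff.rfl
  have memF' : ∀ a : M, a ∈ F' ↔ ∀ g : G, χ g = 1 → g • a = a := fun a =>
    ⟨fun h g h1 => h ⟨g, h1⟩, fun h g => h g g.2⟩
  have hle : F ≤ F' := fun a ha => (memF' a).2 fun g _ => (memF a).1 ha g
  let _ : Algebra F F' := (Subfield.inclusion hle).toAlgebra
  have halg : ∀ a : F, ((algebraMap F F' a : F') : M) = a := fun a => rfl
  have cF : IsCurve F := (hCrv.1 F M).2 hM
  have cF' : IsCurve F' := (hCrv.1 F' M).2 hM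
  have hω' : ω ∈ F' := (memF' ω).2 fun g h => by rw [hg g, h]; simp
  have hω0 : ω ≠ 0 := by
    rintro rfl
    have : (r : M) = 0 := by simpa using hω
    exact hr.ne_zero (Nat.cast_eq_zero.1 this)
  have hsm : ∀ (g : G) (a : M), a ∈ F' → g • a ∈ F' := fun g a ha => (memF' _).2 fun s hs => by
    have h1 := (memF' a).1 ha (g⁻¹ * s * g) (by simp [hs])
    rw [mul_smul, mul_smul, inv_smul_eq_iff] at h1
    exact h1
  have hsq : ∀ a : M, a ∈ F' → g₀ • g₀ • a = a := fun a ha => by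
    rw [← mul_smul]
    exact (memF' a).1 ha _ (by rw [map_mul, hg₀]; simp)
  have hneg : ∀ (s : G) (a : M), a ∈ F' → χ s = -1 → s • a = g₀ • a := fun s a ha hs => by
    have h1 := (memF' a).1 ha (g₀⁻¹ * s) (by rw [map_mul, map_inv, hg₀, hs]; simp)
    rwa [mul_smul, inv_smul_eq_iff] at h1
  let ι : F' ≃ₐ[F] F' :=
    { toFun := fun a => ⟨g₀ • (a : M), hsm g₀ a a.2⟩
      invFun := fun a => ⟨g₀ • (a : M), hsm g₀ a a.2⟩
      left_inv := fun a => Subtype.ext (hsq a a.2)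
      right_inv := fun a => Subtype.ext (hsq a a.2)
      map_mul' := fun a b => Subtype.ext (smul_mul' g₀ (a : M) (b : M))
      map_add' := fun a b => Subtype.ext (smul_add g₀ (a : M) (b : M))
      commutes' := fun a => Subtype.ext ((memF a).1 a.2 g₀) }
  have hι : ∀ a : F', ((ι a : F') : M) = g₀ • (a : M) := fun a => rfl
  have hgω : g₀ • ω = -ω := by rw [hg g₀, hg₀]; simp
  have hdec : ∀ a : F', ∃ g c : F,
      a = algebraMap F F' g + algebraMap F F' c * (⟨ω, hω'⟩ : F') := fun a => by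
    have h2 : ∀ s : G, s • (2 : M) = 2 := fun s => by
      rw [← one_add_one_eq_two, smul_add, smul_one]
    refine ⟨⟨((a : M) + g₀ • (a : M)) / 2, (memF _).2 fun s => ?_⟩,
      ⟨((a : M) - g₀ • (a : M)) / (2 * ω), (memF _).2 fun s => ?_⟩, Subtype.ext ?_⟩
    · rw [smul_div₀', smul_add, h2]
      rcases Int.units_eq_one_or (χ s) with h | h
      · rw [(memF' _).1 a.2 s h, (memF' _).1 (hsm g₀ a a.2) s h]
      · rw [hneg s _ a.2 h, hneg s _ (hsm g₀ a a.2) h, hsq _ a.2, add_comm]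
    · rw [smul_div₀', smul_sub, smul_mul', h2]
      rcases Int.units_eq_one_or (χ s) with h | h
      · rw [(memF' _).1 a.2 s h, (memF' _).1 (hsm g₀ a a.2) s h, (memF' _).1 hω' s h]
      · rw [hneg s _ a.2 h, hneg s _ (hsm g₀ a a.2) h, hsq _ a.2, hneg s _ hω' h, hgω]
        field_simp
        ring
    · change (a : M) = ((a : M) + g₀ • (a : M)) / 2 + ((a : M) - g₀ • (a : M)) / (2 * ω) * ω
      field_simp
      ring
  obtain ⟨res₀, e₀, r1, -, -, -⟩ := hRes F M cF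
  obtain ⟨res, e, s1, s2, s3, s4⟩ := hRes F' M cF'
  have hOr : IsRat ℚ (res₀ O) := fun a c h => by
    obtain ⟨x, rfl⟩ := hO a c ((memF _).1 a.2) ((r1 O _).2 rfl a c h)
    refine ⟨x, ?_⟩
    have := (res₀ O).val_rat x
    rwa [eq_ratCast (algebraMap ℚ Qb)] at this
  have hle' : ∀ q, Le (algebraMap F' M) q (res q) := fun q => (s1 q _).2 rfl
  have hl' := hDown F' M cF' r res e l A.reg hle' (fun q => (s2 q).2) hl
  have hpos : (0 : ℝ) < Module.finrank F' M := by exact_mod_cast Module.finrank_pos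
  have key : ∀ (q : GPt M) (u : Qb), u ≠ 0 →
      ∑ᶠ q₁ ∈ {q₁ | res q₁ = res q}, (e q₁ : ℝ) * l q₁ u = Module.finrank F' M * l q u := by
    intro q u hu
    obtain ⟨f1, f2⟩ := s3 (res q)
    rw [finsum_mem_eq_finite_toFinset_sum _ f1] at f2 ⊢
    rw [← f2, Nat.cast_sum, sum_mul]
    refine sum_congr rfl fun q₁ h => ?_
    obtain ⟨g, hg1⟩ := s4 inferInstance q q₁ (f1.mem_toFinset.1 h).symm
    obtain ⟨s, rfl⟩ := FixedPoints.toAlgAut_surjective χ.ker M g
    rw [heq s q q₁ hg1 u hu, show χ s = 1 from s.2]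
    simp
  have hsurj : ∀ p, ∃ q, res q = p := fun p => by
    by_contra h
    obtain ⟨-, f2⟩ := s3 p
    rw [show {q | res q = p} = ∅ from Set.eq_empty_of_forall_notMem fun q h1 => h ⟨q, h1⟩,
      finsum_mem_empty] at f2
    exact Module.finrank_pos.ne f2
  have main := hGeo2 F F' cF r ⟨ω, hω'⟩ ι (res₀ O) _ (A.comap (algebraMap F' M)) hr
    (Subtype.ext (by simpa using hω)) hdec
    (Subtype.ext hgω) hOr hl' (fun p p' h v hv => by
      obtain ⟨q₁, rfl⟩ := hsurj p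
      have h1 : res (pl (MulSemiringAction.toRingEquiv G M g₀) q₁) = p' :=
        (s1 _ _).1 fun a c h2 => (pl_Val _ _ _ _).2 (hle' q₁ _ c (h a c h2))
      rw [← h1]
      rw [key _ v hv, key _ v hv, heq g₀ q₁ (pl (MulSemiringAction.toRingEquiv G M g₀) q₁)
        (fun a c h2 => h2) v hv, hg₀]
      simp)
    (fun x y => by
      have h1 := hΛ g₀ x y
      rw [hg₀] at h1
      change A.Λ (g₀ • (x : M)) (g₀ • (y : M)) = -A.Λ (x : M) (y : M)
      rw [h1]
      simp)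
  obtain ⟨z, hz, -⟩ := id cF
  have hzM : Transcendental ℚ (z : M) := fun h =>
    hz ((isAlgebraic_algHom_iff (F.subtype.toRatAlgHom) F.subtype.injective).1 h)
  obtain ⟨D, hD1, -, -, -, -, hD⟩ := hDer M hM z hzM
  have hψ : RegV (φ * D f) (z : M) := (hReg M hM φ f hf).2 z D hD1 hφ
  change A.Λ φ f = 0
  rw [hD A.Λ A.leib φ f]
  generalize φ * D f = ψ at hψ
  have _ : Fintype G := Fintype.ofFinite G
  have hzg : ∀ g : G, g • (z : M) = z := (memF _).1 z.2
  have hsq' : ∀ g : G, ((χ g : ℤ) : M) * ((χ g : ℤ) : M) = 1 := fun g => by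
    rcases Int.units_eq_one_or (χ g) with h | h <;> simp [h]
  have hωalg : IsAlgebraic ℚ ω := by
    refine IsAlgebraic.of_pow (n := 2) (by norm_num) ?_
    rw [hω]
    exact (isAlgebraic_natCast r).neg
  have hbar : RegV (∑ g : G, ((χ g : ℤ) : M) * g • ψ) (z : M) :=
    regV_sum hRegM _ _ _ fun g => (hRegM.1 M z).2.2 _ _ (isAlgebraic_intCast _) (by
      have h1 := (hRegM.2 M M (MulSemiringAction.toRingHom G M g) hM hM ψ z).1 hψ
      rwa [MulSemiringAction.toRingHom_apply, MulSemiringAction.toRingHom_apply, hzg] at h1)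
  have hint : ∀ (s : G) (n : ℤ), s • (n : M) = n := fun s n =>
    map_intCast (MulSemiringAction.toRingHom G M s) n
  have hinv : ∀ s : G, s • (∑ g : G, ((χ g : ℤ) : M) * g • ψ) =
      ((χ s : ℤ) : M) * ∑ g : G, ((χ g : ℤ) : M) * g • ψ := fun s => by
    rw [Finset.smul_sum, Finset.mul_sum]
    refine Fintype.sum_equiv (Equiv.mulLeft s) _ _ fun g => ?_
    rw [smul_mul', hint, Equiv.coe_mulLeft, map_mul, mul_smul, Units.val_mul, Int.cast_mul,
      ← mul_assoc, ← mul_assoc, hsq', one_mul]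
  have hmem : ω⁻¹ * ∑ g : G, ((χ g : ℤ) : M) * g • ψ ∈ F := (memF _).2 fun s => by
    have h0 : ((χ s : ℤ) : M) ≠ 0 := left_ne_zero_of_mul_eq_one (hsq' s)
    rw [smul_mul', smul_inv'', hinv, hg s]
    field_simp
  have h0 := main ⟨_, hmem⟩ z hz ((hRegM.2 F M F.subtype cF hM _ _).2
    ((hRegM.1 M z).2.2 _ _ hωalg.inv hbar))
  change A.Λ (ω * (ω⁻¹ * ∑ g : G, ((χ g : ℤ) : M) * g • ψ)) (z : M) = 0 at h0
  rw [mul_inv_cancel_left₀ hω0, map_sum, AddMonoidHom.finsetSum_apply] at h0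
  have h1 : ∀ g : G, A.Λ (((χ g : ℤ) : M) * g • ψ) (z : M) = A.Λ ψ z := fun g => by
    have h2 := hΛ g ψ z
    rw [hzg] at h2
    rw [← zsmul_eq_mul, map_zsmul, AddMonoidHom.smul_apply, h2]
    rcases Int.units_eq_one_or (χ g) with h | h <;> simp [h]
  simp only [h1, sum_const, card_univ, nsmul_eq_mul] at h0
  exact (mul_eq_zero.1 h0).resolve_left (Nat.cast_ne_zero.2 Fintype.card_ne_zero)

end Pool.Agent.P.MP_b8021b_nt.KR
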