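import Pool.Agent.P.MP_b8021b_nt.KR.St

/-! Independence of the complex embeddings of a function field over a disc. -/

namespace Pool.Agent.P.MP_b8021b_nt.KR

open Polynomial Finset Pool.Agent.P.MP_b8021b_nt.VE
open scoped Classical IntermediateField

namespace PInd

variable {F : Type} [Field F] [CharZero F]

/-- a common denominator -/
theorem denom {K F : Type} [Field K] [Field F] [Algebra K F] (f : F)
    {I : Type} [Fintype I] (a : I → K⟮f⟯) (hf : Transcendental K f) :
    ∃ (Q : K[X]) (P : I → K[X]), Q ≠ 0 ∧ ∀ i,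
      aeval (IntermediateField.AdjoinSimple.gen K f) Q * a i =
        aeval (IntermediateField.AdjoinSimple.gen K f) (P i) := by
  set e := RatFunc.algEquivOfTranscendental f hf
  have h1 : ∀ i, ∃ q p : K[X], q ≠ 0 ∧
      aeval (IntermediateField.AdjoinSimple.gen K f) q * a i =
        aeval (IntermediateField.AdjoinSimple.gen K f) p := fun i => by
    obtain ⟨u, hu⟩ := e.surjective (a i)
    refine ⟨u.denom, u.num, u.denom_ne_zero, ?_⟩
    rw [← hu, ← RatFunc.algEquivOfTranscendental_algebraMap f hf,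
      ← RatFunc.algEquivOfTranscendental_algebraMap f hf, ← map_mul]
    congr 1
    have h0 : algebraMap K[X] (RatFunc K) u.denom ≠ 0 :=
      RatFunc.algebraMap_ne_zero u.denom_ne_zero
    calc algebraMap K[X] (RatFunc K) u.denom * u
        = algebraMap K[X] (RatFunc K) u.denom *
          (algebraMap K[X] (RatFunc K) u.num / algebraMap K[X] (RatFunc K) u.denom) := by
          rw [RatFunc.num_div_denom]
      _ = _ := by field_simp
  choose q p hq hp using h1
  refine ⟨∏ i, q i, fun i => (∏ k ∈ univ.erase i, q k) * p i, prod_ne_zero_iff.2 fun i _ => hq i,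
    fun i => ?_⟩
  rw [← prod_erase_mul _ _ (mem_univ i), map_mul, map_mul, mul_assoc, hp]

/-- the embedding of the rational function field at a transcendental point -/
theorem emb {K F : Type} [Field K] [Field F] [Algebra K F] [Algebra K ℂ] (f : F)
    (hf : Transcendental K f) (x : ℂ) (hx : Transcendental K x) :
    ∃ e : K⟮f⟯ →+* ℂ, e (IntermediateField.AdjoinSimple.gen K f) = x := by
  refine ⟨((K⟮x⟯.val.comp (RatFunc.algEquivOfTranscendental x hx).toAlgHom).comp
    (RatFunc.algEquivOfTranscendental f hf).symm.toAlgHom).toRingHom, ?_⟩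
  simp

theorem infinite (τ : ℂ) {ρ : ℝ} (hρ : 0 < ρ) :
    {x : ℂ | x ∈ Metric.ball τ ρ ∧ Transcendental ℚ x}.Infinite := by
  intro h
  have h1 : ({x : ℂ | x ∈ Metric.ball τ ρ ∧ Transcendental ℚ x} ∪
      {x : ℂ | IsAlgebraic ℚ x}).Countable := h.countable.union (Algebraic.countable ℚ ℂ)
  obtain ⟨x, hx, hx'⟩ := (h1.dense_compl ℂ).exists_mem_open Metric.isOpen_ball
    ⟨τ, Metric.mem_ball_self hρ⟩
  exact hx (Or.inl ⟨hx', fun h2 => hx (Or.inr h2)⟩)

/-- the relation for the traces, at one point -/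
theorem tr (f : F) [FiniteDimensional ℚ⟮f⟯ F] {n : ℕ} (φ : Fin n → F) (ψ : F) (r : Fin n → ℝ)
    (ε : ℝ) (x : ℂ) (e : ℚ⟮f⟯ →+* ℂ) (he : e (IntermediateField.AdjoinSimple.gen ℚ f) = x)
    (h : ∀ j : F →+* ℂ, j f = x → ∑ k, (r k : ℂ) * j (φ k) = Complex.I * ε * j ψ) (b : F) :
    ∑ k, (r k : ℂ) * e (Algebra.trace ℚ⟮f⟯ F (b * φ k)) =
      Complex.I * ε * e (Algebra.trace ℚ⟮f⟯ F (b * ψ)) := by
  let _ : Algebra ℚ⟮f⟯ ℂ := e.toAlgebra
  have h1 : ∀ a : F, e (Algebra.trace ℚ⟮f⟯ F a) = ∑ σ : F →ₐ[ℚ⟮f⟯] ℂ, σ a := fun a =>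
    trace_eq_sum_embeddings ℂ
  simp only [h1, mul_sum, map_mul]
  rw [sum_comm]
  refine sum_congr rfl fun σ _ => ?_
  have h2 := h σ.toRingHom ((σ.commutes (IntermediateField.AdjoinSimple.gen ℚ f)).trans he)
  calc ∑ k, (r k : ℂ) * (σ b * σ (φ k)) = σ b * ∑ k, (r k : ℂ) * σ (φ k) := by
        rw [mul_sum]
        exact sum_congr rfl fun k _ => by ring
    _ = σ b * (Complex.I * ε * σ ψ) := congrArg _ h2
    _ = _ := by ring

/-- a real relation between rational polynomials -/
theorem coef {n : ℕ} (P : Fin n → ℚ[X]) (P₀ : ℚ[X]) (r : Fin n → ℝ) (ε : ℝ) (S : Set ℂ)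
    (hS : S.Infinite)
    (h : ∀ x ∈ S, ∑ k, (r k : ℂ) * aeval x (P k) = Complex.I * ε * aeval x P₀)
    (l : Module.Dual ℚ ℝ) : ∑ k, l (r k) • P k = 0 := by
  have h1 : ∑ k, C (r k : ℂ) * (P k).map (algebraMap ℚ ℂ) =
      C (Complex.I * ε) * P₀.map (algebraMap ℚ ℂ) := by
    refine eq_of_infinite_eval_eq _ _ (hS.mono fun x hx => ?_)
    simp only [Set.mem_ofPred_eq, eval_finsetSum, eval_mul, eval_C, eval_map_algebraMap]
    exact h x hx
  ext m
  have h2 := congrArg (fun p : ℂ[X] => (p.coeff m).re) h1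
  simp only [finsetSum_coeff, coeff_C_mul, coeff_map, Complex.re_sum, eq_ratCast,
    Complex.mul_re, Complex.ofReal_re, Complex.ofReal_im, Complex.ratCast_re, Complex.ratCast_im,
    mul_zero, sub_zero, Complex.I_re, Complex.I_im, zero_mul] at h2
  have h3 : ∑ k, (P k).coeff m • r k = 0 := by
    rw [← h2]
    exact sum_congr rfl fun k _ => by rw [Rat.smul_def, mul_comm]
  have h4 := congrArg l h3
  simp only [map_sum, map_smul, map_zero, smul_eq_mul] at h4
  simp only [finsetSum_coeff, coeff_smul, smul_eq_mul, coeff_zero]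
  rw [← h4]
  exact sum_congr rfl fun k _ => mul_comm _ _

end PInd

theorem p_ind (hCrv : VC.S_Crv) : S_Ind := by
  intro F _ _ hF f hf n φ ψ r ε ρ τ hφ hρ h
  have : FiniteDimensional ℚ⟮f⟯ F := (hCrv.2.1 ℚ F f hf).1 hF
  have key : ∀ l : Module.Dual ℚ ℝ, ∑ k, l (r k) • φ k = 0 := fun l => by
    refine (traceForm_nondegenerate ℚ⟮f⟯ F).1 _ fun b => ?_
    obtain ⟨Q, P, hQ, hP'⟩ := PInd.denom f
      (fun o : Option (Fin n) => Algebra.trace ℚ⟮f⟯ F (b * o.elim ψ φ)) hf
    have hP : ∀ o : Option (Fin n), aeval (IntermediateField.AdjoinSimple.gen ℚ f) Q *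
        Algebra.trace ℚ⟮f⟯ F (b * o.elim ψ φ) =
        aeval (IntermediateField.AdjoinSimple.gen ℚ f) (P o) := hP'
    have h1 := PInd.coef (fun k => P (some k)) (P none) r ε _ (PInd.infinite τ hρ)
      (fun x hx => by
        obtain ⟨e, he⟩ := PInd.emb f hf x hx.2
        have h2 := PInd.tr f φ ψ r ε x e he (fun j hj => h j (hj ▸ hx.1)) b
        have h3 : ∀ p : ℚ[X], e (aeval (IntermediateField.AdjoinSimple.gen ℚ f) p) = aeval x p :=
          fun p => by rw [← he]; exact (aeval_algHom_apply e.toRatAlgHom _ p).symm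
        simp only [← h3, ← hP, map_mul, Option.elim]
        calc ∑ k, (r k : ℂ) * (e (aeval (IntermediateField.AdjoinSimple.gen ℚ f) Q) *
              e (Algebra.trace ℚ⟮f⟯ F (b * φ k)))
            = e (aeval (IntermediateField.AdjoinSimple.gen ℚ f) Q) *
              ∑ k, (r k : ℂ) * e (Algebra.trace ℚ⟮f⟯ F (b * φ k)) := by
              rw [mul_sum]
              exact sum_congr rfl fun k _ => by ring
          _ = _ := by rw [h2]; ring) l
    have h4 := congrArg (aeval (IntermediateField.AdjoinSimple.gen ℚ f)) h1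
    simp only [map_sum, map_smul, map_zero, ← hP, Option.elim] at h4
    have h5 : aeval (IntermediateField.AdjoinSimple.gen ℚ f) Q ≠ 0 := fun h0 => by
      refine hf ⟨Q, hQ, ?_⟩
      have := congrArg (algebraMap ℚ⟮f⟯ F) h0
      rwa [← aeval_algebraMap_apply, map_zero] at this
    refine (mul_eq_zero.1
      (?_ : aeval (IntermediateField.AdjoinSimple.gen ℚ f) Q * _ = 0)).resolve_left h5
    rw [← h4, Algebra.traceForm_apply, sum_mul, map_sum, mul_sum]
    refine sum_congr rfl fun k _ => ?_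
    rw [smul_mul_assoc, mul_comm (φ k), map_rat_smul, mul_smul_comm]
  funext k
  refine (Module.forall_dual_apply_eq_zero_iff ℚ (r k)).1 fun l => ?_
  exact Fintype.linearIndependent_iff.1 hφ (fun k => l (r k)) (key l) k

end Pool.Agent.P.MP_b8021b_nt.KR
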