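import Pool.Agent.P.MP_b8021b_nt.KR.St

/-! Functions that are regular where `f` is regular are integral over `ℚ[f]`. -/

namespace Pool.Agent.P.MP_b8021b_nt.KR

open Polynomial Pool.Agent.P.MP_b8021b_nt.VE Pool.Agent.P.MP_b8021b_nt.VC
open scoped Classical

namespace PInt

/-- a proper ideal of a finitely generated algebra is killed by a homomorphism to `Qb` -/
theorem exists_hom (B : Type) [CommRing B] [Algebra ℚ B] [Algebra.FiniteType ℚ B] (I : Ideal B)
    (hI : I ≠ ⊤) : ∃ φ : B →+* Qb, ∀ b ∈ I, φ b = 0 := by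
  obtain ⟨m, hm, hIm⟩ := I.exists_le_maximal hI
  let _ : Field (B ⧸ m) := Ideal.Quotient.field m
  have : Module.Finite ℚ (B ⧸ m) := finite_of_finite_type_of_isJacobsonRing ℚ (B ⧸ m)
  let e : (B ⧸ m) →ₐ[ℚ] Qb := IsAlgClosed.lift
  refine ⟨(e : (B ⧸ m) →+* Qb).comp (Ideal.Quotient.mk m), fun b hb => ?_⟩
  rw [RingHom.comp_apply, Ideal.Quotient.eq_zero_iff_mem.2 (hIm hb), map_zero]

/-- if `a` is not integral over `R` then `a⁻¹` is not a unit of `R[a⁻¹]` -/
theorem span_ne_top (R F : Type) [CommRing R] [Nontrivial R] [Field F] [Algebra R F] (a : F)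
    (ha0 : a ≠ 0) (hn : ¬ IsIntegral R a) :
    Ideal.span {(⟨a⁻¹, Algebra.subset_adjoin rfl⟩ : Algebra.adjoin R ({a⁻¹} : Set F))} ≠ ⊤ := by
  intro eq
  let _ := invertibleOfNonzero (inv_ne_zero ha0)
  obtain ⟨p, hp, hpx⟩ :=
    Algebra.exists_aeval_invOf_eq_zero_of_idealMap_adjoin_sup_span_eq_top a⁻¹
      (⊥ : Ideal R) bot_ne_top (top_unique <| eq.ge.trans le_sup_right)
  rw [invOf_eq_inv, inv_inv] at hpx
  exact hn ⟨p, by simpa [Monic, sub_eq_zero] using hp, hpx⟩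

end PInt

theorem p_int (hE : VC.S_Extp) : S_Int := by
  intro F _ _ hF f a _ ha
  by_contra hn
  have ha0 : a ≠ 0 := fun h => hn (h ▸ isIntegral_zero)
  let R := Algebra.adjoin ℚ ({f} : Set F)
  let B := Algebra.adjoin R ({a⁻¹} : Set F)
  let x : B := ⟨a⁻¹, Algebra.subset_adjoin rfl⟩
  have hx : Ideal.span {x} ≠ ⊤ := PInt.span_ne_top R F a ha0 hn
  have h1 : Algebra.FiniteType ℚ R := Algebra.FiniteType.adjoin_of_finite (Set.finite_singleton f)
  have h2 : Algebra.FiniteType R B := Algebra.FiniteType.adjoin_of_finite (Set.finite_singleton _)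
  have h3 : Algebra.FiniteType ℚ B := h1.trans h2
  obtain ⟨φ, hφ⟩ := PInt.exists_hom B _ hx
  have hφx : φ x = 0 := hφ x (Ideal.subset_span rfl)
  obtain ⟨q, hq⟩ := hE F hF B (B.val : B →+* F) φ
    (fun b hb => by rw [show b = 0 from Subtype.ext hb, map_zero])
    ⟨x, inv_ne_zero ha0, hφx⟩
  obtain ⟨hf, -⟩ := hq (algebraMap R B ⟨f, Algebra.subset_adjoin rfl⟩)
  obtain ⟨hxi, hv⟩ := hq x
  have hlt : q.v a⁻¹ < 1 := (q.ker _).1 (hv.trans hφx)
  have hle : q.v a ≤ 1 := ha q hf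
  have : q.v (a * a⁻¹) < 1 := by
    rw [map_mul]
    exact lt_of_le_of_lt (mul_le_of_le_one_left' hle) hlt
  rw [mul_inv_cancel₀ ha0, map_one] at this
  exact lt_irrefl _ this

end Pool.Agent.P.MP_b8021b_nt.KR
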