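import Pool.Agent.P.MP_b8021b_nt.KR.BasicP

/-! Unique lifting of paths to a finite extension. -/

namespace Pool.Agent.P.MP_b8021b_nt.KR

open Polynomial Filter Topology
open scoped Classical

noncomputable section

namespace PLiftA

variable {F : Type} [Field F] (γ : Path F)

/-- the value of a polynomial along a path -/
def ph (p : F[X]) (v : ℝ × ℂ) : ℂ := p.eval₂ (γ.j v.1) v.2

theorem ph_smooth (p : F[X]) : ContDiff ℝ 1 (ph γ p) := by
  have e : ph γ p = fun v : ℝ × ℂ =>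
      ∑ i ∈ Finset.range (p.natDegree + 1), γ.j v.1 (p.coeff i) * v.2 ^ i :=
    funext fun v => eval₂_eq_sum_range _ _
  rw [e]
  exact ContDiff.sum fun i _ =>
    ((γ.smooth (p.coeff i)).comp contDiff_fst).mul (contDiff_snd.pow i)

theorem ph_inv {p : F[X]} (hp : p.Separable) {u : ℝ × ℂ} (hu : ph γ p u = 0) :
    (fderiv ℝ (ph γ p) u ∘L ContinuousLinearMap.inr ℝ ℝ ℂ).IsInvertible := by
  set c : ℂ := (derivative p).eval₂ (γ.j u.1) u.2 with hc
  have hc0 : c ≠ 0 := hp.eval₂_derivative_ne_zero _ hu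
  have h1 : HasFDerivAt (fun x : ℂ => ph γ p (u.1, x))
      (fderiv ℝ (ph γ p) u ∘L ContinuousLinearMap.inr ℝ ℝ ℂ) u.2 := by
    have a := ((ph_smooth γ p).differentiable one_ne_zero u).hasFDerivAt
    exact HasFDerivAt.comp (g := ph γ p) (f := fun x : ℂ => (u.1, x)) u.2 a
      (hasFDerivAt_prodMk_right u.1 u.2)
  have h2 : HasDerivAt (fun x : ℂ => ph γ p (u.1, x)) c u.2 := by
    have a := (p.map (γ.j u.1)).hasDerivAt u.2
    simp only [eval_map, derivative_map] at a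
    exact a
  have h3 := h1.unique h2.complexToReal_fderiv
  rw [h3]
  refine ContinuousLinearMap.IsInvertible.of_inverse (g := c⁻¹ • (1 : ℂ →L[ℝ] ℂ)) ?_ ?_
  · ext
    simp [hc0]
  · ext
    simp [hc0]

theorem root_bound {p : F[X]} (hm : p.Monic) (hd : 0 < p.natDegree) (v : ℝ × ℂ) :
    ‖v.2‖ ≤ 1 + ‖ph γ p v‖ + ∑ i ∈ Finset.range p.natDegree, ‖γ.j v.1 (p.coeff i)‖ := by
  set S := ∑ i ∈ Finset.range p.natDegree, ‖γ.j v.1 (p.coeff i)‖ with hS
  have hS0 : 0 ≤ S := Finset.sum_nonneg fun i _ => norm_nonneg _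
  by_cases h1 : ‖v.2‖ ≤ 1
  · have := norm_nonneg (ph γ p v)
    linarith
  push Not at h1
  obtain ⟨d, hd'⟩ : ∃ d, p.natDegree = d + 1 := ⟨p.natDegree - 1, by omega⟩
  have e : ph γ p v = ∑ i ∈ Finset.range p.natDegree, γ.j v.1 (p.coeff i) * v.2 ^ i +
      v.2 ^ p.natDegree := by
    rw [ph, eval₂_eq_sum_range, Finset.sum_range_succ, hm.coeff_natDegree, map_one, one_mul]
  have hpow : 1 ≤ ‖v.2‖ ^ d := one_le_pow₀ h1.le
  have b : ‖∑ i ∈ Finset.range p.natDegree, γ.j v.1 (p.coeff i) * v.2 ^ i‖ ≤ S * ‖v.2‖ ^ d := by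
    refine (norm_sum_le _ _).trans ?_
    rw [hS, Finset.sum_mul]
    refine Finset.sum_le_sum fun i hi => ?_
    rw [norm_mul, norm_pow]
    refine mul_le_mul_of_nonneg_left (pow_le_pow_right₀ h1.le ?_) (norm_nonneg _)
    have := Finset.mem_range.1 hi
    omega
  have b2 : ‖v.2‖ ^ (d + 1) ≤ ‖ph γ p v‖ + S * ‖v.2‖ ^ d := by
    have e2 : v.2 ^ (d + 1) = ph γ p v -
        ∑ i ∈ Finset.range p.natDegree, γ.j v.1 (p.coeff i) * v.2 ^ i := by
      rw [e, ← hd']
      ring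
    rw [← norm_pow, e2]
    exact (norm_sub_le _ _).trans (by linarith)
  have b3 : ‖v.2‖ * ‖v.2‖ ^ d ≤ (‖ph γ p v‖ + S) * ‖v.2‖ ^ d := by
    have := mul_le_mul_of_nonneg_left hpow (norm_nonneg (ph γ p v))
    rw [pow_succ] at b2
    nlinarith
  have := le_of_mul_le_mul_right b3 (by linarith)
  linarith

/-- the map whose fibres are the roots -/
def G (p : F[X]) (v : ℝ × ℂ) : ℂ × ℝ := (ph γ p v, v.1)

theorem G_cont (p : F[X]) : Continuous (G γ p) :=
  (ph_smooth γ p).continuous.prodMk continuous_fst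

theorem G_proper {p : F[X]} (hm : p.Monic) (hd : 0 < p.natDegree) : IsProperMap (G γ p) := by
  rw [isProperMap_iff_isCompact_preimage]
  refine ⟨G_cont γ p, fun K hK => ?_⟩
  have hc : Continuous fun w : ℂ × ℝ =>
      ‖w.2‖ + (1 + ‖w.1‖ + ∑ i ∈ Finset.range p.natDegree, ‖γ.j w.2 (p.coeff i)‖) := by
    refine continuous_snd.norm.add ((continuous_const.add continuous_fst.norm).add ?_)
    exact continuous_finsetSum _ fun i _ => ((γ.cont (p.coeff i)).comp continuous_snd).norm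
  obtain ⟨C, hC⟩ := hK.bddAbove_image hc.continuousOn
  refine Metric.isCompact_of_isClosed_isBounded (hK.isClosed.preimage (G_cont γ p)) ?_
  refine isBounded_iff_forall_norm_le.2 ⟨C, fun v hv => ?_⟩
  have h1 := hC ⟨G γ p v, hv, rfl⟩
  have h2 := root_bound γ hm hd v
  have h3 : 0 ≤ ‖v.2‖ := norm_nonneg _
  have h4 : 0 ≤ ‖v.1‖ := norm_nonneg _
  simp only [G] at h1
  rw [Prod.norm_def]
  exact max_le (by linarith) (by linarith)

theorem G_fibre {p : F[X]} (hm : p.Monic) (t : ℝ) : (G γ p ⁻¹' {((0 : ℂ), t)}).Finite := by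
  have hne : p.map (γ.j t) ≠ 0 := (hm.map _).ne_zero
  refine (((p.map (γ.j t)).roots.toFinset.finite_toSet).image fun x => (t, x)).subset ?_
  rintro ⟨s, x⟩ hv
  simp only [Set.mem_preimage, Set.mem_singleton_iff, G, Prod.mk.injEq] at hv
  obtain ⟨h1, rfl⟩ := hv
  refine ⟨x, ?_, rfl⟩
  simp only [Finset.mem_coe, Multiset.mem_toFinset, mem_roots hne, IsRoot.def, eval_map]
  exact h1

theorem G_cov {p : F[X]} (hm : p.Monic) (hd : 0 < p.natDegree) (hp : p.Separable) :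
    IsCoveringMapOn (G γ p) {w | w.1 = 0} := by
  refine (G_proper γ hm hd).isClosedMap.isCoveringMapOn_of_isLocalHomeomorphOn ?_ ?_
  · rintro ⟨y, t⟩ hy
    have : y = 0 := hy
    subst this
    exact G_fibre γ hm t
  · intro u hu
    have hu0 : ph γ p u = 0 := hu
    let φ := (((ph_smooth γ p).contDiffAt (x := u)).hasStrictFDerivAt
      one_ne_zero).implicitFunctionDataOfProdDomain (ph_inv γ hp hu0)
    exact ⟨φ.toOpenPartialHomeomorph, φ.pt_mem_toOpenPartialHomeomorph_source, rfl⟩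

theorem root_unique {p : F[X]} (hm : p.Monic) (hd : 0 < p.natDegree) (hp : p.Separable)
    {t₀ : ℝ} {x₀ : ℂ} (h₀ : ph γ p (t₀, x₀) = 0) :
    ∃! r : C(ℝ, ℂ), r t₀ = x₀ ∧ ∀ t, ph γ p (t, r t) = 0 := by
  let f : C(ℝ, ℂ × ℝ) := ⟨fun t => (0, t), by fun_prop⟩
  obtain ⟨L, ⟨hL0, hL⟩, hLu⟩ := (G_cov γ hm hd hp).existsUnique_continuousMap_lifts f
    (a₀ := t₀) (e₀ := (t₀, x₀)) (Prod.ext h₀ rfl) fun _ => rfl
  have hL1 : ∀ t, (L t).1 = t := fun t => congrArg Prod.snd (congrFun hL t)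
  have hL2 : ∀ t, ph γ p (L t) = 0 := fun t => congrArg Prod.fst (congrFun hL t)
  refine ⟨⟨fun t => (L t).2, by fun_prop⟩, ⟨congrArg Prod.snd hL0, fun t => ?_⟩, ?_⟩
  · have : ((t, (L t).2) : ℝ × ℂ) = L t := Prod.ext (hL1 t).symm rfl
    exact (congrArg (ph γ p) this).trans (hL2 t)
  · rintro r ⟨hr0, hr⟩
    have := hLu ⟨fun t => (t, r t), by fun_prop⟩
      ⟨Prod.ext rfl hr0, funext fun t => Prod.ext (hr t) rfl⟩
    ext t
    exact congrArg Prod.snd (DFunLike.congr_fun this t)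

theorem root_smooth {p : F[X]} (hp : p.Separable) {r : ℝ → ℂ} (hc : Continuous r)
    (hr : ∀ t, ph γ p (t, r t) = 0) : ContDiff ℝ 1 r := by
  refine contDiff_iff_contDiffAt.2 fun t => ?_
  have cdf : ContDiffAt ℝ 1 (ph γ p) (t, r t) := (ph_smooth γ p).contDiffAt
  have hi := ph_inv γ hp (hr t)
  have h1 := cdf.contDiffAt_implicitFunction one_ne_zero hi
  have h2 := cdf.eventually_apply_eq_iff_implicitFunction one_ne_zero hi
  have h3 : Tendsto (fun s => (s, r s)) (𝓝 t) (𝓝 (t, r t)) :=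
    (continuous_id.prodMk hc).tendsto t
  refine h1.congr_of_eventuallyEq ?_
  filter_upwards [h3.eventually h2] with s hs
  exact (hs.1 ((hr s).trans (hr t).symm)).symm

theorem hom_aeval {M : Type} [Field M] [Algebra F M] (σ : M →+* ℂ) (θ : M) (q : F[X]) :
    σ (aeval θ q) = q.eval₂ (σ.comp (algebraMap F M)) (σ θ) := by
  rw [aeval_def, hom_eval₂]

theorem exists_hom {M : Type} [Field M] [Algebra F M] (pb : PowerBasis F M) (j : F →+* ℂ) (x : ℂ)
    (hx : (minpoly F pb.gen).eval₂ j x = 0) :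
    ∃ σ : M →+* ℂ, σ.comp (algebraMap F M) = j ∧ σ pb.gen = x := by
  let : Algebra F ℂ := j.toAlgebra
  refine ⟨(pb.lift x hx).toRingHom, ?_, pb.lift_gen x hx⟩
  ext a
  exact (pb.lift x hx).commutes a

end PLiftA

open PLiftA in
theorem p_lift : S_Lift := by
  intro F M _ _ _ _ _ γ t₀ σ hσ
  let pb : PowerBasis F M := Field.powerBasisOfFiniteOfSeparable F M
  have hi : IsIntegral F pb.gen := pb.isIntegral_gen
  have hm : (minpoly F pb.gen).Monic := minpoly.monic hi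
  have hd : 0 < (minpoly F pb.gen).natDegree := minpoly.natDegree_pos hi
  have hp : (minpoly F pb.gen).Separable := Algebra.IsSeparable.isSeparable F pb.gen
  have key : ∀ (t : ℝ) (τ : M →+* ℂ), τ.comp (algebraMap F M) = γ.j t →
      ph γ (minpoly F pb.gen) (t, τ pb.gen) = 0 := fun t τ hτ => by
    have := hom_aeval τ pb.gen (minpoly F pb.gen)
    rw [minpoly.aeval, map_zero, hτ] at this
    exact this.symm
  have ext : ∀ (τ τ' : M →+* ℂ), τ.comp (algebraMap F M) = τ'.comp (algebraMap F M) →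
      τ pb.gen = τ' pb.gen → τ = τ' := fun τ τ' h1 h2 => by
    ext a
    obtain ⟨q, rfl⟩ := pb.exists_eq_aeval' a
    rw [hom_aeval, hom_aeval, h1, h2]
  obtain ⟨r, ⟨hr0, hr⟩, hru⟩ := root_unique γ hm hd hp (key t₀ σ hσ)
  have hs : ContDiff ℝ 1 r := root_smooth γ hp r.continuous hr
  choose J hJ1 hJ2 using fun t => exists_hom pb (γ.j t) (r t) (hr t)
  have hJ : ∀ a, ContDiff ℝ 1 fun t => J t a := fun a => by
    obtain ⟨q, rfl⟩ := pb.exists_eq_aeval' a
    have e : (fun t => J t (aeval pb.gen q)) = fun t => ph γ q (t, r t) := funext fun t => by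
      rw [hom_aeval, hJ1, hJ2]
      rfl
    rw [e]
    exact (ph_smooth γ q).comp (contDiff_id.prodMk hs)
  refine ⟨⟨J, hJ⟩, ⟨Path.ext' fun t a => DFunLike.congr_fun (hJ1 t) a, ?_⟩, ?_⟩
  · exact ext _ _ ((hJ1 t₀).trans hσ.symm) ((hJ2 t₀).trans hr0)
  · rintro γ' ⟨h1, h2⟩
    have h3 : ∀ t, (γ'.j t).comp (algebraMap F M) = γ.j t := fun t =>
      congrArg (fun δ : Path F => δ.j t) h1
    have h4 := hru ⟨fun t => γ'.j t pb.gen, γ'.cont pb.gen⟩
      ⟨congrArg (fun τ : M →+* ℂ => τ pb.gen) h2, fun t => key t _ (h3 t)⟩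
    refine Path.ext' fun t a => DFunLike.congr_fun (ext (γ'.j t) (J t) ?_ ?_) a
    · exact (h3 t).trans (hJ1 t).symm
    · exact (DFunLike.congr_fun h4 t).trans (hJ2 t).symm

end

end Pool.Agent.P.MP_b8021b_nt.KR
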