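import Pool.Agent.P.MP_b8021b_nt.KR.BasicP

/-! Lifting of chains along a finite extension. -/

namespace Pool.Agent.P.MP_b8021b_nt.KR

open Finset
open scoped Classical

noncomputable section

namespace PLiftC

variable {F M : Type} [Field F] [CharZero F] [Field M] [Algebra F M] [FiniteDimensional F M]

/-- the embeddings over a given embedding -/
theorem emb (τ : F →+* ℂ) : ∃ s : Finset (M →+* ℂ),
    (∀ σ, σ ∈ s ↔ σ.comp (algebraMap F M) = τ) ∧ s.card = Module.finrank F M ∧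
      ∀ a, ∑ σ ∈ s, σ a = τ (Algebra.trace F M a) := by
  let _ : Algebra F ℂ := τ.toAlgebra
  have hinj : Function.Injective fun σ : M →ₐ[F] ℂ => (σ : M →+* ℂ) :=
    AlgHom.coe_ringHom_injective
  refine ⟨univ.map ⟨_, hinj⟩, fun σ => ?_, ?_, fun a => ?_⟩
  · simp only [mem_map, mem_univ, true_and, Function.Embedding.coeFn_mk]
    constructor
    · rintro ⟨σ, rfl⟩
      exact RingHom.ext fun x => σ.commutes x
    · intro h
      exact ⟨⟨σ, fun x => RingHom.congr_fun h x⟩, rfl⟩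
  · rw [card_map, card_univ, AlgHom.card]
  · rw [sum_map]
    exact (trace_eq_sum_embeddings ℂ (K := F) (x := a)).symm

variable (M) in
/-- the finite set of embeddings over `τ` -/
def E (τ : F →+* ℂ) : Finset (M →+* ℂ) := (emb (M := M) τ).choose

theorem mem_E {τ : F →+* ℂ} {σ : M →+* ℂ} : σ ∈ E M τ ↔ σ.comp (algebraMap F M) = τ :=
  (emb (M := M) τ).choose_spec.1 σ

theorem card_E (τ : F →+* ℂ) : (E M τ).card = Module.finrank F M :=
  (emb (M := M) τ).choose_spec.2.1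

theorem sum_E (τ : F →+* ℂ) (a : M) : ∑ σ ∈ E M τ, σ a = τ (Algebra.trace F M a) :=
  (emb (M := M) τ).choose_spec.2.2 a

theorem j_mem {γ : Path F} {γ' : Path M} (h : γ'.comap (algebraMap F M) = γ) (t : ℝ) :
    γ'.j t ∈ E M (γ.j t) := by
  rw [mem_E, ← h]
  rfl

theorem inj (hL : S_Lift) {γ : Path F} {γ₁ γ₂ : Path M} (h₁ : γ₁.comap (algebraMap F M) = γ)
    (h₂ : γ₂.comap (algebraMap F M) = γ) (t : ℝ) (h : γ₁.j t = γ₂.j t) : γ₁ = γ₂ :=
  (hL F M γ t (γ₁.j t) (mem_E.1 (j_mem h₁ t))).unique ⟨h₁, rfl⟩ ⟨h₂, h.symm⟩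

theorem fin (hL : S_Lift) (γ : Path F) :
    {γ' : Path M | γ'.comap (algebraMap F M) = γ}.Finite :=
  Set.Finite.of_injOn (f := fun γ' : Path M => γ'.j 0) (t := (E M (γ.j 0) : Set (M →+* ℂ)))
    (fun _ h => mem_coe.2 (j_mem h 0)) (fun _ h₁ _ h₂ h => inj hL h₁ h₂ 0 h) (finite_toSet _)

variable (M) in
/-- the finite set of lifts of a path -/
def L (hL : S_Lift) (γ : Path F) : Finset (Path M) := (fin (M := M) hL γ).toFinset

theorem mem_L {hL : S_Lift} {γ : Path F} {γ' : Path M} :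
    γ' ∈ L M hL γ ↔ γ'.comap (algebraMap F M) = γ := by
  simp [L]

theorem sum_L (hL : S_Lift) {β : Type} [AddCommMonoid β] (γ : Path F) (t : ℝ)
    (Ψ : (M →+* ℂ) → β) : ∑ γ' ∈ L M hL γ, Ψ (γ'.j t) = ∑ σ ∈ E M (γ.j t), Ψ σ := by
  refine sum_bij (fun γ' _ => γ'.j t) (fun _ h => j_mem (mem_L.1 h) t)
    (fun _ h₁ _ h₂ h => inj hL (mem_L.1 h₁) (mem_L.1 h₂) t h) (fun σ hσ => ?_) fun _ _ => rfl
  obtain ⟨γ', h, -⟩ := hL F M γ t σ (mem_E.1 hσ)
  exact ⟨γ', mem_L.2 h.1, h.2⟩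

theorem card_L (hL : S_Lift) (γ : Path F) : (L M hL γ).card = Module.finrank F M := by
  have := sum_L (M := M) hL γ 0 fun _ => (1 : ℕ)
  simpa [card_E] using this

theorem ev_lift (hL : S_Lift) {c : Path F →₀ ℝ} {c' : Path M →₀ ℝ}
    (h : IsLift (algebraMap F M) c c') (Φ : Path M → ℝ) :
    ev Φ c' = ev (fun γ => ∑ γ' ∈ L M hL γ, Φ γ') c := by
  rw [ev_apply, ev_apply, Finsupp.sum, Finsupp.sum,
    ← sum_fiberwise_of_maps_to (s := c'.support) (t := c.support)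
      (g := fun γ' => γ'.comap (algebraMap F M))
      (fun γ' hγ => by rwa [Finsupp.mem_support_iff, ← h γ', ← Finsupp.mem_support_iff])]
  refine sum_congr rfl fun γ hγ => ?_
  rw [mul_sum]
  refine sum_congr (Finset.ext fun γ' => ?_) fun γ' hγ' => by rw [h γ', mem_L.1 hγ']
  rw [mem_filter, mem_L, Finsupp.mem_support_iff, h γ']
  exact ⟨fun k => k.2, fun k => ⟨by rw [k]; exact Finsupp.mem_support_iff.1 hγ, k⟩⟩

omit [CharZero F] [Algebra F M] [FiniteDimensional F M] in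
theorem cyc {c : Path M →₀ ℝ}
    (h : ∀ Ψ : (M →+* ℂ) → ℝ, ev (fun γ => Ψ (γ.j 1) - Ψ (γ.j 0)) c = 0) : IsCycle c := by
  refine Finsupp.ext fun σ => ?_
  have k : ∀ e : Path M → M →+* ℂ, c.mapDomain e σ =
      c.sum fun γ n => n * if e γ = σ then 1 else 0 := fun e => by
    rw [Finsupp.mapDomain, Finsupp.sum_apply]
    refine Finsupp.sum_congr fun γ _ => ?_
    by_cases he : e γ = σ
    · rw [if_pos he, he, Finsupp.single_eq_same, mul_one]
    · rw [if_neg he, Finsupp.single_eq_of_ne (Ne.symm he), mul_zero]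
  have := h fun τ => if τ = σ then 1 else 0
  rw [ev_apply] at this
  simp only [mul_sub, Finsupp.sum_sub] at this
  rw [k, k]
  exact sub_eq_zero.1 this

theorem lam_L (hL : S_Lift) (γ : Path F) (a : M) (b : F) :
    ∑ γ' ∈ L M hL γ, γ'.lam a (algebraMap F M b) = γ.lam (Algebra.trace F M a) b := by
  simp only [Path.lam_eq]
  rw [← intervalIntegral.integral_finsetSum fun γ' _ => (γ'.cont_lam _ _).intervalIntegrable _ _]
  refine intervalIntegral.integral_congr fun t _ => ?_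
  have k : ∀ γ' ∈ L M hL γ, (γ'.j t a * γ'.d (algebraMap F M b) t).im =
      (γ'.j t a * γ.d b t).im := fun γ' hγ' => by
    rw [← mem_L.1 hγ']
    rfl
  show ∑ γ' ∈ L M hL γ, (γ'.j t a * γ'.d (algebraMap F M b) t).im = _
  rw [sum_congr rfl k, ← Complex.im_sum, ← sum_mul, sum_L hL γ t fun σ => σ a, sum_E]

end PLiftC

open PLiftC in
theorem p_liftC (hL : S_Lift) : S_LiftC := by
  intro F M _ _ _ _ _ c
  refine ⟨⟨Finsupp.onFinset (c.support.biUnion (L M hL)) (fun γ' => c (γ'.comap (algebraMap F M)))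
    fun γ' h => mem_biUnion.2 ⟨_, Finsupp.mem_support_iff.2 h, mem_L.2 rfl⟩, fun _ => rfl⟩,
    fun c' h => ⟨fun hc => cyc fun Ψ => ?_, fun a b => ?_, fun f g => ?_⟩⟩
  · rw [ev_lift hL h]
    refine Eq.trans ?_ (hc.ev_zero fun τ => ∑ σ ∈ E M τ, Ψ σ)
    congr 2
    funext γ
    rw [sum_sub_distrib, sum_L hL γ 1 Ψ, sum_L hL γ 0 Ψ]
  · rw [lamC_eq, lamC_eq, ev_lift hL h]
    congr 2
    funext γ
    exact lam_L hL γ a b
  · rw [regC_eq, regC_eq, ev_lift hL h, ev_apply, ev_apply, Finsupp.mul_sum]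
    refine Finsupp.sum_congr fun γ _ => ?_
    have k : ∀ γ' ∈ L M hL γ, γ'.reg (algebraMap F M f) (algebraMap F M g) = γ.reg f g :=
      fun γ' hγ' => by rw [← mem_L.1 hγ', Path.comap_reg]
    rw [sum_congr rfl k, sum_const, card_L, nsmul_eq_mul]
    ring

end

end Pool.Agent.P.MP_b8021b_nt.KR
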