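import Pool.Agent.P.MP_b8021b_nt.KR.BasicP

/-! The main theorem from the interface statements. -/

namespace Pool.Agent.P.MP_b8021b_nt.KR

open Finset Pool.Agent.P.MP_b8021b_nt.VE
open scoped Classical

namespace PMain

/-- independent functions on a set have an invertible minor -/
theorem minor {X : Type} {n : ℕ} (u : X → Fin n → ℝ)
    (h : ∀ r : Fin n → ℝ, (∀ x, ∑ k, r k * u x k = 0) → r = 0) :
    ∃ x : Fin n → X, (Matrix.of fun i j => u (x j) i).det ≠ 0 := by
  have top : Submodule.span ℝ (Set.range u) = ⊤ := by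
    by_contra hne
    obtain ⟨f, hf, hb⟩ := Submodule.exists_dual_map_eq_bot_of_lt_top (lt_top_iff_ne_top.2 hne)
      inferInstance
    have key : ∀ v : Fin n → ℝ, f v = ∑ k, f (fun j => if k = j then 1 else 0) * v k := fun v => by
      rw [LinearMap.pi_apply_eq_sum_univ f v]
      exact sum_congr rfl fun k _ => by rw [smul_eq_mul, mul_comm]
    have h0 := h (fun k => f fun j => if k = j then 1 else 0) fun x => by
      rw [← key]
      have : f (u x) ∈ (Submodule.span ℝ (Set.range u)).map f :=
        Submodule.mem_map_of_mem (Submodule.subset_span ⟨x, rfl⟩)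
      rwa [hb, Submodule.mem_bot] at this
    refine hf (LinearMap.ext fun v => ?_)
    rw [key, LinearMap.zero_apply]
    exact sum_eq_zero fun k _ => by rw [congrFun h0 k, Pi.zero_apply, zero_mul]
  obtain ⟨f, hs, -, hl⟩ := Submodule.exists_fun_fin_finrank_span_eq ℝ (Set.range u)
  have e : Module.finrank ℝ (Submodule.span ℝ (Set.range u)) = n := by
    rw [top, finrank_top, Module.finrank_fin_fun]
  choose x hx using hs
  refine ⟨fun j => x (Fin.cast e.symm j), ?_⟩
  have hl' : LinearIndependent ℝ (Matrix.of fun i j => u (x (Fin.cast e.symm j)) i).col := by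
    have : (Matrix.of fun i j => u (x (Fin.cast e.symm j)) i).col = f ∘ Fin.cast e.symm := by
      funext j i
      rw [Function.comp_apply, ← hx]
      rfl
    rw [this]
    exact hl.comp _ (Fin.cast_injective _)
  exact ((Matrix.isUnit_iff_isUnit_det _).1 (Matrix.linearIndependent_cols_iff_isUnit.1 hl')).ne_zero

/-- a real linear combination of additive maps -/
noncomputable def comb {A : Type} [AddCommGroup A] {n : ℕ} (r : Fin n → ℝ) (R : Fin n → A →+ ℝ) :
    A →+ ℝ := AddMonoidHom.mk' (fun a => ∑ i, r i * R i a) fun a b => by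
  simp only [map_add, mul_add, sum_add_distrib]

theorem comb_apply {A : Type} [AddCommGroup A] {n : ℕ} (r : Fin n → ℝ) (R : Fin n → A →+ ℝ)
    (a : A) : comb r R a = ∑ i, r i * R i a := rfl

end PMain

theorem p_main (hSt : S_St) (hDer : S_Der) (hReg : S_Reg) (hOnto : S_Onto) (hFac : S_Fac) (hClA : S_ClA) : S_Main := by
  intro F _ _ hF V n ω hω hr
  have hC : IsCurve F := hF
  obtain ⟨f, hf, -⟩ := hF
  obtain ⟨D, -, -, hφ, -⟩ := hDer F hC f hf
  choose φ hφ using fun i => hφ (ω i)
  have hli : LinearIndependent ℚ φ := by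
    refine LinearIndependent.of_comp
      ((LinearMap.toSpanSingleton F _ (KaehlerDifferential.D ℚ F f)).restrictScalars ℚ) ?_
    have : ((LinearMap.toSpanSingleton F _ (KaehlerDifferential.D ℚ F f)).restrictScalars ℚ) ∘ φ
        = ω := funext fun i => (hφ i).symm
    rwa [this]
  have hreg : ∀ k, RegV (φ k) f := fun k => (hReg F hC (φ k) f hf).1 (hφ k ▸ hr k)
  obtain ⟨c, hc⟩ := PMain.minor (X := {c : Path F →₀ ℝ // IsCycle c})
    (fun c k => lamC c.1 (φ k) f) fun r h => hOnto F hC f hf n φ r hli hreg fun c hc => h ⟨c, hc⟩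
  choose R hR using fun i => ((hSt F (c i).1).2.2 (c i).2).2
  obtain ⟨α, hα⟩ := PMain.minor
    (X := {α : K2 F // ∀ p : DVal F, p.Hor ∨ p ∈ V → p.Kills α}) (fun α i => R i α.1) fun r h => by
      have hcy : IsCycle (∑ i, r i • (c i).1) := IsCycle.sum _ r fun i _ => (c i).2
      obtain ⟨q, l, hl⟩ := hFac F hC V (PMain.comb r R) (regC (∑ i, r i • (c i).1))
        (fun f g => by
          rw [regC_sum, PMain.comb_apply]
          exact sum_congr rfl fun i _ => by rw [hR i f g]; rfl)
        fun α hα => h ⟨α, hα⟩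
      have hv := hClA F hC q l _ hcy hl
      refine Matrix.eq_zero_of_mulVec_eq_zero hc (funext fun k => ?_)
      have := hv (φ k) f hf (hreg k)
      rw [lamC_sum] at this
      rw [Pi.zero_apply, ← this, Matrix.mulVec, dotProduct]
      exact sum_congr rfl fun i _ => by rw [mul_comm]; rfl
  exact ⟨fun j => (α j).1, fun i => (c i).1, R, fun j => (α j).2, fun i => ⟨(c i).2, hR i⟩, hα⟩

end Pool.Agent.P.MP_b8021b_nt.KR
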