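import Pool.Agent.P.MP_b8021b_nt.KR.St

/-! The maximum principle for the sum of the exponentials of the branches. -/

namespace Pool.Agent.P.MP_b8021b_nt.KR

open Polynomial Finset Filter Topology Metric
open scoped Classical

namespace PMax

/-- the sum of the squared norms of `exp (-i H k)` -/
noncomputable def S {d : ℕ} (H : Fin d → ℂ → ℂ) (y : ℂ) : ℝ := ∑ i, Real.exp (2 * (H i y).im)

theorem S_pos {d : ℕ} (hd : 0 < d) (H : Fin d → ℂ → ℂ) (y : ℂ) : 0 < S H y :=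
  Finset.sum_pos (fun _ _ => Real.exp_pos _) ⟨⟨0, hd⟩, mem_univ _⟩

theorem S_cont {d : ℕ} {H : Fin d → ℂ → ℂ} {y : ℂ} (h : ∀ i, ContinuousAt (H i) y) :
    ContinuousAt (S H) y :=
  tendsto_finsetSum _ fun i _ => (Real.continuous_exp.continuousAt.comp
    (continuousAt_const.mul (Complex.continuous_im.continuousAt.comp (h i))))

/-- an inequality between continuous functions passes from a dense set to a point -/
theorem le_dense {Gen : Set ℂ} (hG : Dense Gen) {f g : ℂ → ℝ} {x : ℂ} (hf : ContinuousAt f x)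
    (hg : ContinuousAt g x) (h : ∀ᶠ y in 𝓝 x, y ∈ Gen → f y ≤ g y) : f x ≤ g x := by
  have : (𝓝[Gen] x).NeBot := mem_closure_iff_nhdsWithin_neBot.1 (hG x)
  exact le_of_tendsto_of_tendsto (hf.tendsto.mono_left (nhdsWithin_le_nhds (s := Gen)))
    (hg.tendsto.mono_left nhdsWithin_le_nhds) (eventually_nhdsWithin_iff.2 h)

theorem locmax {d : ℕ} (H : Fin d → ℂ → ℂ) (l : ℂ → ℂ) (x : ℂ)
    (hH : ∀ i, ∀ᶠ y in 𝓝 x, DifferentiableAt ℂ (H i) y) (hl : ∀ᶠ y in 𝓝 x, DifferentiableAt ℂ l y)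
    (hm : ∀ᶠ y in 𝓝 x, S H y * Real.exp (2 * (l y).re) ≤ S H x * Real.exp (2 * (l x).re)) :
    ∀ᶠ y in 𝓝 x, ∀ i, deriv (H i) y = -Complex.I * deriv l y := by
  let E : ℂ → EuclideanSpace ℂ (Fin d) := fun y =>
    WithLp.toLp 2 fun i => Complex.exp (-Complex.I * H i y + l y)
  have hn : ∀ y, ‖E y‖ ^ 2 = S H y * Real.exp (2 * (l y).re) := fun y => by
    rw [EuclideanSpace.norm_sq_eq, S, Finset.sum_mul]
    refine Finset.sum_congr rfl fun i _ => ?_
    simp only [E, Complex.norm_exp]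
    rw [← Real.exp_add, ← Real.exp_nat_mul]
    congr 1
    simp
    ring
  have hall : ∀ᶠ y in 𝓝 x, ∀ i, DifferentiableAt ℂ (H i) y := eventually_all.2 hH
  have hd : ∀ᶠ y in 𝓝 x, DifferentiableAt ℂ E y := by
    filter_upwards [hall, hl] with y h1 h2
    exact differentiableAt_euclidean.2 fun i => ((h1 i).const_mul _ |>.add h2).cexp
  have hc := Complex.eventually_eq_of_isLocalMax_norm hd (by
    filter_upwards [hm] with y hy
    rw [← hn, ← hn] at hy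
    exact (pow_le_pow_iff_left₀ (norm_nonneg _) (norm_nonneg _) two_ne_zero).1 hy)
  filter_upwards [hc.eventually_nhds, hall, hl] with y h1 h2 h3 i
  have h4 : HasDerivAt (fun w => Complex.exp (-Complex.I * H i w + l w))
      (Complex.exp (-Complex.I * H i y + l y) * (-Complex.I * deriv (H i) y + deriv l y)) y :=
    (((h2 i).hasDerivAt.const_mul _).add h3.hasDerivAt).cexp
  have h5 : HasDerivAt (fun w => Complex.exp (-Complex.I * H i w + l w)) 0 y :=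
    (hasDerivAt_const y (E x i)).congr_of_eventuallyEq (h1.mono fun w hw => by rw [← hw])
  have h6 := (mul_eq_zero.1 (h4.unique h5)).resolve_left (Complex.exp_ne_zero _)
  linear_combination Complex.I * h6 + deriv (H i) y * Complex.I_mul_I

theorem ray {f φ : ℝ → ℝ} {s t : ℝ} (hst : s ≤ t)
    (h : ∀ r ∈ Set.Icc s t, ∃ L P, HasDerivAt f L r ∧ HasDerivAt φ P r ∧ |L| ≤ P) :
    |f t - f s| ≤ φ t - φ s := by
  have key : ∀ c : ℝ, |c| = 1 → c * f s + φ s ≤ c * f t + φ t := fun c hc => by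
    have hd : ∀ r ∈ Set.Icc s t, ∃ D, HasDerivAt (fun r => c * f r + φ r) D r ∧ 0 ≤ D :=
      fun r hr => by
        obtain ⟨L, P, h1, h2, h3⟩ := h r hr
        refine ⟨_, (h1.const_mul c).add h2, ?_⟩
        have := neg_abs_le (c * L)
        rw [abs_mul, hc] at this
        linarith
    refine monotoneOn_of_deriv_nonneg (convex_Icc s t) (f := fun r => c * f r + φ r)
      (fun r hr => (hd r hr).choose_spec.1.continuousAt.continuousWithinAt)
      (fun r hr => (hd r (interior_subset hr)).choose_spec.1.differentiableAt.differentiableWithinAt)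
      (fun r hr => ?_) ⟨le_rfl, hst⟩ ⟨hst, le_rfl⟩ hst
    obtain ⟨D, h1, h2⟩ := hd r (interior_subset hr)
    rwa [h1.deriv]
  have h1 := key 1 abs_one
  have h2 := key (-1) (by simp)
  rw [abs_le]
  constructor <;> linarith

theorem dlog {d : ℕ} (hd : 0 < d) (H : Fin d → ℂ → ℂ) (a v : ℂ) (hv : ‖v‖ = 1) (t B : ℝ)
    (hH : ∀ i, DifferentiableAt ℂ (H i) (a + t * v)) (hB : ∀ i, ‖deriv (H i) (a + t * v)‖ ≤ B) :
    ∃ L, HasDerivAt (fun s : ℝ => Real.log (S H (a + s * v))) L t ∧ |L| ≤ 2 * B := by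
  have h0 : HasDerivAt (fun s : ℂ => a + s * v) v (t : ℂ) := by
    simpa using ((hasDerivAt_id (t : ℂ)).mul_const v).const_add a
  have h1 : ∀ i, HasDerivAt (fun s : ℝ => Real.exp (2 * (H i (a + s * v)).im))
      (Real.exp (2 * (H i (a + t * v)).im) * (2 * (deriv (H i) (a + t * v) * v).im)) t := fun i => by
    have h2 := ((hH i).hasDerivAt.comp (t : ℂ) h0).comp_ofReal
    exact ((Complex.imCLM.hasFDerivAt.comp_hasDerivAt t h2).const_mul 2).exp
  have h2 := HasDerivAt.fun_sum fun i (_ : i ∈ univ) => h1 i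
  have hp := S_pos hd H (a + t * v)
  refine ⟨_, HasDerivAt.log (f := fun s : ℝ => S H (a + s * v)) h2 hp.ne', ?_⟩
  rw [abs_div, abs_of_pos hp, div_le_iff₀ hp, S, Finset.mul_sum]
  refine (Finset.abs_sum_le_sum_abs _ _).trans (Finset.sum_le_sum fun i _ => ?_)
  rw [abs_mul, abs_of_pos (Real.exp_pos _), mul_comm, abs_mul, abs_two]
  have h3 := Complex.abs_im_le_norm (deriv (H i) (a + t * v) * v)
  rw [norm_mul, hv, mul_one] at h3
  have h4 := h3.trans (hB i)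
  gcongr

/-- local data: `u` is locally the logarithm of `S H`, and bounds on `Φ` pass to the branches -/
def Loc {J : Type} (z Φ : J → ℂ) (Gen : Set ℂ) (q : ℂ[X]) (d : ℕ) (u : ℂ → ℝ) : Prop :=
  ∀ x, q.eval x ≠ 0 → ∃ H : Fin d → ℂ → ℂ, ∀ᶠ y in 𝓝 x, (∀ i, DifferentiableAt ℂ (H i) y) ∧
    u y = Real.log (S H y) ∧ (y ∈ Gen → (∀ i, ∃ j, z j = y ∧ Φ j = deriv (H i) y) ∧
      ∀ j, z j = y → ∃ i, Φ j = deriv (H i) y)

variable {J : Type} {z Φ : J → ℂ} {Gen : Set ℂ} {q : ℂ[X]} {d : ℕ} {u : ℂ → ℝ}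

theorem Loc.cont (h : Loc z Φ Gen q d u) (hd : 0 < d) {x : ℂ} (hx : q.eval x ≠ 0) :
    ContinuousAt u x := by
  obtain ⟨H, hH⟩ := h x hx
  exact ((S_cont fun i => (hH.self_of_nhds.1 i).continuousAt).log (S_pos hd H x).ne').congr
    (hH.mono fun y hy => hy.2.1.symm)

theorem Loc.der (h : Loc z Φ Gen q d u) (hd : 0 < d) (hG : Dense Gen) (a v : ℂ) (hv : ‖v‖ = 1)
    (t : ℝ) (hx : q.eval (a + t * v) ≠ 0) {B : ℂ → ℝ} (hB : ContinuousAt B (a + t * v))
    (hb : ∀ᶠ y in 𝓝 (a + t * v), ∀ j, z j = y → ‖Φ j‖ ≤ B y) :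
    ∃ L, HasDerivAt (fun s : ℝ => u (a + s * v)) L t ∧ |L| ≤ 2 * B (a + t * v) := by
  obtain ⟨H, hH⟩ := h _ hx
  obtain ⟨L, h1, h2⟩ := dlog hd H a v hv t (B (a + t * v)) hH.self_of_nhds.1 fun i => by
    have han : AnalyticAt ℂ (H i) (a + t * v) :=
      Complex.analyticAt_iff_eventually_differentiableAt.2 (hH.mono fun y hy => hy.1 i)
    refine le_dense hG (f := fun y => ‖deriv (H i) y‖) han.deriv.continuousAt.norm hB ?_
    filter_upwards [hH, hb] with y h1 h2 hy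
    obtain ⟨j, h3, h4⟩ := (h1.2.2 hy).1 i
    exact h4 ▸ h2 j h3
  refine ⟨L, h1.congr_of_eventuallyEq ?_, h2⟩
  have hc : ContinuousAt (fun s : ℝ => a + s * v) t := by fun_prop
  exact (hc.tendsto.eventually hH).mono fun s hs => hs.2.1

theorem Loc.bdd (h : Loc z Φ Gen q d u) (hd : 0 < d) {K : Set ℂ} (hK : IsCompact K)
    (hq : ∀ x ∈ K, q.eval x ≠ 0) : ∃ m, ∀ x ∈ K, u x ≤ m := by
  obtain ⟨m, hm⟩ := hK.bddAbove_image fun x hx => (h.cont hd (hq x hx)).continuousWithinAt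
  exact ⟨m, fun x hx => hm ⟨x, hx, rfl⟩⟩

theorem polar (b y : ℂ) (h : y ≠ b) : ∃ v : ℂ, ‖v‖ = 1 ∧ y = b + (‖y - b‖ : ℝ) * v := by
  have h1 : ((‖y - b‖ : ℝ) : ℂ) ≠ 0 := by simpa [sub_eq_zero] using h
  refine ⟨(y - b) / (‖y - b‖ : ℝ), ?_, by field_simp; ring⟩
  rw [norm_div, Complex.norm_real, norm_norm, div_self (norm_ne_zero_iff.2 (sub_ne_zero.2 h))]

theorem nrm (b v : ℂ) (hv : ‖v‖ = 1) {t : ℝ} (ht : 0 ≤ t) : ‖b + t * v - b‖ = t := by
  rw [add_sub_cancel_left, norm_mul, hv, mul_one, Complex.norm_real, Real.norm_of_nonneg ht]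

theorem Loc.root (h : Loc z Φ Gen q d u) (hd : 0 < d) (hG : Dense Gen) (hq : q ≠ 0) (b : ℂ)
    {ρ C θ : ℝ} (hρ : 0 < ρ) (hθ : 0 < θ)
    (hb : ∀ j, ‖z j - b‖ ≤ ρ → ‖Φ j‖ ≤ C * ‖z j - b‖ ^ (θ - 1)) :
    ∃ m, ∀ᶠ y in 𝓝 b, y ≠ b → u y ≤ m := by
  have hfin : ∀ᶠ y in 𝓝[≠] b, q.eval y ≠ 0 := by
    have := (q.rootSet_finite ℂ).eventually_cofinite_notMem.filter_mono
      (nhdsNE_le_cofinite b)
    exact this.mono fun y hy h0 => hy (mem_rootSet.2 ⟨hq, by simpa using h0⟩)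
  obtain ⟨r, hr, h1⟩ := nhds_basis_closedBall.eventually_iff.1
    ((eventually_nhdsWithin_iff.1 hfin).and (ball_mem_nhds b hρ))
  have hin : ∀ (v : ℂ) (t : ℝ), ‖v‖ = 1 → 0 < t → t ≤ r →
      q.eval (b + t * v) ≠ 0 ∧ b + t * v ∈ ball b ρ := fun v t hv h2 h3 => by
    have h4 := nrm b v hv h2.le
    have h5 := h1 (x := b + t * v) (by rw [mem_closedBall, dist_eq_norm, h4]; exact h3)
    exact ⟨h5.1 fun e => by rw [e, sub_self, norm_zero] at h4; exact h2.ne h4, h5.2⟩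
  obtain ⟨m, hm⟩ := h.bdd hd (isCompact_sphere b r) fun x hx =>
    (h1 (sphere_subset_closedBall hx)).1 fun e => by
      rw [e, mem_sphere, dist_self] at hx; exact hr.ne hx
  refine ⟨m + 2 * |C| / θ * r ^ θ, mem_of_superset (closedBall_mem_nhds b hr) fun y hy hyb => ?_⟩
  obtain ⟨v, hv, e⟩ := polar b y hyb
  have ht : 0 < ‖y - b‖ := norm_pos_iff.2 (sub_ne_zero.2 hyb)
  have htr : ‖y - b‖ ≤ r := by rwa [mem_closedBall, dist_eq_norm] at hy
  have key := ray (f := fun s : ℝ => u (b + s * v)) (φ := fun s => 2 * |C| / θ * s ^ θ) htr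
    fun s hs => by
      have hs0 : 0 < s := ht.trans_le hs.1
      have h2 := hin v s hv hs0 hs.2
      have h3 := nrm b v hv hs0.le
      obtain ⟨L, h4, h5⟩ := h.der hd hG b v hv s h2.1 (B := fun y => |C| * ‖y - b‖ ^ (θ - 1))
        (continuousAt_const.mul (ContinuousAt.rpow_const (by fun_prop) (Or.inl (hs0.trans_eq h3.symm).ne')))
        (mem_of_superset (isOpen_ball.mem_nhds h2.2) fun w hw j hj => by
          rw [mem_ball, dist_eq_norm] at hw
          subst hj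
          exact (hb j hw.le).trans (mul_le_mul_of_nonneg_right (le_abs_self C) (by positivity)))
      refine ⟨L, _, h4, (Real.hasDerivAt_rpow_const (Or.inl hs0.ne')).const_mul _, ?_⟩
      rw [h3] at h5
      refine h5.trans_eq ?_
      field_simp
  have h6 := hm (b + r * v) (by rw [mem_sphere, dist_eq_norm, nrm b v hv hr.le])
  have h7 : 0 ≤ 2 * |C| / θ * ‖y - b‖ ^ θ := by positivity
  have h8 := (abs_le.1 key).1
  rw [← e] at h8
  linarith

theorem Loc.inf (h : Loc z Φ Gen q d u) (hd : 0 < d) (hG : Dense Gen) (hq : q ≠ 0)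
    {R C θ : ℝ} (hθ : 0 < θ) (hb : ∀ j, R ≤ ‖z j‖ → ‖Φ j‖ ≤ C * ‖z j‖ ^ (-1 - θ)) :
    ∃ r m, ∀ y, r < ‖y‖ → u y ≤ m := by
  obtain ⟨r0, hr0⟩ := (q.rootSet_finite ℂ).isBounded.exists_norm_le
  obtain ⟨r, hr, h1, h2⟩ : ∃ r : ℝ, 0 < r ∧ r0 < r ∧ R < r :=
    ⟨max (max r0 R) 0 + 1, by positivity, by
      linarith [le_max_left (max r0 R) 0, le_max_left r0 R], by
      linarith [le_max_left (max r0 R) 0, le_max_right r0 R]⟩
  have hin : ∀ y : ℂ, r ≤ ‖y‖ → q.eval y ≠ 0 := fun y hy h0 => by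
    have := hr0 y (mem_rootSet.2 ⟨hq, by simpa using h0⟩)
    linarith
  obtain ⟨m, hm⟩ := h.bdd hd (isCompact_sphere 0 r) fun x hx => hin x (by simpa using hx.ge)
  refine ⟨r, m + 2 * |C| / θ * r ^ (-θ), fun y hy => ?_⟩
  obtain ⟨v, hv, e⟩ := polar 0 y (norm_pos_iff.1 (hr.trans hy))
  rw [sub_zero] at e
  have key := ray (f := fun s : ℝ => u (0 + s * v)) (φ := fun s => -(2 * |C| / θ) * s ^ (-θ))
    hy.le fun s hs => by
      have hs0 : 0 < s := hr.trans_le hs.1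
      have h3 := nrm 0 v hv hs0.le
      rw [sub_zero] at h3
      obtain ⟨L, h4, h5⟩ := h.der hd hG 0 v hv s (hin _ (h3.symm ▸ hs.1))
        (B := fun y => |C| * ‖y‖ ^ (-1 - θ))
        (continuousAt_const.mul (ContinuousAt.rpow_const (by fun_prop) (Or.inl (hs0.trans_eq h3.symm).ne')))
        ((continuous_norm.continuousAt.eventually_const_lt
          (show R < ‖0 + s * v‖ by rw [h3]; linarith [hs.1])).mono fun w hw j hj => by
          subst hj
          exact (hb j hw.le).trans (mul_le_mul_of_nonneg_right (le_abs_self C) (by positivity)))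
      refine ⟨L, _, h4, (Real.hasDerivAt_rpow_const (Or.inl hs0.ne')).const_mul _, ?_⟩
      rw [h3, show -1 - θ = -θ - 1 by ring] at h5
      refine h5.trans_eq ?_
      field_simp
  have h6 := hm (0 + r * v) (by rw [mem_sphere, dist_eq_norm, nrm 0 v hv hr.le])
  have h7 : 0 ≤ 2 * |C| / θ * ‖y‖ ^ (-θ) := by positivity
  have h8 := (abs_le.1 key).2
  rw [← e] at h8
  linarith

/-- a function that is locally bounded above off the roots is bounded above on compact sets -/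
theorem glob {K : Set ℂ} (hK : IsCompact K)
    (h : ∀ x, ∃ m, ∀ᶠ y in 𝓝 x, q.eval y ≠ 0 → u y ≤ m) :
    ∃ m, ∀ y ∈ K, q.eval y ≠ 0 → u y ≤ m := by
  refine hK.induction_on (p := fun s => ∃ m, ∀ y ∈ s, q.eval y ≠ 0 → u y ≤ m) ⟨0, by simp⟩
    (fun s t hst ⟨m, hm⟩ => ⟨m, fun y hy => hm y (hst hy)⟩)
    (fun s t ⟨m, hm⟩ ⟨n, hn⟩ => ⟨max m n, fun y hy h0 => hy.elim
      (fun hy => (hm y hy h0).trans (le_max_left _ _))
      fun hy => (hn y hy h0).trans (le_max_right _ _)⟩) fun x _ => ?_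
  obtain ⟨m, hm⟩ := h x
  exact ⟨_, nhdsWithin_le_nhds hm, m, fun y hy => hy⟩

/-- a local maximum of `u + 2 Re l` determines `Φ` on a disc -/
theorem Loc.fin (h : Loc z Φ Gen q d u) (hd : 0 < d) {x : ℂ} (hx : q.eval x ≠ 0) {l ψ : ℂ → ℂ}
    (hl : ∀ᶠ y in 𝓝 x, HasDerivAt l (ψ y) y)
    (hm : ∀ᶠ y in 𝓝 x, u y + 2 * (l y).re ≤ u x + 2 * (l x).re) :
    ∃ ρ : ℝ, 0 < ρ ∧ ∀ j, z j ∈ ball x ρ → z j ∈ Gen → Φ j = -Complex.I * ψ (z j) := by
  obtain ⟨H, hH⟩ := h x hx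
  have h1 := locmax H l x (fun i => hH.mono fun y hy => hy.1 i)
    (hl.mono fun y hy => hy.differentiableAt) (by
      filter_upwards [hH, hm] with y h1 h2
      rw [h1.2.1, hH.self_of_nhds.2.1] at h2
      have := Real.exp_le_exp.2 h2
      rwa [Real.exp_add, Real.exp_add, Real.exp_log (S_pos hd _ _), Real.exp_log (S_pos hd _ _)]
        at this)
  obtain ⟨ρ, hρ, h2⟩ := nhds_basis_ball.eventually_iff.1 (h1.and (hH.and hl))
  refine ⟨ρ, hρ, fun j hj hg => ?_⟩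
  obtain ⟨h3, h4, h5⟩ := h2 hj
  obtain ⟨i, hi⟩ := (h4.2.2 hg).2 j rfl
  rw [hi, h3 i, h5.deriv]

theorem main (h : Loc z Φ Gen q d u) (hd : 0 < d) (τ₀ : ℂ) (h0 : q.eval τ₀ ≠ 0) {m : ℝ}
    (hm : ∀ y, q.eval y ≠ 0 → u y ≤ m) :
    ∃ (ε ρ : ℝ) (τ : ℂ), 0 < ρ ∧ ∀ j, z j ∈ ball τ ρ → z j ∈ Gen →
      Φ j = Complex.I * ε *
        ((derivative q).eval (z j) / q.eval (z j) - (q.natDegree + 1) / (z j - τ₀)) := by
  have hop : ∀ x, q.eval x ≠ 0 → ∀ᶠ y in 𝓝 x, q.eval y ≠ 0 := fun x hx =>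
    q.continuous.continuousAt.eventually_ne hx
  obtain ⟨r, hr, h1⟩ := nhds_basis_closedBall.eventually_iff.1 (hop τ₀ h0)
  obtain ⟨x₀, hx₀, hM⟩ := (isCompact_closedBall τ₀ r).exists_isMaxOn ⟨τ₀, mem_closedBall_self hr.le⟩
    (f := u) fun x hx => (h.cont hd (h1 hx)).continuousWithinAt
  by_cases hA : ∀ y, q.eval y ≠ 0 → u y ≤ u x₀
  · obtain ⟨ρ, hρ, h2⟩ := h.fin hd (h1 hx₀) (l := fun _ => 0) (ψ := fun _ => 0)
      (Eventually.of_forall fun y => hasDerivAt_const y 0)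
      ((hop _ (h1 hx₀)).mono fun y hy => by simpa using hA y hy)
    exact ⟨0, ρ, x₀, hρ, fun j h3 h4 => by simp [h2 j h3 h4]⟩
  push Not at hA
  obtain ⟨x₁, hx₁, hlt⟩ := hA
  have hout : r < ‖x₁ - τ₀‖ := by
    by_contra hc
    exact hlt.not_ge (hM (by rwa [mem_closedBall, dist_eq_norm, ← not_lt]))
  let G : ℂ → ℂ := fun y => q.eval y / (y - τ₀) ^ (q.natDegree + 1)
  have hne : ∀ y, r ≤ ‖y - τ₀‖ → y - τ₀ ≠ 0 := fun y hy => norm_pos_iff.1 (hr.trans_le hy)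
  have hGc : ∀ y, r ≤ ‖y - τ₀‖ → ContinuousAt G y := fun y hy =>
    q.continuous.continuousAt.div (by fun_prop) (pow_ne_zero _ (hne y hy))
  have hG0 : ∀ y, r ≤ ‖y - τ₀‖ → q.eval y ≠ 0 → G y ≠ 0 := fun y hy h2 =>
    div_ne_zero h2 (pow_ne_zero _ (hne y hy))
  have hgc : ∀ y, r ≤ ‖y - τ₀‖ → q.eval y ≠ 0 → ContinuousAt (fun w => Real.log ‖G w‖) y :=
    fun y hy h2 => (hGc y hy).norm.log (norm_ne_zero_iff.2 (hG0 y hy h2))
  obtain ⟨k, hk⟩ := (isCompact_sphere τ₀ r).bddAbove_image (f := fun w => Real.log ‖G w‖)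
    fun x hx => (hgc x (by rw [mem_sphere, dist_eq_norm] at hx; exact hx.ge)
      (h1 (sphere_subset_closedBall hx))).continuousWithinAt
  obtain ⟨ε, hε, hεk⟩ : ∃ ε : ℝ, 0 < ε ∧ u x₀ + 2 * ε * k < u x₁ + 2 * ε * Real.log ‖G x₁‖ := by
    have hc : ContinuousAt (fun ε : ℝ => u x₀ + 2 * ε * k) 0 := by fun_prop
    have hc' : ContinuousAt (fun ε : ℝ => u x₁ + 2 * ε * Real.log ‖G x₁‖) 0 := by fun_prop
    obtain ⟨ε, h2, h3⟩ := (((hc.eventually_lt hc' (by simpa using hlt)).filter_mono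
      (nhdsWithin_le_nhds (s := Set.Ioi 0))).and self_mem_nhdsWithin).exists
    exact ⟨ε, h3, h2⟩
  let w : ℂ → ℝ := fun y => u y + 2 * ε * Real.log ‖G y‖
  let δ : ℝ := Real.exp ((w x₁ - m) / (2 * ε))
  have hδ : 0 < δ := Real.exp_pos _
  have hlow : ∀ y, r ≤ ‖y - τ₀‖ → q.eval y ≠ 0 → ‖G y‖ < δ → w y < w x₁ := fun y hy h2 h3 => by
    have h4 := (Real.log_lt_iff_lt_exp (norm_pos_iff.2 (hG0 y hy h2))).2 h3
    rw [lt_div_iff₀ (by positivity)] at h4
    have := hm y h2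
    simp only [w] at h4 ⊢
    linarith
  have hcl : IsClosed {y : ℂ | r ≤ ‖y - τ₀‖} := isClosed_le continuous_const (by fun_prop)
  have hK : IsCompact ({y : ℂ | r ≤ ‖y - τ₀‖} ∩ (fun y => ‖G y‖) ⁻¹' Set.Ici δ) := by
    refine isCompact_of_isClosed_isBounded (ContinuousOn.preimage_isClosed_of_isClosed
      (fun y hy => (hGc y hy).norm.continuousWithinAt) hcl isClosed_Ici) ?_
    have ho := (isLittleO_cobounded_of_degree_lt (P := q) (Q := (X - C τ₀) ^ (q.natDegree + 1))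
      (by rw [degree_pow, degree_X_sub_C, nsmul_one]
          exact degree_le_natDegree.trans_lt (by exact_mod_cast Nat.lt_succ_self _))).tendsto_div_nhds_zero
    have h2 := (tendsto_norm_zero.comp ho).eventually_lt_const hδ
    refine Bornology.IsBounded.subset (Bornology.isBounded_compl_iff.2 h2) fun y hy h3 => ?_
    have h4 : δ ≤ ‖G y‖ := hy.2
    exact h4.not_gt (by simpa [G] using h3)
  have hq' : ∀ y, δ ≤ ‖G y‖ → q.eval y ≠ 0 := fun y hy h2 => by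
    simp only [G, h2, zero_div, norm_zero] at hy
    exact hδ.not_ge hy
  obtain ⟨x₂, hx₂, hW⟩ := hK.exists_isMaxOn ⟨x₁, hout.le, not_lt.1 fun h2 =>
    (hlow x₁ hout.le hx₁ h2).false⟩ (f := w) fun y hy =>
      ((h.cont hd (hq' y hy.2)).add (continuousAt_const.mul
        (hgc y hy.1 (hq' y hy.2)))).continuousWithinAt
  have h12 : w x₁ ≤ w x₂ := hW ⟨hout.le, not_lt.1 fun h2 => (hlow x₁ hout.le hx₁ h2).false⟩
  have hq2 := hq' x₂ hx₂.2
  have hr2 : r < ‖x₂ - τ₀‖ := lt_of_le_of_ne hx₂.1 fun e => by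
    have hs : x₂ ∈ sphere τ₀ r := by rw [mem_sphere, dist_eq_norm, e]
    have h2 : u x₂ ≤ u x₀ := hM (sphere_subset_closedBall hs)
    have h3 := mul_le_mul_of_nonneg_left (hk ⟨x₂, hs, rfl⟩) (show 0 ≤ 2 * ε by positivity)
    simp only [w] at h12
    linarith
  have hG2 := hG0 x₂ hr2.le hq2
  have hnear : ∀ᶠ y in 𝓝 x₂, r < ‖y - τ₀‖ :=
    (show ContinuousAt (fun y => ‖y - τ₀‖) x₂ by fun_prop).eventually_const_lt hr2
  have hsl : ∀ᶠ y in 𝓝 x₂, G y / G x₂ ∈ Complex.slitPlane :=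
    ((hGc x₂ hr2.le).div_const (G x₂)).eventually (Complex.isOpen_slitPlane.mem_nhds (by
      simp only [div_self hG2]; exact Complex.one_mem_slitPlane))
  obtain ⟨ρ, hρ, h2⟩ := h.fin hd hq2 (l := fun y => ε * Complex.log (G y / G x₂))
    (ψ := fun y => ε * ((derivative q).eval y / q.eval y - (q.natDegree + 1) / (y - τ₀))) (by
      filter_upwards [hnear, hsl, hop _ hq2] with y h3 h4 h5
      have h6 := hne y h3.le
      have h7 := ((((q.hasDerivAt y).div (((hasDerivAt_id y).sub_const τ₀).pow (q.natDegree + 1))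
        (pow_ne_zero _ h6)).div_const (G x₂)).clog h4).const_mul (ε : ℂ)
      refine h7.congr_deriv ?_
      simp only [id, Pi.pow_apply, Pi.div_apply, Nat.add_sub_cancel, Nat.cast_add, Nat.cast_one]
      field_simp
      ring) (by
      filter_upwards [hnear, hop _ hq2] with y h3 h5
      have h6 : w y ≤ w x₂ := by
        by_cases h7 : ‖G y‖ < δ
        · exact (hlow y h3.le h5 h7).le.trans h12
        · exact hW ⟨h3.le, not_lt.1 h7⟩
      simp only [Complex.re_ofReal_mul, Complex.log_re, norm_div, div_self (norm_ne_zero_iff.2 hG2),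
        Real.log_one, Real.log_div (norm_ne_zero_iff.2 (hG0 y h3.le h5)) (norm_ne_zero_iff.2 hG2)]
      simp only [w] at h6
      linarith)
  refine ⟨-ε, ρ, x₂, hρ, fun j h3 h4 => ?_⟩
  rw [h2 j h3 h4]
  push_cast
  ring

end PMax

open PMax in
theorem p_max : S_Max := by
  intro J z Φ I Gen q d τ₀ hG hq h0 hloc hroot ⟨R, C, θ, hθ, hinf⟩
  rcases Nat.eq_zero_or_pos d with rfl | hd
  · obtain ⟨ρ, H, hρ, -, h⟩ := hloc τ₀ h0
    refine ⟨0, ρ, τ₀, hρ, fun j h1 h2 => ?_⟩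
    obtain ⟨e, -⟩ := h _ h1 h2
    exact (e.symm ⟨j, rfl⟩).elim0
  choose! ρ H hρ hH he using hloc
  have hdf : ∀ x, q.eval x ≠ 0 → ∀ y ∈ ball x (ρ x), ∀ i, DifferentiableAt ℂ (H x i) y :=
    fun x hx y hy i => (hH x hx i).differentiableAt (isOpen_ball.mem_nhds hy)
  have hle : ∀ x x', q.eval x ≠ 0 → q.eval x' ≠ 0 → ∀ y ∈ ball x (ρ x), y ∈ ball x' (ρ x') →
      S (H x) y ≤ S (H x') y := fun x x' hx hx' y hy hy' => by
    refine le_dense hG (S_cont fun i => (hdf x hx y hy i).continuousAt)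
      (S_cont fun i => (hdf x' hx' y hy' i).continuousAt) ?_
    filter_upwards [isOpen_ball.mem_nhds hy, isOpen_ball.mem_nhds hy'] with w h1 h2 hw
    obtain ⟨e, h3⟩ := he x hx w h1 hw
    obtain ⟨e', h4⟩ := he x' hx' w h2 hw
    refine (Fintype.sum_equiv (e.trans e'.symm) _ _ fun i => ?_).le
    rw [← (h3 i).1, ← (h4 _).1, Equiv.trans_apply, Equiv.apply_symm_apply]
  have hL : Loc z Φ Gen q d fun y => Real.log (S (H y) y) := fun x hx => by
    refine ⟨H x, ?_⟩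
    filter_upwards [ball_mem_nhds x (hρ x hx), q.continuous.continuousAt.eventually_ne hx]
      with y h1 h2
    have h3 := mem_ball_self (x := y) (hρ y h2)
    refine ⟨hdf x hx y h1, by rw [le_antisymm (hle y x h2 hx y h3 h1) (hle x y hx h2 y h1 h3)],
      fun hy => ?_⟩
    obtain ⟨e, h4⟩ := he x hx y h1 hy
    refine ⟨fun i => ⟨e i, (e i).2, (h4 i).2⟩, fun j hj => ⟨e.symm ⟨j, hj⟩, ?_⟩⟩
    rw [← (h4 _).2, Equiv.apply_symm_apply]
  obtain ⟨r, m, hm⟩ := hL.inf hd hG hq hθ hinf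
  obtain ⟨m', hm'⟩ := glob (q := q) (u := fun y => Real.log (S (H y) y))
    (isCompact_closedBall 0 r) fun x => by
      by_cases hx : q.eval x = 0
      · obtain ⟨ρ, C, θ, h1, h2, h3⟩ := hroot x hx
        obtain ⟨m, hm⟩ := hL.root hd hG hq x h1 h2 h3
        exact ⟨m, hm.mono fun y hy h4 => hy fun e => h4 (e ▸ hx)⟩
      · exact ⟨_, ((hL.cont hd hx).eventually_lt_const (lt_add_one _)).mono fun y hy _ => hy.le⟩
  refine main hL hd τ₀ h0 (m := max m m') fun y hy => ?_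
  rcases lt_or_ge r ‖y‖ with h1 | h1
  · exact (hm y h1).trans (le_max_left _ _)
  · exact (hm' y (by simpa using h1) hy).trans (le_max_right _ _)

end Pool.Agent.P.MP_b8021b_nt.KR
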