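import Pool.Agent.P.MP_b8021b_nt.KR.St
import Pool.Agent.P.MP_b8021b_nt.VC.PMod

/-! The integral model, with an integral base point and a prescribed denominator. -/

namespace Pool.Agent.P.MP_b8021b_nt.KR

open Polynomial Finset Pool.Agent.P.MP_b8021b_nt.VE Pool.Agent.P.MP_b8021b_nt.VC
open scoped Classical

namespace PMod

theorem exists_gap (W : ℤ[X]) (hW : W ≠ 0) {B : ℕ} (h : W.natDegree ≤ B) :
    ∃ τ : ℤ, (τ : ℝ) ≤ -2 ∧ -(2 * B + 3) ≤ (τ : ℝ) ∧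
      ∀ a : ℝ, τ ≤ a → a ≤ τ + 1 → aeval a W ≠ 0 := by
  by_contra hc
  push Not at hc
  choose f h1 h2 h3 using fun k : Fin (B + 1) => hc (-(2 * (k : ℕ) + 3))
    (by have := Nat.cast_nonneg (α := ℝ) k; push_cast; linarith)
    (by have : (k : ℝ) ≤ B := Nat.cast_le.2 (Nat.lt_succ_iff.1 k.2); push_cast; linarith)
  have key : ∀ k l : Fin (B + 1), f k = f l → k ≤ l := fun k l e => by
    have a1 := h1 l
    have a2 := h2 k
    push_cast at a1 a2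
    have h4 : (k : ℝ) < l + 1 := by linarith
    exact Nat.lt_succ_iff.1 (by exact_mod_cast h4)
  refine (Polynomial.map_ne_zero_iff (f := algebraMap ℤ ℝ) Int.cast_injective).2 hW
    (eq_zero_of_natDegree_lt_card_of_eval_eq_zero _
      (fun k l e => le_antisymm (key k l e) (key l k e.symm))
      (fun k => by rw [eval_map_algebraMap, h3]) ?_)
  rw [Fintype.card_fin]
  exact Nat.lt_succ_of_le (natDegree_map_le.trans h)

/-- the function with real fibres, divided by a power of `Q` -/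
theorem rs (hR : VC.S_RS) (A : Type) [CommRing A] [Algebra ℚ A] (cv : Cv ℚ A) (e₀ Q : ℕ)
    (k : A → ℕ) (hQ : 0 < Q) : ∃ (s₁ s₂ z₀ : A) (ρ : ℝ), 0 < cv.δ s₁ ∧ 0 < cv.δ s₂ ∧
      IsCoprime s₁ s₂ ∧ (cv.δ (s₁ * s₂)).Prime ∧ e₀ < cv.δ (s₁ * s₂) ∧ 0 < ρ ∧
      (∀ (f : A →+* ℂ) (a : ℝ), |a| < ρ → f (s₁ * s₂) = a → ∀ x, (f x).im = 0) ∧
      (Q : A) ^ k z₀ * (s₁ * s₂) = z₀ := by
  obtain ⟨s₁, s₂, ρ, -, -, p1, p2, ⟨a, b, hab⟩, he, he0, hρ, hre⟩ := hR A cv e₀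
  set K := k (s₁ * s₂) with hK
  have hq : ((Q : ℚ) ^ K) ≠ 0 := pow_ne_zero _ (Nat.cast_ne_zero.2 hQ.ne')
  have hr : (0 : ℝ) < (Q : ℝ) ^ K := pow_pos (Nat.cast_pos.2 hQ) _
  have h1 : (Q : A) ^ K * (((Q : ℚ) ^ K)⁻¹ • s₁) = s₁ := by
    rw [← map_natCast (algebraMap ℚ A), ← map_pow, ← Algebra.smul_def, smul_inv_smul₀ hq]
  have h2 : cv.δ (((Q : ℚ) ^ K)⁻¹ • s₁ * s₂) = cv.δ (s₁ * s₂) := by
    rw [smul_mul_assoc, cv.smul_eq (inv_ne_zero hq)]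
  refine ⟨((Q : ℚ) ^ K)⁻¹ • s₁, s₂, s₁ * s₂, ρ / (Q : ℝ) ^ K, by rwa [cv.smul_eq (inv_ne_zero hq)],
    p2, ⟨a * (Q : A) ^ K, b, by rw [mul_assoc, h1, hab]⟩, h2 ▸ he, h2 ▸ he0, div_pos hρ hr,
    fun f t ht hf => hre f ((Q : ℝ) ^ K * t) ?_ ?_, by rw [← mul_assoc, h1]⟩
  · rwa [abs_mul, abs_of_pos hr, mul_comm, ← lt_div_iff₀ hr]
  · rw [← h1, mul_assoc, map_mul, hf, map_pow, map_natCast]
    push_cast
    rfl

end PMod

open VC.PMod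

theorem p_mod (hC : VC.S_Cv) (hR : VC.S_RS) : S_Mod := by
  intro A _ _ cv e₀ Q k hQ
  obtain ⟨-, -, -, -, -, -, -, -, c9⟩ := hC ℚ A cv
  obtain ⟨s₁, s₂, z₀, ρ, p1, p2, ⟨a, b, hab⟩, he, he0, hρ, hre, hz₀⟩ :=
    PMod.rs hR A cv (max e₀ 2) Q k hQ
  obtain ⟨y, y1, y2, y3, -⟩ := c9 (s₁ * s₂) he.pos
  set B := 2 * cv.δ (s₁ * s₂) * cv.δ (y ⟨1, he.one_lt⟩) + 1 with hB
  obtain ⟨n, hn⟩ := exists_nat_gt ((2 * B + 3) / ρ)
  rw [div_lt_iff₀ hρ] at hn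
  obtain ⟨μ, hμe⟩ : ∃ μ : ℤ, μ = 1 + Q * n := ⟨_, rfl⟩
  have hμ : μ ≠ 0 := by rw [hμe]; positivity
  have hμn : (n : ℝ) ≤ |(μ : ℝ)| := by
    have h1 : (1 : ℝ) ≤ Q := Nat.one_le_cast.2 hQ
    have h2 := Nat.cast_nonneg (α := ℝ) n
    refine le_trans ?_ (le_abs_self _)
    rw [hμe]
    push_cast
    nlinarith
  obtain ⟨_, hz⟩ : ∃ i : Algebra ℤ[X] A, zR A = μ * (s₁ * s₂) :=
    ⟨(aeval (μ * (s₁ * s₂)) : ℤ[X] →ₐ[ℤ] A).toRingHom.toAlgebra, aeval_X _⟩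
  have hμq : (μ : ℚ) ≠ 0 := Int.cast_ne_zero.2 hμ
  have hδ : cv.δ (zR A) = cv.δ (s₁ * s₂) := by
    rw [hz, ← map_intCast (algebraMap ℚ A), ← Algebra.smul_def, cv.smul_eq hμq]
  obtain ⟨y', k1, k2, k3, k4⟩ := exists_int y2 (sat hμ hz y3)
  have k5 : ∀ i, y' i ≠ 0 ∧ cv.δ (y' i) = cv.δ (y i) := fun i => by
    obtain ⟨q, hq, h⟩ := k1 i
    rw [h]
    exact ⟨fun h' => (y1 i).1 (by rw [← inv_smul_smul₀ hq (y i), h', smul_zero]), cv.smul_eq hq _⟩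
  obtain ⟨R, T, t1, t2, t3, t4⟩ := build cv he (by omega) hδ
    (fun i => ⟨(k5 i).1, (k5 i).2 ▸ (y1 i).2⟩) k2 k4
  have hj : Gen R.val.toRingHom := ⟨Subtype.val_injective, fun x => by
    obtain ⟨m, hm, h⟩ := k3 x
    exact ⟨m, ⟨_, t2 _ h⟩, hm, rfl⟩⟩
  obtain ⟨i1, i2, i3⟩ := irr cv (hδ.trans t1.symm) (x := T.y T.i1) (P := T.P)
    (by rw [t3]; exact T.δmod _) (T.cp_monic _) (T.natDegree_cp _) T.epos
    ((aeval_algHom_apply R.val _ _).trans ((congrArg R.val (T.aeval_cp _)).trans (map_zero _)))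
  obtain ⟨α, β, D, d1, d2, d3⟩ := exists_D T.P (T.cp_monic _) i1 (B := T.δ T.i1) fun l => by
    by_cases h : T.P.coeff l = 0
    · simp [h]
    · exact Nat.le_of_mul_le_mul_left (le_of_add_le_left
        (Tab.cp_natDegree_wle (Tab.y_mem_Lw T.i1) h)) T.epos
  rw [show T.P.natDegree = T.e from T.natDegree_cp _, t4, t1, (k5 _).2] at d2
  obtain ⟨dD, d4, d5⟩ := sep_of T d3
  obtain ⟨τ, g1, g2, g3⟩ := PMod.exists_gap (D * X) (mul_ne_zero d1 X_ne_zero) (B := B)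
    (natDegree_mul_le.trans (add_le_add d2 natDegree_X_le))
  obtain ⟨m, hm, u1⟩ := exists_common
    (fun i : Bool => if i then a * s₁ else (μ : ℚ)⁻¹ • (a * b)) fun _ => k3 _
  have hv : (μ : A) * ((μ : ℚ)⁻¹ • (a * b)) = a * b := by
    rw [← map_intCast (algebraMap ℚ A), ← Algebra.smul_def, smul_inv_smul₀ hμq]
  let u : R := ⟨m * (a * s₁), t2 _ (u1 true)⟩
  let v : R := ⟨m * ((μ : ℚ)⁻¹ • (a * b)), t2 _ (u1 false)⟩
  have hzR : R.val.toRingHom (zR R) = μ * (s₁ * s₂) := hz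
  refine ⟨R, inferInstance, inferInstance, ⟨T, ⟨i2, i3.trans (t3 _)⟩, D, dD, d4, d5,
    ⟨α, β, by rw [← d3]; ring⟩, X, monic_X, coeff_X_zero, u,
    m, Int.natCast_ne_zero.2 hm.ne', ⟨-m * v, Subtype.ext ?_⟩,
    X_dvd cv T R.val.toRingHom p1 (hzR ▸ ⟨μ * s₂, by ring⟩) ⟨m * a, ?_⟩,
    X_dvd cv T R.val.toRingHom p2 (hzR ▸ ⟨μ * s₁, by ring⟩) ⟨-(m * b), ?_⟩, τ, g1,
    fun f t ht ht' hf x => ?_, fun t ht ht' => ?_⟩, R.val.toRingHom, τ, z₀, n, hj, ?_, rfl, rfl,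
    hδ.trans t1.symm, t3, ?_⟩
  · change (m : A) * (a * s₁) * (m * (a * s₁) - ((m : ℤ) : A)) =
      zR A * (-m * (m * ((μ : ℚ)⁻¹ • (a * b))))
    rw [hz, Int.cast_natCast]
    linear_combination (m * m * a * s₁) * hab + (m * m * s₁ * s₂) * hv
  · change (m : A) * (a * s₁) = _
    ring
  · change (m : A) * (a * s₁) - ((m : ℤ) : A) = _
    rw [Int.cast_natCast]
    linear_combination m * hab
  · obtain ⟨f', hf'⟩ := hj.exists_lift f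
    rw [← hf']
    refine hre f' (t / μ) ?_ ?_ _
    · rw [abs_div, div_lt_iff₀ (abs_pos.2 (Int.cast_ne_zero.2 hμ)), abs_of_neg (by linarith)]
      nlinarith
    · rw [← hf', hzR, map_mul, map_intCast] at hf
      push_cast
      rw [eq_div_iff (Int.cast_ne_zero.2 hμ), mul_comm, hf]
  · simpa only [map_mul, ne_eq, mul_eq_zero, not_or] using g3 t ht ht'
  · change e₀ < T.e
    omega
  · rw [hzR, hμe]
    push_cast
    linear_combination (1 + Q * n : A) * hz₀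

end Pool.Agent.P.MP_b8021b_nt.KR
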