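import Pool.Agent.P.MP_b8021b_nt.KR.St
import Pool.Agent.P.MP_b8021b_nt.VC.PNT

/-! The choice of the parameters at one scale, for every small width. -/

namespace Pool.Agent.P.MP_b8021b_nt.KR

open Polynomial Finset Pool.Agent.P.MP_b8021b_nt.VE Pool.Agent.P.MP_b8021b_nt.VC

open VC.NtP in
theorem p_nT (hIndT : VC.S_IndT) (hIndS : VC.S_IndS) (hFlat : VC.S_Flat) (hMix : VC.S_Mix) : S_NT := by
  intro R _ _ p
  obtain ⟨u₀, σ₀, hu₀⟩ := hMix R p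
  obtain ⟨hg, C, hC1, hC⟩ := hFlat R p
  obtain ⟨s, hs⟩ : ∃ s, s = u₀ + σ₀ + 3 * p.cE + 8 := ⟨_, rfl⟩
  have hes : s ≤ 2 * p.e * s := Nat.le_mul_of_pos_left _ (by have := p.he.pos; omega)
  obtain ⟨u, hu⟩ : ∃ u, u + 2 = 10 * (p.e * p.dd) + 2 * p.e * s :=
    ⟨10 * (p.e * p.dd) + 2 * p.e * s - 2, by omega⟩
  have hu6 : 6 ≤ u := by omega
  refine ⟨u, hu6, fun Nc _ ε hε => ?_⟩
  obtain ⟨η1, z1, A1, hη1, h1⟩ := hu₀ u (by omega) ε hε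
  have hC0 : 0 < C := by linarith
  refine ⟨min η1 (1 / (3 * C)), lt_min hη1 (by positivity), fun η hη0 hη => ?_⟩
  have hηC : C * η ≤ 1 / 3 := by
    have : η ≤ 1 / (3 * C) := hη.trans (min_le_right _ _)
    rw [le_div_iff₀ (by positivity)] at this
    linarith
  have hη1' : η ≤ 1 := by nlinarith
  have e1 : η ≤ η1 := hη.trans (min_le_left _ _)
  let F1 : VC.Fix R := ⟨p, u, hu6, A1 + 1, by omega, η, hη0, hη1', z1 + 8 * p.e, by omega,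
    s, by omega⟩
  have fl : F1.Ev fun c => ∀ s ∈ VC.Sset F1.p c.S0 c.L, ∀ a ∈ Set.Icc F1.p.τ0 (F1.p.τ0 + c.η),
      |(F1.p.FR s).eval a / (c.S0 * F1.p.g1) ^ (2 * F1.p.e) - 1| ≤ C * c.η := by
    obtain ⟨y, hy⟩ := hC F1 rfl
    exact ⟨y, fun c hc hin => (hy c hc hin).1⟩
  have hσ : σ₀ ≤ s := by omega
  obtain ⟨y1, g1⟩ := fine_ev hIndT hIndS F1 Nc ε C hε hg hηC fl
    (h1 F1 rfl rfl e1 (show z1 ≤ z1 + 8 * p.e by omega) (show A1 ≤ A1 + 1 by omega) hσ)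
  obtain ⟨y3, g3⟩ := ex_in F1 hg (10 * (p.e * p.dd)) le_rfl (Nat.le_succ _) hu
  obtain ⟨y, b1, b3, b4, b5⟩ : ∃ y : ℝ, y1 ≤ y ∧ y3 ≤ y ∧ 1 ≤ y ∧ 1 / η ^ 2 ≤ y :=
    ⟨max (max y1 y3) (max 1 (1 / η ^ 2)), (le_max_left _ _).trans (le_max_left _ _),
      (le_max_right _ _).trans (le_max_left _ _), (le_max_left _ _).trans (le_max_right _ _),
      (le_max_right _ _).trans (le_max_right _ _)⟩
  obtain ⟨B, hB⟩ := g3 y b3
  refine ⟨_, hB.τ0, hB.η, ?_, ?_, hB.L_ge, hB.L_le, g1 _ b1 hB⟩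
  · have := p.re
    change p.r ≤ z1 + 8 * p.e
    omega
  · have h2 : y ≤ _ := (le_self_pow₀ b4 (show s ≠ 0 by omega)).trans hB.S_ge
    have h3 := b5.trans h2
    rw [div_le_iff₀ (by positivity)] at h3
    rwa [mul_comm]

end Pool.Agent.P.MP_b8021b_nt.KR
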