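import Pool.Agent.P.MP_b8021b_nt.KR.BasicP

/-! There are enough cycles. -/

namespace Pool.Agent.P.MP_b8021b_nt.KR

open Polynomial Finset Pool.Agent.P.MP_b8021b_nt.VE Pool.Agent.P.MP_b8021b_nt.VC
open scoped Classical

namespace POnto

/-- a functional that vanishes on the kernel of a linear map factors through it -/
theorem exists_fac {V W : Type} [AddCommGroup V] [Module ℝ V] [AddCommGroup W] [Module ℝ W]
    (b : V →ₗ[ℝ] W) (l : V →ₗ[ℝ] ℝ) (h : ∀ v, b v = 0 → l v = 0) :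
    ∃ I : W →ₗ[ℝ] ℝ, ∀ v, I (b v) = l v := by
  have hk : LinearMap.ker b ≤ LinearMap.ker l := fun v hv => h v hv
  obtain ⟨g, hg⟩ := ((LinearMap.ker b).liftQ b le_rfl).exists_leftInverse_of_injective
    (Submodule.ker_liftQ_eq_bot _ _ _ le_rfl)
  refine ⟨((LinearMap.ker b).liftQ l hk).comp g, fun v => ?_⟩
  have h1 := LinearMap.congr_fun hg (Submodule.Quotient.mk v)
  simp only [LinearMap.comp_apply, Submodule.liftQ_apply, LinearMap.id_apply] at h1
  rw [LinearMap.comp_apply, h1, Submodule.liftQ_apply]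

/-- a potential for a function of paths that vanishes on the cycles -/
theorem exists_pot {F : Type} [Field F] (L : Path F → ℝ) (h : ∀ c, IsCycle c → ev L c = 0) :
    ∃ I : (F →+* ℂ) → ℝ, ∀ γ : Path F, L γ = I (γ.j 1) - I (γ.j 0) := by
  obtain ⟨I, hI⟩ := exists_fac (bd F) (ev L) fun c hc => h c (isCycle_iff.2 hc)
  refine ⟨fun j => I (Finsupp.single j 1), fun γ => ?_⟩
  have h1 := hI (Finsupp.single γ 1)
  rw [ev, Finsupp.linearCombination_single, one_smul, bd, LinearMap.sub_apply,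
    Finsupp.lmapDomain_apply, Finsupp.lmapDomain_apply, Finsupp.mapDomain_single,
    Finsupp.mapDomain_single, map_sub] at h1
  exact h1.symm

/-- two points of a disc are joined by a smooth arc that avoids a countable set -/
theorem exists_arc {A : Set ℂ} (hA : A.Countable) {τ x y : ℂ} {ρ : ℝ} (hx : x ∈ Metric.ball τ ρ)
    (hy : y ∈ Metric.ball τ ρ) (hxA : x ∉ A) (hyA : y ∉ A) :
    ∃ s : ℝ → ℂ, ContDiff ℝ 1 s ∧ s 0 = x ∧ s 1 = y ∧ ∀ t, s t ∈ Metric.ball τ ρ ∧ s t ∉ A := by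
  rcases eq_or_ne y x with rfl | hne
  · exact ⟨fun _ => y, contDiff_const, rfl, rfl, fun _ => ⟨hx, hxA⟩⟩
  have hw : y - x ≠ 0 := sub_ne_zero.2 hne
  have hw' : 0 < ‖y - x‖ := norm_pos_iff.2 hw
  rw [Metric.mem_ball, dist_eq_norm] at hx hy
  have hm : max ‖x - τ‖ ‖y - τ‖ < ρ := max_lt hx hy
  have hB : ((fun a : ℂ => ((a - x) / (y - x)).im /
      (((a - x) / (y - x)).re * (1 - ((a - x) / (y - x)).re))) '' A).Countable := hA.image _
  obtain ⟨c, hcB, hc0, hc1⟩ := (hB.dense_compl ℝ).exists_mem_open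
    (isOpen_Ioo (a := (0 : ℝ)) (b := (ρ - max ‖x - τ‖ ‖y - τ‖) / ‖y - x‖))
    (Set.nonempty_Ioo.2 (div_pos (sub_pos.2 hm) hw'))
  have hc2 : c * ‖y - x‖ < ρ - max ‖x - τ‖ ‖y - τ‖ := (lt_div_iff₀ hw').1 hc1
  have key : ∀ u : ℝ, 0 ≤ u → u ≤ 1 →
      x + ((u : ℂ) + ((c * (u * (1 - u)) : ℝ) : ℂ) * Complex.I) * (y - x) ∈ Metric.ball τ ρ ∧
      x + ((u : ℂ) + ((c * (u * (1 - u)) : ℝ) : ℂ) * Complex.I) * (y - x) ∉ A := by
    intro u h0 h1
    constructor
    · rw [Metric.mem_ball, dist_eq_norm]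
      have e : x + ((u : ℂ) + ((c * (u * (1 - u)) : ℝ) : ℂ) * Complex.I) * (y - x) - τ =
          ((1 - u : ℝ) : ℂ) * (x - τ) + (u : ℂ) * (y - τ) +
            ((c * (u * (1 - u)) : ℝ) : ℂ) * Complex.I * (y - x) := by
        push_cast
        ring
      have h2 : 0 ≤ 1 - u := sub_nonneg.2 h1
      have h3 : 0 ≤ u * (1 - u) := mul_nonneg h0 h2
      have h4 : u * (1 - u) ≤ 1 := by nlinarith
      have n1 : ‖((1 - u : ℝ) : ℂ) * (x - τ)‖ ≤ (1 - u) * max ‖x - τ‖ ‖y - τ‖ := by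
        rw [norm_mul, Complex.norm_real, Real.norm_of_nonneg h2]
        exact mul_le_mul_of_nonneg_left (le_max_left _ _) h2
      have n2 : ‖(u : ℂ) * (y - τ)‖ ≤ u * max ‖x - τ‖ ‖y - τ‖ := by
        rw [norm_mul, Complex.norm_real, Real.norm_of_nonneg h0]
        exact mul_le_mul_of_nonneg_left (le_max_right _ _) h0
      have n3 : ‖((c * (u * (1 - u)) : ℝ) : ℂ) * Complex.I * (y - x)‖ ≤ c * ‖y - x‖ := by
        rw [norm_mul, norm_mul, Complex.norm_real, Complex.norm_I, mul_one,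
          Real.norm_of_nonneg (mul_nonneg hc0.le h3)]
        exact mul_le_mul_of_nonneg_right (mul_le_of_le_one_right hc0.le h4) hw'.le
      rw [e]
      refine (norm_add₃_le.trans (add_le_add (add_le_add n1 n2) n3)).trans_lt ?_
      linarith
    · intro ha
      rcases eq_or_ne u 0 with rfl | hu0
      · exact hxA (by simpa using ha)
      rcases eq_or_ne u 1 with rfl | hu1
      · exact hyA (by simpa using ha)
      refine hcB ⟨_, ha, ?_⟩
      have h2 : u * (1 - u) ≠ 0 := mul_ne_zero hu0 (sub_ne_zero.2 hu1.symm)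
      simp only [add_sub_cancel_left, mul_div_cancel_right₀ _ hw, Complex.add_im, Complex.add_re,
        Complex.mul_im, Complex.mul_re, Complex.ofReal_re, Complex.ofReal_im, Complex.I_re,
        Complex.I_im, mul_zero, mul_one, zero_add, add_zero, sub_zero]
      exact mul_div_cancel_right₀ _ h2
  have hu : ContDiff ℝ 1 fun t : ℝ => Real.sin (Real.pi / 2 * t) ^ 2 := by fun_prop
  refine ⟨fun t => x + (((Real.sin (Real.pi / 2 * t) ^ 2 : ℝ) : ℂ) +
      ((c * (Real.sin (Real.pi / 2 * t) ^ 2 * (1 - Real.sin (Real.pi / 2 * t) ^ 2)) : ℝ) : ℂ) *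
        Complex.I) * (y - x), ?_, by simp, by simp,
      fun t => key _ (sq_nonneg _) (Real.sin_sq_le_one _)⟩
  refine contDiff_const.add (ContDiff.mul (ContDiff.add ?_ (ContDiff.mul ?_ contDiff_const))
    contDiff_const)
  · exact Complex.ofRealCLM.contDiff.comp hu
  · exact Complex.ofRealCLM.contDiff.comp (contDiff_const.mul (hu.mul (contDiff_const.sub hu)))

/-- the integral along a path in a disc on which the form has a primitive -/
theorem lam_prim {F : Type} [Field F] (γ : Path F) (f : F) {n : ℕ} (φ : Fin n → F) (r : Fin n → ℝ)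
    (H : ℂ → ℂ) (hH : ∀ t, HasDerivAt H (∑ k, (r k : ℂ) * γ.j t (φ k)) (γ.j t f)) :
    ∑ k, r k * γ.lam (φ k) f = (H (γ.j 1 f)).im - (H (γ.j 0 f)).im := by
  have h1 : ∀ t, HasDerivAt (fun s => (H (γ.j s f)).im)
      (∑ k, r k * (γ.j t (φ k) * γ.d f t).im) t := fun t => by
    have h2 : HasDerivAt (fun s => H (γ.j s f))
        ((∑ k, (r k : ℂ) * γ.j t (φ k)) * γ.d f t) t :=
      (hH t).comp_of_eq t (γ.hasDerivAt f t) rfl
    have h3 := Complex.imCLM.hasFDerivAt.comp_hasDerivAt t h2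
    refine h3.congr_deriv ?_
    simp only [Complex.imCLM_apply, Finset.sum_mul, Complex.im_sum, mul_assoc,
      Complex.im_ofReal_mul]
  have hc : ∀ k, Continuous fun t => r k * (γ.j t (φ k) * γ.d f t).im := fun k =>
    continuous_const.mul (γ.cont_lam _ _)
  rw [← intervalIntegral.integral_eq_sub_of_hasDerivAt (fun t _ => h1 t)
    ((continuous_finsetSum _ fun k _ => hc k).intervalIntegrable _ _),
    intervalIntegral.integral_finsetSum fun k _ => (hc k).intervalIntegrable _ _]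
  exact Finset.sum_congr rfl fun k _ => by rw [intervalIntegral.integral_const_mul, Path.lam_eq]

theorem exists_low {n : ℕ} (g : Fin n → ℝ) (hg : ∀ k, 0 < g k) :
    ∃ m : ℝ, 0 < m ∧ m ≤ 1 ∧ ∀ k, m ≤ g k := by
  have h : ∀ᶠ m in nhdsWithin (0 : ℝ) (Set.Ioi 0), 0 < m ∧ m ≤ 1 ∧ ∀ k, m ≤ g k :=
    (eventually_mem_nhdsWithin).and (Filter.Eventually.filter_mono nhdsWithin_le_nhds
      ((eventually_le_nhds one_pos).and
        (Filter.eventually_all.2 fun k => eventually_le_nhds (hg k))))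
  exact h.exists

theorem norm_sum_le' {n : ℕ} (r C : Fin n → ℝ) (a : Fin n → ℂ) (y : ℝ)
    (h : ∀ k, ‖a k‖ ≤ C k * y) : ‖∑ k, (r k : ℂ) * a k‖ ≤ (∑ k, |r k| * C k) * y := by
  rw [Finset.sum_mul]
  refine (norm_sum_le _ _).trans (Finset.sum_le_sum fun k _ => ?_)
  rw [norm_mul, Complex.norm_real, Real.norm_eq_abs, mul_assoc]
  exact mul_le_mul_of_nonneg_left (h k) (abs_nonneg _)

theorem transc {F : Type} [Field F] [CharZero F] {f : F} (hf : Transcendental ℚ f)
    (j : F →+* ℂ) : Transcendental ℚ (j f) :=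
  fun h => hf ((isAlgebraic_algHom_iff j.toRatAlgHom j.injective).1 h)

theorem map_aev {F : Type} [Field F] [CharZero F] (f : F) (j : F →+* ℂ) (q : ℚ[X]) :
    j (aeval f q) = (q.map (algebraMap ℚ ℂ)).eval (j f) := by
  rw [eval_map_algebraMap]
  exact (aeval_algHom_apply j.toRatAlgHom f q).symm

end POnto

open POnto in
theorem p_onto (hBr : S_Br) (hMax : S_Max) (hInd : S_Ind) (hBnd : S_Bnd) : S_Onto := by
  intro F _ _ hF f hf n φ r hφ hreg h0
  obtain ⟨I, hI⟩ := exists_pot (fun γ : Path F => ∑ k, r k * γ.lam (φ k) f) fun c hc => by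
    rw [← h0 c hc]
    simp only [ev_apply, lamC, Finsupp.sum, Finset.mul_sum]
    rw [Finset.sum_comm]
    exact Finset.sum_congr rfl fun k _ => Finset.sum_congr rfl fun γ _ => by ring
  obtain ⟨d, q, hq, hbr⟩ := hBr F hF f hf n φ
  obtain ⟨τ₀, hτ₀⟩ : ∃ τ₀ : ℚ, q.eval τ₀ ≠ 0 := by
    by_contra hcon
    refine hq (Polynomial.funext fun x => ?_)
    rw [eval_zero]
    exact not_not.1 fun hx => hcon ⟨x, hx⟩
  have hA : {x : ℂ | IsAlgebraic ℚ x}.Countable := Algebraic.countable ℚ ℂ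
  have hD : Dense {x : ℂ | Transcendental ℚ x} := hA.dense_compl ℂ
  have hq' : q.map (algebraMap ℚ ℂ) ≠ 0 :=
    (Polynomial.map_ne_zero_iff (algebraMap ℚ ℂ).injective).2 hq
  obtain ⟨ε, ρ, τ, hρ, hfin⟩ := hMax (F →+* ℂ) (fun j => j f)
      (fun j => ∑ k, (r k : ℂ) * j (φ k)) I {x : ℂ | Transcendental ℚ x}
      (q.map (algebraMap ℚ ℂ)) d (algebraMap ℚ ℂ τ₀) hD hq'
      (by
        rw [eval_map_algebraMap, aeval_algebraMap_apply_eq_algebraMap_eval]
        exact (_root_.map_ne_zero _).2 hτ₀)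
      (by
        intro τ hτ
        rw [eval_map_algebraMap] at hτ
        obtain ⟨ρ, Ψ, J, hρ, hΨ, hJ, hs⟩ := hbr τ hτ
        obtain ⟨x₀, hx₀, hx₀b⟩ := hD.exists_mem_open Metric.isOpen_ball
          (⟨τ, Metric.mem_ball_self hρ⟩ : (Metric.ball τ ρ).Nonempty)
        have hP : ∀ i, ∃ H : ℂ → ℂ, H x₀ = (I (J i x₀) : ℂ) * Complex.I ∧
            ∀ x ∈ Metric.ball τ ρ, HasDerivAt H (∑ k, (r k : ℂ) * Ψ i k x) x := fun i =>
          (DifferentiableOn.isExactOn_ball (f := fun x => ∑ k, (r k : ℂ) * Ψ i k x)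
            (DifferentiableOn.fun_sum fun k _ => (hΨ i k).const_mul _)).with_val_at _ _
        choose H hH0 hH using hP
        refine ⟨ρ, H, hρ, fun i x hx => (hH i x hx).differentiableAt.differentiableWithinAt,
          fun x hx hxg => ?_⟩
        obtain ⟨hJ1, hJ2, hJ3⟩ := hJ x hx hxg
        refine ⟨Equiv.ofBijective (fun i => ⟨J i x, (hJ1 i).1⟩)
          ⟨fun i i' h => hJ2 (congrArg Subtype.val h), fun j => ?_⟩, fun i => ⟨?_, ?_⟩⟩
        · obtain ⟨i, hi⟩ := hJ3 j.1 j.2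
          exact ⟨i, Subtype.ext hi⟩
        · obtain ⟨s, hs1, hs0, hs1', hst⟩ := exists_arc hA hx₀b hx hx₀ hxg
          have hJs := fun t => ((hJ (s t) (hst t).1 (hst t).2).1 i)
          have e1 := hI ⟨fun t => J i (s t), hs i s hs1 hst⟩
          have e2 := lam_prim ⟨fun t => J i (s t), hs i s hs1 hst⟩ f φ r (H i) fun t => by
            simp only [(hJs t).1, (hJs t).2]
            exact hH i _ (hst t).1
          simp only [hs0, hs1'] at e1 e2
          rw [(hJ1 i).1, ((hJ x₀ hx₀b hx₀).1 i).1, hH0] at e2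
          change I (J i x) = (H i x).im
          simp only [Complex.mul_im, Complex.ofReal_re, Complex.ofReal_im, Complex.I_re,
            Complex.I_im] at e2
          linarith
        · change ∑ k, (r k : ℂ) * J i x (φ k) = deriv (H i) x
          rw [(hH i x hx).deriv]
          exact Finset.sum_congr rfl fun k _ => by rw [(hJ1 i).2])
      (by
        intro b hb
        rw [eval_map_algebraMap] at hb
        have hb' : IsAlgebraic ℚ b := ⟨q, hq, hb⟩
        choose ρ C θ hρ hC hθ hθ1 hle using fun k => (hBnd F hF (φ k) f hf (hreg k)).1 b hb'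
        obtain ⟨ρ₀, h1, h2, h3⟩ := exists_low ρ hρ
        obtain ⟨θ₀, k1, -, k3⟩ := exists_low θ hθ
        refine ⟨ρ₀, ∑ k, |r k| * C k, θ₀, h1, k1, fun j hj => norm_sum_le' r C _ _ fun k => ?_⟩
        have hne : j f - b ≠ 0 := sub_ne_zero.2 fun h => transc hf j (h ▸ hb')
        exact (hle k j (hj.trans (h3 k))).trans (mul_le_mul_of_nonneg_left
          (Real.rpow_le_rpow_of_exponent_ge (norm_pos_iff.2 hne) (hj.trans h2)
            (sub_le_sub_right (k3 k) 1)) (hC k)))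
      (by
        choose R C θ hC hθ hle using fun k => (hBnd F hF (φ k) f hf (hreg k)).2
        obtain ⟨θ₀, k1, -, k3⟩ := exists_low θ hθ
        obtain ⟨R₀, hR₀⟩ := Finite.exists_le R
        refine ⟨max 1 R₀, ∑ k, |r k| * C k, θ₀, k1, fun j hj => norm_sum_le' r C _ _ fun k => ?_⟩
        exact (hle k j ((hR₀ k).trans ((le_max_right _ _).trans hj))).trans
          (mul_le_mul_of_nonneg_left (Real.rpow_le_rpow_of_exponent_le
            ((le_max_left _ _).trans hj) (sub_le_sub_left (k3 k) _)) (hC k)))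
  refine hInd F hF f hf n φ (aeval f (derivative q) / aeval f q -
    (q.natDegree + 1) / (f - algebraMap ℚ F τ₀)) r ε ρ τ hφ hρ fun j hj => ?_
  refine (hfin j hj (transc hf j)).trans ?_
  rw [map_sub, map_div₀, map_div₀, map_aev, map_aev, derivative_map,
    natDegree_map_eq_of_injective (algebraMap ℚ ℂ).injective]
  simp

end Pool.Agent.P.MP_b8021b_nt.KR
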