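import Pool.Agent.P.MP_b8021b_nt.KR.St
import Pool.Agent.P.MP_b8021b_nt.VE.BasicS

/-! Regular forms: change of the variable. -/

namespace Pool.Agent.P.MP_b8021b_nt.KR

open Polynomial Pool.Agent.P.MP_b8021b_nt.VE Pool.Agent.P.MP_b8021b_nt.VC
open scoped Classical IntermediateField

namespace PReg

variable {F : Type} [Field F] [CharZero F]

/-- the condition at one point -/
def At (φ f : F) (p : GPt F) : Prop :=
  (p.ord f < 0 → p.Val (φ * f) 0) ∧
    ∀ π : ℚ[X], π ≠ 0 → p.Val (aeval f π) 0 → p.Val (φ * aeval f π) 0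

theorem at_zero (f : F) (p : GPt F) : At 0 f p := by
  simp only [At, zero_mul]
  exact ⟨fun _ => p.val_zero, fun _ _ _ => p.val_zero⟩

theorem val_aeval {p : GPt F} {f : F} {c : Qb} (h : p.Val f c) (π : ℚ[X]) :
    p.Val (aeval f π) (aeval c π) := by
  induction π using Polynomial.induction_on' with
  | add a b ha hb => simpa using ha.add hb
  | monomial n a =>
    rw [aeval_monomial, aeval_monomial]
    exact (p.val_rat a).mul (h.pow n)

theorem der_aeval (D : Derivation ℚ F F) (f : F) (π : ℚ[X]) :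
    D (aeval f π) = aeval f (derivative π) * D f := by
  rw [D.map_aeval, smul_eq_mul]

theorem min_der {L : Type} [Field L] [Algebra ℚ L] {c : L} (hc : IsIntegral ℚ c) :
    aeval c (derivative (minpoly ℚ c)) ≠ 0 :=
  (minpoly.irreducible hc).separable.aeval_derivative_ne_zero (minpoly.aeval ℚ c)

theorem transc (D : Derivation ℚ F F) {g : F} (hg : D g ≠ 0) : Transcendental ℚ g := by
  intro h
  have h1 := der_aeval D g (minpoly ℚ g)
  rw [minpoly.aeval, map_zero] at h1
  exact mul_ne_zero (min_der h.isIntegral) hg h1.symm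

omit [CharZero F] in
theorem ne_of_ord {p : GPt F} {a : F} (h : p.ord a ≠ 0) : a ≠ 0 := by
  rintro rfl
  exact h p.ord_zero

/-- the local condition does not depend on the test function -/
theorem change (hL : S_DL) (hF : IsCurve F) (D : Derivation ℚ F F) (p : GPt F) {ψ h g : F}
    (h1 : p.ord h ≠ 0) (h2 : D h ≠ 0) (g1 : p.ord g ≠ 0) (g2 : D g ≠ 0)
    (H : p.Val (ψ * h / D h) 0) : p.Val (ψ * g / D g) 0 := by
  have h0 := ne_of_ord h1
  have g0 := ne_of_ord g1
  have := H.mul (hL F hF D p h g h0 g1 g2)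
  rw [zero_mul] at this
  have e : ψ * h / D h * (D h / h / (D g / g)) = ψ * g / D g := by
    field_simp
  rwa [e] at this

theorem of_at (D : Derivation ℚ F F) (p : GPt F) {φ f : F} (hf : D f ≠ 0) (H : At φ f p) :
    ∃ h, p.ord h ≠ 0 ∧ D h ≠ 0 ∧ p.Val (φ * D f * h / D h) 0 := by
  by_cases hm : f ∈ p.v.valuationSubring
  · obtain ⟨c, hc⟩ := p.exists_val hm
    have hi : IsIntegral ℚ c := ((AlgebraicClosure.isAlgebraic ℚ).isAlgebraic c).isIntegral
    have hπ : minpoly ℚ c ≠ 0 := minpoly.ne_zero hi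
    have v0 : p.Val (aeval f (minpoly ℚ c)) 0 := by simpa using val_aeval hc (minpoly ℚ c)
    have n0 : aeval f (minpoly ℚ c) ≠ 0 := fun h => transc D hf ⟨_, hπ, h⟩
    have v1 := val_aeval hc (derivative (minpoly ℚ c))
    have n1 := v1.ne_zero (min_der hi)
    refine ⟨aeval f (minpoly ℚ c), (v0.ord_pos n0).ne', ?_, ?_⟩
    · rw [der_aeval]
      exact mul_ne_zero n1 hf
    · have := (H.2 _ hπ v0).div v1 (min_der hi)
      rw [zero_div] at this
      have e : φ * D f * aeval f (minpoly ℚ c) / D (aeval f (minpoly ℚ c)) =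
          φ * aeval f (minpoly ℚ c) / aeval f (derivative (minpoly ℚ c)) := by
        rw [der_aeval]
        field_simp
      rwa [e]
  · have h1 := (p.ord_neg_iff f).2 hm
    refine ⟨f, h1.ne, hf, ?_⟩
    have e : φ * D f * f / D f = φ * f := by field_simp
    rw [e]
    exact H.1 h1

theorem to_at (D : Derivation ℚ F F) (p : GPt F) {φ f : F} (hf : D f ≠ 0)
    (H : ∀ h, p.ord h ≠ 0 → D h ≠ 0 → p.Val (φ * D f * h / D h) 0) : At φ f p := by
  have pole : p.ord f < 0 → p.Val (φ * f) 0 := fun h1 => by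
    have := H f h1.ne hf
    have e : φ * D f * f / D f = φ * f := by field_simp
    rwa [e] at this
  refine ⟨pole, fun π hπ v0 => ?_⟩
  by_cases hm : f ∈ p.v.valuationSubring
  · obtain ⟨c, hc⟩ := p.exists_val hm
    have n0 : aeval f π ≠ 0 := fun h => transc D hf ⟨_, hπ, h⟩
    have n1 : aeval f (derivative π) ≠ 0 := by
      intro h
      have h2 : derivative π = 0 := by
        by_contra h3
        exact transc D hf ⟨_, h3, h⟩
      have h4 := eq_C_of_derivative_eq_zero h2
      rw [h4, aeval_C] at v0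
      have h5 := v0.unique (p.val_rat _)
      rw [eq_comm, map_eq_zero] at h5
      rw [h5, C_0] at h4
      exact hπ h4
    have h6 := H _ (v0.ord_pos n0).ne' (by rw [der_aeval]; exact mul_ne_zero n1 hf)
    have := h6.mul (val_aeval hc (derivative π))
    rw [zero_mul] at this
    have e : φ * D f * aeval f π / D (aeval f π) * aeval f (derivative π) = φ * aeval f π := by
      rw [der_aeval]
      field_simp
    rwa [e] at this
  · have h1 := (p.ord_neg_iff f).2 hm
    have f0 := ne_of_ord h1.ne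
    have h2 : p.Val f⁻¹ 0 := p.val_zero_of_ord_pos (by rw [p.ord_inv]; linarith)
    have := ((pole h1).mul v0).mul h2
    rw [mul_zero] at this
    have e : φ * f * aeval f π * f⁻¹ = φ * aeval f π := by field_simp
    rwa [e] at this

end PReg

open PReg

theorem p_reg (hD : S_Der) (hL : S_DL) : S_Reg := by
  intro F _ _ hF φ f hf
  refine ⟨fun hr p => ?_, fun g D hg hr p => ?_⟩
  · obtain ⟨D, d1, -, -, d4, d5, -⟩ := hD F hF f hf
    have hor : (⟨p.v, p.surj⟩ : DVal F).Hor := fun n hn =>
      (p.val_natCast n).v_eq_one (Nat.cast_ne_zero.2 hn)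
    obtain ⟨π, a, h1, h2, h3⟩ := hr _ hor
    have h4 : p.ord π = 1 := h1
    have h5 : φ = a * D π := by
      rw [d5 π, smul_smul, ← sub_eq_zero, ← sub_smul] at h3
      exact sub_eq_zero.1 (d4 _ h3)
    by_cases h6 : D π = 0
    · rw [h5, h6, mul_zero]
      exact at_zero f p
    · have d0 : D f ≠ 0 := by rw [d1]; exact one_ne_zero
      have h7 : p.ord π ≠ 0 := by rw [h4]; exact one_ne_zero
      refine to_at D p d0 fun h k1 k2 => change hL hF D p h7 h6 k1 k2 ?_
      obtain ⟨c, hc⟩ := p.exists_val h2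
      have := hc.mul (p.val_zero_of_ord_pos (a := π) (by rw [h4]; exact one_pos))
      rw [mul_zero] at this
      have e : φ * D f * π / D π = a * π := by
        rw [h5, d1]
        field_simp
      rwa [e]
  · by_cases h0 : D f = 0
    · rw [h0, mul_zero]
      exact at_zero g p
    · have d0 : D g ≠ 0 := by rw [hg]; exact one_ne_zero
      obtain ⟨h, k1, k2, k3⟩ := of_at D p h0 (hr p)
      refine to_at D p d0 fun h' l1 l2 => change hL hF D p k1 k2 l1 l2 ?_
      rwa [hg, mul_one]

end Pool.Agent.P.MP_b8021b_nt.KR
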