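import Pool.Agent.P.MP_b8021b_nt.KR.St
import Pool.Agent.P.MP_b8021b_nt.VE.PRem

/-! A bound on most cells gives a bound everywhere, for a derivative that is close to a rational
function. -/

namespace Pool.Agent.P.MP_b8021b_nt.KR

open Polynomial Finset Pool.Agent.P.MP_b8021b_nt.VE Pool.Agent.P.MP_b8021b_nt.VE.Rem
open scoped Classical

namespace PRem

/-- a subinterval on which the derivative is comparable with its maximum -/
lemma sub_in {d : ℕ} {K : ℝ} (hK1 : 1 ≤ K)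
    (hK : ∀ (P : ℝ[X]) (S : ℝ), P.natDegree ≤ d → (∀ x ∈ Set.Icc (0 : ℝ) 1, |P.eval x| ≤ S) →
      ∀ x ∈ Set.Icc (0 : ℝ) 1, ∀ y ∈ Set.Icc (0 : ℝ) 1, |P.eval x - P.eval y| ≤ K * S * |x - y|)
    (τ0 η : ℝ) (hη : 0 < η) (F g : ℝ → ℝ) (Q : ℝ[X]) (hQ : Q.natDegree ≤ d)
    (hF : ∀ a ∈ Set.Icc τ0 (τ0 + η), 0 < F a)
    (hF2 : ∀ a ∈ Set.Icc τ0 (τ0 + η), ∀ a' ∈ Set.Icc τ0 (τ0 + η), F a ≤ 2 * F a')
    (a₀ : ℝ) (ha₀ : a₀ ∈ Set.Icc τ0 (τ0 + η))
    (hg : ∀ a ∈ Set.Icc τ0 (τ0 + η), |F a * g a - Q.eval a| ≤ 1 / 4 * |Q.eval a₀|) :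
    ∃ G s : ℝ, 0 ≤ G ∧ 0 ≤ s ∧ s + 1 / (2 * K) ≤ 1 ∧
      (∀ a ∈ Set.Icc τ0 (τ0 + η), |g a| ≤ G) ∧
      ∀ a, τ0 + s * η ≤ a → a ≤ τ0 + (s + 1 / (2 * K)) * η → G / 20 ≤ |g a| := by
  set P : ℝ[X] := Q.comp (C η * X + C τ0) with hP
  have hPe : ∀ x, P.eval x = Q.eval (η * x + τ0) := by intro x; simp [hP, eval_comp]
  have hPd : P.natDegree ≤ d := by
    refine natDegree_comp_le.trans ?_
    have : (C η * X + C τ0 : ℝ[X]).natDegree ≤ 1 := natDegree_linear_le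
    calc _ ≤ Q.natDegree * 1 := Nat.mul_le_mul_left _ this
      _ ≤ d := by omega
  obtain ⟨x0, hx0, hmax⟩ := (isCompact_Icc (a := (0 : ℝ)) (b := 1)).exists_isMaxOn
    ⟨0, by simp⟩ (f := fun x => |P.eval x|) (P.continuous.abs.continuousOn)
  set S := |P.eval x0| with hS
  have hS0 : 0 ≤ S := abs_nonneg _
  have hSb : ∀ x ∈ Set.Icc (0 : ℝ) 1, |P.eval x| ≤ S := fun x hx => hmax hx
  have h0 : τ0 ∈ Set.Icc τ0 (τ0 + η) := ⟨le_rfl, by linarith⟩
  have hF0 := hF τ0 h0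
  have hρ : 0 < 1 / (2 * K) := by positivity
  have hρ2 : 1 / (2 * K) ≤ 1 / 2 := one_div_le_one_div_of_le (by norm_num) (by linarith)
  have hsc : ∀ a, Q.eval a = P.eval ((a - τ0) / η) := by
    intro a; rw [hPe]; congr 1; field_simp; ring
  obtain ⟨s, hs0, hs1, hs2⟩ : ∃ s : ℝ, 0 ≤ s ∧ s + 1 / (2 * K) ≤ 1 ∧
      ∀ x, s ≤ x → x ≤ s + 1 / (2 * K) → |x - x0| ≤ 1 / (2 * K) := by
    by_cases h : x0 ≤ 1 / 2
    · exact ⟨x0, hx0.1, by linarith, fun x h1 h2 => abs_le.mpr ⟨by linarith, by linarith⟩⟩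
    · push Not at h
      exact ⟨x0 - 1 / (2 * K), by linarith, by linarith [hx0.2],
        fun x h1 h2 => abs_le.mpr ⟨by linarith, by linarith⟩⟩
  have hQS : ∀ a ∈ Set.Icc τ0 (τ0 + η), |Q.eval a| ≤ S := fun a ha => by
    rw [hsc]
    refine hSb _ ⟨div_nonneg (by linarith [ha.1]) hη.le, ?_⟩
    rw [div_le_one hη]; linarith [ha.2]
  have hgS : ∀ a ∈ Set.Icc τ0 (τ0 + η), |F a * g a - Q.eval a| ≤ S / 4 := fun a ha => by
    linarith only [hg a ha, hQS a₀ ha₀]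
  refine ⟨5 / 2 * S / F τ0, s, by positivity, hs0, hs1, fun a ha => ?_, fun a ha1 ha2 => ?_⟩
  · have hFa := hF a ha
    have h1 : F a * |g a| ≤ 5 / 4 * S := by
      have h2 := abs_sub_abs_le_abs_sub (F a * g a) (Q.eval a)
      rw [abs_mul, abs_of_pos hFa] at h2
      linarith only [h2, hgS a ha, hQS a ha]
    rw [le_div_iff₀ hF0]
    linarith only [h1, mul_le_mul_of_nonneg_left (hF2 τ0 h0 a ha) (abs_nonneg (g a))]
  · have hx1 : s ≤ (a - τ0) / η := by rw [le_div_iff₀ hη]; linarith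
    have hx2 : (a - τ0) / η ≤ s + 1 / (2 * K) := by rw [div_le_iff₀ hη]; linarith
    have ha : a ∈ Set.Icc τ0 (τ0 + η) := ⟨by linarith only [ha1, mul_nonneg hs0 hη.le],
      by linarith only [ha2, mul_le_mul_of_nonneg_right hs1 hη.le]⟩
    have hFa := hF a ha
    have h1 := hK P S hPd hSb ((a - τ0) / η) ⟨by linarith, by linarith⟩ x0 hx0
    have h2 : K * S * |(a - τ0) / η - x0| ≤ S / 2 := by
      calc _ ≤ K * S * (1 / (2 * K)) :=
            mul_le_mul_of_nonneg_left (hs2 _ hx1 hx2) (by positivity)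
        _ = S / 2 := by field_simp
    have h3 : S / 2 ≤ |Q.eval a| := by
      rw [hsc]
      have := abs_sub_abs_le_abs_sub (P.eval x0) (P.eval ((a - τ0) / η))
      rw [abs_sub_comm] at this
      linarith
    have h4 : S / 4 ≤ F a * |g a| := by
      have h5 := abs_sub_abs_le_abs_sub (Q.eval a) (F a * g a)
      rw [abs_mul, abs_of_pos hFa, abs_sub_comm] at h5
      linarith only [h5, hgS a ha, h3]
    rw [div_div, div_le_iff₀ (by positivity)]
    linarith only [h4, mul_le_mul_of_nonneg_left (hF2 a ha τ0 h0) (abs_nonneg (g a))]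

end PRem

open PRem in
theorem p_rem : S_Rem := by
  intro d
  obtain ⟨K, hK1, hK⟩ := markov d
  refine ⟨1000 * K, 1 / (12 * K), 1 / 4, ⌈300 * K⌉₊, by linarith, by positivity, by norm_num,
    by norm_num, ?_⟩
  intro Nc hNc T _ β F g R Q a₀ κ c M hβ hQ hF hF2 hR ha₀ hg hM hcard
  have hN3 : 300 * K ≤ (Nc : ℝ) := Nat.ceil_le.mp hNc
  have hN : 100 * K ≤ (Nc : ℝ) := by linarith
  have hN0 : (0 : ℝ) < Nc := by linarith
  have hN0' : 0 < Nc := by exact_mod_cast hN0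
  have hη := hβ.ηpos
  have hη1 := hβ.ηle
  have hB := hβ.Bpos
  obtain ⟨G, s, hG0, hs0, hs1, hG, hG8⟩ := sub_in hK1 hK β.τ0 β.η hη F g Q hQ hF hF2 a₀ ha₀ hg
  have hfin : ∀ i : Fin Nc, 0 ≤ (i.1 : ℝ) / Nc ∧ ((i.1 : ℝ) + 1) / Nc ≤ 1 := by
    intro i
    refine ⟨by positivity, ?_⟩
    rw [div_le_one hN0]
    exact_mod_cast i.2
  have hτ1 : ∀ t, β.τ0 + ((β.cell t).1.1 : ℝ) / Nc * β.η ≤ β.τ t := fun t => by
    have := hβ.τ_ge t; rwa [mul_div_right_comm] at this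
  have hτ2 : ∀ t, β.τ t ≤ β.τ0 + (((β.cell t).1.1 : ℝ) + 1) / Nc * β.η := fun t => by
    have := hβ.τ_le t; rwa [mul_div_right_comm] at this
  have hb1 : ∀ t, β.B * (1 + ((β.cell t).2.1 : ℝ) / Nc * β.η) ≤ β.b t := fun t => by
    have := hβ.b_ge t; rwa [mul_div_right_comm] at this
  have hb2 : ∀ t, β.b t ≤ β.B * (1 + (((β.cell t).2.1 : ℝ) + 1) / Nc * β.η) := fun t => by
    have := hβ.b_le t; rwa [mul_div_right_comm] at this
  have hτI : ∀ t, β.τ t ∈ Set.Icc β.τ0 (β.τ0 + β.η) := fun t =>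
    ⟨by linarith only [hτ1 t, mul_nonneg (hfin (β.cell t).1).1 hη.le],
      by linarith only [hτ2 t, mul_le_mul_of_nonneg_right (hfin (β.cell t).1).2 hη.le]⟩
  have hbB : ∀ t, β.B ≤ β.b t := fun t => by
    have := mul_nonneg hB.le (mul_nonneg (hfin (β.cell t).2).1 hη.le)
    linarith only [hb1 t, this]
  have hbB2 : ∀ t, β.b t ≤ β.B * (1 + β.η) := fun t => by
    refine (hb2 t).trans (mul_le_mul_of_nonneg_left ?_ hB.le)
    linarith only [mul_le_mul_of_nonneg_right (hfin (β.cell t).2).2 hη.le]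
  have hRl : ∀ t t', |R (β.τ t) - R (β.τ t')| ≤ G * |β.τ t - β.τ t'| := fun t t' => by
    have := (convex_Icc β.τ0 (β.τ0 + β.η)).norm_image_sub_le_of_norm_hasDerivWithin_le
      (f := R) (f' := g) (C := G)
      (fun a ha => (hR a ha).hasDerivWithinAt) (fun a ha => hG a ha) (hτI t') (hτI t)
    simpa only [Real.norm_eq_abs] using this
  have hadd : ∀ i : Fin Nc, ((i.1 : ℝ) + 1) / Nc = (i.1 : ℝ) / Nc + 1 / Nc := fun i => by ring
  have hR1 : ∀ t t', |R (β.τ t) - R (β.τ t')| ≤ β.η * G := fun t t' => by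
    refine (hRl t t').trans ?_
    rw [mul_comm β.η]
    refine mul_le_mul_of_nonneg_left (abs_le.mpr ⟨?_, ?_⟩) hG0 <;>
      linarith only [(hτI t).1, (hτI t).2, (hτI t').1, (hτI t').2]
  have hR2 : ∀ t t', (β.cell t).1 = (β.cell t').1 →
      |R (β.τ t) - R (β.τ t')| ≤ β.η * G / Nc := fun t t' h => by
    refine (hRl t t').trans ?_
    have h1 := hτ1 t
    have h2 := hτ2 t
    have h3 := hτ1 t'
    have h4 := hτ2 t'
    rw [← h] at h3 h4
    rw [hadd] at h2 h4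
    calc _ ≤ G * (1 / Nc * β.η) :=
          mul_le_mul_of_nonneg_left (abs_le.mpr ⟨by linarith only [h1, h4],
            by linarith only [h2, h3]⟩) hG0
      _ = _ := by ring
  have hL1 : ∀ t t', |κ * Real.log (β.b t) - κ * Real.log (β.b t')| ≤ β.η * |κ| := fun t t' => by
    rw [← mul_sub, abs_mul, mul_comm β.η]
    refine mul_le_mul_of_nonneg_left (log_le hB (hbB t) (hbB t') (abs_le.mpr ⟨?_, ?_⟩))
      (abs_nonneg _) <;> linarith only [hbB t, hbB t', hbB2 t, hbB2 t']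
  have hL2 : ∀ t t', (β.cell t).2 = (β.cell t').2 →
      |κ * Real.log (β.b t) - κ * Real.log (β.b t')| ≤ β.η * |κ| / Nc := fun t t' h => by
    have h1 := hb1 t
    have h2 := hb2 t
    have h3 := hb1 t'
    have h4 := hb2 t'
    rw [← h] at h3 h4
    rw [hadd] at h2 h4
    rw [← mul_sub, abs_mul]
    calc _ ≤ |κ| * (1 / Nc * β.η) :=
          mul_le_mul_of_nonneg_left (log_le hB (hbB t) (hbB t')
            (abs_le.mpr ⟨by linarith only [h1, h4], by linarith only [h2, h3]⟩)) (abs_nonneg _)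
      _ = _ := by ring
  obtain ⟨⟨i, hi⟩, ⟨j, hj⟩⟩ := lines hN0' _ _ hcard
  have hδ : 1 / (12 * K) ≤ 1 / 12 := one_div_le_one_div_of_le (by norm_num) (by linarith)
  have hw1 : 1 / (12 * K) * (Nc : ℝ) + 2 < 1 / 4 * Nc := by
    linarith only [mul_le_mul_of_nonneg_right hδ hN0.le, hN, hK1]
  have hw2 : 1 / (12 * K) * (Nc : ℝ) + 2 < 1 / (6 * K) * Nc := by
    have h1 : 1 / (6 * K) * (Nc : ℝ) = 2 * (1 / (12 * K) * Nc) := by field_simp; norm_num
    have h2 : 1 / (12 * K) * (100 * K) ≤ 1 / (12 * K) * (Nc : ℝ) :=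
      mul_le_mul_of_nonneg_left hN (by positivity)
    have h3 : 1 / (12 * K) * (100 * K) = 100 / 12 := by field_simp
    linarith only [h1, h2, h3]
  have hρ : 1 / (2 * K) = 3 * (1 / (6 * K)) := by field_simp; norm_num
  have hρ0 : 0 < 1 / (6 * K) := by positivity
  -- the column
  obtain ⟨j1, hj1, -, hj1'⟩ := window hN0' _ _ 0 (1 / 4) hi le_rfl (by norm_num) hw1 (by norm_num)
  obtain ⟨j2, hj2, hj2', -⟩ := window hN0' _ _ (3 / 4) (1 / 4) hi (by norm_num) (by norm_num) hw1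
    (by norm_num)
  obtain ⟨t1, ht1, hA1⟩ := (mem_filter.mp hj1).2
  obtain ⟨t2, ht2, hA2⟩ := (mem_filter.mp hj2).2
  have hcol : β.η * |κ| / 4 ≤ 2 * M + β.η * G / Nc := by
    have h1 := hb2 t1
    have h2 := hb1 t2
    rw [ht1] at h1
    rw [ht2] at h2
    simp only at h1 h2
    have hBη : 0 < β.B * β.η := by positivity
    have h3 : β.η / 4 ≤ Real.log (β.b t2) - Real.log (β.b t1) :=
      log_ge hB (hbB t1) (by linarith only [hbB2 t2, mul_le_mul_of_nonneg_left hη1 hB.le])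
        (by positivity) (by linarith only [h1, h2, mul_le_mul_of_nonneg_right hj1' hBη.le,
          mul_le_mul_of_nonneg_right hj2' hBη.le])
    have h4 := hR2 t1 t2 (by rw [ht1, ht2])
    have h5 : |κ| * (β.η / 4) ≤ |κ * (Real.log (β.b t2) - Real.log (β.b t1))| := by
      rw [abs_mul]
      exact mul_le_mul_of_nonneg_left (h3.trans (le_abs_self _)) (abs_nonneg _)
    have h6 : |κ * (Real.log (β.b t2) - Real.log (β.b t1))| ≤ 2 * M + β.η * G / Nc := by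
      obtain ⟨a1, a2⟩ := abs_le.mp hA1
      obtain ⟨a3, a4⟩ := abs_le.mp hA2
      obtain ⟨a5, a6⟩ := abs_le.mp h4
      exact abs_le.mpr ⟨by linarith only [a2, a3, a5], by linarith only [a1, a4, a6]⟩
    linarith only [h5, h6]
  -- the row
  obtain ⟨i1, hi1, hi1a, hi1b⟩ := window hN0' _ _ s (1 / (6 * K)) hj hs0 (by linarith) hw2 hρ0.le
  obtain ⟨i2, hi2, hi2a, hi2b⟩ := window hN0' _ _ (s + 2 * (1 / (6 * K))) (1 / (6 * K)) hj
    (by linarith) (by linarith) hw2 hρ0.le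
  obtain ⟨t3, ht3, hA3⟩ := (mem_filter.mp hi1).2
  obtain ⟨t4, ht4, hA4⟩ := (mem_filter.mp hi2).2
  have hrow : β.η * G / (120 * K) ≤ 2 * M + β.η * |κ| / Nc := by
    have h1 := hτ1 t3
    have h2 := hτ2 t3
    have h3 := hτ1 t4
    have h4 := hτ2 t4
    rw [ht3] at h1 h2
    rw [ht4] at h3 h4
    simp only at h1 h2 h3 h4
    have e1 : β.τ0 + s * β.η ≤ β.τ t3 := by
      linarith only [h1, mul_le_mul_of_nonneg_right hi1a hη.le]
    have e2 : β.τ t4 ≤ β.τ0 + (s + 1 / (2 * K)) * β.η := by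
      rw [hρ]; linarith only [h4, mul_le_mul_of_nonneg_right hi2b hη.le]
    have e3 : 1 / (6 * K) * β.η ≤ β.τ t4 - β.τ t3 := by
      linarith only [h2, h3, mul_le_mul_of_nonneg_right hi1b hη.le,
        mul_le_mul_of_nonneg_right hi2a hη.le]
    have e4 : β.τ t3 < β.τ t4 := by linarith only [e3, mul_pos hρ0 hη]
    have hsub : Set.Icc (β.τ t3) (β.τ t4) ⊆ Set.Icc β.τ0 (β.τ0 + β.η) :=
      Set.Icc_subset_Icc (hτI t3).1 (hτI t4).2
    obtain ⟨ξ, hξ, hξ'⟩ := exists_hasDerivAt_eq_slope R g e4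
      (fun a ha => (hR a (hsub ha)).continuousAt.continuousWithinAt)
      (fun a ha => hR a (hsub (Set.Ioo_subset_Icc_self ha)))
    have h5 := hG8 ξ (by linarith only [e1, hξ.1]) (by linarith only [e2, hξ.2])
    rw [hξ', abs_div, abs_of_pos (sub_pos.mpr e4), le_div_iff₀ (sub_pos.mpr e4)] at h5
    have h6 : G / 20 * (1 / (6 * K) * β.η) ≤ G / 20 * (β.τ t4 - β.τ t3) :=
      mul_le_mul_of_nonneg_left e3 (by positivity)
    have h7 : G / 20 * (1 / (6 * K) * β.η) = β.η * G / (120 * K) := by field_simp; ring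
    have h8 := hL2 t3 t4 (by rw [ht3, ht4])
    have h9 : |R (β.τ t4) - R (β.τ t3)| ≤ 2 * M + β.η * |κ| / Nc := by
      obtain ⟨a1, a2⟩ := abs_le.mp hA3
      obtain ⟨a3, a4⟩ := abs_le.mp hA4
      obtain ⟨a5, a6⟩ := abs_le.mp h8
      exact abs_le.mpr ⟨by linarith only [a2, a3, a5], by linarith only [a1, a4, a6]⟩
    linarith only [h5, h6, h7, h9]
  have hM1 : 0 ≤ β.η * G := by positivity
  have hM2 : 0 ≤ β.η * |κ| := by positivity
  set M1 := β.η * G with hM1d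
  set M2 := β.η * |κ| with hM2d
  have hKM : M ≤ K * M := le_mul_of_one_le_left hM hK1
  have c1 : M1 / Nc ≤ M1 / 4 := div_le_div_of_nonneg_left hM1 (by norm_num) (by linarith)
  have c2 : M2 / Nc ≤ M2 / (240 * K) := div_le_div_of_nonneg_left hM2 (by positivity) (by linarith)
  have c3 : M1 ≤ 240 * (K * M) + M2 / 2 := by
    have h1 : M1 / (120 * K) ≤ 2 * M + M2 / (240 * K) := by linarith only [hrow, c2]
    rw [div_le_iff₀ (by positivity)] at h1
    have h2 : (2 * M + M2 / (240 * K)) * (120 * K) = 240 * (K * M) + M2 / 2 := by field_simp; ring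
    linarith only [h1, h2]
  have hKM0 : 0 ≤ K * M := hM.trans hKM
  have b1 : M1 ≤ 488 * (K * M) := by linarith only [c1, c3, hcol, hKM, hM1, hM]
  have b2 : M2 ≤ 496 * (K * M) := by linarith only [c1, b1, hcol, hKM]
  refine ⟨fun a ha => ?_, fun t => ?_, fun t t' h => ?_⟩
  · have := mul_le_mul_of_nonneg_left (hG a ha) hη.le
    linarith only [this, b1, hKM0, hM1d]
  · obtain ⟨a1, a2⟩ := abs_le.mp hA1
    obtain ⟨a3, a4⟩ := abs_le.mp (hR1 t t1)
    obtain ⟨a5, a6⟩ := abs_le.mp (hL1 t t1)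
    exact abs_le.mpr ⟨by linarith only [a1, a3, a5, b1, b2, hKM, hKM0],
      by linarith only [a2, a4, a6, b1, b2, hKM, hKM0]⟩
  · obtain ⟨a3, a4⟩ := abs_le.mp (hR2 t t' (by rw [h]))
    obtain ⟨a5, a6⟩ := abs_le.mp (hL2 t t' (by rw [h]))
    have h1 : M1 / Nc + M2 / Nc ≤ 1000 * K / Nc * M := by
      rw [← add_div, div_mul_eq_mul_div]
      exact div_le_div_of_nonneg_right (by linarith only [b1, b2, hKM0]) hN0.le
    exact abs_le.mpr ⟨by linarith only [a3, a5, h1], by linarith only [a4, a6, h1]⟩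

end Pool.Agent.P.MP_b8021b_nt.KR
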