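import Pool.Agent.P.MP_b8021b_nt.KR.St

/-! The regulator of `z - x` is a power series in `x`. -/

namespace Pool.Agent.P.MP_b8021b_nt.KR

open Finset

namespace PSer

/-- a power series with geometrically bounded coefficients, its primitive and its tail -/
lemma ser (c : ℕ → ℝ) (τ K ρ η : ℝ) (M : ℕ) (hρ : 0 ≤ ρ) (hη : 0 < η) (h : ρ * η ≤ 1 / 2)
    (hc : ∀ n, |c n| ≤ K * ρ ^ (n + 1)) (x : ℝ) (hx : x ∈ Set.Icc τ (τ + η)) :
    HasDerivAt (fun y => ∑' n : ℕ, -(c n * (y - τ) ^ (n + 1)) / (n + 1))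
        (∑' n : ℕ, -(c n * (x - τ) ^ n)) x ∧
      |(∑' n : ℕ, -(c n * (x - τ) ^ n)) + ∑ n ∈ range M, c n * (x - τ) ^ n| ≤
        2 * K * ρ * (ρ * η) ^ M := by
  have hK : 0 ≤ K * ρ := by simpa using (abs_nonneg _).trans (hc 0)
  have hb : ∀ (n : ℕ) (y r : ℝ), |y - τ| ≤ r → ‖-(c n * (y - τ) ^ n)‖ ≤ K * ρ * (ρ * r) ^ n := by
    intro n y r hy
    rw [norm_neg, Real.norm_eq_abs, abs_mul, abs_pow]
    calc |c n| * |y - τ| ^ n ≤ K * ρ ^ (n + 1) * r ^ n :=
          mul_le_mul (hc n) (pow_le_pow_left₀ (abs_nonneg _) hy n) (by positivity)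
            ((abs_nonneg _).trans (hc n))
      _ = K * ρ * (ρ * r) ^ n := by ring
  have hx1 : |x - τ| ≤ η := by
    rw [abs_of_nonneg (by linarith [hx.1])]; linarith [hx.2]
  constructor
  · have hu : Summable fun n : ℕ => K * ρ * (ρ * (3 / 2 * η)) ^ n :=
      (summable_geometric_of_lt_one (by positivity) (by nlinarith)).mul_left _
    refine hasDerivAt_tsum_of_isPreconnected (t := Metric.ball τ (3 / 2 * η)) (y₀ := τ)
      (g := fun n y => -(c n * (y - τ) ^ (n + 1)) / (n + 1))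
      (g' := fun n y => -(c n * (y - τ) ^ n)) hu Metric.isOpen_ball
      (convex_ball _ _).isPreconnected (fun n y _ => ?_) (fun n y hy => hb n y _ ?_)
      (Metric.mem_ball_self (by positivity)) (by simp [summable_zero]) ?_
    · have h1 := (((((hasDerivAt_id y).sub_const τ).pow (n + 1)).const_mul (c n)).neg).div_const
        ((n : ℝ) + 1)
      have h2 : (n : ℝ) + 1 ≠ 0 := by positivity
      refine (h1.congr_deriv ?_)
      simp only [id, Nat.add_sub_cancel]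
      push_cast
      field_simp
    · exact (by simpa [Real.dist_eq] using hy : |y - τ| < 3 / 2 * η).le
    · rw [Metric.mem_ball, Real.dist_eq]; linarith
  · have hρη : 0 ≤ ρ * η := by positivity
    have hs : Summable fun n : ℕ => -(c n * (x - τ) ^ n) :=
      Summable.of_norm_bounded
        ((summable_geometric_of_lt_one hρη (by linarith)).mul_left (K * ρ)) fun n => hb n x η hx1
    rw [← hs.sum_add_tsum_nat_add M, sum_neg_distrib, add_comm, ← add_assoc, add_neg_cancel,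
      zero_add, ← Real.norm_eq_abs]
    have hg := hasSum_geometric_two.mul_left (K * ρ * (ρ * η) ^ M)
    refine (tsum_of_norm_bounded hg fun n => (hb _ x η hx1).trans ?_).trans_eq (by ring)
    rw [pow_add, mul_comm ((ρ * η) ^ n), ← mul_assoc]
    exact mul_le_mul_of_nonneg_left (pow_le_pow_left₀ hρη h n) (by positivity)

end PSer

theorem p_ser : S_Ser := by
  intro E _ _ a z s τ K ρ η M hs hz hN hη h hc
  have hρ : 0 ≤ ρ := (a.N_nonneg _).trans hN
  refine ⟨fun y => a.reg (z - τ) s +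
      ∑' n : ℕ, -(a.Λ ((z - τ)⁻¹ ^ (n + 1) * s⁻¹) s * (y - τ) ^ (n + 1)) / (n + 1),
    fun x => ∑' n : ℕ, -(a.Λ ((z - τ)⁻¹ ^ (n + 1) * s⁻¹) s * (x - τ) ^ n), fun x hx => ?_,
    fun q hq hzq => ?_⟩
  · obtain ⟨h1, h2⟩ := PSer.ser _ τ K ρ η M hρ hη h hc x hx
    exact ⟨h1.const_add _, h2⟩
  · have e : z - q = (z - τ) * (1 - ((q - τ : ℚ) : E) * (z - τ)⁻¹) := by
      push_cast
      field_simp
      ring
    have h1 : (1 - ((q - τ : ℚ) : E) * (z - τ)⁻¹) ≠ 0 := fun h0 => hzq (by rw [e, h0, mul_zero])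
    have h2 : a.N (((q - τ : ℚ) : E) * (z - τ)⁻¹) < 1 := by
      have h3 : a.N ((q - τ : ℚ) : E) ≤ η := (a.N_rat _).trans (by
        push_cast
        rw [abs_of_nonneg (by linarith [hq.1])]; linarith [hq.2])
      have h4 := (a.N_mul _ _).trans (mul_le_mul h3 hN (a.N_nonneg _) hη.le)
      linarith [mul_comm ρ η]
    rw [e, a.reg_mul _ _ s hz h1 hs, ← (a.reg_ser _ s hs h2).tsum_eq]
    refine congrArg _ (tsum_congr fun n => ?_)
    have h5 : (((q - τ : ℚ) : E) * (z - τ)⁻¹) ^ (n + 1) * s⁻¹ =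
        ((q - τ) ^ (n + 1) : ℚ) • ((z - τ)⁻¹ ^ (n + 1) * s⁻¹) := by
      rw [Rat.smul_def, mul_pow]; push_cast; ring
    have h6 := map_rat_smul (a.Λ.flip s) ((q - τ) ^ (n + 1)) ((z - τ)⁻¹ ^ (n + 1) * s⁻¹)
    simp only [AddMonoidHom.flip_apply] at h6
    rw [h5, h6, Rat.smul_def]
    push_cast
    ring

end Pool.Agent.P.MP_b8021b_nt.KR
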