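import Pool.Agent.P.MP_b8021b_nt.KR.BasicP

/-! The regulator of a cycle is a symbol. -/

namespace Pool.Agent.P.MP_b8021b_nt.KR

open scoped TensorProduct

namespace PSt

variable {F : Type} [Field F]

theorem reg_mul (γ : Path F) {f f' : F} (g : F) (hf : f ≠ 0) (hf' : f' ≠ 0) :
    γ.reg (f * f') g = γ.reg f g + γ.reg f' g := by
  unfold Path.reg
  rw [← intervalIntegral.integral_add ((γ.cont_reg f g).intervalIntegrable _ _)
    ((γ.cont_reg f' g).intervalIntegrable _ _)]
  refine intervalIntegral.integral_congr fun t _ => ?_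
  rw [γ.darg_mul hf hf', map_mul, norm_mul, Real.log_mul (norm_ne_zero_iff.2 (γ.ne hf t))
    (norm_ne_zero_iff.2 (γ.ne hf' t))]
  ring

theorem reg_swap (γ : Path F) (f g : F) : γ.reg g f = -γ.reg f g := by
  unfold Path.reg
  rw [← intervalIntegral.integral_neg]
  refine intervalIntegral.integral_congr fun t _ => ?_
  ring

theorem reg_one_sub {D : ℂ → ℝ} (hD : ∀ (f : ℝ → ℂ) (f' : ℂ) (t : ℝ), HasDerivAt f f' t →
    f t ≠ 0 → f t ≠ 1 → HasDerivAt (fun s => D (f s))
      (Real.log ‖f t‖ * (-f' / (1 - f t)).im - Real.log ‖1 - f t‖ * (f' / f t).im) t)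
    (γ : Path F) {f : F} (hf : f ≠ 0) (hf' : 1 - f ≠ 0) :
    γ.reg f (1 - f) = D (γ.j 1 f) - D (γ.j 0 f) := by
  unfold Path.reg
  refine intervalIntegral.integral_eq_sub_of_hasDerivAt (f := fun s => D (γ.j s f))
    (fun t _ => ?_) ((γ.cont_reg f (1 - f)).intervalIntegrable _ _)
  have h1 : γ.j t f ≠ 1 := fun h => γ.ne hf' t (by rw [map_sub, map_one, h, sub_self])
  have := hD (fun s => γ.j s f) (γ.d f t) t (γ.hasDerivAt f t) (γ.ne hf t) h1
  rw [Path.darg_eq, Path.darg_eq, γ.d_sub, γ.d_one, zero_sub, map_sub, map_one]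
  exact this

theorem regC_mul (c : Path F →₀ ℝ) {f f' : F} (g : F) (hf : f ≠ 0) (hf' : f' ≠ 0) :
    regC c (f * f') g = regC c f g + regC c f' g := by
  simp only [regC, reg_mul _ g hf hf', mul_add, Finsupp.sum_add]

theorem regC_swap (c : Path F →₀ ℝ) (f g : F) : regC c g f = -regC c f g := by
  simp only [regC, reg_swap _ f g, mul_neg, Finsupp.sum_neg]

theorem regC_mul_right (c : Path F →₀ ℝ) (f : F) {g g' : F} (hg : g ≠ 0) (hg' : g' ≠ 0) :
    regC c f (g * g') = regC c f g + regC c f g' := by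
  rw [regC_swap c (g * g') f, regC_mul c f hg hg', regC_swap c g f, regC_swap c g' f]
  ring

/-- the regulator as a bilinear map -/
noncomputable def bil (c : Path F →₀ ℝ) : Additive Fˣ →+ Additive Fˣ →+ ℝ :=
  AddMonoidHom.mk' (fun a => AddMonoidHom.mk'
    (fun b => regC c ((Additive.toMul a : Fˣ) : F) ((Additive.toMul b : Fˣ) : F))
    fun b b' => by
      rw [toMul_add, Units.val_mul, regC_mul_right c _ (Units.ne_zero _) (Units.ne_zero _)])
    fun a a' => by
      refine AddMonoidHom.ext fun b => ?_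
      rw [AddMonoidHom.add_apply, AddMonoidHom.mk'_apply, AddMonoidHom.mk'_apply,
        AddMonoidHom.mk'_apply, toMul_add, Units.val_mul,
        regC_mul c _ (Units.ne_zero _) (Units.ne_zero _)]

/-- the regulator on the tensor square -/
noncomputable def ten (c : Path F →₀ ℝ) : (Additive Fˣ ⊗[ℤ] Additive Fˣ) →ₗ[ℤ] ℝ :=
  (TensorProduct.liftAddHom (bil c) fun r m n => by
    rw [map_zsmul, map_zsmul, AddMonoidHom.zsmul_apply]).toIntLinearMap

theorem ten_tmul (c : Path F →₀ ℝ) (f g : Fˣ) :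
    ten c (Additive.ofMul f ⊗ₜ[ℤ] Additive.ofMul g) = regC c f g := rfl

end PSt

open PSt in
theorem p_st (h : S_BW) : S_St := by
  obtain ⟨D, hD⟩ := h
  intro F _ c
  refine ⟨fun f f' g hf hf' _ => regC_mul c g hf hf', regC_swap c, fun hc => ?_⟩
  have key : ∀ f : F, f ≠ 0 → 1 - f ≠ 0 → regC c f (1 - f) = 0 := fun f hf hf' => by
    rw [regC_eq, ← hc.ev_zero fun σ => D (σ f)]
    congr 2
    exact funext fun γ => reg_one_sub hD γ hf hf'
  refine ⟨key, (Submodule.liftQ _ (ten c) ?_).toAddMonoidHom, fun f g => ?_⟩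
  · rw [Submodule.span_le]
    rintro x ⟨a, b, hab, rfl⟩
    have hb : (b : F) = 1 - a := by rw [← hab]; ring
    rw [SetLike.mem_coe, LinearMap.mem_ker, ten_tmul, hb]
    exact key a a.ne_zero (hb ▸ b.ne_zero)
  · exact ten_tmul c f g

end Pool.Agent.P.MP_b8021b_nt.KR
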