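import Pool.Agent.P.MP_b8021b_nt.KR.St
import Pool.Agent.P.MP_b8021b_nt.VE.BasicP
import Pool.Agent.P.MP_b8021b_nt.VE.PSEq

/-! A linear form in the coefficients of a section is rarely small. -/

namespace Pool.Agent.P.MP_b8021b_nt.KR

open Polynomial Finset Pool.Agent.P.MP_b8021b_nt.VE Pool.Agent.P.MP_b8021b_nt.VC
open scoped Classical

namespace PTent

theorem card_near (S : Finset ℤ) (x r : ℝ) (hr : 0 ≤ r) (h : ∀ n ∈ S, |(n : ℝ) - x| < r) :
    (S.card : ℝ) ≤ 2 * r + 1 := by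
  have h1 : S ⊆ Icc ⌈x - r⌉ ⌊x + r⌋ := fun n hn => by
    have := abs_lt.1 (h n hn)
    rw [mem_Icc, Int.ceil_le, Int.le_floor]
    constructor <;> linarith [this.1, this.2]
  have h2 := card_le_card h1
  rw [Int.card_Icc] at h2
  have h3 : (S.card : ℝ) ≤ ((⌊x + r⌋ + 1 - ⌈x - r⌉).toNat : ℝ) := by exact_mod_cast h2
  refine h3.trans ?_
  rcases le_total (⌊x + r⌋ + 1 - ⌈x - r⌉) 0 with h4 | h4
  · rw [Int.toNat_eq_zero.2 h4, Nat.cast_zero]
    linarith
  · have h5 : (((⌊x + r⌋ + 1 - ⌈x - r⌉).toNat : ℤ) : ℝ) = ((⌊x + r⌋ + 1 - ⌈x - r⌉ : ℤ) : ℝ) := by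
      rw [Int.toNat_of_nonneg h4]
    rw [Int.cast_natCast] at h5
    rw [h5]
    push_cast
    linarith [Int.floor_le (x + r), Int.le_ceil (x - r)]

theorem resample {ι : Type} [Fintype ι] [DecidableEq ι] (I : ι → Finset ℤ) (w : ι → ℤ → ℝ) (j₀ : ι)
    (h1 : ∑ n ∈ I j₀, w j₀ n = 1) (g : (ι → ℤ) → ℝ) :
    ∑ s ∈ Fintype.piFinset I, (∏ j, w j (s j)) * g s =
      ∑ s ∈ Fintype.piFinset I, (∏ j, w j (s j)) *
        ∑ n ∈ I j₀, w j₀ n * g (Function.update s j₀ n) := by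
  have key : ∀ (s : ι → ℤ) (n : ℤ), (∏ j, w j (Function.update s j₀ n j)) * w j₀ (s j₀) =
      (∏ j, w j (s j)) * w j₀ n := fun s n => by
    rw [← mul_prod_erase univ _ (mem_univ j₀), ← mul_prod_erase univ (fun j => w j (s j))
      (mem_univ j₀), Function.update_self,
      prod_congr rfl fun j hj => by rw [Function.update_of_ne (ne_of_mem_erase hj)]]
    ring
  have e1 : ∑ s ∈ Fintype.piFinset I, (∏ j, w j (s j)) * g s =
      ∑ x ∈ Fintype.piFinset I ×ˢ I j₀, (∏ j, w j (x.1 j)) * w j₀ x.2 * g x.1 := by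
    rw [sum_product]
    refine sum_congr rfl fun s _ => ?_
    dsimp only
    rw [← sum_mul, ← mul_sum, h1, mul_one]
  have e2 : ∑ s ∈ Fintype.piFinset I, (∏ j, w j (s j)) *
        ∑ n ∈ I j₀, w j₀ n * g (Function.update s j₀ n) =
      ∑ x ∈ Fintype.piFinset I ×ˢ I j₀,
        (∏ j, w j (x.1 j)) * w j₀ x.2 * g (Function.update x.1 j₀ x.2) := by
    rw [sum_product]
    refine sum_congr rfl fun s _ => ?_
    dsimp only
    rw [mul_sum]
    exact sum_congr rfl fun n _ => by ring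
  rw [e1, e2]
  have hm : ∀ x ∈ Fintype.piFinset I ×ˢ I j₀,
      (Function.update x.1 j₀ x.2, x.1 j₀) ∈ Fintype.piFinset I ×ˢ I j₀ := fun x hx => by
    rw [mem_product, Fintype.mem_piFinset] at hx ⊢
    refine ⟨fun j => ?_, hx.1 j₀⟩
    by_cases hj : j = j₀
    · subst hj
      simpa using hx.2
    · simpa [Function.update_of_ne hj] using hx.1 j
  symm
  refine sum_nbij' (fun x => (Function.update x.1 j₀ x.2, x.1 j₀))
    (fun x => (Function.update x.1 j₀ x.2, x.1 j₀)) hm hm (fun x _ => ?_) (fun x _ => ?_)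
    (fun x _ => ?_)
  · simp
  · simp
  · dsimp only
    rw [key]

theorem gen {ι : Type} [Fintype ι] [DecidableEq ι] (I : ι → Finset ℤ) (w : ι → ℤ → ℝ) (j₀ : ι)
    (z : ι → ℤ) (l : ι → ℝ) (c L : ℝ) (hL : 0 < L) (hl : l j₀ ≠ 0) (hc : 0 ≤ c)
    (h0 : ∀ j n, 0 ≤ w j n) (h1 : ∀ j, ∑ n ∈ I j, w j n = 1) (h2 : ∀ n, w j₀ n ≤ 1 / L)
    (P : (ι → ℤ) → Prop) [DecidablePred P]
    (hP : ∀ s, P s → |∑ j, l j * ((s j - z j : ℤ) : ℝ)| < c * |l j₀| * L) :
    ∑ s ∈ Fintype.piFinset I with P s, ∏ j, w j (s j) ≤ 2 * c + 1 / L := by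
  have e : ∑ s ∈ Fintype.piFinset I with P s, ∏ j, w j (s j) =
      ∑ s ∈ Fintype.piFinset I, (∏ j, w j (s j)) * if P s then (1 : ℝ) else 0 := by
    rw [sum_filter]
    exact sum_congr rfl fun s _ => by split_ifs <;> simp
  have tot : ∑ s ∈ Fintype.piFinset I, ∏ j, w j (s j) = 1 := by
    rw [← prod_univ_sum]
    exact prod_eq_one fun j _ => h1 j
  rw [e, resample I w j₀ (h1 j₀)]
  refine (sum_le_sum (g := fun s => (∏ j, w j (s j)) * (2 * c + 1 / L)) fun s _ => ?_).trans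
    (by rw [← sum_mul, tot, one_mul])
  refine mul_le_mul_of_nonneg_left ?_ (prod_nonneg fun j _ => h0 j _)
  have hla : 0 < |l j₀| := abs_pos.2 hl
  set A : ℝ := ∑ j ∈ univ.erase j₀, l j * ((s j - z j : ℤ) : ℝ) with hA
  have hcard := card_near ((I j₀).filter fun n => P (Function.update s j₀ n))
    (z j₀ - A / l j₀) (c * L) (by positivity) fun n hn => by
      have h := hP _ (mem_filter.1 hn).2
      rw [← add_sum_erase univ _ (mem_univ j₀), Function.update_self,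
        sum_congr rfl fun j hj => by rw [Function.update_of_ne (ne_of_mem_erase hj)], ← hA] at h
      have e3 : l j₀ * ((n - z j₀ : ℤ) : ℝ) + A = l j₀ * ((n : ℝ) - (z j₀ - A / l j₀)) := by
        push_cast
        field_simp
        ring
      rw [e3, abs_mul] at h
      refine lt_of_mul_lt_mul_left (a := |l j₀|) ?_ hla.le
      linarith
  calc ∑ n ∈ I j₀, w j₀ n * (if P (Function.update s j₀ n) then (1 : ℝ) else 0)
      ≤ ∑ n ∈ I j₀, if P (Function.update s j₀ n) then 1 / L else 0 :=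
        sum_le_sum fun n _ => by
          split_ifs
          · rw [mul_one]; exact h2 n
          · rw [mul_zero]
    _ = (((I j₀).filter fun n => P (Function.update s j₀ n)).card : ℝ) * (1 / L) := by
        rw [← sum_filter, sum_const, nsmul_eq_mul]
    _ ≤ (2 * (c * L) + 1) * (1 / L) := mul_le_mul_of_nonneg_right hcard (by positivity)
    _ = 2 * c + 1 / L := by field_simp

end PTent

theorem p_tent : S_Tent := by
  intro R _ _ p S0 L l j₀ c hL hl hc
  have hL0 : (0 : ℝ) < L := by exact_mod_cast hL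
  refine PTent.gen (fun j => Ioo (VC.cen p S0 j - L) (VC.cen p S0 j + L))
    (fun j n => tent (((n - VC.cen p S0 j : ℤ) : ℝ) / L) / L) j₀ (VC.cen p S0) l c L hL0 hl hc
    (fun j n => div_nonneg (tent_nonneg _) hL0.le) (fun j => ?_)
    (fun n => div_le_div_of_nonneg_right (tent_le_one _) hL0.le) _ fun s hs => hs
  have := VE.PSEq.tent_sum (VC.cen p S0 j) hL fun _ => 1
  simp only [mul_one, sum_const, Int.card_Ico, add_sub_cancel_left, sub_zero, Int.toNat_natCast,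
    nsmul_eq_mul] at this
  rw [this]
  field_simp

end Pool.Agent.P.MP_b8021b_nt.KR
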