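import Pool.Agent.P.MP_b8021b_nt.KR.St
import Pool.Agent.P.MP_b8021b_nt.VE.BasicS

/-! The trace of a regular form to the projective line vanishes. -/

namespace Pool.Agent.P.MP_b8021b_nt.KR

open Polynomial Pool.Agent.P.MP_b8021b_nt.VE Pool.Agent.P.MP_b8021b_nt.VC
open scoped Classical IntermediateField

namespace PTrZ

/-- the trace of a regular form is regular -/
theorem tr (hRegM : S_RegM) (hCrv : VC.S_Crv) {E F : Type} [Field E] [CharZero E] [Field F]
    [CharZero F] [Algebra E F] [FiniteDimensional E F] (hF : IsCurve F) (φ : F) (x : E)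
    (h : RegV φ (algebraMap E F x)) :
    RegV (algebraMap E F (Algebra.trace E F φ)) (algebraMap E F x) := by
  have hE : IsCurve E := (hCrv.1 E F).2 hF
  refine (hRegM.2 E F (algebraMap E F) hE hF _ _).1 ?_
  obtain ⟨N, hN⟩ : ∃ N : IntermediateField E (AlgebraicClosure F),
      N = IntermediateField.normalClosure E F (AlgebraicClosure F) := ⟨_, rfl⟩
  have hfin : FiniteDimensional E N := by
    rw [hN]
    infer_instance
  have hle : ∀ (σ : F →ₐ[E] AlgebraicClosure F) (a : F), σ a ∈ N := fun σ a => by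
    rw [hN]
    exact AlgHom.fieldRange_le_normalClosure σ ⟨a, rfl⟩
  have : CharZero N := (RingHom.charZero_iff (algebraMap E N).injective).1 inferInstance
  have hNc : IsCurve N := (hCrv.1 E N).1 hE
  refine (hRegM.2 E N (algebraMap E N) hE hNc _ _).2 ?_
  let s : (F →ₐ[E] AlgebraicClosure F) → (F →+* N) := fun σ =>
    (σ : F →+* AlgebraicClosure F).codRestrict N.toSubfield (hle σ)
  have h1 : ∀ σ, s σ (algebraMap E F x) = algebraMap E N x := fun σ => Subtype.ext (σ.commutes x)
  have h2 : algebraMap E N (Algebra.trace E F φ) = ∑ σ, s σ φ := by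
    apply (algebraMap N (AlgebraicClosure F)).injective
    rw [← IsScalarTower.algebraMap_apply, trace_eq_sum_embeddings, map_sum]
    rfl
  rw [h2]
  refine Finset.sum_induction _ (fun ψ => RegV ψ (algebraMap E N x))
    ((hRegM.1 N _).2.1) (hRegM.1 N _).1 fun σ _ => ?_
  rw [← h1 σ]
  exact (hRegM.2 F N (s σ) hF hNc _ _).1 h

variable {k F : Type} [Field k] [Field F] [Algebra k F]

/-- a polynomial does not vanish at a pole of the variable -/
theorem pole {p : GPt F} {τ : k →+* Qb} (hτ : ∀ c, p.Val (algebraMap k F c) (τ c)) {y : F}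
    (hy : y ≠ 0) (h : p.Val y⁻¹ 0) {A : k[X]} (hA : A ≠ 0) : ¬ p.Val (aeval y A) 0 := by
  intro h0
  let _ : Invertible y := invertibleOfNonzero hy
  have h1 := p.val_eval₂ hτ h A.reverse
  have h2 := eval₂_reverse_mul_pow (algebraMap k F) y A
  rw [invOf_eq_inv] at h2
  have h3 : eval₂ (algebraMap k F) y⁻¹ A.reverse = aeval y A * y⁻¹ ^ A.natDegree := by
    rw [aeval_def, ← h2, mul_assoc, ← mul_pow, mul_inv_cancel₀ hy, one_pow, mul_one]
  have h4 := h0.mul (h.pow A.natDegree)
  rw [← h3, zero_mul] at h4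
  have h5 := h1.unique h4
  rw [eval₂_at_zero, coeff_zero_reverse, _root_.map_eq_zero, leadingCoeff_eq_zero] at h5
  exact hA h5

theorem dvd_of_root {τ : k →+* Qb} {a : Qb} {m A : k[X]} (hm : Irreducible m)
    (h1 : m.eval₂ τ a = 0) (h2 : A.eval₂ τ a = 0) : m ∣ A := by
  by_contra hn
  obtain ⟨u, v, e⟩ := (hm.coprime_iff_not_dvd).2 hn
  have := congrArg (eval₂ τ a) e
  rw [eval₂_add, eval₂_mul, eval₂_mul, h1, h2, eval₂_one, mul_zero, mul_zero, add_zero] at this
  exact zero_ne_one this

/-- there is no regular form on the projective line -/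
theorem line (hFin : VC.S_Fin) [NumberField k] [CharZero F] (hF : IsCurve F) {y T : F}
    (hy : Transcendental ℚ y) (h : RegV T y) (n : ℕ) :
    ∀ A B : k[X], B ≠ 0 → B.natDegree = n → T * aeval y B = aeval y A → T = 0 := by
  have hc : ∀ q : ℚ, algebraMap ℚ F q = algebraMap k F (algebraMap ℚ k q) := fun q => by
    rw [eq_ratCast, eq_ratCast, map_ratCast]
  have : IsScalarTower ℚ k F := IsScalarTower.of_algebraMap_eq hc
  have hyk : Transcendental k y := hy.extendScalars k
  have hy0 : y ≠ 0 := by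
    rintro rfl
    exact hy isAlgebraic_zero
  have hne : ∀ B : k[X], B ≠ 0 → aeval y B ≠ 0 := fun B hB e => hyk ⟨B, hB, e⟩
  induction n using Nat.strong_induction_on with
  | _ n ih =>
  intro A B hB hn e
  by_cases hu : IsUnit B
  · obtain ⟨c, -, rfl⟩ := isUnit_iff.1 hu
    obtain ⟨p, hp⟩ := (hFin F hF).2.2.1 y⁻¹ fun h' => hy (IsAlgebraic.inv_iff.1 h')
    obtain ⟨τ, hτ⟩ := p.exists_emb (algebraMap k F)
    have h1 : p.ord y < 0 := by
      rw [p.ord_inv] at hp
      linarith
    have h2 := ((h p).1 h1).mul (hτ c)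
    have h3 : T * y * algebraMap k F c = aeval y (A * X) := by
      rw [map_mul, ← e, aeval_C, aeval_X]
      ring
    rw [h3, zero_mul] at h2
    have hA : A = 0 := by
      by_contra hA
      exact pole (τ := τ.toRingHom) hτ hy0 (p.val_zero_of_ord_pos hp) (mul_ne_zero hA X_ne_zero) h2
    rw [hA, map_zero] at e
    exact (mul_eq_zero.1 e).resolve_right (hne _ hB)
  · obtain ⟨m, hm, B', rfl⟩ := WfDvdMonoid.exists_irreducible_factor hu hB
    have hB' : B' ≠ 0 := right_ne_zero_of_mul hB
    have hd : 0 < m.natDegree := hm.natDegree_pos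
    have hmk : Transcendental k (aeval y m) :=
      hyk.aeval m hd.ne' (mem_nonZeroDivisors_of_ne_zero (leadingCoeff_ne_zero.2 hm.ne_zero))
    obtain ⟨p, hp⟩ := (hFin F hF).2.2.1 (aeval y m) fun h' => hmk (h'.extendScalars
      (algebraMap ℚ k).injective)
    obtain ⟨τ, hτ⟩ := p.exists_emb (algebraMap k F)
    have hm0 := p.val_zero_of_ord_pos hp
    have hreg : y ∈ p.v.valuationSubring := by
      by_contra hn
      refine pole (τ := τ.toRingHom) hτ hy0 (p.val_zero_of_ord_pos ?_) hm.ne_zero hm0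
      rw [p.ord_inv]
      linarith [(p.ord_neg_iff y).2 hn]
    obtain ⟨a, ha⟩ := p.exists_val hreg
    have hv : ∀ g : k[X], p.Val (aeval y g) (g.eval₂ τ.toRingHom a) := fun g =>
      p.val_eval₂ (τ := τ.toRingHom) hτ ha g
    have hma : m.eval₂ τ.toRingHom a = 0 := (hv m).unique hm0
    have hint : IsIntegral ℚ a := ((AlgebraicClosure.isAlgebraic ℚ).isAlgebraic a).isIntegral
    have hπa : ((minpoly ℚ a).map (algebraMap ℚ k)).eval₂ τ.toRingHom a = 0 := by
      rw [eval₂_map, Subsingleton.elim (τ.toRingHom.comp (algebraMap ℚ k)) (algebraMap ℚ Qb)]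
      exact minpoly.aeval ℚ a
    have hsep : ((minpoly ℚ a).map (algebraMap ℚ k)).Separable :=
      (minpoly.irreducible hint).separable.map
    obtain ⟨π', hπ'⟩ := dvd_of_root hm hma hπa
    have hπy : aeval y (minpoly ℚ a) = aeval y m * aeval y π' := by
      rw [← map_mul, ← hπ', aeval_map_algebraMap]
    have h1 : p.Val (aeval y (minpoly ℚ a)) 0 := by
      rw [hπy]
      simpa using hm0.mul (hv π')
    have h2 := ((h p).2 _ (minpoly.ne_zero hint) h1).mul (hv B')
    have h3 : T * aeval y (minpoly ℚ a) * aeval y B' = aeval y A * aeval y π' := by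
      rw [hπy, ← e, map_mul]
      ring
    rw [h3, zero_mul] at h2
    have h4 := ((hv A).mul (hv π')).unique h2
    have h5 : π'.eval₂ τ.toRingHom a ≠ 0 := fun h6 => by
      rw [hπ'] at hsep
      exact hm.not_isUnit (hsep.isCoprime.isUnit_of_dvd' dvd_rfl (dvd_of_root hm hma h6))
    obtain ⟨A', rfl⟩ := dvd_of_root hm hma ((mul_eq_zero.1 h4).resolve_right h5)
    refine ih B'.natDegree ?_ A' B' hB' rfl ?_
    · rw [← hn, natDegree_mul hm.ne_zero hB']
      omega
    · refine mul_left_cancel₀ (hne m hm.ne_zero) ?_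
      rw [map_mul, map_mul] at e
      rw [← e]
      ring

end PTrZ

open PTrZ

theorem p_trZ (hRegM : S_RegM) (hCrv : VC.S_Crv) (hFin : VC.S_Fin) : S_TrZ := by
  intro k F _ _ _ _ _ hF φ f hf h
  have hc : ∀ q : ℚ, algebraMap ℚ F q = algebraMap k F (algebraMap ℚ k q) := fun q => by
    rw [eq_ratCast, eq_ratCast, map_ratCast]
  have : IsScalarTower ℚ k F := IsScalarTower.of_algebraMap_eq hc
  have hfk : Transcendental k f := hf.extendScalars k
  have : FiniteDimensional k⟮f⟯ F := (hCrv.2.1 k F f hfk).1 hF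
  have : CharZero k⟮f⟯ := (RingHom.charZero_iff (algebraMap k⟮f⟯ F).injective).2 inferInstance
  have h1 := tr hRegM hCrv hF φ (IntermediateField.AdjoinSimple.gen k f) h
  rw [IntermediateField.AdjoinSimple.algebraMap_gen] at h1
  obtain ⟨A, B, e⟩ := (IntermediateField.mem_adjoin_simple_iff k _).1 (Algebra.trace k⟮f⟯ F φ).2
  apply Subtype.ext
  by_cases hB : aeval f B = 0
  · rw [e, hB, div_zero]
    rfl
  · refine line hFin hF hf h1 _ A B (fun h0 => hB (by rw [h0, map_zero])) rfl ?_
    exact (eq_div_iff hB).1 e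

end Pool.Agent.P.MP_b8021b_nt.KR
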