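import Pool.Agent.P.MP_b8021b_nt.KR.St

/-! Transfer of symbols: glue to one pairing on the algebraic closure and use a maximal subfield on
which the pairing vanishes. -/

namespace Pool.Agent.P.MP_b8021b_nt.KR

open Polynomial
open scoped IntermediateField

namespace PTrf

variable {K L : Type} [Field K] [Field L]

/-- a real valued symbol -/
structure Sy (B : L → L → ℝ) : Prop where
  mul : ∀ a a' b, a ≠ 0 → a' ≠ 0 → b ≠ 0 → B (a * a') b = B a b + B a' b
  symm : ∀ a b, a ≠ 0 → b ≠ 0 → B b a = -B a b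
  st : ∀ a, a ≠ 0 → 1 - a ≠ 0 → B a (1 - a) = 0

variable {B : L → L → ℝ}

theorem Sy.mul' (h : Sy B) {a b b' : L} (ha : a ≠ 0) (hb : b ≠ 0) (hb' : b' ≠ 0) :
    B a (b * b') = B a b + B a b' := by
  rw [h.symm _ _ (mul_ne_zero hb hb') ha, h.mul _ _ _ hb hb' ha, h.symm _ _ ha hb,
    h.symm _ _ ha hb']
  ring

theorem Sy.one (h : Sy B) {a : L} (ha : a ≠ 0) : B a 1 = 0 := by
  have := h.mul' ha one_ne_zero one_ne_zero
  rw [mul_one] at this
  linarith

theorem Sy.neg (h : Sy B) {a b : L} (ha : a ≠ 0) (hb : b ≠ 0) : B a (-b) = B a b := by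
  have h1 : (-1 : L) ≠ 0 := neg_ne_zero.2 one_ne_zero
  have k := h.mul' ha h1 h1
  rw [neg_mul_neg, mul_one, h.one ha] at k
  rw [← neg_one_mul, h.mul' ha h1 hb]
  linarith

theorem Sy.self (h : Sy B) {a : L} (ha : a ≠ 0) : B a a = 0 := by
  have := h.symm a a ha ha
  linarith

theorem Sy.prod (h : Sy B) {a : L} (ha : a ≠ 0) (c : ℝ) (s : Multiset L) :
    (∀ y ∈ s, y ≠ 0 ∧ B a y = c) → s.prod ≠ 0 ∧ B a s.prod = Multiset.card s * c := by
  induction s using Multiset.induction_on with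
  | empty => intro _; simp [h.one ha]
  | cons y s ih =>
    intro hs
    obtain ⟨h0, h1⟩ := ih fun z hz => hs z (Multiset.mem_cons_of_mem hz)
    obtain ⟨h2, h3⟩ := hs y (Multiset.mem_cons_self _ _)
    refine ⟨by rw [Multiset.prod_cons]; exact mul_ne_zero h2 h0, ?_⟩
    rw [Multiset.prod_cons, h.mul' ha h2 h0, h1, h3, Multiset.card_cons]
    push_cast
    ring

variable [Algebra K L]

/-- the projection formula -/
theorem proj [IsAlgClosed L] [Normal K L] (h : Sy B)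
    (hσ : ∀ (σ : L ≃ₐ[K] L) (a b : L), a ≠ 0 → b ≠ 0 → B (σ a) (σ b) = B a b)
    (h0 : ∀ a b : K, a ≠ 0 → b ≠ 0 → B (algebraMap K L a) (algebraMap K L b) = 0)
    (a : K) (y : L) (ha : a ≠ 0) (hy : y ≠ 0) : B (algebraMap K L a) y = 0 := by
  have ha' : algebraMap K L a ≠ 0 := (_root_.map_ne_zero _).2 ha
  have hal : IsAlgebraic K y := Algebra.IsAlgebraic.isAlgebraic y
  have hi : IsIntegral K y := hal.isIntegral
  have hs : ((minpoly K y).map (algebraMap K L)).Splits := IsAlgClosed.splits _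
  have e := hs.aeval_eq_prod_aroots_of_monic (minpoly.monic hi) 0
  have k := h.prod ha' (B (algebraMap K L a) y) (((minpoly K y).aroots L).map (0 - ·)) fun z hz => by
    obtain ⟨r, hr, rfl⟩ := Multiset.mem_map.1 hz
    obtain ⟨σ, rfl⟩ := minpoly.exists_algEquiv_of_root' hal (mem_aroots.1 hr).2
    have h1 : σ y ≠ 0 := (_root_.map_ne_zero _).2 hy
    refine ⟨by rw [zero_sub]; exact neg_ne_zero.2 h1, ?_⟩
    rw [zero_sub, h.neg ha' h1, ← hσ σ _ _ ha' hy, σ.commutes]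
  have e0 : aeval (0 : L) (minpoly K y) = algebraMap K L ((minpoly K y).coeff 0) :=
    (coeff_zero_eq_aeval_zero' _).symm
  have hc : Multiset.card (((minpoly K y).aroots L).map (0 - ·)) ≠ 0 := by
    rw [Multiset.card_map, aroots, ← hs.natDegree_eq_card_roots, natDegree_map]
    exact (minpoly.natDegree_pos hi).ne'
  have k2 := k.2
  rw [← e, e0, h0 _ _ ha (minpoly.coeff_zero_ne_zero hi hy)] at k2
  exact (mul_eq_zero.1 k2.symm).resolve_left (Nat.cast_ne_zero.2 hc)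

theorem lin_lin (h : Sy B)
    (hp : ∀ (a : K) (y : L), a ≠ 0 → y ≠ 0 → B (algebraMap K L a) y = 0) (θ : L) (a a' : K)
    (hx0 : θ - algebraMap K L a ≠ 0) (hy0 : θ - algebraMap K L a' ≠ 0) :
    B (θ - algebraMap K L a) (θ - algebraMap K L a') = 0 := by
  by_cases haa : a = a'
  · rw [← haa, h.self hx0]
  have hc : a' - a ≠ 0 := sub_ne_zero.2 (Ne.symm haa)
  have hc' : a - a' ≠ 0 := sub_ne_zero.2 haa
  have hj : algebraMap K L (a' - a) ≠ 0 := (_root_.map_ne_zero _).2 hc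
  have hj' : algebraMap K L (a - a') ≠ 0 := (_root_.map_ne_zero _).2 hc'
  obtain ⟨u, hu⟩ : ∃ u, θ - algebraMap K L a = u * algebraMap K L (a' - a) :=
    ⟨_ / _, (div_mul_cancel₀ _ hj).symm⟩
  have hv : θ - algebraMap K L a' = (1 - u) * algebraMap K L (a - a') := by
    rw [map_sub] at hu ⊢
    linear_combination hu
  have hu0 : u ≠ 0 := left_ne_zero_of_mul (hu ▸ hx0)
  have hv0 : 1 - u ≠ 0 := left_ne_zero_of_mul (hv ▸ hy0)
  rw [hu, h.mul _ _ _ hu0 hj hy0, hp _ _ hc hy0, hv, h.mul' hu0 hv0 hj', h.st _ hu0 hv0,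
    h.symm _ _ hj' hu0, hp _ _ hc' hu0]
  simp

/-- a value of a polynomial whose roots are rational -/
theorem ev_zero [IsAlgClosed L] (h : Sy B)
    (hp : ∀ (a : K) (y : L), a ≠ 0 → y ≠ 0 → B (algebraMap K L a) y = 0) (θ x : L) (hx : x ≠ 0)
    (hθ : ∀ a : K, θ - algebraMap K L a ≠ 0)
    (hl : ∀ a : K, B x (θ - algebraMap K L a) = 0) (P : K[X]) (hP : P ≠ 0)
    (hr : ∀ r ∈ P.aroots L, ∃ a : K, algebraMap K L a = r) : B x (aeval θ P) = 0 := by
  have hs : (P.map (algebraMap K L)).Splits := IsAlgClosed.splits _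
  have hc : P.leadingCoeff ≠ 0 := leadingCoeff_ne_zero.2 hP
  have hc' : algebraMap K L P.leadingCoeff ≠ 0 := (_root_.map_ne_zero _).2 hc
  have k := h.prod hx 0 ((P.aroots L).map (θ - ·)) fun z hz => by
    obtain ⟨r, hr', rfl⟩ := Multiset.mem_map.1 hz
    obtain ⟨a, rfl⟩ := hr r hr'
    exact ⟨hθ a, hl a⟩
  rw [hs.aeval_eq_prod_aroots, h.mul' hx hc' k.1, k.2, h.symm _ _ hc' hx, hp _ _ hc hx]
  simp

/-- adjoining an element of least degree -/
theorem step [IsAlgClosed L] [Normal K L] (h : Sy B)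
    (hσ : ∀ (σ : L ≃ₐ[K] L) (a b : L), a ≠ 0 → b ≠ 0 → B (σ a) (σ b) = B a b)
    (h0 : ∀ a b : K, a ≠ 0 → b ≠ 0 → B (algebraMap K L a) (algebraMap K L b) = 0)
    (hne : ∃ y : L, ∀ a : K, algebraMap K L a ≠ y) :
    ∃ θ : L, (∀ a : K, algebraMap K L a ≠ θ) ∧
      ∀ x ∈ K⟮θ⟯, ∀ y ∈ K⟮θ⟯, x ≠ 0 → y ≠ 0 → B x y = 0 := by
  have hp := proj h hσ h0
  obtain ⟨θ, hθ, hmin⟩ := (InvImage.wf (fun y : L => (minpoly K y).natDegree) wellFounded_lt).has_min
    {y : L | ∀ a : K, algebraMap K L a ≠ y} hne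
  have hθ' : ∀ a : K, θ - algebraMap K L a ≠ 0 := fun a => sub_ne_zero.2 (hθ a).symm
  have hal : IsAlgebraic K θ := Algebra.IsAlgebraic.isAlgebraic θ
  have key : ∀ x ∈ K⟮θ⟯, x ≠ 0 → ∃ P : K[X], P ≠ 0 ∧ x = aeval θ P ∧
      ∀ r ∈ P.aroots L, ∃ a : K, algebraMap K L a = r := fun x hx hx0 => by
    rw [← IntermediateField.mem_toSubalgebra,
      IntermediateField.adjoin_simple_toSubalgebra_of_isAlgebraic hal,
      Algebra.adjoin_singleton_eq_range_aeval] at hx
    obtain ⟨Q, hQ⟩ := hx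
    have e : aeval θ (Q %ₘ minpoly K θ) = x := (minpoly.aeval_modByMonic_minpoly Q θ).trans hQ
    have hP : Q %ₘ minpoly K θ ≠ 0 := fun h' => hx0 (by rw [← e, h', map_zero])
    refine ⟨_, hP, e.symm, fun r hr => ?_⟩
    by_contra hn
    refine hmin r (fun a ha => hn ⟨a, ha⟩) ?_
    have h1 := natDegree_le_of_dvd (minpoly.dvd K r (mem_aroots.1 hr).2) hP
    have h2 := natDegree_lt_natDegree hP (degree_modByMonic_lt Q (minpoly.monic hal.isIntegral))
    exact lt_of_le_of_lt h1 h2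
  refine ⟨θ, hθ, fun x hx y hy hx0 hy0 => ?_⟩
  obtain ⟨P, hP, rfl, hPr⟩ := key x hx hx0
  obtain ⟨Q, hQ, rfl, hQr⟩ := key y hy hy0
  refine ev_zero h hp θ _ hx0 hθ' (fun a => ?_) Q hQ hQr
  rw [h.symm _ _ (hθ' a) hx0,
    ev_zero h hp θ _ (hθ' a) hθ' (fun a' => lin_lin h hp θ a a' (hθ' a) (hθ' a')) P hP hPr, neg_zero]

/-- an invariant symbol on the algebraic closure that vanishes on the ground field is zero -/
theorem main [IsAlgClosed L] [Normal K L] (h : Sy B)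
    (hσ : ∀ (σ : L ≃ₐ[K] L) (a b : L), a ≠ 0 → b ≠ 0 → B (σ a) (σ b) = B a b)
    (h0 : ∀ a b : K, a ≠ 0 → b ≠ 0 → B (algebraMap K L a) (algebraMap K L b) = 0)
    (x y : L) (hx : x ≠ 0) (hy : y ≠ 0) : B x y = 0 := by
  obtain ⟨E, -, hE⟩ := zorn_le_nonempty₀
    {E : IntermediateField K L | ∀ x ∈ E, ∀ y ∈ E, x ≠ 0 → y ≠ 0 → B x y = 0}
    (fun c hc hch E0 hE0 => by
      have : Nonempty c := ⟨⟨E0, hE0⟩⟩
      have hd : Directed (· ≤ ·) fun E : c => (E : IntermediateField K L) :=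
        directedOn_iff_directed.1 hch.directedOn
      refine ⟨⨆ E : c, (E : IntermediateField K L), fun x hx y hy => ?_,
        fun z hz => le_iSup (fun E : c => (E : IntermediateField K L)) ⟨z, hz⟩⟩
      rw [← SetLike.mem_coe, IntermediateField.coe_iSup_of_directed hd, Set.mem_iUnion] at hx hy
      obtain ⟨i, hi⟩ := hx
      obtain ⟨j, hj⟩ := hy
      obtain ⟨k, hik, hjk⟩ := hd i j
      exact hc k.2 x (hik hi) y (hjk hj))
    ⊥ (fun x hx y hy hx0 hy0 => by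
      obtain ⟨a, rfl⟩ := IntermediateField.mem_bot.1 hx
      obtain ⟨b, rfl⟩ := IntermediateField.mem_bot.1 hy
      exact h0 a b ((_root_.map_ne_zero _).1 hx0) ((_root_.map_ne_zero _).1 hy0))
  have hall : ∀ z : L, z ∈ E := fun z => by
    by_contra hz
    have : Normal E L := Normal.tower_top_of_normal K E L
    obtain ⟨θ, hθ, hB⟩ := step (K := E) h (fun σ => hσ (σ.restrictScalars K))
      (fun a b ha hb => hE.1 a a.2 b b.2 (fun h' => ha (Subtype.ext h')) fun h' => hb (Subtype.ext h'))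
      ⟨z, fun a ha => hz (ha ▸ a.2)⟩
    have hle : E ≤ (E⟮θ⟯).restrictScalars K := fun a ha => (E⟮θ⟯).algebraMap_mem ⟨a, ha⟩
    have := hE.2 (y := (E⟮θ⟯).restrictScalars K) hB hle (IntermediateField.mem_adjoin_simple_self E θ)
    exact hθ ⟨θ, this⟩ rfl
  exact hE.1 x (hall x) y (hall y) hx hy

theorem fin_pair [Algebra.IsAlgebraic K L] (s : Set L) (hs : s.Finite) :
    FiniteDimensional K (IntermediateField.adjoin K s) :=
  have := hs.to_subtype
  IntermediateField.finiteDimensional_adjoin fun x _ =>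
    (Algebra.IsAlgebraic.isAlgebraic x).isIntegral

end PTrf

theorem p_trf : S_Trf := by
  intro F _ _ β h1 h2 h3
  let L := AlgebraicClosure F
  let B : L → L → ℝ := fun a b => β (IntermediateField.adjoin F {a, b})
    ⟨a, IntermediateField.subset_adjoin F _ (by simp)⟩
    ⟨b, IntermediateField.subset_adjoin F _ (by simp)⟩
  have glue : ∀ (M : Type) [Field M] [Algebra F M] [FiniteDimensional F M] (φ : M →ₐ[F] L)
      (a b : M), a ≠ 0 → b ≠ 0 → B (φ a) (φ b) = β M a b := fun M _ _ _ φ a b ha hb => by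
    have : FiniteDimensional F φ.fieldRange := φ.equivFieldRange.toLinearEquiv.finiteDimensional
    have := PTrf.fin_pair (K := F) {φ a, φ b} (Set.toFinite _)
    have hle : IntermediateField.adjoin F {φ a, φ b} ≤ φ.fieldRange :=
      IntermediateField.adjoin_le_iff.2 (by
        rintro x (rfl | rfl)
        · exact ⟨a, rfl⟩
        · exact ⟨b, rfl⟩)
    rw [← h2 M φ.fieldRange φ.equivFieldRange.toAlgHom a b ha hb]
    exact (h2 _ φ.fieldRange (IntermediateField.inclusion hle) _ _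
      (fun h' => (_root_.map_ne_zero φ).2 ha (congrArg Subtype.val h'))
      (fun h' => (_root_.map_ne_zero φ).2 hb (congrArg Subtype.val h'))).symm
  have sub : ∀ (s : Set L), s.Finite → ∃ (M : Type) (_ : Field M) (_ : Algebra F M)
      (_ : FiniteDimensional F M) (φ : M →ₐ[F] L), ∀ x ∈ s, ∃ a, φ a = x := fun s hs =>
    ⟨IntermediateField.adjoin F s, inferInstance, inferInstance, PTrf.fin_pair s hs,
      IntermediateField.val _, fun x hx => ⟨⟨x, IntermediateField.subset_adjoin F s hx⟩, rfl⟩⟩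
  have hS : PTrf.Sy B := by
    refine ⟨fun a a' b ha ha' hb => ?_, fun a b ha hb => ?_, fun a ha hb => ?_⟩
    · obtain ⟨M, _, _, _, φ, hφ⟩ := sub {a, a', b} (Set.toFinite _)
      obtain ⟨a, rfl⟩ := hφ a (by simp)
      obtain ⟨a', rfl⟩ := hφ a' (by simp)
      obtain ⟨b, rfl⟩ := hφ b (by simp)
      rw [_root_.map_ne_zero] at ha ha' hb
      rw [← map_mul, glue M φ _ _ (mul_ne_zero ha ha') hb, glue M φ _ _ ha hb, glue M φ _ _ ha' hb]
      exact (h1 M).1 _ _ _ ha ha' hb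
    · obtain ⟨M, _, _, _, φ, hφ⟩ := sub {a, b} (Set.toFinite _)
      obtain ⟨a, rfl⟩ := hφ a (by simp)
      obtain ⟨b, rfl⟩ := hφ b (by simp)
      rw [_root_.map_ne_zero] at ha hb
      rw [glue M φ _ _ hb ha, glue M φ _ _ ha hb]
      exact (h1 M).2.1 _ _ ha hb
    · obtain ⟨M, _, _, _, φ, hφ⟩ := sub {a} (Set.toFinite _)
      obtain ⟨a, rfl⟩ := hφ a (by simp)
      have e : 1 - φ a = φ (1 - a) := by rw [map_sub, map_one]
      rw [e] at hb ⊢
      rw [_root_.map_ne_zero] at ha hb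
      rw [glue M φ _ _ ha hb]
      exact (h1 M).2.2 _ ha hb
  have hσ : ∀ (σ : L ≃ₐ[F] L) (a b : L), a ≠ 0 → b ≠ 0 → B (σ a) (σ b) = B a b := by
    intro σ a b ha hb
    obtain ⟨M, _, _, _, φ, hφ⟩ := sub {a, b} (Set.toFinite _)
    obtain ⟨a, rfl⟩ := hφ a (by simp)
    obtain ⟨b, rfl⟩ := hφ b (by simp)
    rw [_root_.map_ne_zero] at ha hb
    rw [glue M φ _ _ ha hb]
    exact glue M (σ.toAlgHom.comp φ) _ _ ha hb
  have h0 : ∀ a b : F, a ≠ 0 → b ≠ 0 → B (algebraMap F L a) (algebraMap F L b) = 0 :=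
    fun a b ha hb => (glue F (Algebra.ofId F L) a b ha hb).trans (h3 a b ha hb)
  intro M _ _ _ a b ha hb
  let φ : M →ₐ[F] L := IsAlgClosed.lift
  rw [← glue M φ a b ha hb]
  exact PTrf.main hS hσ h0 _ _ ((_root_.map_ne_zero _).2 ha) ((_root_.map_ne_zero _).2 hb)

end Pool.Agent.P.MP_b8021b_nt.KR
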