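import Pool.Agent.P.MP_b8021b_nt.KR.St
import Pool.Agent.P.MP_b8021b_nt.VE.BasicS
import Pool.Agent.P.MP_b8021b_nt.VC.StS

/-! A function is unramified at almost all points. -/

namespace Pool.Agent.P.MP_b8021b_nt.KR

open Polynomial Finset Pool.Agent.P.MP_b8021b_nt.VE Pool.Agent.P.MP_b8021b_nt.VC
open scoped Classical IntermediateField

namespace PUnr

variable {K : Type} [Field K] [Algebra ℚ K]

theorem val_aeval {p : GPt K} {z : K} {a : Qb} (h : p.Val z a) (r : ℚ[X]) :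
    p.Val (aeval z r) (aeval a r) := by
  rw [aeval_def, aeval_def]
  exact p.val_eval₂ p.val_rat h r

theorem aeval_ne {z : K} (hz : Transcendental ℚ z) {r : ℚ[X]} (hr : r ≠ 0) : aeval z r ≠ 0 :=
  fun h => hz ⟨r, hr, h⟩

theorem ord_poly {p : GPt K} {z : K} {a : Qb} (hz : Transcendental ℚ z) (h : p.Val z a)
    {r : ℚ[X]} (hr : r ≠ 0) :
    ∃ k : ℕ, p.ord (aeval z r) = k * p.ord (aeval z (minpoly ℚ a)) := by
  have ha : IsIntegral ℚ a := ((AlgebraicClosure.isAlgebraic ℚ).isAlgebraic a).isIntegral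
  obtain ⟨k, r', h1, h2⟩ := WfDvdMonoid.max_power_factor' hr (minpoly.not_isUnit ℚ a)
  have h3 : aeval a r' ≠ 0 := fun e => h1 (minpoly.dvd ℚ a e)
  have h4 := val_aeval h r'
  refine ⟨k, ?_⟩
  rw [h2, map_mul, map_pow, p.ord_mul (pow_ne_zero _ (aeval_ne hz (minpoly.ne_zero ha)))
    (h4.ne_zero h3), p.ord_pow, h4.ord_eq_zero h3, add_zero]

theorem ord_min {p : GPt K} {z : K} {a : Qb} (hz : Transcendental ℚ z)
    (hK : ∀ c : K, ∃ r s : ℚ[X], s ≠ 0 ∧ c = aeval z r / aeval z s) (h : p.Val z a) :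
    p.ord (aeval z (minpoly ℚ a)) = 1 := by
  have ha : IsIntegral ℚ a := ((AlgebraicClosure.isAlgebraic ℚ).isAlgebraic a).isIntegral
  have h0 : 0 < p.ord (aeval z (minpoly ℚ a)) := by
    have h1 := val_aeval h (minpoly ℚ a)
    rw [minpoly.aeval] at h1
    exact h1.ord_pos (aeval_ne hz (minpoly.ne_zero ha))
  obtain ⟨c, hc⟩ := p.surj (WithZero.exp (-1))
  have hc1 : p.ord c = 1 := by
    rw [GPt.ord, hc, WithZero.log_exp, neg_neg]
  obtain ⟨r, s, hs, rfl⟩ := hK c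
  have hr : r ≠ 0 := by
    rintro rfl
    rw [map_zero, zero_div, p.ord_zero] at hc1
    exact zero_ne_one hc1
  obtain ⟨k, hk⟩ := ord_poly hz h hr
  obtain ⟨l, hl⟩ := ord_poly hz h hs
  rw [p.ord_div (aeval_ne hz hr) (aeval_ne hz hs), hk, hl, ← sub_mul] at hc1
  exact Int.eq_one_of_mul_eq_one_left h0.le hc1

theorem den {z : K} (hK : ∀ c : K, ∃ r s : ℚ[X], s ≠ 0 ∧ c = aeval z r / aeval z s) (A : K[X]) :
    ∃ s : ℚ[X], s ≠ 0 ∧ ∀ (p : GPt K) (a : Qb), p.Val z a → aeval a s ≠ 0 →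
      ∃ B : (p.v.valuationSubring)[X], B.map (algebraMap _ K) = A := by
  choose r s hs e using hK
  refine ⟨∏ l ∈ A.support, s (A.coeff l), prod_ne_zero_iff.2 fun l _ => hs _, ?_⟩
  intro p a h h1
  rw [map_prod, prod_ne_zero_iff] at h1
  rw [← mem_lifts, lifts_iff_coeff_lifts]
  intro l
  by_cases hl : l ∈ A.support
  · have h2 := (val_aeval h (r (A.coeff l))).div (val_aeval h (s (A.coeff l))) (h1 l hl)
    rw [← e] at h2
    exact ⟨⟨_, h2.mem⟩, rfl⟩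
  · rw [notMem_support_iff.1 hl]
    exact ⟨0, map_zero _⟩

theorem sep {z : K} (hK : ∀ c : K, ∃ r s : ℚ[X], s ≠ 0 ∧ c = aeval z r / aeval z s) {P : K[X]}
    (hP : P.Separable) : ∃ s : ℚ[X], s ≠ 0 ∧ ∀ (p : GPt K) (a : Qb), p.Val z a → aeval a s ≠ 0 →
      ∃ Pb : Qb[X], Red p P Pb ∧ Pb.Separable := by
  obtain ⟨A, B, hAB⟩ := hP
  obtain ⟨s₁, h₁, k₁⟩ := den hK P
  obtain ⟨s₂, h₂, k₂⟩ := den hK A
  obtain ⟨s₃, h₃, k₃⟩ := den hK B
  refine ⟨s₁ * s₂ * s₃, mul_ne_zero (mul_ne_zero h₁ h₂) h₃, fun p a h h1 => ?_⟩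
  rw [map_mul, map_mul, mul_ne_zero_iff, mul_ne_zero_iff] at h1
  obtain ⟨P', rfl⟩ := k₁ p a h h1.1.1
  obtain ⟨A', rfl⟩ := k₂ p a h h1.1.2
  obtain ⟨B', rfl⟩ := k₃ p a h h1.2
  have hinj : Function.Injective (algebraMap p.v.valuationSubring K) := Subtype.val_injective
  have h2 : P'.Separable := by
    refine ⟨A', B', map_injective _ hinj ?_⟩
    rw [Polynomial.map_add, Polynomial.map_mul, Polynomial.map_mul, ← derivative_map, hAB,
      Polynomial.map_one]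
  refine ⟨P'.map p.ρ, fun l => ?_, h2.map⟩
  rw [coeff_map, coeff_map]
  exact ⟨(P'.coeff l).2, rfl⟩

end PUnr

open PUnr in
theorem p_unr (hCrv : VC.S_Crv) (hRes : VC.S_Res) (hSplit : VC.S_Split) : S_Unr := by
  intro F _ _ hF z hz
  have hfin : FiniteDimensional ℚ⟮z⟯ F := (hCrv.2.1 ℚ F z hz).1 hF
  have hK0 : IsCurve ℚ⟮z⟯ := (hCrv.1 ℚ⟮z⟯ F).2 hF
  obtain ⟨θ, hθ⟩ := Field.exists_primitive_element ℚ⟮z⟯ F
  have hint : IsIntegral ℚ⟮z⟯ θ := IsIntegral.of_finite _ θ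
  set z₀ : ℚ⟮z⟯ := IntermediateField.AdjoinSimple.gen ℚ z with hz₀
  have hj : algebraMap ℚ⟮z⟯ F z₀ = z := IntermediateField.AdjoinSimple.algebraMap_gen ℚ z
  have hinj := (algebraMap ℚ⟮z⟯ F).injective
  have hae : ∀ r : ℚ[X], algebraMap ℚ⟮z⟯ F (aeval z₀ r) = aeval z r := fun r => by
    rw [← aeval_algebraMap_apply, hj]
  have hz0 : Transcendental ℚ z₀ := fun ⟨r, hr, e⟩ => hz ⟨r, hr, by rw [← hae, e, map_zero]⟩
  have hK : ∀ c : ℚ⟮z⟯, ∃ r s : ℚ[X], s ≠ 0 ∧ c = aeval z₀ r / aeval z₀ s := by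
    intro c
    obtain ⟨r, s, e⟩ := (IntermediateField.mem_adjoin_simple_iff ℚ (c : F)).1 c.2
    rcases eq_or_ne s 0 with rfl | hs
    · refine ⟨0, 1, one_ne_zero, hinj ?_⟩
      rw [map_div₀, hae, hae, map_zero, zero_div]
      rw [map_zero, div_zero] at e
      exact e
    · refine ⟨r, s, hs, hinj ?_⟩
      rw [map_div₀, hae, hae]
      exact e
  obtain ⟨q, hq, hsep⟩ := sep hK (Algebra.IsSeparable.isSeparable ℚ⟮z⟯ θ)
  obtain ⟨res, e, h1, h2, -⟩ := hRes ℚ⟮z⟯ F hK0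
  refine ⟨q, hq, fun p a hp ha => ?_⟩
  have hle : Le (algebraMap ℚ⟮z⟯ F) p (res p) := (h1 p _).2 rfl
  have hp0 : (res p).Val z₀ a := by
    have h3 : 0 ≤ (res p).ord z₀ := by
      have h4 := p.ord_nonneg hp.mem
      have h5 := (h2 p).2 z₀
      rw [hj] at h5
      rw [h5] at h4
      have h6 : (0 : ℤ) < e p := by exact_mod_cast (h2 p).1
      exact nonneg_of_mul_nonneg_right h4 h6
    have h7 : z₀ ≠ 0 := fun h => hz0 (h ▸ isAlgebraic_zero)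
    obtain ⟨c, hc⟩ := (res p).exists_val (((res p).ord_nonneg_iff h7).1 h3)
    have h8 := hle _ _ hc
    rw [hj] at h8
    rwa [hp.unique h8]
  obtain ⟨Pb, hred, hPb⟩ := hsep (res p) a hp0 ha
  have hdeg : (minpoly ℚ⟮z⟯ θ).natDegree = Module.finrank ℚ⟮z⟯ F := by
    rw [← IntermediateField.adjoin.finrank hint, hθ, IntermediateField.finrank_top']
  have h9 := ((hSplit ℚ⟮z⟯ F hK0 θ _ (res p) Pb (minpoly.monic hint) hdeg (minpoly.aeval _ _) hθ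
    hred hPb).2 p hle).2 (aeval z₀ (minpoly ℚ a))
  rw [hae] at h9
  rw [h9]
  exact ord_min hz0 hK hp0

end Pool.Agent.P.MP_b8021b_nt.KR
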