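import Pool.Agent.P.MP_b8021b_nt.KR.Basic
import Pool.Agent.P.MP_b8021b_nt.KR.BasicP
import Pool.Agent.P.MP_b8021b_nt.VC.PTrans

/-! Pull-back of the relation between the regulator and the tame symbols. -/

namespace Pool.Agent.P.MP_b8021b_nt.KR

open Finset Pool.Agent.P.MP_b8021b_nt.VE Pool.Agent.P.MP_b8021b_nt.VC
open scoped Classical

namespace PUp

noncomputable section

/-- sums over the embeddings of a tower -/
theorem sum_emb (F M N K : Type) [Field F] [CharZero F] [Field M] [Field N] [Field K]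
    [IsAlgClosed K] [Algebra F M] [Algebra F N] [Algebra M N] [IsScalarTower F M N] [Algebra F K]
    [FiniteDimensional F M] [FiniteDimensional F N] (G : (M →ₐ[F] K) → ℝ) :
    ∑ τ : N →ₐ[F] K, G (τ.comp (IsScalarTower.toAlgHom F M N)) =
      Module.finrank M N * ∑ σ : M →ₐ[F] K, G σ := by
  have : FiniteDimensional M N := FiniteDimensional.right F M N
  have : CharZero M := charZero_of_injective_algebraMap (algebraMap F M).injective
  rw [Fintype.sum_equiv (algHomEquivSigma (B := M)) (fun τ : N →ₐ[F] K => _) fun σ => G σ.1,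
    ← Finset.univ_sigma_univ, Finset.sum_sigma, mul_sum]
  · refine Finset.sum_congr rfl fun σ _ => ?_
    let : Algebra M K := σ.toRingHom.toAlgebra
    simp_rw [Finset.sum_const, Finset.card_univ, ← AlgHom.card M N K, nsmul_eq_mul]
  · intro σ
    rfl

variable {F : Type} [Field F]

/-- the pulled-back functional -/
def lM (l : GPt F → Qb → ℝ) (M : Type) [Field M] [Algebra F M] (q : GPt M) : Qb → ℝ :=
  if h : ∃ p, Le (algebraMap F M) q p then l h.choose else 0

/-- the lifted chain -/
def cM (c : Path F →₀ ℝ) (M : Type) [Field M] [Algebra F M] : Path M →₀ ℝ :=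
  if h : ∃ c', IsLift (algebraMap F M) c c' then h.choose else 0

/-- the vertical part -/
def vM {I : Type} [Fintype I] (W : I → VS (AlgebraicClosure F)) (M : Type) [Field M] [Algebra F M]
    (a b : M) : ℝ :=
  ∑ i, ∑ᶠ σ : M →ₐ[F] AlgebraicClosure F, (W i).T (σ a) (σ b)

theorem lM_eq (h3 : VC.S_Res) (hF : PTrans.Crv F) (l : GPt F → Qb → ℝ) {M : Type} [Field M]
    [Algebra F M] [FiniteDimensional F M] {res : GPt M → GPt F} (hr : PTrans.Rs F M res) :
    lM l M = fun q => l (res q) := by
  funext q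
  have h : ∃ p, Le (algebraMap F M) q p := ⟨_, hr q⟩
  obtain ⟨e, hu, -⟩ := hr.spec h3 hF
  rw [lM, dif_pos h, hu q _ h.choose_spec]

theorem cM_eq {c : Path F →₀ ℝ} {M : Type} [Field M] [Algebra F M] {c' : Path M →₀ ℝ}
    (h : IsLift (algebraMap F M) c c') : cM c M = c' := by
  have h' : ∃ c', IsLift (algebraMap F M) c c' := ⟨_, h⟩
  rw [cM, dif_pos h']
  exact h'.choose_spec.unique h

theorem vM_eq {I : Type} [Fintype I] (W : I → VS (AlgebraicClosure F)) (M : Type) [Field M]
    [Algebra F M] [FiniteDimensional F M] (a b : M) :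
    vM W M a b = ∑ i, ∑ σ : M →ₐ[F] AlgebraicClosure F, (W i).T (σ a) (σ b) := by
  simp only [vM, finsum_eq_sum_of_fintype]

/-- the family of symbols -/
def bet (l : GPt F → Qb → ℝ) (c : Path F →₀ ℝ) {I : Type} [Fintype I]
    (W : I → VS (AlgebraicClosure F)) (M : Type) [Field M] [Algebra F M] (a b : M) : ℝ :=
  (PTrans.B (lM l M) a b - regC (cM c M) a b - vM W M a b) / Module.finrank F M

end

end PUp

open PUp in
theorem p_up (hSt : S_St) (hL : S_LiftC) (hT : S_Trf) (hV : S_VSx) (h1 : VC.S_Crv) (h2 : VC.S_Fin) (h3 : VC.S_Res) : S_Up := by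
  intro F M _ _ _ _ _ hF r res l c c' hr hc hl hR
  have hC : PTrans.Crv F := ⟨inferInstance, hF⟩
  obtain ⟨hA, I, _, V, hq, hV'⟩ := hR
  choose W hW using fun i => hV F (AlgebraicClosure F) (V i)
  have key := hT F (bet l c W) ?_ ?_ ?_ M
  · refine ⟨hA.res res, I × (M →ₐ[F] AlgebraicClosure F), inferInstance,
      fun x => (W x.1).comap (x.2 : M →+* AlgebraicClosure F), fun x => ?_, fun f g hf hg => ?_⟩
    · obtain ⟨q, a, b, d⟩ := hq x.1
      refine ⟨q, a, b, ?_⟩
      have := (hW x.1 q (Nat.cast_ne_zero.2 a.ne_zero)).1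
      rw [map_natCast] at this
      change 0 < (W x.1).o ((x.2 : M →+* AlgebraicClosure F) q)
      rwa [map_natCast, this]
    · have := key f g hf hg
      rw [bet, div_eq_zero_iff, lM_eq h3 hC l hr, cM_eq hl, vM_eq] at this
      have := this.resolve_right (Nat.cast_ne_zero.2 Module.finrank_pos.ne')
      rw [Fintype.sum_prod_type]
      exact sub_eq_zero.1 this
  · intro N _ _ _
    have hN := hC.ext h1 N
    have hO := hN.fo h2
    obtain ⟨s, hs⟩ := hC.res h3 N
    obtain ⟨⟨d, hd⟩, hd'⟩ := hL F N c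
    have hB : PTrans.Ad fun q => l (s q) := hA.res s
    obtain ⟨k1, k2, k3⟩ := hSt N d
    refine ⟨fun a a' b ha ha' hb => ?_, fun a b ha hb => ?_, fun a ha hb => ?_⟩
    · simp only [bet, lM_eq h3 hC l hs, cM_eq hd, vM_eq]
      rw [← add_div, k1 a a' b ha ha' hb, PTrans.B_symm hB hb (mul_ne_zero ha ha'),
        PTrans.B_mul hO hB hb ha ha', PTrans.B_symm hB hb ha, PTrans.B_symm hB hb ha']
      have e : ∀ i (σ : N →ₐ[F] AlgebraicClosure F), (W i).T (σ (a * a')) (σ b) =
          (W i).T (σ a) (σ b) + (W i).T (σ a') (σ b) := fun i σ => by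
        rw [map_mul, VS.T_mul _ (by simpa) (by simpa)]
      simp only [e, sum_add_distrib]
      ring
    · simp only [bet, lM_eq h3 hC l hs, cM_eq hd, vM_eq]
      rw [k2 a b, PTrans.B_symm hB ha hb]
      have e : ∀ i (σ : N →ₐ[F] AlgebraicClosure F), (W i).T (σ b) (σ a) =
          -(W i).T (σ a) (σ b) := fun i σ => VS.T_symm _ _ _
      simp only [e, sum_neg_distrib]
      ring
    · simp only [bet, lM_eq h3 hC l hs, cM_eq hd, vM_eq]
      rw [(k3 ((hd' d hd).1 hc)).1 a ha hb, PTrans.B_st hB ha hb]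
      have e : ∀ i (σ : N →ₐ[F] AlgebraicClosure F), (W i).T (σ a) (σ (1 - a)) = 0 := fun i σ => by
        have hb' : σ (1 - a) ≠ 0 := by simpa only [ne_eq, map_eq_zero] using hb
        rw [map_sub, map_one] at hb' ⊢
        exact VS.T_st _ (by simpa) hb'
      simp only [e, sum_const_zero, sub_self, zero_div]
  · intro N N' _ _ _ _ _ _ σ a b ha hb
    let : Algebra N N' := σ.toRingHom.toAlgebra
    have : IsScalarTower F N N' := IsScalarTower.of_algebraMap_eq fun x => (σ.commutes x).symm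
    have : FiniteDimensional N N' := FiniteDimensional.right F N N'
    have : CharZero N := charZero_of_injective_algebraMap (algebraMap F N).injective
    have hN := hC.ext h1 N
    obtain ⟨s, hs⟩ := hC.res h3 N
    obtain ⟨s', hs'⟩ := hN.res h3 N'
    obtain ⟨⟨d, hd⟩, -⟩ := hL F N c
    obtain ⟨⟨d', hd'⟩, hd''⟩ := hL N N' d
    have hdd : IsLift (algebraMap F N') c d' := by
      rw [IsScalarTower.algebraMap_eq F N N']
      exact hd.comp hd'
    have e1 := PTrans.B_pull h2 h3 hN hs' (hA.res s) ha hb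
    have e2 := (hd'' d' hd').2.2 a b
    have e3 := fun i => sum_emb F N N' (AlgebraicClosure F) fun τ => (W i).T (τ a) (τ b)
    have e4 : (Module.finrank F N' : ℝ) = Module.finrank F N * Module.finrank N N' := by
      rw [← Nat.cast_mul, Module.finrank_mul_finrank]
    have e5 : (Module.finrank N N' : ℝ) ≠ 0 := Nat.cast_ne_zero.2 Module.finrank_pos.ne'
    simp only [bet, lM_eq h3 hC l hs, lM_eq h3 hC l (hs.comp hs'), cM_eq hd, cM_eq hdd, vM_eq]
    change (PTrans.B _ (algebraMap N N' a) (algebraMap N N' b) -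
      regC d' (algebraMap N N' a) (algebraMap N N' b) - ∑ i, ∑ τ : N' →ₐ[F] AlgebraicClosure F,
        (W i).T ((τ.comp (IsScalarTower.toAlgHom F N N')) a)
          ((τ.comp (IsScalarTower.toAlgHom F N N')) b)) / _ = _
    rw [e1, e2, sum_congr rfl fun i _ => e3 i, ← mul_sum, e4, ← mul_sub, ← mul_sub,
      mul_comm (Module.finrank F N : ℝ), mul_div_mul_left _ _ e5]
  · intro a b ha hb
    have hs : PTrans.Rs F F id := fun _ _ _ h => h
    have hd : IsLift (algebraMap F F) c c := IsLift.id c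
    have e : ∀ i, ∑ σ : F →ₐ[F] AlgebraicClosure F, (W i).T (σ a) (σ b) = (V i).T a b := fun i => by
      rw [Fintype.sum_subsingleton _ (Algebra.ofId F (AlgebraicClosure F)), Algebra.ofId_apply,
        Algebra.ofId_apply, VS.T, VS.T, (hW i a ha).1, (hW i a ha).2, (hW i b hb).1, (hW i b hb).2]
    rw [bet, lM_eq h3 hC l hs, cM_eq hd, vM_eq, sum_congr rfl fun i _ => e i, ← hV' a b ha hb]
    simp

end Pool.Agent.P.MP_b8021b_nt.KR
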