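import Pool.Agent.P.MP_b8021b_nt.KR.Basic

/-! A vertical symbol extends to an algebraic extension of the field. -/

namespace Pool.Agent.P.MP_b8021b_nt.KR

open Polynomial Finset
open scoped Classical

noncomputable section

namespace PVSx

theorem ext0 {G H : Type} [AddCommGroup G] [AddCommGroup H] (f : G →+ H) (φ : G →+ ℝ)
    (h : ∀ g, f g = 0 → φ g = 0) : ∃ ψ : H →+ ℝ, ∀ g, ψ (f g) = φ g := by
  obtain ⟨ψ, hψ⟩ := (Module.Baer.of_divisible ℝ).extension_property_addMonoidHom
    (QuotientAddGroup.kerLift f) (QuotientAddGroup.kerLift_injective f)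
    (QuotientAddGroup.lift f.ker φ fun g hg => h g hg)
  exact ⟨ψ, fun g => DFunLike.congr_fun hψ (QuotientAddGroup.mk g)⟩

variable {F M : Type} [Field F] [Field M]

theorem ext1 (j : F →+* M) (N : Subgroup Mˣ) (φ : F → ℝ)
    (hφ : ∀ a b, a ≠ 0 → b ≠ 0 → φ (a * b) = φ a + φ b)
    (h : ∀ a : Fˣ, Units.map (j : F →* M) a ∈ N → φ a = 0) :
    ∃ ψ : M → ℝ, (∀ a b, a ≠ 0 → b ≠ 0 → ψ (a * b) = ψ a + ψ b) ∧
      (∀ a, a ≠ 0 → ψ (j a) = φ a) ∧ ∀ u ∈ N, ψ u = 0 := by
  let φ' : Additive Fˣ →+ ℝ := AddMonoidHom.mk' (fun a => φ (Additive.toMul a : Fˣ)) fun a b => by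
    rw [toMul_add, Units.val_mul, hφ _ _ (Units.ne_zero _) (Units.ne_zero _)]
  let f : Fˣ →* Mˣ ⧸ N := (QuotientGroup.mk' N).comp (Units.map (j : F →* M))
  obtain ⟨ψ, hψ⟩ := ext0 (G := Additive Fˣ) (H := Additive (Mˣ ⧸ N)) (MonoidHom.toAdditive f) φ'
    fun g hg => h (Additive.toMul g) ((QuotientGroup.eq_one_iff _).1
      (show f (Additive.toMul g) = 1 from hg))
  refine ⟨fun x => if hx : x = 0 then 0 else
    ψ (Additive.ofMul (QuotientGroup.mk (Units.mk0 x hx))), fun a b ha hb => ?_, fun a ha => ?_,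
    fun u hu => ?_⟩
  · simp only [dif_neg ha, dif_neg hb, dif_neg (mul_ne_zero ha hb)]
    rw [← map_add, ← ofMul_mul, ← QuotientGroup.mk_mul, Units.mk0_mul]
  · have hj : j a ≠ 0 := (_root_.map_ne_zero j).2 ha
    simp only [dif_neg hj]
    have e : Units.mk0 (j a) hj = Units.map (j : F →* M) (Units.mk0 a ha) := Units.ext rfl
    rw [e]
    exact hψ (Additive.ofMul (Units.mk0 a ha))
  · simp only [dif_neg (Units.ne_zero u)]
    rw [Units.mk0_val, (QuotientGroup.eq_one_iff u).2 hu, ofMul_one, map_zero]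

/-- the valuation ring of a vertical symbol -/
def ring (V : VS F) : ValuationSubring F where
  carrier := {a | a ≠ 0 → 0 ≤ V.o a}
  mul_mem' {a b} ha hb h := by
    have h1 := left_ne_zero_of_mul h
    have h2 := right_ne_zero_of_mul h
    rw [V.o_mul _ _ h1 h2]
    exact add_nonneg (ha h1) (hb h2)
  one_mem' _ := V.o_one.ge
  add_mem' {a b} ha hb h := by
    rcases eq_or_ne a 0 with rfl | h1
    · rw [zero_add] at h ⊢; exact hb h
    rcases eq_or_ne b 0 with rfl | h2
    · rw [add_zero]; exact ha h1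
    exact (le_min (ha h1) (hb h2)).trans (V.o_add _ _ h1 h2 h)
  zero_mem' h := absurd rfl h
  neg_mem' {a} ha h := by
    have h1 := neg_ne_zero.1 h
    rw [V.o_neg h1]
    exact ha h1
  mem_or_inv_mem' a := by
    rcases eq_or_ne a 0 with rfl | h
    · exact Or.inl fun h => absurd rfl h
    rcases le_total 0 (V.o a) with h1 | h1
    · exact Or.inl fun _ => h1
    · exact Or.inr fun _ => by rw [V.o_inv h]; linarith

theorem dom (j : F →+* M) (V : VS F) : ∃ B : ValuationSubring M, ∀ a, a ≠ 0 →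
    (B.valuation (j a) ≤ 1 → 0 ≤ V.o a) ∧ (B.valuation (j a) < 1 → 0 < V.o a) := by
  obtain ⟨B, hB, hl⟩ := IsLocalRing.exists_factor_valuationRing (j.comp (ring V).subtype)
  have k1 : ∀ a, a ≠ 0 → 0 ≤ V.o a → B.valuation (j a) ≤ 1 := fun a _ h =>
    (B.valuation_le_one_iff _).2 (hB ⟨a, fun _ => h⟩)
  have k2 : ∀ a, a ≠ 0 → 0 < V.o a → B.valuation (j a) < 1 := fun a ha h => by
    refine (k1 a ha h.le).lt_of_ne fun e => ?_
    have u1 : IsUnit (⟨j a, hB ⟨a, fun _ => h.le⟩⟩ : B) := (B.valuation_eq_one_iff _).2 e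
    have u2 : IsUnit (⟨a, fun _ => h.le⟩ : ring V) := hl.map_nonunit _ u1
    obtain ⟨b, hb⟩ := u2.exists_right_inv
    have e1 : a * (b : F) = 1 := congrArg Subtype.val hb
    have hb0 : (b : F) ≠ 0 := right_ne_zero_of_mul_eq_one e1
    have e2 := V.o_mul a b ha hb0
    rw [e1, V.o_one] at e2
    linarith [b.2 hb0]
  refine ⟨B, fun a ha => ?_⟩
  have h0 : 0 < B.valuation (j a) := zero_lt_iff.2 (by simpa using ha)
  refine ⟨fun h => le_of_not_gt fun h1 => ?_, fun h => lt_of_not_ge fun h1 => ?_⟩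
  · have := k2 a⁻¹ (inv_ne_zero ha) (by rw [V.o_inv ha]; linarith)
    rw [map_inv₀, map_inv₀, inv_lt_one₀ h0] at this
    exact absurd h (not_le.2 this)
  · have := k1 a⁻¹ (inv_ne_zero ha) (by rw [V.o_inv ha]; linarith)
    rw [map_inv₀, map_inv₀, inv_le_one₀ h0] at this
    exact absurd h (not_lt.2 this)

theorem tors [Algebra F M] [Algebra.IsAlgebraic F M] (B : ValuationSubring M) {x : M}
    (hx : x ≠ 0) : ∃ (n : ℕ) (a : F), 0 < n ∧ a ≠ 0 ∧
      B.valuation (x ^ n) = B.valuation (algebraMap F M a) := by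
  obtain ⟨p, hp, h0⟩ := Algebra.IsAlgebraic.isAlgebraic (R := F) x
  rw [aeval_def, eval₂_eq_sum, Polynomial.sum_def] at h0
  have key : ∀ i k, i ∈ p.support → k ∈ p.support → i < k →
      B.valuation (algebraMap F M (p.coeff i) * x ^ i) =
        B.valuation (algebraMap F M (p.coeff k) * x ^ k) →
      ∃ (n : ℕ) (a : F), 0 < n ∧ a ≠ 0 ∧
        B.valuation (x ^ n) = B.valuation (algebraMap F M a) := fun i k hi hk hik e => by
    have hi' := mem_support_iff.1 hi
    have hk' := mem_support_iff.1 hk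
    obtain ⟨n, rfl⟩ := Nat.exists_eq_add_of_lt hik
    refine ⟨n + 1, p.coeff i / p.coeff (i + n + 1), n.succ_pos, div_ne_zero hi' hk', ?_⟩
    have h1 : B.valuation (x ^ i) ≠ 0 := by simpa using fun h => absurd h hx
    have h2 : B.valuation (algebraMap F M (p.coeff (i + n + 1))) ≠ 0 := by simpa using hk'
    rw [add_assoc, pow_add, map_mul, map_mul, map_mul, ← add_assoc, mul_comm (B.valuation (x ^ i)),
      ← mul_assoc] at e
    rw [map_div₀, map_div₀, eq_div_iff h2, mul_comm, mul_right_cancel₀ h1 e]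
  obtain ⟨k, hk, hmax⟩ := exists_max_image p.support
    (fun i => B.valuation (algebraMap F M (p.coeff i) * x ^ i)) (support_nonempty.2 hp)
  by_contra hc
  have h1 := B.valuation.map_sum_eq_of_lt (f := fun i => algebraMap F M (p.coeff i) * x ^ i) hk
    fun i hi => by
      obtain ⟨hi1, hi2⟩ := mem_sdiff.1 hi
      refine (hmax i hi1).lt_of_ne fun e => ?_
      rcases lt_or_gt_of_ne (notMem_singleton.1 hi2) with h | h
      · exact hc (key i k hi1 hk h e)
      · exact hc (key k i hk hi1 h e.symm)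
  rw [h0, map_zero] at h1
  have h2 : algebraMap F M (p.coeff k) * x ^ k ≠ 0 :=
    mul_ne_zero (by simpa using mem_support_iff.1 hk) (pow_ne_zero _ hx)
  exact h2 (by simpa using h1.symm)

end PVSx

open PVSx in
theorem p_vSx : S_VSx := by
  intro F M _ _ _ _ V
  obtain ⟨B, hB⟩ := dom (algebraMap F M) V
  obtain ⟨o, o_mul, o_j, o_u⟩ := ext1 (algebraMap F M) B.unitGroup V.o V.o_mul fun a ha => by
    have h1 : B.valuation (algebraMap F M a) = 1 := (B.mem_unitGroup_iff _).1 ha
    have h2 := (hB a a.ne_zero).1 h1.le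
    have h3 := (hB (a : F)⁻¹ (inv_ne_zero a.ne_zero)).1 (by rw [map_inv₀, map_inv₀, h1, inv_one])
    rw [V.o_inv a.ne_zero] at h3
    linarith
  obtain ⟨m, m_mul, m_j, m_u⟩ := ext1 (algebraMap F M) B.principalUnitGroup V.m V.m_mul
    fun a ha => by
      have h1 : B.valuation (algebraMap F M a - 1) < 1 := (B.mem_principalUnitGroup_iff _).1 ha
      rcases eq_or_ne ((a : F) - 1) 0 with h | h
      · rw [sub_eq_zero.1 h, V.m_one']
      · have := V.m_one _ h ((hB _ h).2 (by rwa [map_sub, map_one]))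
        rwa [add_sub_cancel] at this
  have o_eq : ∀ x y, x ≠ 0 → y ≠ 0 → B.valuation x = B.valuation y → o x = o y :=
    fun x y hx hy e => by
      have h0 : x / y ≠ 0 := div_ne_zero hx hy
      have h1 := o_u (Units.mk0 (x / y) h0) ((B.mem_unitGroup_iff _).2 (by
        rw [Units.val_mk0, map_div₀, e, div_self (by simpa using hy)]))
      have h2 := o_mul (x / y) y h0 hy
      rw [div_mul_cancel₀ _ hy] at h2
      rw [Units.val_mk0] at h1
      rw [h2, h1, zero_add]
  have o_one : o 1 = 0 := by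
    have := o_mul 1 1 one_ne_zero one_ne_zero
    rw [mul_one] at this
    linarith
  have o_pow : ∀ x (n : ℕ), x ≠ 0 → o (x ^ n) = n * o x := fun x n hx => by
    induction n with
    | zero => simp [o_one]
    | succ n ih => rw [pow_succ, o_mul _ _ (pow_ne_zero _ hx) hx, ih]; push_cast; ring
  have o_le : ∀ x, x ≠ 0 → B.valuation x ≤ 1 → 0 ≤ o x := fun x hx h => by
    obtain ⟨n, a, hn, ha, e⟩ := tors (F := F) B hx
    have h1 := o_eq _ _ (pow_ne_zero n hx) (by simpa using ha) e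
    have h2 := (hB a ha).1 (by rw [← e, map_pow]; exact pow_le_one' h n)
    rw [o_pow x n hx, o_j a ha] at h1
    rw [← h1] at h2
    exact (mul_nonneg_iff_of_pos_left (Nat.cast_pos.2 hn)).1 h2
  have o_mono : ∀ x y, x ≠ 0 → y ≠ 0 → B.valuation x ≤ B.valuation y → o y ≤ o x :=
    fun x y hx hy e => by
      have h0 : x / y ≠ 0 := div_ne_zero hx hy
      have h1 := o_le _ h0 (by
        rw [map_div₀]; exact div_le_one_of_le₀ e zero_le)
      have h2 := o_mul (x / y) y h0 hy
      rw [div_mul_cancel₀ _ hy] at h2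
      linarith
  refine ⟨⟨o, m, o_mul, m_mul, fun a b ha hb h => ?_, fun x hx h => ?_⟩,
    fun a ha => ⟨o_j a ha, m_j a ha⟩⟩
  · rcases le_max_iff.1 (B.valuation.map_add a b) with h1 | h1
    · exact (min_le_left _ _).trans (o_mono _ _ h ha h1)
    · exact (min_le_right _ _).trans (o_mono _ _ h hb h1)
  · have h1 : B.valuation x < 1 := lt_of_not_ge fun h1 => by
      have := o_mono 1 x one_ne_zero hx (by rwa [map_one])
      linarith
    have h0 : 1 + x ≠ 0 := fun e => by
      rw [eq_neg_of_add_eq_zero_right e, Valuation.map_neg, map_one] at h1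
      exact lt_irrefl _ h1
    exact m_u (Units.mk0 (1 + x) h0) ((B.mem_principalUnitGroup_iff _).2 (by
      rwa [Units.val_mk0, add_sub_cancel_left]))

end

end Pool.Agent.P.MP_b8021b_nt.KR
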