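import Pool.Agent.P.MP_b8021b_nt.VC.PCov1
import Pool.Agent.P.MP_b8021b_nt.VC.PTower

/-! General lemmas for the Weil restriction cover: the tower with its universal property, traces
and derivations. -/

namespace Pool.Agent.P.MP_b8021b_nt.KR

open Polynomial Finset Pool.Agent.P.MP_b8021b_nt.VE Pool.Agent.P.MP_b8021b_nt.VC
open scoped Classical WithZero IntermediateField

namespace PWr

/-- homomorphisms that agree on generators -/
theorem ext_adj {K₀ M E I : Type} [Field K₀] [Field M] [Field E] [Algebra K₀ M] {u : I → M}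
    (h : IntermediateField.adjoin K₀ (Set.range u) = ⊤) {g g' : M →+* E}
    (h1 : ∀ b, g (algebraMap K₀ M b) = g' (algebraMap K₀ M b)) (h3 : ∀ i, g (u i) = g' (u i)) :
    g = g' := by
  ext x
  have hx : x ∈ IntermediateField.adjoin K₀ (Set.range u) := h ▸ trivial
  induction hx using IntermediateField.adjoin_induction with
  | mem y hy => obtain ⟨i, rfl⟩ := hy; exact h3 i
  | algebraMap y => exact h1 y
  | add y z _ _ hy hz => rw [map_add, map_add, hy, hz]
  | inv y _ hy => rw [map_inv₀, map_inv₀, hy]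
  | mul y z _ _ hy hz => rw [map_mul, map_mul, hy, hz]

/-- the tower, with its universal property -/
theorem tower (hCrv : VC.S_Crv) (hRes : VC.S_Res) (hSplit : VC.S_Split) (hEis : VC.S_Eis)
    (K₀ : Type) [Field K₀] [Algebra ℚ K₀] (hK : IsCurve K₀) (I : Type) [Fintype I]
    (P : I → K₀[X]) (d : ℕ) (p : I → GPt K₀) (hd : 1 ≤ d)
    (hP : ∀ i, (P i).Monic ∧ (P i).natDegree = d ∧ ∃ m, EisV (p i).v (P i) m)
    (hG : ∀ i j, i ≠ j → ∃ Pb, Red (p i) (P j) Pb ∧ Pb.Separable) :
    ∃ (M : Type) (_ : Field M) (_ : Algebra K₀ M) (_ : FiniteDimensional K₀ M) (u : I → M),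
      (∀ i, aeval (u i) (P i) = 0) ∧ IntermediateField.adjoin K₀ (Set.range u) = ⊤ ∧
      (∀ (p₀ : GPt K₀) (Pb : I → Qb[X]) (c : I → Qb),
        (∀ i, Red p₀ (P i) (Pb i) ∧ (Pb i).Separable ∧ (Pb i).IsRoot (c i)) →
        ∃! q : GPt M, Le (algebraMap K₀ M) q p₀ ∧ ∀ i, q.Val (u i) (c i)) ∧
      (∀ (γ : K₀ ≃+* K₀) (π : I ≃ I), (∀ i, (P i).map (γ : K₀ →+* K₀) = P (π i)) →
        ∃ g : M ≃+* M, (∀ a, g (algebraMap K₀ M a) = algebraMap K₀ M (γ a)) ∧
          ∀ i, g (u i) = u (π i)) ∧
      ∀ (N : Type) [Field N] (φ : K₀ →+* N) (w : I → N), (∀ i, (P i).eval₂ φ (w i) = 0) →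
        ∃ ψ : M →+* N, (∀ a, ψ (algebraMap K₀ M a) = φ a) ∧ ∀ i, ψ (u i) = w i := by
  have hall : ∀ s : Finset I, TowerP.Inv K₀ P s := by
    intro s
    induction s using Finset.induction_on with
    | empty => exact TowerP.base hRes K₀ hK P
    | insert j s hj ih =>
      obtain ⟨hm, hn, m, he⟩ := hP j
      exact TowerP.step hCrv hRes hSplit hEis K₀ hK P s j hj (p j) hm (hn ▸ hd) m he
        (fun i hi => hG j i fun e => hj (e ▸ hi)) ih
  obtain ⟨M, _, _, _, u, h1, h2, h3, -, h5⟩ := hall univ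
  rw [coe_univ, Set.image_univ] at h2
  refine ⟨M, inferInstance, inferInstance, inferInstance, u, fun i => h1 i (mem_univ i), h2,
    fun p₀ Pb c hc => ?_, fun γ π hπ => ?_, fun N _ φ w hw => ?_⟩
  · simpa only [mem_univ, forall_true_left] using h3 p₀ Pb c fun i _ => hc i
  · obtain ⟨ψ, e1, e2⟩ := h5 M ((algebraMap K₀ M).comp (γ : K₀ →+* K₀)) (fun i => u (π i))
      fun i _ => by
        rw [← eval₂_map, hπ]
        exact h1 _ (mem_univ _)
    have e3 : ∀ a, ψ (algebraMap K₀ M a) = algebraMap K₀ M (γ a) := fun a =>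
      RingHom.congr_fun e1 a
    have hs : Function.Surjective ψ := by
      intro y
      have hy : y ∈ IntermediateField.adjoin K₀ (Set.range u) := h2 ▸ IntermediateField.mem_top
      induction hy using IntermediateField.adjoin_induction with
      | mem x hx =>
        obtain ⟨i, rfl⟩ := hx
        exact ⟨u (π.symm i), by rw [e2 _ (mem_univ _), Equiv.apply_symm_apply]⟩
      | algebraMap a => exact ⟨algebraMap K₀ M (γ.symm a), by rw [e3, RingEquiv.apply_symm_apply]⟩
      | add x y _ _ hx hy =>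
        obtain ⟨a, rfl⟩ := hx
        obtain ⟨b, rfl⟩ := hy
        exact ⟨a + b, map_add ψ a b⟩
      | inv x _ hx =>
        obtain ⟨a, rfl⟩ := hx
        exact ⟨a⁻¹, map_inv₀ ψ a⟩
      | mul x y _ _ hx hy =>
        obtain ⟨a, rfl⟩ := hx
        obtain ⟨b, rfl⟩ := hy
        exact ⟨a * b, map_mul ψ a b⟩
    exact ⟨RingEquiv.ofBijective ψ ⟨ψ.injective, hs⟩, e3, fun i => e2 i (mem_univ i)⟩
  · obtain ⟨ψ, e1, e2⟩ := h5 N φ w fun i _ => hw i
    exact ⟨ψ, fun a => RingHom.congr_fun e1 a, fun i => e2 i (mem_univ i)⟩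

/-- base change of a trace -/
theorem tr_base {k₁ F N M : Type} [Field k₁] [Field F] [Field N] [Field M] [CharZero k₁]
    [CharZero N] [Algebra k₁ F] [FiniteDimensional k₁ F] [Algebra N M] [FiniteDimensional N M]
    (j : F →+* M) (h1 : ∀ a : k₁, ∃ y, j (algebraMap k₁ F a) = algebraMap N M y)
    (h2 : ∀ σ σ' : M →+* AlgebraicClosure M,
      (∀ y, σ (algebraMap N M y) = σ' (algebraMap N M y)) → (∀ a, σ (j a) = σ' (j a)) → σ = σ')
    (h3 : ∀ τ : F →+* AlgebraicClosure M, (∀ a, τ (algebraMap k₁ F a) =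
      algebraMap M _ (j (algebraMap k₁ F a))) → ∃ σ : M →+* AlgebraicClosure M,
        (∀ y, σ (algebraMap N M y) = algebraMap M _ (algebraMap N M y)) ∧ ∀ a, σ (j a) = τ a)
    {φ : F} (hφ : Algebra.trace k₁ F φ = 0) : Algebra.trace N M (j φ) = 0 := by
  let _ : Algebra k₁ (AlgebraicClosure M) :=
    (((algebraMap M (AlgebraicClosure M)).comp j).comp (algebraMap k₁ F)).toAlgebra
  have hN : ∀ y, algebraMap N (AlgebraicClosure M) y = algebraMap M _ (algebraMap N M y) :=
    fun y => IsScalarTower.algebraMap_apply N M _ y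
  have e1 := trace_eq_sum_embeddings (AlgebraicClosure M) (K := k₁) (L := F) (x := φ)
  have e2 := trace_eq_sum_embeddings (AlgebraicClosure M) (K := N) (L := M) (x := j φ)
  rw [hφ, map_zero] at e1
  refine (algebraMap N (AlgebraicClosure M)).injective ?_
  rw [e2, map_zero, e1]
  let r : (M →ₐ[N] AlgebraicClosure M) → F →ₐ[k₁] AlgebraicClosure M := fun σ =>
    { toRingHom := (σ : M →+* AlgebraicClosure M).comp j
      commutes' := fun a => by
        obtain ⟨y, hy⟩ := h1 a
        change σ (j (algebraMap k₁ F a)) = algebraMap M _ (j (algebraMap k₁ F a))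
        rw [hy, σ.commutes, hN] }
  refine Fintype.sum_bijective r ⟨fun σ σ' h => ?_, fun τ => ?_⟩ _ _ fun σ => rfl
  · refine AlgHom.coe_ringHom_injective (h2 _ _ (fun y => ?_) fun a => DFunLike.congr_fun h a)
    exact (σ.commutes y).trans (σ'.commutes y).symm
  · obtain ⟨σ, e3, e4⟩ := h3 (τ : F →+* AlgebraicClosure M) fun a => τ.commutes a
    exact ⟨{ toRingHom := σ, commutes' := fun y => (e3 y).trans (hN y).symm },
      AlgHom.ext fun a => e4 a⟩

/-- the trace through an intermediate field -/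
theorem tr_zero {F M : Type} [Field F] [Field M] (N : Subfield M) (j : F →+* M)
    (hj : ∀ a, j a ∈ N) (hfin : @Module.Finite F M _ _ j.toAlgebra.toModule) {x ρ : M}
    (hρ : ρ ∈ N) (h : FiniteDimensional N M → Algebra.trace N M x = 0) :
    @Algebra.trace F M _ _ j.toAlgebra (x * ρ) = 0 := by
  let _ : Algebra F M := j.toAlgebra
  let _ : Algebra F N := (j.codRestrict N hj).toAlgebra
  have : IsScalarTower F N M := IsScalarTower.of_algebraMap_eq fun _ => rfl
  have h1 : FiniteDimensional N M := Module.Finite.of_restrictScalars_finite F N M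
  have h2 : FiniteDimensional F N := Module.Finite.left F N M
  have h3 : x * ρ = (⟨ρ, hρ⟩ : N) • x := mul_comm x ρ
  rw [← Algebra.trace_trace (S := N), h3, map_smul, h h1, smul_zero, map_zero]

/-- a derivation kills the constants -/
theorem der_const {K M : Type} [Field K] [NumberField K] [Field M] [CharZero M] (c : K →+* M)
    (D : Derivation ℚ M M) (b : K) : D (c b) = 0 := by
  have hb : IsIntegral ℚ b := Algebra.IsIntegral.isIntegral b
  have h1 : ∀ p : ℚ[X], aeval (c b) p = c (aeval b p) := fun p =>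
    aeval_algHom_apply c.toRatAlgHom b p
  have h2 := D.map_aeval (minpoly ℚ b) (c b)
  rw [h1, h1, minpoly.aeval, map_zero, map_zero, smul_eq_mul] at h2
  refine (mul_eq_zero.1 h2.symm).resolve_left ((_root_.map_ne_zero c).2 ?_)
  exact (minpoly.irreducible hb).separable.aeval_derivative_ne_zero (minpoly.aeval ℚ b)

theorem der_x {M : Type} [Field M] [CharZero M] (D : Derivation ℚ M M) (a n : ℕ) {T b b' : M}
    (h : T - b ≠ 0) (h' : T - b' ≠ 0) (hb : D b = 0) (hb' : D b' = 0) :
    D ((a : M) + n / (T - b)) = ((T - b') / (T - b)) ^ 2 * D ((a : M) + n / (T - b')) := by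
  simp only [map_add, D.map_natCast, D.leibniz_div, map_sub, hb, hb', smul_eq_mul]
  field_simp
  ring

end PWr

end Pool.Agent.P.MP_b8021b_nt.KR
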