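import Pool.Agent.P.MP_b8021b_nt.KR.St
import Pool.Agent.P.MP_b8021b_nt.KR.PWr1

/-! The Weil restriction cover. -/

namespace Pool.Agent.P.MP_b8021b_nt.KR

open Polynomial Finset Pool.Agent.P.MP_b8021b_nt.VE Pool.Agent.P.MP_b8021b_nt.VC
open scoped Classical WithZero IntermediateField

namespace PWr

open Cov1 in
theorem geom (hCrv : VC.S_Crv) (hRes : VC.S_Res) (hSplit : VC.S_Split) (hTrans : VC.S_Trans)
    (hEis : VC.S_Eis) {k F : Type} [Field k] [NumberField k] [Field F] [CharZero F] [Algebra k F]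
    (hF : IsCurve F) {O : GPt F} (m : Mdl k O) [FiniteDimensional k⟮m.f⟯ F]
    {K : Type} [Field K] [NumberField K] (τ : K →+* Qb) (ι₀ : k →+* K) (a₀ : ℕ)
    (ha₀ : (a₀ : Qb) ∉ m.R) (ρ₀ : K) (hρ : ev ι₀ a₀ ρ₀ m.P = 0) :
    ∃ (M : Type) (_ : Field M) (_ : CharZero M) (c : K →+* M) (j : (K ≃ₐ[ℚ] K) → F →+* M)
      (act : (K ≃ₐ[ℚ] K) →* RingAut M) (O' : GPt M), IsCurve M ∧
      (∀ g b, act g (c b) = c (g b)) ∧ (∀ g s a, act g (j s a) = j (g * s) a) ∧
      (∀ (σ : Qb ≃+* Qb) g, (∀ x, σ (τ x) = τ (g x)) → ∀ q : GPt M,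
        (∀ a e, O'.Val a e → q.Val (act g a) (σ e)) → q = O') ∧
      ∀ s, s ≠ 1 → ∃ ρ : M, (∀ D : Derivation ℚ M M, D (j 1 m.f) = ρ * D (j s m.f)) ∧
        ∀ φ : F, Algebra.trace k⟮m.f⟯ F φ = 0 →
          @Algebra.trace F M _ _ (j s).toAlgebra (j 1 φ * ρ) = 0 := by
  obtain ⟨θ, hθ⟩ := exists_sep K
  obtain ⟨n, n0, hn⟩ := exists_nat m.R m.fin a₀
    fun i : (K ≃ₐ[ℚ] K) × (K ≃ₐ[ℚ] K) => τ (i.1 θ) - τ (i.2 θ)
  have n0' : (n : Qb) ≠ 0 := Nat.cast_ne_zero.2 n0
  obtain ⟨cK, hpt, hinf, hord, -⟩ := hCrv.2.2 K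
  set C₀ := algebraMap K (RatFunc K) with hC₀
  let x : (K ≃ₐ[ℚ] K) → RatFunc K := fun s =>
    (a₀ : RatFunc K) + (n : RatFunc K) / (RatFunc.X - C₀ (s θ))
  let ι : (K ≃ₐ[ℚ] K) → k →+* RatFunc K := fun s => C₀.comp ((s : K →+* K).comp ι₀)
  let σ : (K ≃ₐ[ℚ] K) → k →+* Qb := fun s => τ.comp ((s : K →+* K).comp ι₀)
  let P : (K ≃ₐ[ℚ] K) → (RatFunc K)[X] := fun s => m.P.map (eval₂RingHom (ι s) (x s))
  have vx : ∀ (p : GPt (RatFunc K)) t s, (∀ b, p.Val (C₀ b) (τ b)) → p.Val RatFunc.X t →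
      t - τ (s θ) ≠ 0 → p.Val (x s) (a₀ + n / (t - τ (s θ))) := fun p t s h1 h2 h3 =>
    (p.val_natCast a₀).add ((p.val_natCast n).div (h2.sub (h1 _)) h3)
  choose pt hpt1 hpt2 using fun t => (hpt τ t).exists
  obtain ⟨pi, ⟨hi1, hi2⟩, hi3⟩ := hinf τ
  have vi : ∀ s, pi.Val (x s) a₀ := fun s => by
    have h1 := (pi.val_natCast a₀).add (((pi.val_natCast n).mul hi2).div
      (pi.val_one.sub ((hi1 (s θ)).mul hi2)) (by simp))
    have h2 : (n : RatFunc K) * RatFunc.X⁻¹ / (1 - C₀ (s θ) * RatFunc.X⁻¹) =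
        (n : RatFunc K) / (RatFunc.X - C₀ (s θ)) := by
      have := X_sub_ne (s θ)
      have := RatFunc.X_ne_zero (K := K)
      field_simp
    rw [h2] at h1
    simpa using h1
  have hv : ∀ s, (pt (τ (s θ))).v (x s) = WithZero.exp 1 := fun s => by
    have h1 := hord (pt (τ (s θ))) (s θ) (by simpa using (hpt2 (τ (s θ))).sub (hpt1 _ (s θ)))
    have h2 : (pt (τ (s θ))).v ((n : RatFunc K) / (RatFunc.X - C₀ (s θ))) = WithZero.exp 1 := by
      rw [map_div₀, ((pt _).val_natCast n).v_eq_one n0', GPt.v_eq _ (X_sub_ne _), h1,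
        WithZero.exp_neg, one_div, inv_inv]
    rw [← h2]
    refine Valuation.map_add_eq_of_lt_right _ ?_
    rw [h2]
    refine lt_of_le_of_lt ((pt _).val_natCast a₀).mem ?_
    rw [← WithZero.exp_zero, WithZero.exp_lt_exp]; omega
  have hmon : ∀ s, (P s).Monic := fun s => m.mon.map _
  have hdeg : ∀ s, (P s).natDegree = m.d := fun s => by rw [m.mon.natDegree_map, m.deg]
  obtain ⟨M, _, _, _, u, hu0, hadj, hq, haut, huniv⟩ := tower hCrv hRes hSplit hEis (RatFunc K) cK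
    (K ≃ₐ[ℚ] K) P m.d (fun s => pt (τ (s θ))) m.hd
    (fun s => ⟨hmon s, hdeg s, _, (eis m _ (ι s) (hv s)).2⟩) (fun s s' h => by
      have h1 : τ (s θ) - τ (s' θ) ≠ 0 := sub_ne_zero.2 fun e => h (hθ (τ.injective e))
      exact ⟨_, red _ (σ := σ s') (fun b => hpt1 _ _) (vx _ _ s' (hpt1 _) (hpt2 _) h1) m.P,
        m.sep _ _ (hn (s, s') h1)⟩)
  set A := algebraMap (RatFunc K) M with hA
  have : CharZero M := (RingHom.charZero_iff (A.comp C₀).injective).1 inferInstance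
  have cM : IsCurve M := (hCrv.1 (RatFunc K) M).1 cK
  have hev' : ∀ {E : Type} [Field E] (B : RatFunc K →+* E) s (w : E) (Q : k[X][X]),
      ev (B.comp (ι s)) (B (x s)) w Q = (Q.map (eval₂RingHom (ι s) (x s))).eval₂ B w := by
    intro E _ B s w Q
    have : B.comp (eval₂RingHom (ι s) (x s)) = eval₂RingHom (B.comp (ι s)) (B (x s)) :=
      Polynomial.ringHom_ext (fun a => by simp) (by simp)
    rw [eval₂_map, this]; rfl
  have hev : ∀ s (Q : k[X][X]), ev (A.comp (ι s)) (A (x s)) (u s) Q =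
      aeval (u s) (Q.map (eval₂RingHom (ι s) (x s))) := fun s Q => hev' A s (u s) Q
  have hj : ∀ s, ∃ j : F →+* M, ∀ Q, j (ev (algebraMap k F) m.f m.u Q) =
      ev (A.comp (ι s)) (A (x s)) (u s) Q := fun s => by
    refine ext_hom _ _ (fun Q => ?_) m.frac
    obtain ⟨h1, h2⟩ := eis m _ (ι s) (hv s)
    have h3 := minpoly.eq_of_irreducible_of_monic
      (hEis _ _ _ _ (hmon s) (by rw [hdeg]; exact m.hd) h2) (hu0 s) (hmon s)
    rw [m.ker, hev, ← map_dvd_map _ h1 m.mon]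
    exact ⟨fun h => aeval_eq_zero_of_dvd_aeval_eq_zero h (hu0 s),
      fun h => (dvd_of_eq h3).trans (minpoly.dvd _ _ h)⟩
  choose j hj using hj
  have jf : ∀ s, j s m.f = A (x s) := fun s => by simpa only [ev_x] using hj s (C X)
  have ju : ∀ s, j s m.u = u s := fun s => by simpa only [ev_y] using hj s X
  have jc : ∀ s b, j s (algebraMap k F b) = A (C₀ (s (ι₀ b))) := fun s b => by
    have h1 := hj s (C (C b))
    rwa [ev_c, ev_c] at h1
  have hact : ∀ g : K ≃ₐ[ℚ] K, ∃ a : M ≃+* M, (∀ b, a (A (C₀ b)) = A (C₀ (g b))) ∧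
      a (A RatFunc.X) = A RatFunc.X ∧ ∀ s, a (u s) = u (g * s) := fun g => by
    obtain ⟨γ, h1, h2⟩ := exists_conj g.toRingEquiv
    obtain ⟨a, h3, h4⟩ := haut γ (Equiv.mulLeft g) fun s => by
      have : (γ : RatFunc K →+* RatFunc K).comp (eval₂RingHom (ι s) (x s)) =
          eval₂RingHom (ι (g * s)) (x (g * s)) := by
        refine Polynomial.ringHom_ext (fun a => ?_) ?_
        · rw [RingHom.comp_apply, coe_eval₂RingHom, coe_eval₂RingHom, eval₂_C, eval₂_C]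
          exact h1 (s (ι₀ a))
        · simp only [RingHom.comp_apply, coe_eval₂RingHom, eval₂_X, x, map_add, map_div₀,
            map_natCast, map_sub, RingHom.coe_coe, h2]
          rw [h1]; rfl
      simp only [P]
      rw [Polynomial.map_map, this]; rfl
    exact ⟨a, fun b => by rw [h3, h1]; rfl, by rw [h3, h2], h4⟩
  choose a ha1 ha2 ha3 using hact
  let act : (K ≃ₐ[ℚ] K) →* RingAut M := MonoidHom.mk' a fun g h => by
    have : ((a (g * h) : M ≃+* M) : M →+* M) = (a g : M →+* M).comp (a h : M →+* M) :=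
      ext_tower hadj (fun b => by simp [← hA, ← hC₀, ha1]) (by simp [← hA, ha2])
        fun s => by simp [ha3, mul_assoc]
    exact RingEquiv.ext fun y => RingHom.congr_fun this y
  have hax : ∀ g s, a g (A (x s)) = A (x (g * s)) := fun g s => by
    simp only [x, map_add, map_div₀, map_natCast, map_sub, ha1, ha2, AlgEquiv.mul_apply]
  obtain ⟨O', ⟨hO1, hO2⟩, hO3⟩ := hq pi (fun s => m.P.map (eval₂RingHom (σ s) a₀))
    (fun s => τ (s ρ₀)) fun s => ⟨red _ (ι := ι s) (σ := σ s) (fun b => hi1 _) (vi s) m.P,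
      m.sep _ _ ha₀, by
      have h1 := hom_ev (τ.comp (s : K →+* K)) ι₀ a₀ ρ₀ m.P
      rw [hρ, map_zero, map_natCast, ev_eq] at h1
      exact h1.symm⟩
  obtain ⟨res, hr1, hr2, -⟩ := res_hom hCrv hRes hTrans cK cM A
  refine ⟨M, inferInstance, inferInstance, A.comp C₀, j, act, O', cM, ha1, fun g s y => ?_,
    fun ϕ g hg q h => ?_, fun s hs => ?_⟩
  · have : (a g : M →+* M).comp (j s) = j (g * s) := by
      refine hom_ext _ m.frac fun Q => ?_
      have h1 : (a g : M →+* M).comp (A.comp (ι s)) = A.comp (ι (g * s)) :=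
        RingHom.ext fun b => ha1 g (s (ι₀ b))
      rw [RingHom.comp_apply, hj, hj, hom_ev, h1, RingHom.coe_coe, hax, ha3]
    exact RingHom.congr_fun this y
  · refine hO3 q ⟨(hr1 q pi).2 (hi3 _ ⟨fun b => hr2 q _ _ ?_, hr2 q _ _ ?_⟩), fun s => ?_⟩
    · have h1 := h _ _ (hO1 _ _ (hi1 (g.symm b)))
      change q.Val (a g _) _ at h1
      rwa [ha1, hg, g.apply_symm_apply] at h1
    · have h1 := h _ _ (hO1 _ _ hi2)
      change q.Val (a g _) _ at h1
      rwa [map_zero, map_inv₀, map_inv₀, ha2, ← map_inv₀] at h1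
    · have h1 := h _ _ (hO2 (g⁻¹ * s))
      change q.Val (a g _) _ at h1
      rwa [ha3, hg, ← AlgEquiv.mul_apply, mul_inv_cancel_left] at h1
  · have hne : ∀ s : K ≃ₐ[ℚ] K, A RatFunc.X - A (C₀ (s θ)) ≠ 0 := fun s => by
      rw [← map_sub]
      exact (_root_.map_ne_zero A).2 (X_sub_ne _)
    let N : Subfield M := Subfield.closure (Set.range A ∪ u '' {t | t ≠ 1})
    have hNA : ∀ b, A b ∈ N := fun b => Subfield.subset_closure (Or.inl ⟨b, rfl⟩)
    have hNu : ∀ t, t ≠ 1 → u t ∈ N := fun t ht => Subfield.subset_closure (Or.inr ⟨t, ht, rfl⟩)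
    refine ⟨((A RatFunc.X - A (C₀ (s θ))) / (A RatFunc.X - A (C₀ ((1 : K ≃ₐ[ℚ] K) θ)))) ^ 2,
      fun D => ?_, fun φ hφ => ?_⟩
    · rw [jf, jf]
      simp only [x, map_add A, map_div₀ A, map_natCast A, map_sub A]
      exact der_x D a₀ n (hne 1) (hne s) (der_const (A.comp C₀) D _) (der_const (A.comp C₀) D _)
    have hjN : ∀ y, j s y ∈ N := fun y => by
      have h1 : ∀ Q, j s (ev (algebraMap k F) m.f m.u Q) ∈ N := fun Q => by
        rw [hj, hev', eval₂_eq_sum_range]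
        exact sum_mem fun l _ => mul_mem (hNA _) (pow_mem (hNu s hs) _)
      obtain ⟨b, c, hc, hy⟩ := m.frac y
      rw [eq_div_of_mul_eq hc hy, map_div₀]
      exact div_mem (h1 b) (h1 c)
    refine tr_zero N (j s) hjN (@fin_hom hCrv F M _ _ _ _ hF cM (j s).toAlgebra)
      (pow_mem (div_mem (sub_mem (hNA _) (hNA _)) (sub_mem (hNA _) (hNA _))) 2) fun hfin => ?_
    refine tr_base (j 1) (fun b => ?_) (fun g g' h1 h2 => ?_) (fun g hg => ?_) hφ
    · suffices h : ∀ y ∈ k⟮m.f⟯, j 1 y ∈ N from ⟨⟨_, h b b.2⟩, rfl⟩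
      intro y hy
      induction hy using IntermediateField.adjoin_induction with
      | mem z hz => rw [Set.mem_singleton_iff.1 hz, jf]; exact hNA _
      | algebraMap z => rw [jc]; exact hNA _
      | add y z _ _ hy hz => rw [map_add]; exact add_mem hy hz
      | inv y _ hy => rw [map_inv₀]; exact inv_mem hy
      | mul y z _ _ hy hz => rw [map_mul]; exact mul_mem hy hz
    · refine ext_adj hadj (fun b => h1 ⟨_, hNA b⟩) fun t => ?_
      rcases eq_or_ne t 1 with rfl | ht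
      · rw [← ju]; exact h2 _
      · exact h1 ⟨_, hNu t ht⟩
    · set B := algebraMap M (AlgebraicClosure M) with hB
      have g1 : g.comp (algebraMap k F) = (B.comp A).comp (ι 1) := RingHom.ext fun b =>
        (hg (algebraMap k k⟮m.f⟯ b)).trans (congrArg B (jc 1 b))
      have g2 : g m.f = (B.comp A) (x 1) :=
        (hg (IntermediateField.AdjoinSimple.gen k m.f)).trans (congrArg B (jf 1))
      obtain ⟨ψ, e1, e2⟩ := huniv (AlgebraicClosure M) (B.comp A)
        (Function.update (fun t => B (u t)) 1 (g m.u)) fun t => by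
          rcases eq_or_ne t 1 with rfl | ht
          · rw [Function.update_self, ← hev', ← g1, ← g2, ← hom_ev, (m.ker m.P).2 dvd_rfl,
              map_zero]
          · rw [Function.update_of_ne ht, ← hom_eval₂]
            exact (congrArg B (hu0 t)).trans (map_zero B)
      refine ⟨ψ, fun y => ?_, fun y => ?_⟩
      · refine RingHom.eqOn_field_closure (f := ψ) (g := B) ?_ y.2
        rintro _ (⟨b, rfl⟩ | ⟨t, ht, rfl⟩)
        · exact e1 b
        · rw [e2, Function.update_of_ne ht]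
      · have : ψ.comp (j 1) = g := by
          refine hom_ext _ m.frac fun Q => ?_
          have h1 : ψ.comp (A.comp (ι 1)) = (B.comp A).comp (ι 1) := RingHom.ext fun b => e1 _
          rw [RingHom.comp_apply, hj, hom_ev, hom_ev, h1, e1, e2, Function.update_self, g1, g2]
        exact RingHom.congr_fun this y

end PWr

open Cov1 PWr in
theorem p_wr (h0 : VE.S_S0) (hCrv : VC.S_Crv) (hFin : VC.S_Fin) (hRes : VC.S_Res) (hSplit : VC.S_Split) (hEis : VC.S_Eis) (hTrans : VC.S_Trans) (hCvEx : VC.S_CvEx) (hNrm : VC.S_Nrm) : S_Wr := by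
  intro k F _ _ _ _ _ hF O r hO hr
  obtain ⟨m⟩ := model h0 hCvEx hNrm hF O hO
  have htr : ∀ (L : Type) [Field L] [NumberField L] [Algebra L F], Transcendental L m.f := by
    intro L _ _ _ h
    have h1 : Algebra.IsAlgebraic L L⟮m.f⟯ :=
      IntermediateField.isAlgebraic_adjoin_simple h.isIntegral
    have h2 : Algebra.IsAlgebraic ℚ L⟮m.f⟯ := Algebra.IsAlgebraic.trans ℚ L _
    exact m.pole.ne (O.ord_alg (algebraMap L⟮m.f⟯ F) (IntermediateField.AdjoinSimple.gen L m.f))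
  have : FiniteDimensional k⟮m.f⟯ F := (hCrv.2.1 k F m.f (htr k)).1 hF
  obtain ⟨τ₀, hτ₀⟩ := O.exists_emb (algebraMap k F)
  obtain ⟨a₀, ha₀⟩ := (m.fin.preimage (Nat.cast_injective (R := Qb)).injOn).exists_notMem
  obtain ⟨ρ, hρ⟩ := exists_root m τ₀ a₀
  obtain ⟨w, hw⟩ := IsAlgClosed.exists_pow_nat_eq (-(r : Qb)) two_pos
  obtain ⟨K, _, _, _, τ, ι₀, ρ₀, ω, hι, rfl, rfl⟩ := exists_gal (τ₀ : k →+* Qb) ρ w
  have hτ : τ.comp ι₀ = τ₀ := RingHom.ext hι
  have hω : ω ^ 2 = -(r : K) := τ.injective (by rw [map_pow, hw, map_neg, map_natCast])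
  have hρ₀ : ev ι₀ a₀ ρ₀ m.P = 0 := τ.injective (by
    rw [hom_ev, hτ, map_natCast, hρ, map_zero])
  obtain ⟨χ, hχ, hχ'⟩ := exists_chi hr.ne_zero hω
  obtain ⟨M, _, _, c, j, act, O', cM, hc, hj, hO', hs⟩ :=
    PWr.geom hCrv hRes hSplit hTrans hEis hF m τ ι₀ a₀ ha₀ ρ₀ hρ₀
  let _ : MulSemiringAction (K ≃ₐ[ℚ] K) M := MulSemiringAction.compHom M act
  refine ⟨m.f, M, K ≃ₐ[ℚ] K, inferInstance, inferInstance, inferInstance, inferInstance,
    inferInstance, χ, c ω, O', j, htr ℚ, cM, by rw [← map_pow, hω, map_neg, map_natCast],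
    fun g => ?_, hχ', fun a e ha he => rat_of_fix fun σ => ?_, hj, hs⟩
  · change act g (c ω) = _
    rw [hc, hχ, map_mul, map_intCast]
  · obtain ⟨g, hg⟩ := restrict τ σ
    obtain ⟨q₁, h1, -⟩ := (hFin M cM).2.2.2.2 σ O'
    obtain ⟨R, -, h2, -⟩ := res_hom hCrv hRes hTrans cM cM ((act g).symm : M →+* M)
    have h3 : ∀ a e, O'.Val a e → (R q₁).Val (act g a) (σ e) := fun a e h => h2 _ _ _ (by
      rw [RingHom.coe_coe, RingEquiv.symm_apply_apply]
      exact h1 a e h)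
    have h4 := h3 a e he
    rw [hO' σ g hg _ h3, show act g a = a from ha g] at h4
    exact h4.unique he

end Pool.Agent.P.MP_b8021b_nt.KR
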