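import Pool.Agent.P.MP_b8021b_nt.KR.PAlg
import Pool.Agent.P.MP_b8021b_nt.KR.PAn
import Pool.Agent.P.MP_b8021b_nt.KR.PAna
import Pool.Agent.P.MP_b8021b_nt.KR.PBR
import Pool.Agent.P.MP_b8021b_nt.KR.PBW
import Pool.Agent.P.MP_b8021b_nt.KR.PBnd
import Pool.Agent.P.MP_b8021b_nt.KR.PBr
import Pool.Agent.P.MP_b8021b_nt.KR.PC1
import Pool.Agent.P.MP_b8021b_nt.KR.PC2
import Pool.Agent.P.MP_b8021b_nt.KR.PClA
import Pool.Agent.P.MP_b8021b_nt.KR.PCoef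
import Pool.Agent.P.MP_b8021b_nt.KR.PConst
import Pool.Agent.P.MP_b8021b_nt.KR.PContF
import Pool.Agent.P.MP_b8021b_nt.KR.PCov
import Pool.Agent.P.MP_b8021b_nt.KR.PDL
import Pool.Agent.P.MP_b8021b_nt.KR.PDer
import Pool.Agent.P.MP_b8021b_nt.KR.PDown
import Pool.Agent.P.MP_b8021b_nt.KR.PEng
import Pool.Agent.P.MP_b8021b_nt.KR.PFA
import Pool.Agent.P.MP_b8021b_nt.KR.PFac
import Pool.Agent.P.MP_b8021b_nt.KR.PGeo
import Pool.Agent.P.MP_b8021b_nt.KR.PGeo2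
import Pool.Agent.P.MP_b8021b_nt.KR.PInd
import Pool.Agent.P.MP_b8021b_nt.KR.PInt
import Pool.Agent.P.MP_b8021b_nt.KR.PLift
import Pool.Agent.P.MP_b8021b_nt.KR.PLiftC
import Pool.Agent.P.MP_b8021b_nt.KR.PMain
import Pool.Agent.P.MP_b8021b_nt.KR.PMax
import Pool.Agent.P.MP_b8021b_nt.KR.PMod
import Pool.Agent.P.MP_b8021b_nt.KR.PNT
import Pool.Agent.P.MP_b8021b_nt.KR.POnto
import Pool.Agent.P.MP_b8021b_nt.KR.PReg
import Pool.Agent.P.MP_b8021b_nt.KR.PRegM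
import Pool.Agent.P.MP_b8021b_nt.KR.PRem
import Pool.Agent.P.MP_b8021b_nt.KR.PSer
import Pool.Agent.P.MP_b8021b_nt.KR.PSt
import Pool.Agent.P.MP_b8021b_nt.KR.PTent
import Pool.Agent.P.MP_b8021b_nt.KR.PTrZ
import Pool.Agent.P.MP_b8021b_nt.KR.PTrf
import Pool.Agent.P.MP_b8021b_nt.KR.PUnr
import Pool.Agent.P.MP_b8021b_nt.KR.PUp
import Pool.Agent.P.MP_b8021b_nt.KR.PVSx
import Pool.Agent.P.MP_b8021b_nt.KR.PWr
import Pool.Agent.P.MP_b8021b_nt.VC.All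

/-! Assembly of all parts. -/

namespace Pool.Agent.P.MP_b8021b_nt.KR.All

theorem k_Mod : KR.S_Mod :=
  KR.p_mod VC.All.t_Cv VC.All.t_RS

theorem k_C1 : KR.S_C1 :=
  KR.p_c1 VC.All.t_Deg VC.All.t_BF VC.All.t_FbEx VC.All.t_QF

theorem k_C2 : KR.S_C2 :=
  KR.p_c2 VC.All.e_Rep VC.All.t_Arch2

theorem k_NT : KR.S_NT :=
  KR.p_nT VC.All.t_IndT VC.All.t_IndS VC.All.t_Flat VC.All.t_Mix

theorem k_Rem : KR.S_Rem :=
  KR.p_rem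

theorem k_BR : KR.S_BR :=
  KR.p_bR

theorem k_Tent : KR.S_Tent :=
  KR.p_tent

theorem k_Ser : KR.S_Ser :=
  KR.p_ser

theorem k_Coef : KR.S_Coef :=
  KR.p_coef

theorem k_ContF : KR.S_ContF :=
  KR.p_contF VC.All.t_Deg

theorem k_Ana : KR.S_Ana :=
  KR.p_ana k_Ser k_Coef k_ContF

theorem k_Eng : KR.S_Eng :=
  KR.p_eng k_C1 k_C2 k_NT k_Rem k_BR k_Tent k_Ana VC.All.t_Deg

theorem k_Alg : KR.S_Alg :=
  KR.p_alg k_Mod k_Eng VC.All.t_Rad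

theorem k_An : KR.S_An :=
  KR.p_an

theorem k_BW : KR.S_BW :=
  KR.p_bW

theorem k_Int : KR.S_Int :=
  KR.p_int VC.All.t_Extp

theorem k_Bnd : KR.S_Bnd :=
  KR.p_bnd k_Int VC.All.t_Fin

theorem k_Br : KR.S_Br :=
  KR.p_br VC.All.t_Crv

theorem k_Const : KR.S_Const :=
  KR.p_const VC.All.t_Crv VC.All.t_Fin VC.All.t_Split

theorem k_Wr : KR.S_Wr :=
  KR.p_wr VC.All.e_S0 VC.All.t_Crv VC.All.t_Fin VC.All.t_Res VC.All.t_Split VC.All.t_Eis VC.All.t_Trans VC.All.t_CvEx VC.All.t_Nrm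

theorem k_St : KR.S_St :=
  KR.p_st k_BW

theorem k_Lift : KR.S_Lift :=
  KR.p_lift

theorem k_LiftC : KR.S_LiftC :=
  KR.p_liftC k_Lift

theorem k_Trf : KR.S_Trf :=
  KR.p_trf

theorem k_VSx : KR.S_VSx :=
  KR.p_vSx

theorem k_Up : KR.S_Up :=
  KR.p_up k_St k_LiftC k_Trf k_VSx VC.All.t_Crv VC.All.t_Fin VC.All.t_Res

theorem k_Der : KR.S_Der :=
  KR.p_der VC.All.t_Crv

theorem k_DL : KR.S_DL :=
  KR.p_dL k_Der VC.All.t_Crv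

theorem k_Unr : KR.S_Unr :=
  KR.p_unr VC.All.t_Crv VC.All.t_Res VC.All.t_Split

theorem k_FA : KR.S_FA :=
  KR.p_fA k_DL k_Unr VC.All.t_Fin

theorem k_Reg : KR.S_Reg :=
  KR.p_reg k_Der k_DL

theorem k_Geo2 : KR.S_Geo2 :=
  KR.p_geo2 k_Alg k_FA k_Der k_Reg VC.All.e_S0 VC.All.t_Crv VC.All.t_Fin VC.All.t_Res VC.All.t_Split VC.All.t_Weil VC.All.t_CvEx

theorem k_Down : KR.S_Down :=
  KR.p_down VC.All.t_Fin VC.All.t_Res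

theorem k_RegM : KR.S_RegM :=
  KR.p_regM VC.All.t_Crv VC.All.t_Res

theorem k_Geo : KR.S_Geo :=
  KR.p_geo k_Geo2 k_Down k_Der k_Reg k_RegM VC.All.t_Crv VC.All.t_Res

theorem k_TrZ : KR.S_TrZ :=
  KR.p_trZ k_RegM VC.All.t_Crv VC.All.t_Fin

theorem k_Cov : KR.S_Cov :=
  KR.p_cov k_Wr k_Up k_LiftC k_An k_Geo k_TrZ k_Der k_Reg k_RegM VC.All.t_Crv VC.All.t_Fin VC.All.t_Res

theorem k_ClA : KR.S_ClA :=
  KR.p_clA k_Const k_Cov k_Up k_LiftC k_RegM VC.All.t_Crv VC.All.t_Res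

theorem k_Fac : KR.S_Fac :=
  KR.p_fac VC.All.t_Crv VC.All.t_Fin

theorem k_Ind : KR.S_Ind :=
  KR.p_ind VC.All.t_Crv

theorem k_Max : KR.S_Max :=
  KR.p_max

theorem k_Onto : KR.S_Onto :=
  KR.p_onto k_Br k_Max k_Ind k_Bnd

theorem k_Main : KR.S_Main :=
  KR.p_main k_St k_Der k_Reg k_Onto k_Fac k_ClA

end Pool.Agent.P.MP_b8021b_nt.KR.All
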