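import Pool.Agent.P.MP_b8021b_nt.KR.St

/-! Basic lemmas on vertical symbols, on the relation `Rel` and on analytic data. -/

namespace Pool.Agent.P.MP_b8021b_nt.KR

open Polynomial Finset Pool.Agent.P.MP_b8021b_nt.VE Pool.Agent.P.MP_b8021b_nt.VC
open scoped Classical

noncomputable section

variable {F M : Type} [Field F] [Field M]

namespace VS

variable (V : VS F)

theorem o_one : V.o 1 = 0 := by
  have := V.o_mul 1 1 one_ne_zero one_ne_zero
  rw [mul_one] at this
  linarith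

theorem m_one' : V.m 1 = 0 := by
  have := V.m_mul 1 1 one_ne_zero one_ne_zero
  rw [mul_one] at this
  linarith

theorem o_neg_one : V.o (-1) = 0 := by
  have := V.o_mul (-1) (-1) (by simp) (by simp)
  rw [neg_mul_neg, mul_one, V.o_one] at this
  linarith

theorem m_neg_one : V.m (-1) = 0 := by
  have := V.m_mul (-1) (-1) (by simp) (by simp)
  rw [neg_mul_neg, mul_one, V.m_one'] at this
  linarith

theorem o_neg {a : F} (ha : a ≠ 0) : V.o (-a) = V.o a := by
  rw [← neg_one_mul, V.o_mul _ _ (by simp) ha, V.o_neg_one, zero_add]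

theorem m_neg {a : F} (ha : a ≠ 0) : V.m (-a) = V.m a := by
  rw [← neg_one_mul, V.m_mul _ _ (by simp) ha, V.m_neg_one, zero_add]

theorem o_inv {a : F} (ha : a ≠ 0) : V.o a⁻¹ = -V.o a := by
  have := V.o_mul a a⁻¹ ha (inv_ne_zero ha)
  rw [mul_inv_cancel₀ ha, V.o_one] at this
  linarith

theorem o_pow {a : F} (ha : a ≠ 0) (n : ℕ) : V.o (a ^ n) = n * V.o a := by
  induction n with
  | zero => simp [V.o_one]
  | succ n ih => rw [pow_succ, V.o_mul _ _ (pow_ne_zero _ ha) ha, ih]; push_cast; ring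

theorem one_add_ne {x : F} (h : 0 < V.o x) : 1 + x ≠ 0 := fun h0 => by
  rw [eq_neg_of_add_eq_zero_right h0, V.o_neg_one] at h
  exact lt_irrefl _ h

theorem o_one_add {x : F} (hx : x ≠ 0) (h : 0 < V.o x) : V.o (1 + x) = 0 := by
  have h0 := V.one_add_ne h
  have h1 := V.o_add 1 x one_ne_zero hx h0
  have h2 := V.o_add (1 + x) (-x) h0 (neg_ne_zero.2 hx) (by simp)
  rw [V.o_one, min_eq_left h.le] at h1
  rw [add_neg_cancel_right, V.o_one, V.o_neg hx, min_le_iff] at h2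
  rcases h2 with h2 | h2 <;> linarith

theorem o_nat [CharZero F] {n : ℕ} (hn : n ≠ 0) : 0 ≤ V.o n := by
  induction n with
  | zero => exact absurd rfl hn
  | succ n ih =>
    rcases eq_or_ne n 0 with rfl | h
    · simp [V.o_one]
    · have h1 := V.o_add n 1 (Nat.cast_ne_zero.2 h) one_ne_zero (by exact_mod_cast hn)
      rw [V.o_one] at h1
      push_cast
      exact (le_min (ih h) le_rfl).trans h1

theorem o_int [CharZero F] {n : ℤ} (hn : n ≠ 0) : 0 ≤ V.o n := by
  obtain ⟨m, rfl | rfl⟩ := n.eq_nat_or_neg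
  · simpa using V.o_nat (n := m) (by simpa using hn)
  · have hm : m ≠ 0 := by simpa using hn
    rw [Int.cast_neg, V.o_neg (by simpa using hm)]
    simpa using V.o_nat hm

theorem o_pos_of_dvd [CharZero F] {q : ℕ} {n : ℤ} (hq : 0 < V.o q) (h : (q : ℤ) ∣ n) (hn : n ≠ 0) :
    0 < V.o n := by
  obtain ⟨c, rfl⟩ := h
  have h1 := left_ne_zero_of_mul hn
  have h2 := right_ne_zero_of_mul hn
  rw [Int.cast_mul, V.o_mul _ _ (Int.cast_ne_zero.2 h1) (Int.cast_ne_zero.2 h2), Int.cast_natCast]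
  linarith [V.o_int h2]

theorem T_mul {f f' g : F} (hf : f ≠ 0) (hf' : f' ≠ 0) : V.T (f * f') g = V.T f g + V.T f' g := by
  rw [T, T, T, V.o_mul _ _ hf hf', V.m_mul _ _ hf hf']; ring

theorem T_symm (f g : F) : V.T g f = -V.T f g := by rw [T, T]; ring

theorem T_one_add {x : F} (hx : x ≠ 0) (h : 0 < V.o x) (g : F) : V.T (1 + x) g = 0 := by
  rw [T, V.o_one_add hx h, V.m_one x hx h]; ring

theorem T_st_pos {f : F} (hf : f ≠ 0) (h : 0 < V.o f) : V.T f (1 - f) = 0 := by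
  rw [T_symm, sub_eq_add_neg, V.T_one_add (neg_ne_zero.2 hf) (by rwa [V.o_neg hf]), neg_zero]

theorem T_st {f : F} (hf : f ≠ 0) (hg : 1 - f ≠ 0) : V.T f (1 - f) = 0 := by
  rcases lt_trichotomy (V.o f) 0 with h | h | h
  · have h1 : 0 < V.o (-f⁻¹) := by rw [V.o_neg (inv_ne_zero hf), V.o_inv hf]; linarith
    have h0 : -f⁻¹ ≠ 0 := neg_ne_zero.2 (inv_ne_zero hf)
    have e : 1 - f = -f * (1 + -f⁻¹) := by field_simp; ring
    rw [T, e, V.o_mul _ _ (neg_ne_zero.2 hf) (V.one_add_ne h1),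
      V.m_mul _ _ (neg_ne_zero.2 hf) (V.one_add_ne h1), V.o_one_add h0 h1, V.m_one _ h0 h1,
      V.o_neg hf, V.m_neg hf]
    ring
  · have h1 := V.o_add 1 (-f) one_ne_zero (neg_ne_zero.2 hf) (by rwa [← sub_eq_add_neg])
    rw [V.o_one, V.o_neg hf, h, min_self, ← sub_eq_add_neg] at h1
    rcases h1.eq_or_lt with h1 | h1
    · rw [T, h, ← h1]; ring
    · have := V.T_st_pos hg h1
      rw [sub_sub_cancel] at this
      rw [T_symm, this, neg_zero]
  · exact V.T_st_pos hf h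

/-- restriction along a homomorphism -/
def comap (V : VS M) (j : F →+* M) : VS F where
  o a := V.o (j a)
  m a := V.m (j a)
  o_mul a b ha hb := by rw [map_mul, V.o_mul _ _ (by simpa) (by simpa)]
  m_mul a b ha hb := by rw [map_mul, V.m_mul _ _ (by simpa) (by simpa)]
  o_add a b ha hb h := by
    rw [map_add]
    exact V.o_add _ _ (by simpa) (by simpa) (by rwa [← map_add, _root_.map_ne_zero])
  m_one x hx h := by rw [map_add, map_one]; exact V.m_one _ (by simpa) h

theorem comap_T (V : VS M) (j : F →+* M) (f g : F) : (V.comap j).T f g = V.T (j f) (j g) := rfl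

/-- a multiple -/
def smul (c : ℝ) : VS F where
  o := V.o
  m a := c * V.m a
  o_mul := V.o_mul
  m_mul a b ha hb := by rw [V.m_mul _ _ ha hb, mul_add]
  o_add := V.o_add
  m_one x hx h := by rw [V.m_one x hx h, mul_zero]

theorem smul_T (c : ℝ) (f g : F) : (V.smul c).T f g = c * V.T f g := by
  simp only [T, smul]; ring

end VS

namespace Vert

variable {r r' : ℕ} {ν ν' : F → F → ℝ}

theorem congr (h : Vert r ν) (e : ∀ f g, f ≠ 0 → g ≠ 0 → ν' f g = ν f g) : Vert r ν' := by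
  obtain ⟨I, _, V, h1, h2⟩ := h
  exact ⟨I, inferInstance, V, h1, fun f g hf hg => (e f g hf hg).trans (h2 f g hf hg)⟩

theorem mono (h : Vert r ν) (e : r ≤ r') : Vert r' ν := by
  obtain ⟨I, _, V, h1, h2⟩ := h
  refine ⟨I, inferInstance, V, fun i => ?_, h2⟩
  obtain ⟨q, a, b, c⟩ := h1 i
  exact ⟨q, a, b.trans_le e, c⟩

theorem zero : Vert r fun _ _ : F => (0 : ℝ) :=
  ⟨Empty, inferInstance, Empty.elim, fun i => i.elim, fun _ _ _ _ => by simp⟩

theorem add (h : Vert r ν) (h' : Vert r ν') : Vert r fun f g => ν f g + ν' f g := by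
  obtain ⟨I, _, V, h1, h2⟩ := h
  obtain ⟨I', _, V', h1', h2'⟩ := h'
  refine ⟨I ⊕ I', inferInstance, Sum.elim V V', fun i => ?_, fun f g hf hg => ?_⟩
  · cases i with
    | inl i => exact h1 i
    | inr i => exact h1' i
  · simp [Fintype.sum_sum_type, h2 f g hf hg, h2' f g hf hg]

theorem smul (h : Vert r ν) (c : ℝ) : Vert r fun f g => c * ν f g := by
  obtain ⟨I, _, V, h1, h2⟩ := h
  exact ⟨I, inferInstance, fun i => (V i).smul c, h1, fun f g hf hg => by
    simp only [VS.smul_T, h2 f g hf hg, mul_sum]⟩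

theorem sum {ι : Type} (s : Finset ι) {ν : ι → F → F → ℝ} (h : ∀ i ∈ s, Vert r (ν i)) :
    Vert r fun f g => ∑ i ∈ s, ν i f g := by
  induction s using Finset.induction_on with
  | empty => simpa using zero
  | insert i s hi ih =>
    simp only [sum_insert hi]
    exact (h i (mem_insert_self _ _)).add (ih fun j hj => h j (mem_insert_of_mem hj))

theorem comap {ν : M → M → ℝ} (h : Vert r ν) (j : F →+* M) : Vert r fun f g => ν (j f) (j g) := by
  obtain ⟨I, _, V, h1, h2⟩ := h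
  refine ⟨I, inferInstance, fun i => (V i).comap j, fun i => ?_, fun f g hf hg =>
    h2 _ _ (by simpa) (by simpa)⟩
  obtain ⟨q, a, b, c⟩ := h1 i
  exact ⟨q, a, b, by simpa [VS.comap] using c⟩

end Vert

theorem Rel.mono {r r' : ℕ} {l : GPt F → Qb → ℝ} {R : F → F → ℝ} (h : Rel r l R) (e : r ≤ r') :
    Rel r' l R := ⟨h.1, h.2.mono e⟩

theorem Rel.congr {r : ℕ} {l : GPt F → Qb → ℝ} {R R' : F → F → ℝ} (h : Rel r l R)
    (e : ∀ f g, f ≠ 0 → g ≠ 0 → R' f g = R f g) : Rel r l R' :=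
  ⟨h.1, h.2.congr fun f g hf hg => by simp only [e f g hf hg]⟩

theorem Rel.sum (hF : PTrans.FO F) {r : ℕ} {ι : Type} [Fintype ι] (c : ι → ℝ)
    {l : ι → GPt F → Qb → ℝ} {R : ι → F → F → ℝ} (h : ∀ i, Rel r (l i) (R i)) :
    Rel r (fun p u => ∑ i, c i * l i p u) fun f g => ∑ i, c i * R i f g := by
  refine ⟨fun p u v hu hv => ?_,
    (Vert.sum univ fun i _ => (h i).2.smul (c i)).congr fun f g hf hg => ?_⟩
  · simp only [(h _).1 p u v hu hv, mul_add, sum_add_distrib]
  · have e : PTrans.B (fun p u => ∑ i, c i * l i p u) f g = ∑ i, c i * PTrans.B (l i) f g := by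
      simp only [PTrans.B, mul_finsum]
      rw [← finsum_sum_comm]
      · rfl
      · intro i _
        exact (PTrans.b_fin hF (h i).1 hf hg).subset fun p hp h0 => hp (by simp only [h0, mul_zero])
    simp only [e, mul_sub, sum_sub_distrib]

namespace AnD

variable (a : AnD F)

theorem one_right (x : F) : a.Λ x 1 = 0 := by
  have := a.leib x 1 1
  simp only [mul_one] at this
  linarith

theorem smul_left [CharZero F] (q : ℚ) (x y : F) : a.Λ (q * x) y = q * a.Λ x y := by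
  have := map_ratCast_smul (a.Λ.flip y) ℚ ℝ q x
  simpa [Rat.smul_def] using this

theorem smul_right [CharZero F] (q : ℚ) (x y : F) : a.Λ x (q * y) = q * a.Λ x y := by
  have := map_ratCast_smul (a.Λ x) ℚ ℝ q y
  simpa [Rat.smul_def] using this

theorem rat_right [CharZero F] (x : F) (q : ℚ) : a.Λ x q = 0 := by
  have := a.smul_right q x 1
  rwa [mul_one, a.one_right, mul_zero] at this

theorem pow_right (x y : F) (n : ℕ) : a.Λ x (y ^ (n + 1)) = (n + 1) * a.Λ (x * y ^ n) y := by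
  induction n generalizing x with
  | zero => simp
  | succ n ih =>
    rw [pow_succ' y (n + 1), a.leib, ih, mul_assoc, ← pow_succ']
    push_cast
    ring

/-- the logarithmic derivative is additive -/
theorem dlog_mul (x : F) {s t : F} (hs : s ≠ 0) (ht : t ≠ 0) :
    a.Λ (x * (s * t)⁻¹) (s * t) = a.Λ (x * s⁻¹) s + a.Λ (x * t⁻¹) t := by
  rw [a.leib, add_comm]
  congr 3 <;> field_simp

theorem sq_const [CharZero F] {w : F} {q : ℚ} (hq : q ≠ 0) (h : w ^ 2 = q) (x : F) :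
    a.Λ x w = 0 := by
  have hw : w ≠ 0 := by
    rintro rfl
    exact hq (by exact_mod_cast (h.symm.trans (by simp) : (q : F) = 0))
  have := a.leib (x * w⁻¹) w w
  rw [← sq, h, a.rat_right, inv_mul_cancel_right₀ hw] at this
  linarith

theorem N_zero : a.N 0 = 0 := le_antisymm (by simpa using a.N_rat 0) (a.N_nonneg 0)

theorem N'_zero : a.N' 0 = 0 := by simpa using a.N'_rat 0

theorem N_one : a.N 1 ≤ 1 := by simpa using a.N_rat 1

theorem N_smul (q : ℚ) (x : F) : a.N (q * x) ≤ |(q : ℝ)| * a.N x :=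
  (a.N_mul _ _).trans (mul_le_mul_of_nonneg_right (a.N_rat q) (a.N_nonneg x))

theorem N'_smul (q : ℚ) (x : F) : a.N' (q * x) ≤ |(q : ℝ)| * a.N' x := by
  have := a.N'_mul q x
  rw [a.N'_rat, mul_zero, add_zero] at this
  exact this.trans (mul_le_mul_of_nonneg_right (a.N_rat q) (a.N'_nonneg x))

theorem N_neg (x : F) : a.N (-x) ≤ a.N x := by simpa using a.N_smul (-1) x

theorem N_pow (x : F) (n : ℕ) : a.N (x ^ n) ≤ a.N x ^ n := by
  induction n with
  | zero => simpa using a.N_one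
  | succ n ih =>
    rw [pow_succ, pow_succ]
    exact (a.N_mul _ _).trans (mul_le_mul_of_nonneg_right ih (a.N_nonneg x))

theorem N_sum {ι : Type} (s : Finset ι) (f : ι → F) : a.N (∑ i ∈ s, f i) ≤ ∑ i ∈ s, a.N (f i) :=
  le_sum_of_subadditive a.N a.N_zero.le a.N_add s f

theorem N'_sum {ι : Type} (s : Finset ι) (f : ι → F) : a.N' (∑ i ∈ s, f i) ≤ ∑ i ∈ s, a.N' (f i) :=
  le_sum_of_subadditive a.N' a.N'_zero.le a.N'_add s f

theorem N_inv_one_add {σ : F} (h0 : 1 + σ ≠ 0) (h : a.N σ ≤ 1 / 2) : a.N (1 + σ)⁻¹ ≤ 2 := by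
  have e : (1 + σ)⁻¹ = 1 + -(σ * (1 + σ)⁻¹) := by field_simp; ring
  have h1 := a.N_add 1 (-(σ * (1 + σ)⁻¹))
  rw [← e] at h1
  have h2 := (a.N_neg _).trans (a.N_mul σ (1 + σ)⁻¹)
  have h3 := mul_le_mul_of_nonneg_right h (a.N_nonneg (1 + σ)⁻¹)
  linarith [a.N_one]

/-- no winding -/
theorem wind {σ : F} (h0 : 1 + σ ≠ 0) (h : a.N σ ≤ 1 / 2) : a.Λ (1 + σ)⁻¹ σ = 0 := by
  have k1 : ∀ n : ℕ, a.Λ (σ ^ n) σ = 0 := fun n => by
    have := a.pow_right 1 σ n
    rw [a.exact, one_mul] at this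
    exact (mul_eq_zero.1 this.symm).resolve_left (by positivity)
  have k2 : ∀ n : ℕ, |a.Λ (1 + σ)⁻¹ σ| = |a.Λ (σ ^ n * (1 + σ)⁻¹) σ| := fun n => by
    induction n with
    | zero => simp
    | succ n ih =>
      have e : σ ^ (n + 1) * (1 + σ)⁻¹ = σ ^ n - σ ^ n * (1 + σ)⁻¹ := by field_simp; ring
      rw [ih, e, map_sub, AddMonoidHom.sub_apply, k1, zero_sub, abs_neg]
  have k3 : ∀ n : ℕ, |a.Λ (1 + σ)⁻¹ σ| ≤ (1 / 2) ^ n * (2 * a.N' σ) := fun n => by
    rw [k2 n, ← mul_assoc]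
    refine (a.bound _ _).trans (mul_le_mul_of_nonneg_right ((a.N_mul _ _).trans
      (mul_le_mul ((a.N_pow σ n).trans (pow_le_pow_left₀ (a.N_nonneg σ) h n))
        (a.N_inv_one_add h0 h) (a.N_nonneg _) (by positivity))) (a.N'_nonneg σ))
  have k4 := (tendsto_pow_atTop_nhds_zero_of_lt_one (r := (1 / 2 : ℝ)) (by norm_num)
    (by norm_num)).mul_const (2 * a.N' σ)
  rw [zero_mul] at k4
  exact abs_nonpos_iff.1 (ge_of_tendsto' k4 k3)

end AnD

end

end Pool.Agent.P.MP_b8021b_nt.KR
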