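import Pool.Agent.P.MP_b8021b_nt.KR.Stmt
import Pool.Agent.P.MP_b8021b_nt.VC.PTrans1
import Pool.Agent.P.MP_b8021b_nt.VC.DefT

/-!
Auxiliary definitions for the theorem that the regulator on `K₂` of a curve over a number field is
onto. See h4_K2reg.md in the team store for the mathematics.
-/

namespace Pool.Agent.P.MP_b8021b_nt.KR

open Polynomial Finset Pool.Agent.P.MP_b8021b_nt.VE Pool.Agent.P.MP_b8021b_nt.VC
open scoped Classical

noncomputable section

variable {F M : Type} [Field F] [Field M]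

/-! ### paths and chains -/

/-- the integral of `Im (a db)` along a path -/
def Path.lam (γ : Path F) (a b : F) : ℝ :=
  ∫ t in (0 : ℝ)..1, (γ.j t a * deriv (fun s => γ.j s b) t).im

/-- the integral of `Im (a db)` along a chain -/
def lamC (c : Path F →₀ ℝ) (a b : F) : ℝ := c.sum fun γ n => n * γ.lam a b

/-- the regulator integral along a chain -/
def regC (c : Path F →₀ ℝ) (f g : F) : ℝ := c.sum fun γ n => n * γ.reg f g

/-- the image of a path -/
def Path.comap (γ : Path M) (j : F →+* M) : Path F := ⟨fun t => (γ.j t).comp j, fun f => γ.smooth (j f)⟩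

/-- `c'` is the sum of all lifts of `c` -/
def IsLift (j : F →+* M) (c : Path F →₀ ℝ) (c' : Path M →₀ ℝ) : Prop :=
  ∀ γ, c' γ = c (γ.comap j)

/-! ### the analytic datum of a cycle -/

/-- what is used of a cycle: `Λ a b` is the integral of `Im (a db)`, `reg` the regulator, `N` the
supremum and `N'` the variation along the cycle -/
structure AnD (F : Type) [Field F] where
  Λ : F →+ F →+ ℝ
  reg : F → F → ℝ
  N : F → ℝ
  N' : F → ℝ
  leib : ∀ a b c, Λ a (b * c) = Λ (a * b) c + Λ (a * c) b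
  exact : ∀ b, Λ 1 b = 0
  bound : ∀ a b, |Λ a b| ≤ N a * N' b
  N_nonneg : ∀ a, 0 ≤ N a
  N_add : ∀ a b, N (a + b) ≤ N a + N b
  N_mul : ∀ a b, N (a * b) ≤ N a * N b
  N_rat : ∀ q : ℚ, N q ≤ |(q : ℝ)|
  N'_nonneg : ∀ a, 0 ≤ N' a
  N'_add : ∀ a b, N' (a + b) ≤ N' a + N' b
  N'_mul : ∀ a b, N' (a * b) ≤ N a * N' b + N b * N' a
  N'_rat : ∀ q : ℚ, N' q = 0
  reg_mul : ∀ f g s, f ≠ 0 → g ≠ 0 → s ≠ 0 → reg (f * g) s = reg f s + reg g s
  reg_rat : ∀ (q : ℚ) s, q ≠ 0 → s ≠ 0 → reg q s = Real.log |(q : ℝ)| * Λ s⁻¹ s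
  reg_ser : ∀ x s, s ≠ 0 → N x < 1 →
    HasSum (fun n : ℕ => -Λ (x ^ (n + 1) * s⁻¹) s / (n + 1)) (reg (1 - x) s)

/-- restriction to a subfield -/
def AnD.comap (a : AnD M) (j : F →+* M) [CharZero F] : AnD F where
  Λ := (a.Λ.flip.comp j.toAddMonoidHom).flip.comp j.toAddMonoidHom
  reg f g := a.reg (j f) (j g)
  N x := a.N (j x)
  N' x := a.N' (j x)
  leib x y z := by simpa using a.leib (j x) (j y) (j z)
  exact y := by simpa using a.exact (j y)
  bound x y := a.bound (j x) (j y)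
  N_nonneg x := a.N_nonneg _
  N_add x y := by simpa using a.N_add (j x) (j y)
  N_mul x y := by simpa using a.N_mul (j x) (j y)
  N_rat q := by
    have : CharZero M := (RingHom.charZero_iff j.injective).1 inferInstance
    simpa using a.N_rat q
  N'_nonneg x := a.N'_nonneg _
  N'_add x y := by simpa using a.N'_add (j x) (j y)
  N'_mul x y := by simpa using a.N'_mul (j x) (j y)
  N'_rat q := by
    have : CharZero M := (RingHom.charZero_iff j.injective).1 inferInstance
    simpa using a.N'_rat q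
  reg_mul f g s hf hg hs := by
    simpa using a.reg_mul (j f) (j g) (j s) (by simpa) (by simpa) (by simpa)
  reg_rat q s hq hs := by
    have : CharZero M := (RingHom.charZero_iff j.injective).1 inferInstance
    simpa using a.reg_rat q (j s) hq (by simpa)
  reg_ser x s hs hx := by simpa using a.reg_ser (j x) (j s) (by simpa) hx

theorem AnD.comap_Λ (a : AnD M) (j : F →+* M) [CharZero F] (x y : F) :
    (a.comap j).Λ x y = a.Λ (j x) (j y) := rfl

theorem AnD.comap_reg (a : AnD M) (j : F →+* M) [CharZero F] (x y : F) :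
    (a.comap j).reg x y = a.reg (j x) (j y) := rfl

/-! ### vertical symbols -/

/-- a real valuation `o` and an additive function `m` that vanishes on the principal units -/
structure VS (F : Type) [Field F] where
  o : F → ℝ
  m : F → ℝ
  o_mul : ∀ a b, a ≠ 0 → b ≠ 0 → o (a * b) = o a + o b
  m_mul : ∀ a b, a ≠ 0 → b ≠ 0 → m (a * b) = m a + m b
  o_add : ∀ a b, a ≠ 0 → b ≠ 0 → a + b ≠ 0 → min (o a) (o b) ≤ o (a + b)
  m_one : ∀ x, x ≠ 0 → 0 < o x → m (1 + x) = 0

/-- the symbol -/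
def VS.T (V : VS F) (f g : F) : ℝ := V.o g * V.m f - V.o f * V.m g

/-- `ν` is a finite sum of symbols at valuations over primes below `r` -/
def Vert (r : ℕ) (ν : F → F → ℝ) : Prop :=
  ∃ (I : Type) (_ : Fintype I) (V : I → VS F), (∀ i, ∃ q : ℕ, q.Prime ∧ q < r ∧ 0 < (V i).o q) ∧
    ∀ f g, f ≠ 0 → g ≠ 0 → ν f g = ∑ i, (V i).T f g

/-- the pairing `R` factors through the tame symbols -/
def Rel (r : ℕ) (l : GPt F → Qb → ℝ) (R : F → F → ℝ) : Prop :=
  PTrans.Ad l ∧ Vert r fun f g => PTrans.B l f g - R f g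

/-! ### regular differentials -/

/-- the form `φ df` has no poles -/
def RegV [CharZero F] (φ f : F) : Prop :=
  ∀ p : GPt F, (p.ord f < 0 → p.Val (φ * f) 0) ∧
    ∀ π : ℚ[X], π ≠ 0 → p.Val (aeval f π) 0 → p.Val (φ * aeval f π) 0

/-- `Λ` kills the regular forms -/
def Van [CharZero F] (Λ : F → F → ℝ) : Prop :=
  ∀ φ f : F, Transcendental ℚ f → RegV φ f → Λ φ f = 0

/-! ### the engine -/

/-- a family of homomorphisms from the unit groups of the residue fields, extended by zero -/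
structure IsFn0 {A : Type} [CommRing A] (φ : MaximalSpectrum A → A → ℝ) : Prop where
  zero : ∀ P h, h ∈ P.asIdeal → φ P h = 0
  congr : ∀ P h h', h - h' ∈ P.asIdeal → φ P h = φ P h'
  mul : ∀ P h h', h ∉ P.asIdeal → h' ∉ P.asIdeal → φ P (h * h') = φ P h + φ P h'

section

variable {R : Type} [CommRing R] [Algebra ℤ[X] R] (p : VC.Par R) (θ : R →+* F) (w : F)

/-- the section in a field -/
def secE (s : p.Co) : F := θ (p.toTab.el (p.gp s)) + θ (p.toTab.el (p.cp s)) * w

/-- the directions in which the sections move, divided by the central section -/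
def psi (j : p.Ix) : F :=
  θ (zR R) ^ (j.2.1 + 1) / θ (zR R) ^ p.dd * θ (p.y j.1.1) * if j.1.2 then w else 1

end

/-- a mixing design with a cochain whose archimedean part satisfies a Remez inequality off the set
`Bad` of sections -/
structure OkR {P X T S : Type} [Fintype P] [Fintype X] [Fintype T] [Fintype S] {Nc u : ℕ}
    (G : Sys P X T S Nc u) (κ : ℝ) (d : ℕ) (CR δ : ℝ) (Bad : Finset S) (ε : ℝ) : Prop where
  des : DesK κ G.b G.σT G.σS u G.μ ε
  box : G.box.Ok G.σT G.b ε
  anti : ∀ x t, G.σT.on x t → G.c₁ (G.b.ι x) t = -G.c₁ x t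
  size : ∀ t s x, G.μ t s x ≠ 0 → ∑ i, G.b.v (G.b.pr (x i)) = G.Lg d s t
  eqn : ∀ t s x, G.μ t s x ≠ 0 →
    ∑ i, G.c₁ (x i) t = G.β + ∑ i, G.c₂ (x i) s + G.A s (G.box.τ t)
  bad : ∑ s ∈ Bad, G.σS.wt s ≤ ε
  rem : ∀ s ∉ Bad, RemP (fun t => G.A s (G.box.τ t)) (G.Lg d s) G.box.cell CR δ (CR / Nc)

end

end Pool.Agent.P.MP_b8021b_nt.KR
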