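import Pool.Agent.P.MP_b8021b_nt.KR.Basic
import Pool.Agent.P.MP_b8021b_nt.VC.PAlg
import Pool.Agent.P.MP_b8021b_nt.VC.PMod

/-! The algebraic form of the statement from the model and the engine. -/

namespace Pool.Agent.P.MP_b8021b_nt.KR

open Polynomial Finset Pool.Agent.P.MP_b8021b_nt.VE Pool.Agent.P.MP_b8021b_nt.VC
open scoped Classical IntermediateField

namespace PAlg

section vs

variable {E : Type} [Field E] [CharZero E] (V : VS E)

omit [CharZero E] in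
theorem pos_add {x y : E} (hx : x = 0 ∨ 0 < V.o x) (hy : y = 0 ∨ 0 < V.o y) :
    x + y = 0 ∨ 0 < V.o (x + y) := by
  by_cases h1 : x = 0
  · rwa [h1, zero_add]
  by_cases h2 : y = 0
  · rwa [h2, add_zero]
  by_cases h3 : x + y = 0
  · exact Or.inl h3
  exact Or.inr ((lt_min (hx.resolve_left h1) (hy.resolve_left h2)).trans_le (V.o_add x y h1 h2 h3))

theorem pos_int {q : ℕ} {n : ℤ} (hq : 0 < V.o q) (h : (q : ℤ) ∣ n) :
    (n : E) = 0 ∨ 0 < V.o n := by
  by_cases hn : n = 0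
  · exact Or.inl (by simp [hn])
  · exact Or.inr (V.o_pos_of_dvd hq h hn)

omit [CharZero E] in
theorem pos_mul {x y : E} (hx : x = 0 ∨ 0 < V.o x) (hy : y ≠ 0) (hy' : 0 ≤ V.o y) :
    x * y = 0 ∨ 0 < V.o (x * y) := by
  by_cases h1 : x = 0
  · exact Or.inl (by rw [h1, zero_mul])
  · right
    rw [V.o_mul _ _ h1 hy]
    linarith [hx.resolve_left h1]

omit [CharZero E] in
theorem T_unit {z x : E} (hz : z ≠ 0) (hx : x = 0 ∨ 0 < V.o x) (h : E) :
    V.T (z * (1 + x)) h = V.T z h := by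
  by_cases h1 : x = 0
  · rw [h1, add_zero, mul_one]
  · have h2 := hx.resolve_left h1
    rw [V.T_mul hz (V.one_add_ne h2), V.T_one_add h1 h2, add_zero]

theorem T_fib {z : E} {q : ℕ} {m n : ℤ} (hz : z ≠ 0) (ho : V.o z ≤ 0) (hq : 0 < V.o q)
    (hm : (q : ℤ) ∣ m) (hn : (q : ℤ) ∣ n - 1) (h : E) : V.T (n * z - m) h = V.T z h := by
  have e : (n : E) * z - m = z * (1 + (((n - 1 : ℤ) : E) + ((-m : ℤ) : E) * z⁻¹)) := by
    push_cast
    field_simp
    ring
  rw [e]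
  refine T_unit V hz (pos_add V (pos_int V hq hn) (pos_mul V (pos_int V hq (dvd_neg.2 hm))
    (inv_ne_zero hz) ?_)) h
  rw [V.o_inv hz]
  linarith

theorem o_nonpos {z z₀ : E} {Q k n : ℕ} (hz : z ≠ 0) (hQ : 0 < V.o Q) (hQ0 : 0 < Q)
    (hk : V.o z₀ ≤ k * V.o Q) (e : (Q : E) ^ k * z = (1 + Q * n) * z₀) : V.o z ≤ 0 := by
  have h1 : (Q : E) ≠ 0 := Nat.cast_ne_zero.2 hQ0.ne'
  have h2 : (1 + Q * n : E) * z₀ ≠ 0 := e ▸ mul_ne_zero (pow_ne_zero _ h1) hz
  have h3 : V.o (1 + Q * n) = 0 := by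
    rcases Nat.eq_zero_or_pos n with h | h
    · simp [h, V.o_one]
    · have hn : (n : E) ≠ 0 := Nat.cast_ne_zero.2 h.ne'
      refine V.o_one_add (mul_ne_zero h1 hn) ?_
      rw [V.o_mul _ _ h1 hn]
      linarith [V.o_nat h.ne']
  have h4 := congrArg V.o e
  rw [V.o_mul _ _ (pow_ne_zero _ h1) hz, V.o_mul _ _ (left_ne_zero_of_mul h2)
    (right_ne_zero_of_mul h2), V.o_pow h1, h3] at h4
  linarith

end vs

section lam

variable {E : Type} [Field E] [CharZero E] (a : AnD E) {z : E} {τ : ℤ}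

theorem split (hu : z - τ ≠ 0) (b c : E) (M : ℕ) :
    a.Λ (b * z / (z - τ) ^ (M + 1)) c =
      a.Λ (b / (z - τ) ^ M) c + τ * a.Λ (b / (z - τ) ^ (M + 1)) c := by
  have e : b * z / (z - τ) ^ (M + 1) =
      b / (z - τ) ^ M + ((τ : ℚ) : E) * (b / (z - τ) ^ (M + 1)) := by
    push_cast
    field_simp
    ring
  rw [e, map_add, AddMonoidHom.add_apply, a.smul_left]
  simp

theorem step (hu : z - τ ≠ 0) {b ψ : E} {D : ℕ} (h0 : ∀ M, D < M → a.Λ (b / (z - τ) ^ M) ψ = 0)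
    (h1 : ∀ M, D < M → a.Λ (b / (z - τ) ^ M) (z * ψ) = 0) (M : ℕ) (hM : D + 2 ≤ M) :
    a.Λ (b * ψ / (z - τ) ^ M) z = 0 := by
  obtain ⟨M, rfl⟩ : ∃ N, M = N + 1 := ⟨M - 1, by omega⟩
  have h2 := h1 (M + 1) (by omega)
  rw [a.leib, div_mul_eq_mul_div, div_mul_eq_mul_div, split a hu, h0 M (by omega),
    h0 (M + 1) (by omega)] at h2
  linarith

theorem pow_case (hu : z - τ ≠ 0) {b c : E} {N : ℕ}
    (h : ∀ M, N ≤ M → a.Λ (b / (z - τ) ^ M) c = 0) (k : ℕ) :
    ∀ M, k + N ≤ M → a.Λ (b * z ^ k / (z - τ) ^ M) c = 0 := by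
  induction k with
  | zero => simpa using h
  | succ k ih =>
    intro M hM
    obtain ⟨M, rfl⟩ : ∃ N, M = N + 1 := ⟨M - 1, by omega⟩
    rw [pow_succ, ← mul_assoc, split a hu, ih M (by omega), ih (M + 1) (by omega)]
    simp

theorem poly_case (hu : z - τ ≠ 0) {b c : E} {N : ℕ}
    (h : ∀ M, N ≤ M → a.Λ (b / (z - τ) ^ M) c = 0) (g : ℤ[X]) (M : ℕ)
    (hM : g.natDegree + N ≤ M) : a.Λ (b * aeval z g / (z - τ) ^ M) c = 0 := by
  rw [aeval_eq_sum_range, mul_sum, sum_div, map_sum, AddMonoidHom.finsetSum_apply]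
  refine sum_eq_zero fun k hk => ?_
  have e : b * (g.coeff k • z ^ k) / (z - τ) ^ M =
      ((g.coeff k : ℚ) : E) * (b * z ^ k / (z - τ) ^ M) := by
    rw [zsmul_eq_mul]
    push_cast
    ring
  rw [e, a.smul_left, pow_case a hu h k M (by have := mem_range.1 hk; omega), mul_zero]

end lam

variable {R A A' : Type} [CommRing R] [Algebra ℤ[X] R] [CommRing A] [Algebra ℚ A]

theorem deg_le (cv : Cv ℚ A) (T : Tab R) {j : R →+* A} (hj : Gen j) (hz : cv.δ (j (zR R)) = T.e)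
    (hy : ∀ i, cv.δ (j (T.y i)) = T.δ i) (g : Fin T.e → ℤ[X]) {i : Fin T.e} (hi : g i ≠ 0) :
    T.e * (g i).natDegree ≤ cv.δ (j (T.el g)) := by
  have := cv.dom
  let _ : Algebra ℤ[X] A := (j.comp (algebraMap ℤ[X] R)).toAlgebra
  have h := (PMod.ind cv (e := T.e) hz (w := fun i => j (T.y i)) (fun i =>
    ⟨fun h => T.y.ne_zero i (hj.inj (by rw [h, map_zero])), by rw [hy, T.δmod]⟩) g hi).2.1
  have e : j (T.el g) = ∑ l, g l • j (T.y l) := by
    rw [T.el_eq, map_sum]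
    exact sum_congr rfl fun l _ => by rw [map_mul, Algebra.smul_def]; rfl
  rw [e]
  omega

variable [CommRing A'] [IsDedekindDomain A'] [Algebra ℚ A']

theorem exists_par (hRad : VC.S_Rad) (cv : Cv ℚ A) {r : ℕ} (hr : r.Prime) (D : Dbl A A' r)
    (m : VC.Mod R) {j : R →+* A} (hj : Gen j) (hre : r < m.e) (hG : m.G = X)
    (hz : cv.δ (j (zR R)) = m.e) (hy : ∀ i, cv.δ (j (m.y i)) = m.δ i) :
    ∃ p : VC.Par R, p.toMod = m ∧ p.r = r := by
  have : Fact r.Prime := ⟨hr⟩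
  have hu : ¬ IsUnit (D.j (j (zR R))) := fun h => by
    have h1 : D.j (j (zR R)) ∣ D.j 1 + D.j 0 * D.ω := h.dvd
    have h2 := cv.unit_zero (isUnit_of_dvd_one (D.dvd_el.1 h1).1)
    have := m.h3
    omega
  obtain ⟨P, hP, hzP⟩ := Ideal.exists_le_maximal (Ideal.span {D.j (j (zR R))})
    fun h => hu (Ideal.span_singleton_eq_top.1 h)
  have := VC.PAlg.finiteType D m.toTab hj
  obtain ⟨K, _, _, π, -, hk⟩ := VC.PAlg.exists_res P hP
  have : Algebra.IsAlgebraic ℚ K := Algebra.IsAlgebraic.of_finite ℚ K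
  let s : K →ₐ[ℚ] Qb := IsAlgClosed.lift
  let t : K →ₐ[ℚ] PadicAlgCl r := IsAlgClosed.lift
  obtain ⟨p, -, -, -, -, -, -, hp, -, hpr, -⟩ :=
    hRad R A A' cv r D m j (s.toRingHom.comp π) (t.toRingHom.comp π) 1 hre hj hz hy
      (by
        have h1 : π (D.j (j (zR R))) = 0 := by
          rw [← RingHom.mem_ker, hk]
          exact hzP (Ideal.mem_span_singleton_self _)
        rw [hG, RingHom.comp_apply]
        exact (congrArg s.toRingHom h1).trans (map_zero _))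
      (by
        rw [map_one]
        exact ⟨one_ne_zero, 0, by simpa using isIntegral_one, by simpa using isIntegral_one⟩)
      (by
        ext x
        simp [RingHom.mem_ker])
      (fun τ _ => Or.inl (by rw [map_one, norm_one]))
  exact ⟨p, hp, hpr⟩

end PAlg

open PAlg in
theorem p_alg (hMod : S_Mod) (hEng : S_Eng) (hRad : VC.S_Rad) : S_Alg := by
  intro A A' E _ _ _ _ _ _ _ cv r D i φ a ν hr hi hφ ha hν hpair hΛ
  obtain ⟨I, _, V, hV, hνV⟩ := hν
  have hQ : ∀ l, 0 < (V l).o ((r.factorial : ℕ) : E) := fun l => by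
    obtain ⟨q, hq, hqr, h⟩ := hV l
    have := (V l).o_pos_of_dvd h (Int.natCast_dvd_natCast.2 (Nat.dvd_factorial hq.pos hqr.le))
      (Nat.cast_ne_zero.2 r.factorial_ne_zero)
    rwa [Int.cast_natCast] at this
  have hk : ∀ x : A, ∃ k : ℕ, ∀ l,
      (V l).o (i (D.j x)) ≤ k * (V l).o ((r.factorial : ℕ) : E) := fun x => by
    choose k hk using fun l => exists_nat_ge ((V l).o (i (D.j x)) / (V l).o ((r.factorial : ℕ) : E))
    refine ⟨univ.sup k, fun l => ((div_le_iff₀ (hQ l)).1 (hk l)).trans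
      (mul_le_mul_of_nonneg_right ?_ (hQ l).le)⟩
    exact_mod_cast le_sup (f := k) (mem_univ l)
  choose k hk using hk
  obtain ⟨R, _, _, m, j, τ, z₀, n, hj, hre, hG, hτ, hz, hy, hzz⟩ :=
    hMod A cv r r.factorial k r.factorial_pos
  obtain ⟨p, rfl, rfl⟩ := exists_par hRad cv hr D m hj hre hG hz hy
  set θ : R →+* E := i.comp (D.j.comp j) with hθ
  have hθa : ∀ x, θ x = i (D.j (j x)) := fun x => rfl
  have hinj : ∀ g : ℤ[X], g ≠ 0 → aeval (θ (zR R)) g ≠ 0 := fun g hg h => by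
    rw [← map_alg] at h
    exact hg (p.toTab.alg_injective (hj.inj (D.j_injective (hi (by
      rw [map_zero, map_zero, map_zero, map_zero]; exact h)))))
  have hz0 : θ (zR R) ≠ 0 := by simpa using hinj X X_ne_zero
  have hu : θ (zR R) - τ ≠ 0 := by simpa using hinj (X - C τ) (X_sub_C_ne_zero τ)
  have ho : ∀ l, (V l).o (θ (zR R)) ≤ 0 := fun l =>
    o_nonpos (V l) hz0 (hQ l) p.r.factorial_pos (hk z₀ l) (n := n) (by
      have := congrArg (fun x => i (D.j x)) hzz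
      simpa [hθa] using this)
  have hE := hEng R A A' E p D j i φ a ν τ (θ (zR R)) hj hi hφ ha hG hτ rfl hpair
    (fun m' n' h hh hn' hq => by
      have h1 : (n' : E) * θ (zR R) - m' ≠ 0 := by
        have := hinj (C n' * X - C m') fun h0 => hn' (by
          have h2 := congrArg (coeff · 1) h0
          simp only [coeff_sub, coeff_C_mul, coeff_X_one, coeff_C_succ, coeff_zero] at h2
          simpa using h2)
        simpa using this
      rw [hνV _ _ h1 hh, hνV _ _ hz0 hh]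
      refine sum_congr rfl fun l _ => ?_
      obtain ⟨q, hq1, hq2, hq3⟩ := hV l
      exact T_fib (V l) hz0 (ho l) hq3 (hq q hq1 hq2).1 (hq q hq1 hq2).2 h)
    (hΛ _)
  have he := p.h3
  have hdd : p.dd ≤ 2 * p.e * p.dd + 1 := by nlinarith
  have key : ∀ (l : Fin p.e) (M : ℕ), 2 * p.e * p.dd + 2 ≤ M →
      a.Λ (i D.ω * θ (zR R) ^ (2 * p.e * p.dd + 1 - p.dd) * θ (p.y l) / (θ (zR R) - τ) ^ M)
        (θ (zR R)) = 0 := fun l M hM => by
    have h2 := p.two_le_d l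
    have h3 := step a hu (ψ := θ (zR R) / θ (zR R) ^ p.dd * θ (p.y l) * i D.ω)
      (fun M hM => by
        have h4 := hE M ⟨(l, true), ⟨0, Nat.succ_pos _⟩⟩ hM
        have e : psi p θ (i D.ω) ⟨(l, true), ⟨0, Nat.succ_pos _⟩⟩ =
            θ (zR R) / θ (zR R) ^ p.dd * θ (p.y l) * i D.ω := by
          simp only [psi, if_true]
          ring
        rwa [e] at h4)
      (fun M hM => by
        have h4 := hE M ⟨(l, true), ⟨1, by show 1 < p.d l + 1; omega⟩⟩ hM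
        have e : psi p θ (i D.ω) ⟨(l, true), ⟨1, by show 1 < p.d l + 1; omega⟩⟩ =
            θ (zR R) * (θ (zR R) / θ (zR R) ^ p.dd * θ (p.y l) * i D.ω) := by
          simp only [psi, if_true]
          ring
        rwa [e] at h4) M hM
    rw [← h3, pow_sub₀ _ hz0 hdd]
    congr 3
    ring
  refine ⟨j (zR R), τ, 2 * p.e * p.dd + 1 - p.dd, 2 * p.e * p.dd + 2, by omega, ?_,
    fun h M hM => ?_⟩
  · rintro rfl
    have := p.τle
    rw [hτ] at this
    norm_num at this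
  obtain ⟨c, g, hc, hg⟩ := hj.surj h
  have hc' : (c : ℚ) ≠ 0 := Nat.cast_ne_zero.2 hc.ne'
  have hδ : cv.δ (j g) = cv.δ h := by
    rw [← hg, ← nsmul_eq_mul, ← Nat.cast_smul_eq_nsmul ℚ, cv.smul_eq hc']
  have e1 : (c : E) * i (D.j h) = ∑ l, aeval (θ (zR R)) (p.y.repr g l) * θ (p.y l) := by
    rw [← p.toTab.map_el θ, p.toTab.el_repr, hθa, ← hg]
    simp
  have e2 : i D.ω * (θ (zR R) ^ (2 * p.e * p.dd + 1 - p.dd) * i (D.j h) / (θ (zR R) - τ) ^ M) =
      (((c : ℚ)⁻¹ : ℚ) : E) * ∑ l, i D.ω * θ (zR R) ^ (2 * p.e * p.dd + 1 - p.dd) * θ (p.y l) *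
        aeval (θ (zR R)) (p.y.repr g l) / (θ (zR R) - τ) ^ M := by
    have hcE : (c : E) ≠ 0 := Nat.cast_ne_zero.2 hc.ne'
    rw [← sum_div, eq_inv_mul_iff_mul_eq₀ hcE |>.2 e1, mul_sum, mul_sum, sum_div, sum_div, mul_sum,
      mul_sum]
    refine sum_congr rfl fun l _ => ?_
    push_cast
    ring
  rw [← hθa, e2, a.smul_left, map_sum, AddMonoidHom.finsetSum_apply,
    sum_eq_zero fun l _ => ?_, mul_zero]
  by_cases h0 : p.y.repr g l = 0
  · simp [h0]
  refine poly_case a hu (key l) _ M ?_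
  have h1 := deg_le cv p.toTab hj hz hy (p.y.repr g) h0
  rw [p.toTab.el_repr, hδ] at h1
  rw [hz] at hM
  refine Nat.le_of_mul_le_mul_left ?_ p.toTab.epos
  rw [mul_add]
  omega

end Pool.Agent.P.MP_b8021b_nt.KR
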