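import Pool.Agent.P.MP_b8021b_nt.KR.Basic

/-! The regulator term on a section: the part that does not depend on the arithmetic data. -/

namespace Pool.Agent.P.MP_b8021b_nt.KR

open Polynomial Finset
open scoped Classical IntermediateField

namespace PAna

variable {E : Type} [Field E] [CharZero E] (a : AnD E)

theorem int_left (c : ℤ) (x y : E) : a.Λ (c * x) y = c * a.Λ x y := by
  simpa using a.smul_left (c : ℚ) x y

theorem int_right (c : ℤ) (x y : E) : a.Λ x (c * y) = c * a.Λ x y := by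
  simpa using a.smul_right (c : ℚ) x y

theorem N_int (c : ℤ) (x : E) : a.N (c * x) ≤ |(c : ℝ)| * a.N x := by
  simpa using a.N_smul (c : ℚ) x

theorem N'_int (c : ℤ) (x : E) : a.N' (c * x) ≤ |(c : ℝ)| * a.N' x := by
  simpa using a.N'_smul (c : ℚ) x

theorem N_aeval (z : E) {G : ℤ[X]} {D : ℕ} {b : ℝ} (hG : G.natDegree ≤ D)
    (h : ∀ k, |(G.coeff k : ℝ)| ≤ b) : a.N (aeval z G) ≤ b * ∑ k ∈ range (D + 1), a.N z ^ k := by
  rw [aeval_eq_sum_range' (Nat.lt_succ_of_le hG), mul_sum]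
  refine (a.N_sum _ _).trans (sum_le_sum fun k _ => ?_)
  rw [zsmul_eq_mul]
  exact (N_int a _ _).trans (mul_le_mul (h k) (a.N_pow z k) (a.N_nonneg _)
    ((abs_nonneg _).trans (h k)))

theorem eval_le {G : ℤ[X]} {D : ℕ} {b x y : ℝ} (hG : G.natDegree ≤ D)
    (h : ∀ k, |(G.coeff k : ℝ)| ≤ b) (hx : |x| ≤ y) :
    |(G.map (Int.castRingHom ℝ)).eval x| ≤ b * ∑ k ∈ range (D + 1), y ^ k := by
  rw [eval_eq_sum_range' (Nat.lt_succ_of_le (natDegree_map_le.trans hG)), mul_sum]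
  refine (abs_sum_le_sum_abs _ _).trans (sum_le_sum fun k _ => ?_)
  rw [abs_mul, abs_pow, coeff_map]
  exact mul_le_mul (h k) (pow_le_pow_left₀ (abs_nonneg _) hx k) (by positivity)
    ((abs_nonneg _).trans (h k))

theorem coef {u : E} (s : E) (hu : u ≠ 0) {G : ℤ[X]} {m : ℕ} (hG : G.natDegree ≤ m) :
    (G.map (Int.castRingHom ℝ) *
      ∑ n ∈ range (m + 1), monomial n (a.Λ (u⁻¹ ^ (n + 1) * s⁻¹) s)).coeff m =
      a.Λ (aeval u G * u⁻¹ ^ (m + 1) * s⁻¹) s := by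
  rw [coeff_mul, Finset.Nat.sum_antidiagonal_eq_sum_range_succ (fun i j =>
      (G.map (Int.castRingHom ℝ)).coeff i *
        (∑ n ∈ range (m + 1), monomial n (a.Λ (u⁻¹ ^ (n + 1) * s⁻¹) s)).coeff j),
    aeval_eq_sum_range' (Nat.lt_succ_of_le hG), sum_mul, sum_mul, map_sum,
    AddMonoidHom.finsetSum_apply]
  refine sum_congr rfl fun k hk => ?_
  have hk' : k ≤ m := Nat.lt_succ_iff.1 (mem_range.1 hk)
  have e : (G.coeff k • u ^ k) * u⁻¹ ^ (m + 1) * s⁻¹ =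
      (G.coeff k : E) * (u⁻¹ ^ (m - k + 1) * s⁻¹) := by
    rw [zsmul_eq_mul, show m + 1 = k + (m - k + 1) by omega, pow_add u⁻¹ k]
    have : u ^ k * u⁻¹ ^ k = 1 := by rw [← mul_pow, mul_inv_cancel₀ hu, one_pow]
    linear_combination ((G.coeff k : E) * u⁻¹ ^ (m - k + 1) * s⁻¹) * this
  rw [e, int_left, coeff_map, finsetSum_coeff]
  simp only [coeff_monomial]
  rw [sum_ite_eq' (range (m + 1)) (m - k), if_pos (mem_range.2 (by omega))]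
  rfl

/-- the logarithmic derivative of a perturbed function of `z` -/
theorem red {z V σ : E} (h0 : ∀ x ∈ ℚ⟮z⟯, ∀ y ∈ ℚ⟮z⟯, a.Λ x y = 0) (hV : V ∈ ℚ⟮z⟯) (hV0 : V ≠ 0)
    (hσ : 1 + σ ≠ 0) {x : E} (hx : x ∈ ℚ⟮z⟯) :
    a.Λ (x * (V * (1 + σ))⁻¹) (V * (1 + σ)) = a.Λ (x * (1 + σ)⁻¹) σ := by
  rw [a.dlog_mul x hV0 hσ, h0 _ (mul_mem hx (inv_mem hV)) _ hV, zero_add, map_add, a.one_right,
    zero_add]

theorem bnd {σ : E} {t : ℝ} (hσ : 1 + σ ≠ 0) (h : a.N σ ≤ 1 / 2) (h' : a.N' σ ≤ t) (x : E) :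
    |a.Λ (x * (1 + σ)⁻¹) σ| ≤ a.N x * 2 * t :=
  (a.bound _ _).trans (mul_le_mul ((a.N_mul _ _).trans (mul_le_mul_of_nonneg_left
    (a.N_inv_one_add hσ h) (a.N_nonneg x))) h' (a.N'_nonneg _)
    (mul_nonneg (a.N_nonneg x) zero_le_two))

/-- the Taylor coefficient is the linear term up to a second order error -/
theorem main {x₀ x₁ σ : E} {B : ℤ} {t b : ℝ} (hσ : 1 + σ ≠ 0) (ht : t ≤ 1 / 2) (h : a.N σ ≤ t)
    (h' : a.N' σ ≤ t) (hb : a.N x₁ ≤ b) :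
    |a.Λ ((B * x₀ + x₁) * (1 + σ)⁻¹) σ - B * a.Λ x₀ σ| ≤
      |(B : ℝ)| * (a.N x₀ * t * 2 * t) + b * 2 * t := by
  have t0 : 0 ≤ t := (a.N_nonneg _).trans h
  have e : (B * x₀ + x₁) * (1 + σ)⁻¹ =
      B * x₀ - B * (x₀ * σ * (1 + σ)⁻¹) + x₁ * (1 + σ)⁻¹ := by field_simp; ring
  rw [e, map_add, map_sub, AddMonoidHom.add_apply, AddMonoidHom.sub_apply, int_left, int_left]
  have h1 := bnd a hσ (h.trans ht) h' (x₀ * σ)
  have h2 := bnd a hσ (h.trans ht) h' x₁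
  have h3 : a.N (x₀ * σ) * 2 * t ≤ a.N x₀ * t * 2 * t := by
    have := (a.N_mul x₀ σ).trans (mul_le_mul_of_nonneg_left h (a.N_nonneg _))
    gcongr
  have h4 : a.N x₁ * 2 * t ≤ b * 2 * t := by gcongr
  have h5 := mul_le_mul_of_nonneg_left (h1.trans h3) (abs_nonneg (B : ℝ))
  rw [← abs_mul] at h5
  refine le_trans (le_of_eq ?_) ((abs_sub _ _).trans (add_le_add h5 (h2.trans h4)) |>.trans' (le_refl _))
  rw [← abs_neg]
  congr 1
  ring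

theorem core (hSer : S_Ser) (hCoef : S_Coef) (z : E) (τ : ℤ) {D M : ℕ} (hD : 1 ≤ D) (hM : D < M)
    (hz : Transcendental ℚ z) (h0 : ∀ x ∈ ℚ⟮z⟯, ∀ y ∈ ℚ⟮z⟯, a.Λ x y = 0) {C A ϑ c₀ : ℝ}
    (hC : 0 < C) (hA : 1 ≤ A) (hϑ : 0 < ϑ) (hc₀ : 0 < c₀) :
    ∃ η₁ : ℝ, 0 < η₁ ∧ ∀ η : ℝ, 0 < η → η ≤ η₁ → η ≤ 1 → ∀ (T : ℝ) (B : ℤ) (F : ℤ[X]) (V σ s : E),
      0 < T → (B : ℝ) = A * T → F.natDegree ≤ D →
      (∀ k, |(F.coeff k : ℝ) - if k = D then (B : ℝ) else 0| ≤ C * η * T) → V ∈ ℚ⟮z⟯ → s ≠ 0 →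
      s = V * (1 + σ) → a.N σ ≤ C * η → a.N' σ ≤ C * η →
      a.Λ s⁻¹ s = 0 ∧ ∃ Rg R' : ℝ → ℝ, (∀ x ∈ Set.Icc (τ : ℝ) (τ + η), HasDerivAt Rg (R' x) x) ∧
        (∀ q : ℚ, (q : ℝ) ∈ Set.Icc (τ : ℝ) (τ + η) → Rg q = a.reg (z - q) s) ∧
        (c₀ * η ≤ |a.Λ (z ^ D / (z - τ) ^ M) σ| →
          ∃ c : ℝ, 0 < c ∧ ∀ Q : ℝ[X], Q.natDegree ≤ D - 1 →
            ∃ (P : ℝ[X]) (x₀ : ℝ), x₀ ∈ Set.Icc (τ : ℝ) (τ + η) ∧ P.natDegree ≤ D + M ∧
              c ≤ |P.eval x₀| ∧ ∀ x ∈ Set.Icc (τ : ℝ) (τ + η),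
                |Q.eval x - (F.map (Int.castRingHom ℝ)).eval x * R' x - P.eval x| ≤
                  ϑ * |P.eval x₀|) := by
  obtain ⟨m, rfl⟩ : ∃ m, M = m + 1 := ⟨M - 1, by omega⟩
  have hq : ∀ q : ℚ, z - q ≠ 0 := fun q h => hz (by
    rw [sub_eq_zero.1 h]
    exact isAlgebraic_algebraMap q)
  have hu : z - τ ≠ 0 := by simpa using hq τ
  have hzm : z ∈ ℚ⟮z⟯ := IntermediateField.mem_adjoin_simple_self ℚ z
  have hum : (z - τ)⁻¹ ∈ ℚ⟮z⟯ := inv_mem (sub_mem hzm (intCast_mem _ τ))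
  obtain ⟨cc, cc0, hcc⟩ := hCoef (D + (m + 1))
  set ρ := a.N (z - τ)⁻¹ with hρ
  have ρ0 : 0 ≤ ρ := a.N_nonneg _
  obtain ⟨SN, hSN⟩ : ∃ x, x = ∑ k ∈ range (D + 1), a.N z ^ k := ⟨_, rfl⟩
  have SN0 : 0 ≤ SN := hSN ▸ sum_nonneg fun k _ => pow_nonneg (a.N_nonneg _) k
  obtain ⟨SX, hSX⟩ : ∃ x, x = ∑ k ∈ range (D + 1), (|(τ : ℝ)| + 1) ^ k := ⟨_, rfl⟩
  have SX0 : 0 ≤ SX := hSX ▸ sum_nonneg fun k _ => by positivity
  obtain ⟨n₀, hn₀⟩ : ∃ x, x = a.N (z ^ D / (z - τ) ^ (m + 1)) := ⟨_, rfl⟩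
  have n0 : 0 ≤ n₀ := hn₀ ▸ a.N_nonneg _
  obtain ⟨C₃, hC₃⟩ : ∃ x, x = 2 * C ^ 2 * (A * n₀ + SN * ρ ^ (m + 1)) + 1 := ⟨_, rfl⟩
  obtain ⟨C₅, hC₅⟩ : ∃ x, x = (A + C) * SX * (4 * C * ρ * ρ ^ (m + 1)) + 1 := ⟨_, rfl⟩
  have C30 : 0 < C₃ := by rw [hC₃]; positivity
  have C50 : 0 < C₅ := by rw [hC₅]; positivity
  refine ⟨min (min (1 / (2 * C)) (1 / (2 * (ρ + 1)))) (min (c₀ / (2 * C₃))
    (ϑ * cc * c₀ / (2 * C₅))), by positivity, ?_⟩
  intro η η0 hη η1 T B F V σ s T0 hB hF hFc hV hs hsV hN hN'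
  simp only [le_min_iff] at hη
  obtain ⟨⟨e1, e2⟩, e3, e4⟩ := hη
  rw [le_div_iff₀ (by positivity)] at e1 e2 e3 e4
  have hV0 : V ≠ 0 := left_ne_zero_of_mul (hsV ▸ hs)
  have hσ : 1 + σ ≠ 0 := right_ne_zero_of_mul (hsV ▸ hs)
  have t1 : C * η ≤ 1 / 2 := by linarith
  have hr : ∀ x ∈ ℚ⟮z⟯, a.Λ (x * s⁻¹) s = a.Λ (x * (1 + σ)⁻¹) σ := fun x hx => by
    rw [hsV, red a h0 hV hV0 hσ hx]
  refine ⟨by simpa [a.wind hσ (hN.trans t1)] using hr 1 (one_mem _), ?_⟩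
  obtain ⟨Rg, R', k1, k2⟩ := hSer E a z s τ (2 * (C * η)) ρ η (m + 1) hs hu le_rfl η0
    (by nlinarith) fun n => by
      rw [hr _ (pow_mem hum _)]
      refine (bnd a hσ (hN.trans t1) hN' _).trans ?_
      have := a.N_pow (z - τ)⁻¹ (n + 1)
      have : 0 ≤ C * η := by positivity
      nlinarith
  refine ⟨Rg, R', fun x hx => (k1 x hx).1, fun q h => k2 q h (hq q), fun hl => ?_⟩
  refine ⟨cc * (T * c₀ * η / 2) * η ^ m, by positivity, fun Q hQ => ?_⟩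
  obtain ⟨W, hW⟩ : ∃ W : ℝ[X], W =
    ∑ n ∈ range (m + 1), monomial n (a.Λ ((z - τ)⁻¹ ^ (n + 1) * s⁻¹) s) := ⟨_, rfl⟩
  have hWd : W.natDegree ≤ m + 1 := hW ▸ natDegree_sum_le_of_forall_le _ _ fun n hn =>
    (natDegree_monomial_le _).trans (mem_range.1 hn).le
  obtain ⟨P, hP⟩ : ∃ P : ℝ[X], P = Q + F.map (Int.castRingHom ℝ) * taylor (-(τ : ℝ)) W := ⟨_, rfl⟩
  have hPd : P.natDegree ≤ D + (m + 1) := by
    rw [hP]
    refine (natDegree_add_le _ _).trans (max_le (by omega) (natDegree_mul_le.trans ?_))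
    rw [natDegree_taylor]
    exact add_le_add (natDegree_map_le.trans hF) hWd
  have hG : ∀ k, |((F - monomial D B).coeff k : ℝ)| ≤ C * η * T := fun k => by
    refine le_trans (le_of_eq ?_) (hFc k)
    rw [coeff_sub, coeff_monomial]
    simp only [eq_comm (a := D)]
    split_ifs <;> simp
  have hGd : (F - monomial D B).natDegree ≤ D :=
    (natDegree_sub_le _ _).trans (max_le hF (natDegree_monomial_le _))
  have hco : (taylor (τ : ℝ) P).coeff m = a.Λ ((B * (z ^ D / (z - τ) ^ (m + 1)) +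
      aeval z (F - monomial D B) * (z - τ)⁻¹ ^ (m + 1)) * (1 + σ)⁻¹) σ := by
    have h1 : taylor (τ : ℝ) (F.map (Int.castRingHom ℝ)) =
        (taylor τ F).map (Int.castRingHom ℝ) := by rw [map_taylor]; rfl
    have h2 : aeval (z - τ) (taylor τ F) = aeval z F := by
      rw [taylor_apply, aeval_comp]
      simp
    rw [hP, map_add, taylor_mul, taylor_taylor, add_neg_cancel, taylor_zero, coeff_add,
      coeff_eq_zero_of_natDegree_lt (by rw [natDegree_taylor]; omega), zero_add, h1, hW,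
      coef a s hu (by rw [natDegree_taylor]; omega), h2, hr]
    · congr 3
      rw [map_sub, aeval_monomial, div_eq_mul_inv, inv_pow]
      simp only [eq_intCast]
      ring
    · refine mul_mem ?_ (pow_mem hum _)
      rw [aeval_eq_sum_range]
      exact sum_mem fun k _ => zsmul_mem (pow_mem hzm _) _
  have hb : a.N (aeval z (F - monomial D B) * (z - τ)⁻¹ ^ (m + 1)) ≤
      C * η * T * SN * ρ ^ (m + 1) :=
    (a.N_mul _ _).trans (mul_le_mul (hSN ▸ N_aeval a z hGd hG) (a.N_pow _ _) (a.N_nonneg _)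
      (by positivity))
  have hm := main a (x₀ := z ^ D / (z - τ) ^ (m + 1)) (B := B) hσ t1 hN hN' hb
  rw [← hco, ← hn₀, hB, abs_of_pos (show 0 < A * T by positivity)] at hm
  have hlow : T * c₀ * η / 2 ≤ |(taylor (τ : ℝ) P).coeff m| := by
    have h1 := abs_sub_abs_le_abs_sub (A * T * a.Λ (z ^ D / (z - τ) ^ (m + 1)) σ)
      ((taylor (τ : ℝ) P).coeff m)
    rw [abs_sub_comm, abs_mul, abs_of_pos (show 0 < A * T by positivity)] at h1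
    have h2 : 1 * T * (c₀ * η) ≤ A * T * |a.Λ (z ^ D / (z - τ) ^ (m + 1)) σ| := by gcongr
    have h3 : A * T * (n₀ * (C * η) * 2 * (C * η)) + C * η * T * SN * ρ ^ (m + 1) * 2 * (C * η) =
        T * η * (η * (C₃ - 1)) := by rw [hC₃]; ring
    have h4 : T * η * (η * (C₃ - 1)) ≤ T * η * (c₀ / 2) := by
      gcongr
      nlinarith
    linarith
  obtain ⟨x₀, hx₀, h1⟩ := hcc P τ η m hPd η0
  have h2 : cc * (T * c₀ * η / 2) * η ^ m ≤ |P.eval x₀| := le_trans (by gcongr) h1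
  refine ⟨P, x₀, hx₀, hPd, h2, fun x hx => ?_⟩
  have h3 : Q.eval x - (F.map (Int.castRingHom ℝ)).eval x * R' x - P.eval x =
      -((F.map (Int.castRingHom ℝ)).eval x * (R' x + ∑ n ∈ range (m + 1),
        a.Λ ((z - τ)⁻¹ ^ (n + 1) * s⁻¹) s * (x - τ) ^ n)) := by
    rw [hP, eval_add, eval_mul, taylor_eval, hW, eval_finsetSum]
    simp only [eval_monomial, ← sub_eq_add_neg]
    ring
  have h4 : |(F.map (Int.castRingHom ℝ)).eval x| ≤ (A + C) * T * SX := by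
    rw [hSX]
    refine eval_le hF (fun k => ?_) ?_
    · have h5 := hFc k
      have h6 : C * η * T ≤ C * 1 * T := by gcongr
      have h7 : 0 < A * T := by positivity
      rw [hB] at h5
      split_ifs at h5
      · have := abs_sub_abs_le_abs_sub (F.coeff k : ℝ) (A * T)
        rw [abs_of_pos h7] at this
        linarith
      · rw [sub_zero] at h5
        linarith
    · have := le_abs_self (τ : ℝ)
      have := neg_abs_le (τ : ℝ)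
      rw [abs_le]
      constructor <;> linarith [hx.1, hx.2]
  rw [h3, abs_neg, abs_mul]
  refine (mul_le_mul h4 (k1 x hx).2 (abs_nonneg _) (by positivity)).trans
    (le_trans ?_ (mul_le_mul_of_nonneg_left h2 hϑ.le))
  have h5 : (A + C) * T * SX * (2 * (2 * (C * η)) * ρ * (ρ * η) ^ (m + 1)) =
      T * η * η ^ m * (η * (C₅ - 1)) := by rw [hC₅]; ring
  have h6 : T * η * η ^ m * (η * (C₅ - 1)) ≤ T * η * η ^ m * (ϑ * cc * c₀ / 2) := by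
    gcongr
    nlinarith
  rw [h5]
  exact h6.trans (le_of_eq (by ring))

end PAna

end Pool.Agent.P.MP_b8021b_nt.KR
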