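import Pool.Agent.P.MP_b8021b_nt.KR.St
import Pool.Agent.P.MP_b8021b_nt.VC.BSa

/-! Part B with a Remez inequality off a small set of sections: rigidity on almost every section. -/

namespace Pool.Agent.P.MP_b8021b_nt.KR.PBR

open Pool.Agent.P.MP_b8021b_nt.VE Pool.Agent.P.MP_b8021b_nt.VC Pool.Agent.P.MP_b8021b_nt.VC.B
open Polynomial Finset
open scoped Classical

variable {kp CR δ : ℝ}

section

variable {P X T S : Type} [Fintype P] [Fintype X] [Fintype T] [Fintype S] {Nc u d : ℕ}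

theorem ok_mono {G : Sys P X T S Nc u} {Bad : Finset S} {ε ε' : ℝ}
    (h : OkR G kp d CR δ Bad ε) (e : ε ≤ ε') : OkR G kp d CR δ Bad ε' :=
  ⟨h.des.mono e, ⟨h.box.mem, Sa.cell_mono h.box.cell e, h.box.inv⟩, h.anti, h.size, h.eqn,
    h.bad.trans e, h.rem⟩

/-- `Sys.RS` with a good set that avoids `Bad` -/
def RS (G : Sys P X T S Nc u) (d : ℕ) (Bad : Finset S) (a : X → ℝ) (lam h ε : ℝ) : Prop :=
  ∃ Gd : Finset S, ∑ s with s ∉ Gd, G.σS.wt s ≤ ε ∧ (∀ s ∈ Gd, s ∉ Bad) ∧ ∀ s ∈ Gd, ∃ φ₀ κ : ℝ,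
    (∑ x with lam < |G.c₂ x s - a x + G.β / (u + 2) - φ₀ - κ * G.b.v (G.b.pr x)|,
      G.σS.m G.b s x) / G.b.N ≤ h ∧
    ∀ t, |G.A s (G.box.τ t) + (u + 2) * φ₀ + κ * G.Lg d s t| ≤ lam

end

/-- B9 -/
def SA (kp CR δ : ℝ) : Prop :=
  ∀ u d, 6 ≤ u → ∃ (C h₀ : ℝ) (N₀ : ℕ), 1 ≤ C ∧ 0 < h₀ ∧ ∀ Nc, N₀ ≤ Nc → ∀ ε' : ℝ, 0 < ε' →
    ∃ ε : ℝ, 0 < ε ∧ ∀ (P X T S : Type) [Fintype P] [Fintype X] [Fintype T] [Fintype S]
      (G : Sys P X T S Nc u) (Bad : Finset S), OkR G kp d CR δ Bad ε →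
      ∀ (a : X → ℝ) (lam h : ℝ), 0 < lam → h ≤ h₀ →
      G.PT a lam h → RS G d Bad a (C * lam) (C * h + ε') ε'

/-- B10 -/
def Tl (kp CR δ : ℝ) : Prop :=
  ∀ u d, 6 ≤ u → ∃ (C h₀ : ℝ) (N₀ : ℕ), 1 ≤ C ∧ 0 < h₀ ∧ ∀ Nc, N₀ ≤ Nc → ∀ ε' : ℝ, 0 < ε' →
    ∃ ε : ℝ, 0 < ε ∧ ∀ (P X T S : Type) [Fintype P] [Fintype X] [Fintype T] [Fintype S]
      (G : Sys P X T S Nc u) (Bad : Finset S), OkR G kp d CR δ Bad ε →
      ∀ (a : X → ℝ) (lam h : ℝ), 0 < lam → h ≤ h₀ →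
      G.PT a lam h → ∃ a', G.PT a' (C * lam) (C * h ^ 2 + ε')

/-- B11 -/
def Ct (kp CR δ : ℝ) : Prop :=
  ∀ u d, 6 ≤ u → ∃ (C h₀ : ℝ) (N₀ : ℕ), 1 ≤ C ∧ 0 < h₀ ∧ ∀ Nc, N₀ ≤ Nc → ∀ ε' : ℝ, 0 < ε' →
    ∃ ε : ℝ, 0 < ε ∧ ∀ (P X T S : Type) [Fintype P] [Fintype X] [Fintype T] [Fintype S]
      (G : Sys P X T S Nc u) (Bad : Finset S), OkR G kp d CR δ Bad ε →
      ∀ (a : X → ℝ) (lam h θ : ℝ), 0 < lam → h ≤ h₀ → 0 < θ →
      θ ≤ 1 → G.PT a lam h → ∃ a', G.PT a' (θ * lam) (C * (h + 1 / (Nc : ℝ) ^ 2 + ε') / θ ^ 2)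

theorem union_comm_aux {S : Type} [Fintype S] (B : Finset S) (w : S → ℝ) :
    ∑ s, (if s ∈ B then w s else 0) = ∑ s ∈ B, w s := by
  rw [sum_ite_mem, univ_inter]

open Sa in
theorem sa (hCR : 1 ≤ CR) (hδ : 0 < δ) (hCond : B.S_Cond kp) (hLoc : B.S_Loc kp)
    (hLocS : S_LocS) : SA kp CR δ := by
  intro u d hu
  obtain ⟨C₁, h₁, hC₁, hh₁, hS⟩ := hLocS u hu CR δ hCR hδ
  obtain ⟨C₂, hC₂, hC⟩ := hCond u hu
  have hn : (1 : ℝ) ≤ u + 2 := by linarith [Nat.cast_nonneg (α := ℝ) u]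
  have hA : 1 ≤ C₁ * (u + 2) := one_le_mul_of_one_le_of_one_le hC₁ hn
  refine ⟨C₁ * (u + 2) * C₂, h₁ / (2 * (u + 2) * C₂), ⌈CR / h₁⌉₊ + 1,
    one_le_mul_of_one_le_of_one_le hA hC₂, by positivity, fun Nc hNc ε' hε' => ?_⟩
  obtain ⟨ε₀, hε₀, a1, a2⟩ : ∃ ε₀ : ℝ, 0 < ε₀ ∧ ε₀ * (2 * (u + 2)) ≤ h₁ ∧
      ε₀ * (C₁ * (u + 2 + 1)) ≤ ε' :=
    ⟨min (h₁ / (2 * (u + 2))) (ε' / (C₁ * (u + 2 + 1))), by positivity,
      (le_div_iff₀ (by positivity)).1 (min_le_left _ _),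
      (le_div_iff₀ (by positivity)).1 (min_le_right _ _)⟩
  obtain ⟨ε₁, hε₁, hC⟩ := hC ε₀ hε₀
  obtain ⟨ε₂, hε₂, hL⟩ := hLoc u hu (Nc * Nc) ε₀ hε₀
  refine ⟨min (min ε₁ ε₂) ε₀, lt_min (lt_min hε₁ hε₂) hε₀,
    fun P X T S _ _ _ _ G Bad hG' a lam h hlam hh hP => ?_⟩
  have hG := ok_mono hG' (min_le_left _ _)
  have hB := hG'.bad.trans (min_le_right _ _)
  have hN2 : ⌈CR / h₁⌉₊ + 1 ≤ Nc := hNc
  have hN0 : 0 < Nc := by omega
  have : Nonempty (Fin Nc × Fin Nc) := ⟨(⟨0, hN0⟩, ⟨0, hN0⟩)⟩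
  have hθ : CR / Nc ≤ h₁ := by
    rw [div_le_iff₀ (Nat.cast_pos.2 hN0), mul_comm, ← div_le_iff₀ hh₁]
    exact (Nat.le_ceil _).trans (Nat.cast_le.2 (by omega))
  have b1 := hC P X T S G.b G.σT G.σS G.μ (des_mono hG.des (lt_min hε₁ hε₂) (min_le_left _ _))
    (fun t x => lam < |G.c₁ x t - a x|) h hP.2
  obtain ⟨Gd, b2, -, b3⟩ := hL P X T S (Fin Nc × Fin Nc) G.b G.σT G.σS G.μ G.box.cell (by simp)
    (des_mono hG.des (lt_min hε₁ hε₂) (min_le_right _ _)) (cell_mono hG.box.cell (min_le_right _ _))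
  have hw := hG.des.sS.nonneg
  refine ⟨(Gd.filter fun s => ∑ t, ∑ x with lam < |G.c₁ (x 0) t - a (x 0)|, G.μ t s x ≤
    G.σS.wt s * (C₂ * h + ε₀)) \ Bad, ?_, fun s hs => (mem_sdiff.1 hs).2, fun s hs' => ?_⟩
  · have b4 : ε₀ + ε₀ + ε₀ ≤ ε' := by
      have hu' : (6 : ℝ) ≤ u := by exact_mod_cast hu
      have : 3 ≤ C₁ * (u + 2 + 1) := by nlinarith
      nlinarith
    refine le_trans ?_ ((add_le_add (add_le_add b2 b1) hB).trans b4)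
    rw [← union_comm_aux Bad G.σS.wt]
    simp only [sum_filter, ← sum_add_distrib, mem_filter, mem_sdiff]
    refine sum_le_sum fun s _ => ?_
    have := hw s
    by_cases c0 : s ∈ Bad
    · rw [if_pos (fun h => h.2 c0), if_pos c0]
      refine le_add_of_nonneg_left ?_
      positivity
    rw [if_neg c0, add_zero]
    by_cases c1 : s ∈ Gd
    · by_cases c2 : ∑ t, (∑ x, if lam < |G.c₁ (x 0) t - a (x 0)| then G.μ t s x else 0) ≤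
          G.σS.wt s * (C₂ * h + ε₀)
      · rw [if_neg (not_not.2 ⟨⟨c1, c2⟩, c0⟩)]
        positivity
      · rw [if_pos (fun h => c2 h.1.2), if_neg (not_not.2 c1), if_pos (not_le.1 c2), zero_add]
    · rw [if_pos (fun h => c1 h.1.1), if_pos c1]
      refine le_add_of_nonneg_right ?_
      positivity
  · obtain ⟨hs, c0⟩ := mem_sdiff.1 hs'
    obtain ⟨c1, c2⟩ := mem_filter.1 hs
    obtain ⟨c3, c4⟩ := b3 s c1
    have c5 : (u + 2) * (C₂ * h + ε₀) ≤ h₁ := by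
      have := (le_div_iff₀ (by positivity)).1 hh
      nlinarith
    have c6 : ∑ t, ∑ x with (u + 2) * lam <
        |∑ i, (G.c₂ (x i) s - a (x i) + G.β / (u + 2)) + G.A s (G.box.τ t)|,
        G.μ t s x / G.σS.wt s ≤ (u + 2) * (C₂ * h + ε₀) := by
      simp only [← sum_div]
      rw [div_le_iff₀ c3]
      refine (sum_le_sum fun t _ => union_bound (G.μ t s) (hG.des.mix.tup.nonneg t s)
        (hG.des.mix.tup.symm t s) (fun y => G.c₁ y t - a y) _ lam fun x hx => ?_).trans ?_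
      · have hβ : ((u + 2 : ℕ) : ℝ) * (G.β / (u + 2)) = G.β := by
          push_cast
          field_simp
        simp only [sum_add_distrib, sum_sub_distrib, hG.eqn t s x hx, sum_const, card_univ,
          Fintype.card_fin, nsmul_eq_mul, hβ]
        ring
      · rw [← mul_sum, mul_assoc, mul_comm _ (G.σS.wt s)]
        exact mul_le_mul_of_nonneg_left c2 (by positivity)
    obtain ⟨φ₀, κ, d1, d2⟩ := hS X T (Fin Nc × Fin Nc) G.b.N (fun x => G.b.lev (G.b.pr x))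
      (G.σS.m G.b s) (fun t x => G.μ t s x / G.σS.wt s) G.box.cell ε₀ (CR / Nc)
      ((u + 2) * (C₂ * h + ε₀)) ((u + 2) * lam) (fun t => G.A s (G.box.τ t)) (G.Lg d s)
      (fun x => G.b.v (G.b.pr x)) (fun x => G.c₂ x s - a x + G.β / (u + 2)) (by nlinarith)
      (by positivity) hθ c5 (by positivity) c4
      (hG.rem s c0)
      (fun x => hG.des.base.v_mem _)
      (fun t x hx => hG.size t s x fun h0 => hx (by simp only [h0, zero_div])) c6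
    have d3 : C₁ * ((u + 2) * lam) ≤ C₁ * (u + 2) * C₂ * lam := by
      rw [← mul_assoc]
      exact mul_le_mul_of_nonneg_right (le_mul_of_one_le_right (by positivity) hC₂) hlam.le
    refine ⟨φ₀, κ, le_trans ?_ (d1.trans ?_), fun t => (d2 t).trans d3⟩
    · refine div_le_div_of_nonneg_right (sum_le_sum_of_subset_of_nonneg (fun x hx => ?_)
        fun x _ _ => c4.m_nonneg x) (Nat.cast_nonneg _)
      exact mem_filter.2 ⟨mem_univ _, d3.trans_lt (mem_filter.1 hx).2⟩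
    · nlinarith

end Pool.Agent.P.MP_b8021b_nt.KR.PBR
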