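import Pool.Agent.P.MP_b8021b_nt.KR.St

/-! A Taylor coefficient bounds the maximum of a polynomial on an interval from below. -/

namespace Pool.Agent.P.MP_b8021b_nt.KR

open Polynomial Finset

namespace PCoef

/-- coefficients of a polynomial of bounded degree against its values on the unit interval -/
lemma coef01 (d : ℕ) : ∃ K : ℝ, 0 < K ∧ ∀ (Q : ℝ[X]) (k : ℕ), Q.natDegree ≤ d →
    ∃ x ∈ Set.Icc (0 : ℝ) 1, |Q.coeff k| ≤ K * |Q.eval x| := by
  set v : ℕ → ℝ := fun k => (k : ℝ) / (d + 1) with hv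
  have hd : (0 : ℝ) < d + 1 := by positivity
  have hinj : Set.InjOn v (range (d + 1) : Finset ℕ) := by
    intro a _ b _ h
    simp only [hv] at h
    have := (div_left_inj' hd.ne').mp h
    exact_mod_cast this
  set B : ℕ → ℝ[X] := fun i => Lagrange.basis (range (d + 1)) v i with hB
  have hs : 0 ≤ ∑ k ∈ range (d + 1), ∑ i ∈ range (d + 1), |(B i).coeff k| :=
    sum_nonneg fun k _ => sum_nonneg fun i _ => abs_nonneg _
  refine ⟨1 + ∑ k ∈ range (d + 1), ∑ i ∈ range (d + 1), |(B i).coeff k|, by linarith,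
    fun Q k hQ => ?_⟩
  obtain ⟨j, hj, hmax⟩ := exists_max_image (range (d + 1)) (fun i => |Q.eval (v i)|)
    ⟨0, mem_range.mpr (Nat.succ_pos d)⟩
  have hj1 : v j ∈ Set.Icc (0 : ℝ) 1 := by
    refine ⟨by simp only [hv]; positivity, ?_⟩
    simp only [hv]
    rw [div_le_one hd]
    have := (mem_range.mp hj).le
    exact_mod_cast this
  refine ⟨v j, hj1, ?_⟩
  have hS : 0 ≤ |Q.eval (v j)| := abs_nonneg _
  by_cases hk : d < k
  · rw [coeff_eq_zero_of_natDegree_lt (hQ.trans_lt hk), abs_zero]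
    exact mul_nonneg (by linarith) hS
  have hk' : k ∈ range (d + 1) := mem_range.mpr (by omega)
  have hdeg : Q.degree < (range (d + 1)).card := by
    rw [card_range]
    exact lt_of_le_of_lt degree_le_natDegree (by exact_mod_cast Nat.lt_succ_of_le hQ)
  have hQ' := Lagrange.eq_interpolate hinj hdeg
  rw [Lagrange.interpolate_apply] at hQ'
  have he : Q.coeff k = ∑ i ∈ range (d + 1), Q.eval (v i) * (B i).coeff k := by
    conv_lhs => rw [hQ']
    simp only [finsetSum_coeff, coeff_C_mul, hB]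
  have h1 : |Q.coeff k| ≤ (∑ i ∈ range (d + 1), |(B i).coeff k|) * |Q.eval (v j)| := by
    rw [he, sum_mul]
    refine (abs_sum_le_sum_abs _ _).trans (sum_le_sum fun i hi => ?_)
    rw [abs_mul, mul_comm]
    exact mul_le_mul_of_nonneg_left (hmax i hi) (abs_nonneg _)
  have h2 : ∑ i ∈ range (d + 1), |(B i).coeff k| ≤
      ∑ k ∈ range (d + 1), ∑ i ∈ range (d + 1), |(B i).coeff k| :=
    single_le_sum (f := fun k => ∑ i ∈ range (d + 1), |(B i).coeff k|)
      (fun k _ => sum_nonneg fun i _ => abs_nonneg _) hk'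
  exact h1.trans (mul_le_mul_of_nonneg_right (by linarith) hS)

end PCoef

theorem p_coef : S_Coef := by
  intro d
  obtain ⟨K, hK, h⟩ := PCoef.coef01 d
  refine ⟨K⁻¹, inv_pos.mpr hK, fun P τ η k hP hη => ?_⟩
  have hdeg : ((taylor τ P).comp (C η * X)).natDegree ≤ d := by
    refine natDegree_comp_le.trans ?_
    rw [natDegree_taylor]
    have h1 : (C η * X : ℝ[X]).natDegree ≤ 1 := by
      refine (natDegree_C_mul_le _ _).trans ?_
      exact natDegree_X_le
    exact (Nat.mul_le_mul hP h1).trans (by omega)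
  obtain ⟨x, hx, hc⟩ := h _ k hdeg
  refine ⟨η * x + τ, ⟨by nlinarith [hx.1], by nlinarith [hx.2]⟩, ?_⟩
  rw [comp_C_mul_X_coeff, eval_comp, taylor_eval, eval_mul, eval_C, eval_X, abs_mul,
    abs_of_pos (pow_pos hη k)] at hc
  rw [mul_assoc, inv_mul_le_iff₀ hK]
  exact hc

end Pool.Agent.P.MP_b8021b_nt.KR
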