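import Pool.Agent.P.MP_b8021b_nt.KR.St
import Pool.Agent.P.MP_b8021b_nt.VE.BasicS

/-! Raising the order of vanishing modulo exact forms. -/

namespace Pool.Agent.P.MP_b8021b_nt.KR

open Polynomial Finset WithZero Pool.Agent.P.MP_b8021b_nt.VE Pool.Agent.P.MP_b8021b_nt.VC
open scoped Classical WithZero

namespace PFA

variable {F : Type} [Field F] [CharZero F]

theorem int_qb (x : Qb) : IsIntegral ℚ x :=
  ((AlgebraicClosure.isAlgebraic ℚ).isAlgebraic x).isIntegral

theorem val_aeval (p : GPt F) {a : F} {c : Qb} (h : p.Val a c) (g : ℚ[X]) :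
    p.Val (aeval a g) (aeval c g) := p.val_eval₂ p.val_rat h g

theorem val_smul (p : GPt F) {a : F} {c : Qb} (h : p.Val a c) (q : ℚ) :
    p.Val (q • a) (q • c) := by
  rw [Algebra.smul_def, Algebra.smul_def]
  exact (p.val_rat q).mul h

/-- a relation that is compatible with an operator is compatible with its polynomials -/
theorem rel_aeval (θ : Module.End ℚ F) (R : F → Qb → Prop) (μ : Qb)
    (hadd : ∀ a b c d, R a c → R b d → R (a + b) (c + d))
    (hsm : ∀ (q : ℚ) a c, R a c → R (q • a) (q • c))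
    (hθ : ∀ a c, R a c → R (θ a) (μ * c)) (P : ℚ[X]) {a : F} {c : Qb} (h : R a c) :
    R (aeval θ P a) (aeval μ P * c) := by
  have hp : ∀ n : ℕ, R ((θ ^ n) a) (μ ^ n * c) := by
    intro n
    induction n with
    | zero => simpa using h
    | succ n ih =>
      rw [pow_succ', pow_succ', mul_assoc]
      exact hθ _ _ ih
  induction P using Polynomial.induction_on' with
  | add P Q hP hQ =>
    rw [map_add, map_add, add_mul]
    exact hadd _ _ _ _ hP hQ
  | monomial n q =>
    rw [aeval_monomial, aeval_monomial, ← Algebra.smul_def, ← Algebra.smul_def, smul_mul_assoc]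
    exact hsm q _ _ (hp n)

/-- the operator `h D` -/
noncomputable def op (D : Derivation ℚ F F) (h : F) : Module.End ℚ F :=
  (LinearMap.mulLeft ℚ h).comp D.toLinearMap

theorem op_apply (D : Derivation ℚ F F) (h a : F) : op D h a = h * D a := rfl

theorem L_aeval (D : Derivation ℚ F F) (L : F →+ ℝ) (hL : ∀ b, L (D b) = 0) {h : F} (h0 : h ≠ 0)
    (P : ℚ[X]) (a : F) : L (aeval (op D h) P a / h) = (P.coeff 0 : ℝ) * L (a / h) := by
  have hs : ∀ (q : ℚ) x, L (q • x) = (q : ℝ) * L x := fun q x => by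
    rw [map_rat_smul, Rat.smul_def]
  induction P using Polynomial.induction_on' with
  | add P Q hP hQ =>
    rw [map_add, LinearMap.add_apply, add_div, map_add, hP, hQ, coeff_add]
    push_cast
    ring
  | monomial n q =>
    rw [aeval_monomial, ← Algebra.smul_def, LinearMap.smul_apply, smul_div_assoc, hs]
    cases n with
    | zero => simp
    | succ n =>
      rw [pow_succ', Module.End.mul_apply, op_apply, mul_div_cancel_left₀ _ h0, hL,
        coeff_monomial, if_neg (Nat.succ_ne_zero n)]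
      simp

omit [CharZero F] in
theorem exists_ord (p : GPt F) (k : ℤ) : ∃ t : F, t ≠ 0 ∧ p.ord t = k := by
  obtain ⟨t, ht⟩ := p.surj (exp (-k))
  refine ⟨t, ?_, ?_⟩
  · rintro rfl
    rw [map_zero] at ht
    exact exp_ne_zero ht.symm
  · rw [GPt.ord, ht, log_exp, neg_neg]

/-- `a` vanishes to order at least `k` -/
def Ge (p : GPt F) (k : ℤ) (a : F) : Prop := a = 0 ∨ k ≤ p.ord a

omit [CharZero F] in
theorem ge_one {p : GPt F} {a : F} (h : p.Val a 0) : Ge p 1 a := by
  rcases eq_or_ne a 0 with rfl | ha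
  · exact Or.inl rfl
  · exact Or.inr (h.ord_pos ha)

/-- one step at one point -/
theorem step_pt (D : Derivation ℚ F F) (h : F) (p : GPt F) (c : Qb)
    (hc : ∀ b, b ≠ 0 → p.Val (h * D b / b) (c * p.ord b)) (k : ℤ) (P : ℚ[X])
    (hP : aeval (c * k) P = 0) {a : F} (ha : Ge p k a) : Ge p (k + 1) (aeval (op D h) P a) := by
  obtain ⟨t, ht0, ht⟩ := exists_ord p k
  have h1 : ∃ l, p.Val (a / t) l := by
    rcases eq_or_ne a 0 with rfl | h0
    · exact ⟨0, by simpa using p.val_zero⟩
    · refine p.exists_val ((p.ord_nonneg_iff (div_ne_zero h0 ht0)).1 ?_)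
      rw [p.ord_div h0 ht0, ht]
      linarith [ha.resolve_left h0]
  obtain ⟨l, hl⟩ := h1
  have key := rel_aeval (op D h) (fun x y => p.Val (x / t) y) (c * k)
    (fun x y u v hx hy => by rw [add_div]; exact hx.add hy)
    (fun q x u hx => by rw [smul_div_assoc]; exact val_smul p hx q)
    (fun x u hx => by
      rcases eq_or_ne x 0 with rfl | h0
      · have e : u = 0 := hx.unique (by simpa using p.val_zero)
        simpa [e] using p.val_zero
      · have h2 := (hc x h0).mul hx
        have e : h * D x / x * (x / t) = op D h x / t := by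
          rw [op_apply]
          field_simp
        rw [e] at h2
        rcases eq_or_ne u 0 with rfl | hu
        · simpa using h2
        · have h3 := hx.ord_eq_zero hu
          rw [p.ord_div h0 ht0, ht, sub_eq_zero] at h3
          rwa [h3] at h2) P hl
  rw [hP, zero_mul] at key
  rcases eq_or_ne (aeval (op D h) P a) 0 with h0 | h0
  · exact Or.inl h0
  · have h3 := key.ord_pos (div_ne_zero h0 ht0)
    rw [p.ord_div h0 ht0, ht] at h3
    exact Or.inr (by linarith)

/-- modulo exact forms the order of vanishing on `S` can be raised -/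
theorem core (D : Derivation ℚ F F) (L : F →+ ℝ) (hL : ∀ b, L (D b) = 0) {h : F} (h0 : h ≠ 0)
    (S : Finset (GPt F)) (G : Set (GPt F))
    (hS : ∀ p ∈ S, ∃ c : Qb, c ≠ 0 ∧ ∀ b, b ≠ 0 → p.Val (h * D b / b) (c * p.ord b))
    (hG : ∀ p ∈ G, ∀ b ∈ p.v.valuationSubring, h * D b ∈ p.v.valuationSubring) (ψ : F)
    (h1 : ∀ p ∈ S, p.Val ψ 0) (h2 : ∀ p ∈ G, ψ ∈ p.v.valuationSubring) (K : ℕ) :
    ∃ (ξ : F) (r : ℝ), r ≠ 0 ∧ L (ξ / h) = r * L (ψ / h) ∧ (∀ p ∈ S, Ge p (K + 1) ξ) ∧
      ∀ p ∈ G, ξ ∈ p.v.valuationSubring := by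
  choose! c hc0 hc using hS
  induction K with
  | zero => exact ⟨ψ, 1, one_ne_zero, by rw [one_mul], fun p hp => by simpa using ge_one (h1 p hp), h2⟩
  | succ K ih =>
    obtain ⟨ξ, r, hr, e, hξ, hξ'⟩ := ih
    refine ⟨aeval (op D h) (∏ p ∈ S, minpoly ℚ (c p * ((K + 1 : ℤ) : Qb))) ξ,
      ((∏ p ∈ S, minpoly ℚ (c p * ((K + 1 : ℤ) : Qb))).coeff 0 : ℚ) * r, mul_ne_zero ?_ hr, ?_,
      fun p hp => ?_, fun p hp => ?_⟩
    · rw [coeff_zero_prod]
      refine Rat.cast_ne_zero.2 (prod_ne_zero_iff.2 fun p hp => minpoly.coeff_zero_ne_zero (int_qb _)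
        (mul_ne_zero (hc0 p hp) (Int.cast_ne_zero.2 (by omega))))
    · rw [L_aeval D L hL h0, e, mul_assoc]
    · rw [Nat.cast_succ]
      refine step_pt D h p (c p) (hc p hp) _ _ ?_ (hξ p hp)
      rw [map_prod]
      exact prod_eq_zero hp (minpoly.aeval _ _)
    · exact rel_aeval (op D h) (fun x _ => x ∈ p.v.valuationSubring) 0
        (fun _ _ _ _ hx hy => add_mem hx hy)
        (fun q x _ hx => by rw [Algebra.smul_def]; exact mul_mem (p.val_rat q).mem hx)
        (fun x _ hx => hG p hp x hx) _ (c := 0) (hξ' p hp)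

end PFA

end Pool.Agent.P.MP_b8021b_nt.KR
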