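import Pool.Agent.P.MP_b8021b_nt.KR.Basic
import Pool.Agent.P.MP_b8021b_nt.VC.PGeo2

/-! Anti-invariant data on a constant quadratic extension. -/

namespace Pool.Agent.P.MP_b8021b_nt.KR

open Polynomial NumberField Finset Pool.Agent.P.MP_b8021b_nt.VE Pool.Agent.P.MP_b8021b_nt.VC
open scoped Classical WithZero IntermediateField nonZeroDivisors

namespace PGeo2

open Geo2

section ring

variable {K : Type} [Field K] {R : Type} [CommRing R] [Algebra R K] [IsDedekindDomain R]
  [IsFractionRing R K] (h0 : VE.S_S0) (hfin : ∀ f : K, f ≠ 0 → {p : GPt K | p.ord f ≠ 0}.Finite)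

include h0 hfin

theorem isFn0 {l : GPt K → Qb → ℝ} (hl : PTrans.Ad l) :
    IsFn0 (Geo2.phi l : MaximalSpectrum R → R → ℝ) where
  zero P h hh := finsum_eq_zero_of_forall_eq_zero fun p => by
    by_cases h1 : Cen p P
    · rw [if_pos h1]
      obtain ⟨s, h2, h3⟩ := h1
      rw [← h2, RingHom.mem_ker] at hh
      rw [val_eq (h3 h), hh, lz, if_pos rfl]
    · exact if_neg h1
  congr P h h' hh := finsum_congr fun p => by
    by_cases h1 : Cen p P
    · rw [if_pos h1, if_pos h1]
      obtain ⟨s, h2, h3⟩ := h1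
      rw [← h2, RingHom.mem_ker, map_sub, sub_eq_zero] at hh
      rw [val_eq (h3 h), val_eq (h3 h'), hh]
    · rw [if_neg h1, if_neg h1]
  mul P h h' hh hh' := by
    rw [Geo2.phi, Geo2.phi, Geo2.phi, ← finsum_add_distrib (cen_supp h0 hfin P _) (cen_supp h0 hfin P _)]
    refine finsum_congr fun p => ?_
    by_cases h1 : Cen p P
    · rw [if_pos h1, if_pos h1, if_pos h1]
      obtain ⟨s, h2, h3⟩ := h1
      rw [← h2, RingHom.mem_ker] at hh hh'
      rw [val_eq (h3 h), val_eq (h3 h'), val_eq (h3 _), map_mul, lz, lz, lz, if_neg hh, if_neg hh',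
        if_neg (mul_ne_zero hh hh'), hl p _ _ hh hh']
    · rw [if_neg h1, if_neg h1, if_neg h1, add_zero]

theorem recip {l : GPt K → Qb → ℝ} (hl : PTrans.Ad l)
    (hinf : ∀ p : GPt K, (∃ a, algebraMap R K a ∉ p.v.valuationSubring) → ∀ u, l p u = 0)
    (f h : R) (hf : f ≠ 0) (hh : h ≠ 0) (hc : IsCoprime f h) :
    pair (Geo2.phi l) h f - pair (Geo2.phi l) f h = PTrans.B l (algebraMap R K f) (algebraMap R K h) := by
  have i1 : ∀ w : R, w ≠ 0 → algebraMap R K w ≠ 0 := fun w hw =>
    (map_ne_zero_iff _ (IsFractionRing.injective R K)).2 hw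
  have sp : ∀ (w : R) (g : GPt K → ℝ), w ≠ 0 → Function.HasFiniteSupport fun p : GPt K =>
      if ∃ P : MaximalSpectrum R, Cen p P then (p.ord (algebraMap R K w) : ℝ) * g p else 0 :=
    fun w g hw => (hfin _ (i1 w hw)).subset fun p hp h => hp (by simp [h])
  rw [pair_eq h0 hfin l hf, pair_eq h0 hfin l hh,
    ← finsum_sub_distrib (sp _ _ hh) (sp _ _ hf), PTrans.B]
  refine finsum_congr fun p => ?_
  have h5 := (PTrans.ts_U p (i1 f hf) (i1 h hh)).val.2
  rw [PTrans.b, PTrans.lam]
  generalize PTrans.val p (PTrans.ts p (algebraMap R K f) (algebraMap R K h)) = c at h5 ⊢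
  by_cases h1 : ∃ P : MaximalSpectrum R, Cen p P
  · rw [if_pos h1, if_pos h1]
    obtain ⟨P, s, -, h3⟩ := h1
    obtain ⟨a, b, hab⟩ := hc
    have h4 := congrArg s hab
    rw [map_add, map_mul, map_mul, map_one] at h4
    rw [val_eq (h3 h), val_eq (h3 f)]
    obtain ⟨n, hn⟩ := Int.eq_ofNat_of_zero_le (p.ord_nonneg (h3 f).mem)
    obtain ⟨m, hm⟩ := Int.eq_ofNat_of_zero_le (p.ord_nonneg (h3 h).mem)
    rw [PTrans.ts, hn, hm, zpow_natCast, zpow_natCast] at h5
    rw [hn, hm]
    by_cases h6 : s h = 0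
    · have h7 : s f ≠ 0 := fun h7 => by simp [h6, h7] at h4
      obtain rfl : n = 0 := by exact_mod_cast hn.symm.trans ((h3 f).ord_eq_zero h7)
      rw [pow_zero, div_one] at h5
      rw [h5.unique ((h3 f).pow m), f_pow (hl p) h7, lz, if_neg h7]
      simp
    · obtain rfl : m = 0 := by exact_mod_cast hm.symm.trans ((h3 h).ord_eq_zero h6)
      rw [pow_zero, one_div] at h5
      rw [h5.unique (((h3 h).pow n).inv (pow_ne_zero _ h6)), f_inv (hl p) (pow_ne_zero _ h6),
        f_pow (hl p) h6, lz, lz, if_neg h6]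
      simp
  · rw [if_neg h1, if_neg h1, sub_self, hinf p]
    by_contra h2
    exact h1 (exists_cen h0 fun a => by_contra fun h3 => h2 ⟨a, h3⟩)

end ring

variable {F F' : Type} [Field F] [Field F'] [Algebra F F'] [CharZero F'] {r : ℕ} {ω : F'}
  {ι : F' ≃ₐ[F] F'}

/-- the double of the ring -/
theorem dbl [Algebra ℚ F] (A : Subalgebra ℚ F) [IsFractionRing A F] [IsIntegrallyClosed A]
    [Algebra ℚ (integralClosure A F')] (hr : r.Prime) (hω : ω ^ 2 = -(r : F')) (hι : ι ω = -ω)
    (hd : ∀ a : F', ∃ g c : F, a = algebraMap F F' g + algebraMap F F' c * ω) :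
    ∃ D : Dbl A (integralClosure A F') r, (∀ a : integralClosure A F', ι (a : F') = D.ι a) ∧
      (∀ a : A, (D.j a : F') = algebraMap F F' a) ∧ (D.ω : F') = ω := by
  have h0 := om_ne hr hω
  have : CharZero F := algebraRat.charZero F
  have hi : IsIntegral A ω := ⟨X ^ 2 + C (r : A), monic_X_pow_add_C _ two_ne_zero, by simp [hω]⟩
  let e := (ι.restrictScalars A).mapIntegralClosure
  have he : ∀ a, (e a : F') = ι a := fun a => rfl
  have dn : ∀ (x : F) (n : ℕ), n ≠ 0 → IsIntegral A (algebraMap F F' (n * x)) →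
      ∃ y : A, algebraMap A F' y = algebraMap F F' x := fun x n hn h => by
    rw [isIntegral_algebraMap_iff (algebraMap F F').injective] at h
    obtain ⟨y, hy⟩ := IsIntegrallyClosed.algebraMap_eq_of_integral h
    refine ⟨(n : ℚ)⁻¹ • y, ?_⟩
    rw [IsScalarTower.algebraMap_apply A F F']
    congr 1
    change (n : ℚ)⁻¹ • (algebraMap A F y) = x
    rw [hy, Algebra.smul_def, map_inv₀, map_natCast, inv_mul_cancel_left₀ (Nat.cast_ne_zero.2 hn)]
  refine ⟨{ j := algebraMap A (integralClosure A F')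
            ω := ⟨ω, hi⟩
            sq := Subtype.ext (by simpa using hω)
            surj := fun h => ?_
            inj := fun g c h => ?_
            ι := AlgEquiv.ofRingEquiv (f := e.toRingEquiv) fun x =>
              RingHom.map_rat_algebraMap e.toRingEquiv.toRingHom x
            ιj := fun a => e.commutes a
            ιω := Subtype.ext hι }, fun a => rfl, fun a => rfl, rfl⟩
  · obtain ⟨g, c, hg⟩ := hd h
    have h1 : IsIntegral A (h : F') := h.2
    have h2 : IsIntegral A (ι h) := (e h).2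
    have h3 : ι h = algebraMap F F' g - algebraMap F F' c * ω := by
      rw [hg, map_add, map_mul, ι.commutes, ι.commutes, hι]
      ring
    obtain ⟨g', hg'⟩ := dn g 2 two_ne_zero (by
      have e1 : algebraMap F F' ((2 : ℕ) * g) = h + ι h := by
        rw [h3, hg, map_mul, map_natCast]
        push_cast
        ring
      exact e1 ▸ h1.add h2)
    obtain ⟨c', hc'⟩ := dn c (2 * r) (mul_ne_zero two_ne_zero hr.ne_zero) (by
      have e1 : algebraMap F F' ((2 * r : ℕ) * c) = (ι h - h) * ω := by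
        rw [h3, hg, map_mul, map_natCast]
        push_cast
        linear_combination 2 * algebraMap F F' c * hω
      exact e1 ▸ (h2.sub h1).mul hi)
    refine ⟨g', c', Subtype.ext ?_⟩
    change (h : F') = algebraMap A F' g' + algebraMap A F' c' * ω
    rw [hg', hc', hg]
  · have h1 : algebraMap F F' g + algebraMap F F' c * ω = 0 := congrArg Subtype.val h
    obtain ⟨h2, h3⟩ := indep h0 hι _ _ h1
    exact ⟨Subtype.ext h2, Subtype.ext h3⟩

theorem fixed {w : F'} (hw : ι w = w) {x : F'} (hx : x ∈ ℚ⟮w⟯) : ι x = x := by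
  induction hx using IntermediateField.adjoin_induction with
  | mem y hy => rw [Set.mem_singleton_iff.1 hy, hw]
  | algebraMap q => exact RingHom.map_rat_algebraMap ι.toRingEquiv.toRingHom q
  | add y z _ _ h1 h2 => rw [map_add, h1, h2]
  | inv y _ h1 => rw [map_inv₀, h1]
  | mul y z _ _ h1 h2 => rw [map_mul, h1, h2]

theorem trans_of_pole [CharZero F] (O : GPt F) {z : F} (h : O.ord z < 0) : Transcendental ℚ z := by
  intro ha
  have : Algebra.IsAlgebraic ℚ ℚ⟮z⟯ :=
    IntermediateField.isAlgebraic_adjoin_simple ha.isIntegral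
  exact (O.ord_neg_iff z).1 h (O.mem_of_alg (algebraMap ℚ⟮z⟯ F)
    ⟨z, IntermediateField.mem_adjoin_simple_self ℚ z⟩)

end PGeo2

open Geo2 PGeo2 in
theorem p_geo2 (hAlg : S_Alg) (hFA : S_FA) (hDer : S_Der) (hReg : S_Reg) (h0 : VE.S_S0) (hCrv : VC.S_Crv) (hFin : VC.S_Fin) (hRes : VC.S_Res) (hSplit : VC.S_Split) (hWeil : VC.S_Weil) (hCvEx : VC.S_CvEx) : S_Geo2 := by
  intro F F' _ _ _ _ _ hF r ω ι O l a hr hω hd hι hO hl hanti hΛ φ f hf hφ
  have hω0 := om_ne hr hω
  have hrk := rank hω0 hι hd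
  have : FiniteDimensional F F' := Module.finite_of_finrank_pos (by omega)
  have hF' : IsCurve F' := (hCrv.1 F F').1 hF
  obtain ⟨F1, -, -, -, -⟩ := hFin F' hF'
  obtain ⟨-, -, -, G4, -⟩ := hFin F hF
  obtain ⟨res, -, r1, -⟩ := hRes F F' hF
  have fix : ∀ (σ : Qb ≃+* Qb) a c, O.Val a c → σ c = c := fun σ a c h => by
    obtain ⟨b, hb⟩ := hO a c h
    rw [hb.unique (O.val_rat b)]
    exact RingHom.map_rat_algebraMap σ.toRingHom b
  obtain ⟨sp, -⟩ := hSplit F F' hF ω (X ^ 2 + C (r : F)) O (X ^ 2 + C (r : Qb))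
    (monic_X_pow_add_C _ two_ne_zero) (by rw [natDegree_X_pow_add_C, hrk]) (by simp [hω])
    (top_le_iff.1 fun a _ => by
      obtain ⟨g, c, rfl⟩ := hd a
      exact add_mem (IntermediateField.algebraMap_mem _ g) (mul_mem
        (IntermediateField.algebraMap_mem _ c) (IntermediateField.mem_adjoin_simple_self F ω)))
    (fun n => by
      simp only [coeff_add, coeff_X_pow, coeff_C]
      refine GPt.Val.add ?_ ?_
      · split_ifs
        exacts [O.val_one, O.val_zero]
      · split_ifs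
        exacts [O.val_natCast r, O.val_zero])
    (by
      have := separable_X_pow_sub_C (n := 2) (-(r : Qb)) (by norm_num)
        (neg_ne_zero.2 (Nat.cast_ne_zero.2 hr.ne_zero))
      rwa [C_neg, sub_neg_eq_add] at this)
  have hi : IsIntegral ℚ ω := ⟨X ^ 2 + C (r : ℚ), monic_X_pow_add_C _ two_ne_zero, by simp [hω]⟩
  have : FiniteDimensional ℚ ℚ⟮ω⟯ := IntermediateField.adjoin.finiteDimensional hi
  have : NumberField ℚ⟮ω⟯ := NumberField.of_module_finite ℚ _
  let z : ℚ⟮ω⟯ := ⟨ω, IntermediateField.mem_adjoin_simple_self ℚ ω⟩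
  have hz : z ^ 2 + r = 0 := Subtype.ext (by simp [z, hω])
  choose τ' hτ' using fun p : GPt F' => p.exists_emb (algebraMap ℚ⟮ω⟯ F')
  let τ : GPt F' → ℚ⟮ω⟯ →+* Qb := fun p => τ' p
  have hτ : ∀ (p : GPt F') a, p.Val (algebraMap ℚ⟮ω⟯ F' a) (τ p a) := hτ'
  have hτz : ∀ p : GPt F', p.Val ω (τ p z) := fun p => hτ p z
  choose Op hOp uOp using fun s : ℚ⟮ω⟯ →+* Qb => sp (s z) (by
    have := congrArg s hz
    simpa using this)
  have hW := hWeil ℚ⟮ω⟯ F' hF' (fun s => l (Op s)) τ (fun s => hl.1 (Op s)) hτ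
  let m : GPt F' → Qb → ℝ := fun p v => l p v - l (Op (τ p)) v
  have hm : PTrans.Ad m := fun p a b ha hb => by
    simp only [m]
    rw [hl.1 p a b ha hb, hl.1 _ a b ha hb]
    ring
  have hB : ∀ f g : F', f ≠ 0 → g ≠ 0 → PTrans.B m f g = PTrans.B l f g := fun f g hf hg => by
    have e := PTrans.B_of_kfn hW hf hg
    rw [← sub_zero (PTrans.B l f g), ← e, PTrans.B, PTrans.B, PTrans.B,
      ← finsum_sub_distrib (PTrans.b_fin F1 hl.1 hf hg) (PTrans.b_fin F1 hW.mul hf hg)]
    rfl
  have ma : ∀ p p', Le (ι.toRingEquiv : F' →+* F') p p' → ∀ v, v ≠ 0 → m p' v = -m p v := by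
    intro p p' h v hv
    have e : pl ι.toRingEquiv (Op (τ p)) = Op (τ p') := uOp _ _ ⟨fun a c h1 => by
      rw [pl_Val]
      exact (ι.commutes a).symm ▸ (hOp (τ p)).1 a c h1, by
      have h1 : p.Val (ι ω) (τ p' z) := h _ _ (hτz p')
      rw [hι] at h1
      rw [pl_Val, h1.unique (hτz p).neg]
      exact hι ▸ (hOp (τ p)).2.neg⟩
    simp only [m]
    rw [hanti p p' h v hv, ← e, hanti (Op (τ p)) (pl ι.toRingEquiv (Op (τ p))) (fun a c h => h) v hv]
    ring
  obtain ⟨A, cv, hA, hfr, hδ⟩ := hCvEx ℚ F hF O hO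
  have := cv.ded
  have : IsDedekindDomain (integralClosure A F') := integralClosure.isDedekindDomain A F F'
  have : IsFractionRing (integralClosure A F') F' :=
    integralClosure.isFractionRing_of_finite_extension F F'
  let _ : Algebra ℚ (integralClosure A F') :=
    ((algebraMap A (integralClosure A F')).comp (algebraMap ℚ A)).toAlgebra
  obtain ⟨D, hD, hDj, hDω⟩ := PGeo2.dbl A hr hω hι hd
  have minf : ∀ p : GPt F', (∃ a, algebraMap (integralClosure A F') F' a ∉ p.v.valuationSubring) →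
      ∀ v, m p v = 0 := by
    rintro p ⟨a, ha⟩ v
    have hle := (r1 p _).2 rfl
    have h1 : O.v = (res p).v := by
      by_contra h
      refine ha ?_
      have hv : p.v.Integers p.v.integer := Valuation.integer.integers p.v
      refine hv.mem_of_integral ?_
      obtain ⟨P, hP, hP'⟩ := a.2
      let j : A →+* p.v.integer := (algebraMap A F').codRestrict p.v.integer fun x => by
        obtain ⟨c, hc⟩ := (res p).exists_val ((hA x).1 x.2 (res p) (Ne.symm h))
        exact (hle _ _ hc).mem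
      refine ⟨P.map j, hP.map j, ?_⟩
      rw [eval₂_map]
      exact hP'
    obtain ⟨σ, hσ⟩ := (G4 O (res p)).1 h1
    have h2 : O = res p := GPt.ext_val h1 fun a c h => by
      have := hσ a c h
      rwa [fix σ a c h] at this
    simp only [m]
    rw [← uOp (τ p) p ⟨h2 ▸ hle, hτz p⟩, sub_self]
  have inj := IsFractionRing.injective (integralClosure A F') F'
  have eD : ∀ x : A, algebraMap (integralClosure A F') F' (D.j x) = algebraMap F F' x := hDj
  have eω : algebraMap (integralClosure A F') F' D.ω = ω := hDω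
  obtain ⟨z₀, t, n, n', hz₀, ht, H⟩ := hAlg A (integralClosure A F') F' cv r D
    (algebraMap (integralClosure A F') F') (Geo2.phi m) a (fun f g => PTrans.B l f g - a.reg f g) hr inj
    (isFn0 h0 F1 hm) (anti D.ι ι.toRingEquiv hD ma) hl.2
    (fun f h hf hh hc => by
      rw [recip h0 F1 hm minf f h hf hh hc, hB _ _ ((map_ne_zero_iff _ inj).2 hf)
        ((map_ne_zero_iff _ inj).2 hh)]
      ring)
    (fun w x hx y hy => by
      have hw : ι (algebraMap (integralClosure A F') F' (D.j w)) =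
          algebraMap (integralClosure A F') F' (D.j w) := by rw [eD, ι.commutes]
      have := hΛ x y
      rw [fixed hw hx, fixed hw hy] at this
      linarith)
  simp only [eD, eω] at H
  have hz0 : z₀ ≠ 0 := by
    rintro rfl
    have := cv.const 0
    rw [map_zero] at this
    omega
  have hord : O.ord (z₀ : F) < 0 := by
    rw [hδ z₀ hz0]
    omega
  obtain ⟨Dz, hDz, -, -, -, -, chain⟩ := hDer F hF z₀ (trans_of_pole O hord)
  let Λ : F →+ F →+ ℝ := (a.Λ.flip.comp (algebraMap F F').toAddMonoidHom).flip.comp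
    ((AddMonoidHom.mulLeft ω).comp (algebraMap F F').toAddMonoidHom)
  have hΛ' : ∀ x y, Λ x y = a.Λ (ω * algebraMap F F' x) (algebraMap F F' y) := fun x y => rfl
  have ch := chain Λ fun x y w => by
    simp only [hΛ', map_mul, ← mul_assoc]
    exact a.leib _ _ _
  have key := hFA F hF O z₀ t n n' Dz (Λ.flip z₀) ((hA z₀).1 z₀.2) hord ht hDz
    (fun b => by
      have e1 := ch 1 b
      rw [one_mul] at e1
      have e2 := a.leib 1 ω (algebraMap F F' b)
      rw [a.exact, a.sq_const (w := ω) (q := -r) (neg_ne_zero.2 (Nat.cast_ne_zero.2 hr.ne_zero))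
        (by rw [hω]; push_cast; ring), one_mul, add_zero] at e2
      rw [AddMonoidHom.flip_apply, ← e1, hΛ', map_one, mul_one, ← e2])
    (fun h M hh hreg hle => by
      have h1 := hδ ⟨h, (hA h).2 hreg⟩ fun e => hh (congrArg Subtype.val e)
      have h2 := H ⟨h, (hA h).2 hreg⟩ M (by
        rw [hδ z₀ hz0] at hle
        change O.ord h = _ at h1
        rw [h1] at hle
        zify
        linarith)
      rw [AddMonoidHom.flip_apply, hΛ']
      simpa using h2)
    (φ * Dz f) ((hReg F hF φ f hf).2 z₀ Dz hDz hφ)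
  rw [AddMonoidHom.flip_apply, ← ch, hΛ'] at key
  exact key

end Pool.Agent.P.MP_b8021b_nt.KR
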