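import Pool.Agent.P.MP_b8021b_nt.KR.St
import Pool.Agent.P.MP_b8021b_nt.VE.BasicS

/-! Regular forms: sums, algebraic constants, finite extensions. -/

namespace Pool.Agent.P.MP_b8021b_nt.KR

open Polynomial Pool.Agent.P.MP_b8021b_nt.VE Pool.Agent.P.MP_b8021b_nt.VC
open scoped Classical IntermediateField

namespace PRegM

/-- a homomorphism of curve fields is finite -/
theorem fin_hom (hCrv : VC.S_Crv) {F M : Type} [Field F] [Field M] [CharZero F] [CharZero M]
    (hF : IsCurve F) (hM : IsCurve M) [Algebra F M] : FiniteDimensional F M := by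
  obtain ⟨t, ht, -⟩ := hF
  have hc : ∀ q : ℚ, algebraMap ℚ M q = algebraMap F M (algebraMap ℚ F q) := fun q => by
    rw [eq_ratCast, eq_ratCast, map_ratCast]
  have : IsScalarTower ℚ F M := IsScalarTower.of_algebraMap_eq hc
  have ht' : Transcendental ℚ (algebraMap F M t) :=
    (transcendental_algebraMap_iff (algebraMap F M).injective).2 ht
  have h1 : FiniteDimensional ℚ⟮algebraMap F M t⟯ M := (hCrv.2.1 ℚ M _ ht').1 hM
  obtain ⟨s, hs⟩ := h1.fg_top
  refine ⟨⟨s, ?_⟩⟩
  rw [eq_top_iff]
  intro x _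
  have hx : x ∈ Submodule.span ℚ⟮algebraMap F M t⟯ (s : Set M) := hs ▸ Submodule.mem_top
  have hle : ℚ⟮algebraMap F M t⟯ ≤ (IsScalarTower.toAlgHom ℚ F M).fieldRange :=
    IntermediateField.adjoin_simple_le_iff.2 ⟨t, rfl⟩
  induction hx using Submodule.span_induction with
  | mem y hy => exact Submodule.subset_span hy
  | zero => exact zero_mem _
  | add y z _ _ hy hz => exact add_mem (hy trivial) (hz trivial)
  | smul c y _ hy =>
    obtain ⟨a, ha⟩ := hle c.2
    have : c • y = a • y := by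
      rw [Algebra.smul_def a, IntermediateField.smul_def, smul_eq_mul, ← ha]
      rfl
    rw [this]
    exact Submodule.smul_mem _ a (hy trivial)

theorem val_down {F M : Type} [Field F] [Field M] {j : F →+* M} {q : GPt M} {r : GPt F}
    (h : Le j q r) {a : F} {c : Qb} (hc : q.Val (j a) c) : r.Val a c := by
  by_cases ha : a ∈ r.v.valuationSubring
  · obtain ⟨c', hc'⟩ := r.exists_val ha
    rwa [hc.unique (h _ _ hc')]
  · have ha0 : a ≠ 0 := by
      rintro rfl
      exact ha (zero_mem _)
    have h1 : 0 < r.ord a⁻¹ := by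
      rw [r.ord_inv]
      linarith [(r.ord_neg_iff a).2 ha]
    have h2 := hc.mul (h _ _ (r.val_zero_of_ord_pos h1))
    rw [← map_mul, mul_inv_cancel₀ ha0, map_one, mul_zero] at h2
    exact absurd (h2.unique q.val_one) zero_ne_one

theorem val_iff {F M : Type} [Field F] [Field M] {j : F →+* M} {q : GPt M} {r : GPt F}
    (h : Le j q r) (a : F) (c : Qb) : q.Val (j a) c ↔ r.Val a c := ⟨val_down h, h a c⟩

theorem ord_neg_iff {F M : Type} [Field F] [Field M] {j : F →+* M} {q : GPt M} {r : GPt F}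
    (h : Le j q r) (a : F) : q.ord (j a) < 0 ↔ r.ord a < 0 := by
  rw [q.ord_neg_iff, r.ord_neg_iff, not_iff_not]
  constructor
  · intro h1
    obtain ⟨c, hc⟩ := q.exists_val h1
    exact (val_down h hc).mem
  · intro h1
    obtain ⟨c, hc⟩ := r.exists_val h1
    exact (h a c hc).mem

theorem map_aeval {F M : Type} [Field F] [CharZero F] [Field M] [CharZero M] (j : F →+* M) (f : F)
    (π : ℚ[X]) : aeval (j f) π = j (aeval f π) := aeval_algHom_apply j.toRatAlgHom f π

/-- the condition at one point -/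
def At {F : Type} [Field F] [CharZero F] (φ f : F) (p : GPt F) : Prop :=
  (p.ord f < 0 → p.Val (φ * f) 0) ∧
    ∀ π : ℚ[X], π ≠ 0 → p.Val (aeval f π) 0 → p.Val (φ * aeval f π) 0

theorem at_iff {F M : Type} [Field F] [CharZero F] [Field M] [CharZero M] {j : F →+* M}
    {q : GPt M} {r : GPt F} (h : Le j q r) (φ f : F) : At (j φ) (j f) q ↔ At φ f r := by
  simp only [At, map_aeval, ← map_mul, val_iff h, ord_neg_iff h]

theorem mul_alg {F : Type} [Field F] [CharZero F] (p : GPt F) {w x : F} (hw : IsAlgebraic ℚ w)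
    (hx : p.Val x 0) : p.Val (w * x) 0 := by
  have : FiniteDimensional ℚ ℚ⟮w⟯ := IntermediateField.adjoin.finiteDimensional hw.isIntegral
  obtain ⟨c, hc⟩ := p.exists_val
    (p.mem_of_alg (algebraMap ℚ⟮w⟯ F) (IntermediateField.AdjoinSimple.gen ℚ w))
  simpa using hc.mul hx

end PRegM

open PRegM

theorem p_regM (hCrv : VC.S_Crv) (hRes : VC.S_Res) : S_RegM := by
  refine ⟨fun F _ _ f => ⟨fun p => ?_, fun φ ψ h1 h2 p => ?_, fun φ w hw h p => ?_⟩, ?_⟩
  · simp only [zero_mul]
    exact ⟨fun _ => p.val_zero, fun _ _ _ => p.val_zero⟩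
  · simp only [add_mul]
    exact ⟨fun h => by simpa using ((h1 p).1 h).add ((h2 p).1 h),
      fun π h0 h => by simpa using ((h1 p).2 π h0 h).add ((h2 p).2 π h0 h)⟩
  · simp only [mul_assoc]
    exact ⟨fun h1 => mul_alg p hw ((h p).1 h1), fun π h0 h1 => mul_alg p hw ((h p).2 π h0 h1)⟩
  · intro F M _ _ _ _ j hF hM φ f
    let _ : Algebra F M := j.toAlgebra
    have := fin_hom hCrv hF hM
    obtain ⟨res, e, h1, -, h3, -⟩ := hRes F M hF
    constructor
    · intro h q
      exact (at_iff ((h1 q _).2 rfl) φ f).2 (h (res q))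
    · intro h p
      have hne : ∃ q, res q = p := by
        by_contra hn
        have he : {q | res q = p} = ∅ := Set.eq_empty_of_forall_notMem fun q hq => hn ⟨q, hq⟩
        have h4 := (h3 p).2
        rw [he, finsum_mem_empty] at h4
        exact (Module.finrank_pos (R := F) (M := M)).ne h4
      obtain ⟨q, hq⟩ := hne
      exact (at_iff ((h1 q p).2 hq) φ f).1 (h q)

end Pool.Agent.P.MP_b8021b_nt.KR
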