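import Pool.Agent.P.MP_b8021b_nt.KR.Defs
import Pool.Agent.P.MP_b8021b_nt.VC.StT

/-! Interface statements. Each is proved in its own file of this folder. -/

namespace Pool.Agent.P.MP_b8021b_nt.KR

open Polynomial Finset Pool.Agent.P.MP_b8021b_nt.VE Pool.Agent.P.MP_b8021b_nt.VC
open scoped Classical IntermediateField

/-! ### part A: analysis -/

/-- the Bloch-Wigner function -/
def S_BW : Prop :=
  ∃ D : ℂ → ℝ, ∀ (f : ℝ → ℂ) (f' : ℂ) (t : ℝ), HasDerivAt f f' t → f t ≠ 0 → f t ≠ 1 →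
    HasDerivAt (fun s => D (f s))
      (Real.log ‖f t‖ * (-f' / (1 - f t)).im - Real.log ‖1 - f t‖ * (f' / f t).im) t

/-- the regulator of a cycle is a symbol -/
def S_St : Prop :=
  ∀ (F : Type) [Field F] (c : Path F →₀ ℝ),
    (∀ f f' g, f ≠ 0 → f' ≠ 0 → g ≠ 0 → regC c (f * f') g = regC c f g + regC c f' g) ∧
    (∀ f g, regC c g f = -regC c f g) ∧
    (IsCycle c → (∀ f, f ≠ 0 → 1 - f ≠ 0 → regC c f (1 - f) = 0) ∧ ∃ R, IsReg c R)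

/-- the analytic datum of a cycle -/
def S_An : Prop :=
  ∀ (F : Type) [Field F] [CharZero F] (c : Path F →₀ ℝ), IsCycle c →
    ∃ a : AnD F, (∀ x y, a.Λ x y = lamC c x y) ∧ ∀ f g, a.reg f g = regC c f g

/-- unique lifting of paths -/
def S_Lift : Prop :=
  ∀ (F M : Type) [Field F] [CharZero F] [Field M] [Algebra F M] [FiniteDimensional F M]
    (γ : Path F) (t₀ : ℝ) (σ : M →+* ℂ), σ.comp (algebraMap F M) = γ.j t₀ →
    ∃! γ' : Path M, γ'.comap (algebraMap F M) = γ ∧ γ'.j t₀ = σ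

/-- lifting of chains -/
def S_LiftC : Prop :=
  ∀ (F M : Type) [Field F] [CharZero F] [Field M] [Algebra F M] [FiniteDimensional F M]
    (c : Path F →₀ ℝ), (∃ c', IsLift (algebraMap F M) c c') ∧
    ∀ c', IsLift (algebraMap F M) c c' → (IsCycle c → IsCycle c') ∧
      (∀ (a : M) (b : F), lamC c' a (algebraMap F M b) = lamC c (Algebra.trace F M a) b) ∧
      ∀ f g : F, regC c' (algebraMap F M f) (algebraMap F M g) = Module.finrank F M * regC c f g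

/-- local holomorphic branches -/
def S_Br : Prop :=
  ∀ (F : Type) [Field F] [CharZero F], IsCurve F → ∀ f : F, Transcendental ℚ f →
    ∀ (n : ℕ) (φ : Fin n → F), ∃ (d : ℕ) (q : ℚ[X]), q ≠ 0 ∧ ∀ τ : ℂ, aeval τ q ≠ 0 →
    ∃ (ρ : ℝ) (Ψ : Fin d → Fin n → ℂ → ℂ) (J : Fin d → ℂ → F →+* ℂ), 0 < ρ ∧
      (∀ i k, DifferentiableOn ℂ (Ψ i k) (Metric.ball τ ρ)) ∧
      (∀ x ∈ Metric.ball τ ρ, Transcendental ℚ x →
        (∀ i, J i x f = x ∧ ∀ k, J i x (φ k) = Ψ i k x) ∧ (Function.Injective fun i => J i x) ∧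
        ∀ j : F →+* ℂ, j f = x → ∃ i, J i x = j) ∧
      ∀ (i : Fin d) (s : ℝ → ℂ), ContDiff ℝ 1 s →
        (∀ t, s t ∈ Metric.ball τ ρ ∧ Transcendental ℚ (s t)) →
        ∀ a, ContDiff ℝ 1 fun t => J i (s t) a

/-- the maximum principle -/
def S_Max : Prop :=
  ∀ (J : Type) (z Φ : J → ℂ) (I : J → ℝ) (Gen : Set ℂ) (q : ℂ[X]) (d : ℕ) (τ₀ : ℂ), Dense Gen →
    q ≠ 0 → q.eval τ₀ ≠ 0 →
    (∀ τ, q.eval τ ≠ 0 → ∃ (ρ : ℝ) (H : Fin d → ℂ → ℂ), 0 < ρ ∧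
      (∀ i, DifferentiableOn ℂ (H i) (Metric.ball τ ρ)) ∧ ∀ x ∈ Metric.ball τ ρ, x ∈ Gen →
        ∃ e : Fin d ≃ {j // z j = x}, ∀ i, I (e i) = (H i x).im ∧ Φ (e i) = deriv (H i) x) →
    (∀ b, q.eval b = 0 → ∃ ρ C θ : ℝ, 0 < ρ ∧ 0 < θ ∧
      ∀ j, ‖z j - b‖ ≤ ρ → ‖Φ j‖ ≤ C * ‖z j - b‖ ^ (θ - 1)) →
    (∃ R C θ : ℝ, 0 < θ ∧ ∀ j, R ≤ ‖z j‖ → ‖Φ j‖ ≤ C * ‖z j‖ ^ (-1 - θ)) →
    ∃ (ε ρ : ℝ) (τ : ℂ), 0 < ρ ∧ ∀ j, z j ∈ Metric.ball τ ρ → z j ∈ Gen →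
      Φ j = Complex.I * ε *
        ((derivative q).eval (z j) / q.eval (z j) - (q.natDegree + 1) / (z j - τ₀))

/-- independence of the complex embeddings -/
def S_Ind : Prop :=
  ∀ (F : Type) [Field F] [CharZero F], IsCurve F → ∀ f : F, Transcendental ℚ f →
    ∀ (n : ℕ) (φ : Fin n → F) (ψ : F) (r : Fin n → ℝ) (ε ρ : ℝ) (τ : ℂ), LinearIndependent ℚ φ →
    0 < ρ → (∀ j : F →+* ℂ, j f ∈ Metric.ball τ ρ →
      ∑ k, (r k : ℂ) * j (φ k) = Complex.I * ε * j ψ) → r = 0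

/-- functions that are regular where `f` is regular are integral over `ℚ[f]` -/
def S_Int : Prop :=
  ∀ (F : Type) [Field F] [CharZero F], IsCurve F → ∀ f a : F, Transcendental ℚ f →
    (∀ p : GPt F, f ∈ p.v.valuationSubring → a ∈ p.v.valuationSubring) →
    IsIntegral (Algebra.adjoin ℚ {f}) a

/-- growth of the coefficient of a regular form -/
def S_Bnd : Prop :=
  ∀ (F : Type) [Field F] [CharZero F], IsCurve F → ∀ φ f : F, Transcendental ℚ f → RegV φ f →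
    (∀ b : ℂ, IsAlgebraic ℚ b → ∃ ρ C θ : ℝ, 0 < ρ ∧ 0 ≤ C ∧ 0 < θ ∧ θ ≤ 1 ∧
      ∀ j : F →+* ℂ, ‖j f - b‖ ≤ ρ → ‖j φ‖ ≤ C * ‖j f - b‖ ^ (θ - 1)) ∧
    ∃ R C θ : ℝ, 0 ≤ C ∧ 0 < θ ∧ ∀ j : F →+* ℂ, R ≤ ‖j f‖ → ‖j φ‖ ≤ C * ‖j f‖ ^ (-1 - θ)

/-- there are enough cycles -/
def S_Onto : Prop :=
  ∀ (F : Type) [Field F] [CharZero F], IsCurve F → ∀ f : F, Transcendental ℚ f →
    ∀ (n : ℕ) (φ : Fin n → F) (r : Fin n → ℝ), LinearIndependent ℚ φ → (∀ k, RegV (φ k) f) →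
    (∀ c, IsCycle c → ∑ k, r k * lamC c (φ k) f = 0) → r = 0

/-! ### part D: differentials -/

/-- the derivation attached to a transcendental function, and the chain rule -/
def S_Der : Prop :=
  ∀ (F : Type) [Field F] [CharZero F], IsCurve F → ∀ f : F, Transcendental ℚ f →
    ∃ D : Derivation ℚ F F, D f = 1 ∧ (∀ g, Transcendental ℚ g → D g ≠ 0) ∧
      (∀ ω : Ω[F⁄ℚ], ∃ φ : F, ω = φ • KaehlerDifferential.D ℚ F f) ∧
      (∀ φ : F, φ • KaehlerDifferential.D ℚ F f = 0 → φ = 0) ∧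
      (∀ g, KaehlerDifferential.D ℚ F g = D g • KaehlerDifferential.D ℚ F f) ∧
      ∀ Λ : F →+ F →+ ℝ, (∀ a b c, Λ a (b * c) = Λ (a * b) c + Λ (a * c) b) →
        ∀ a b, Λ a b = Λ (a * D b) f

/-- logarithmic derivatives -/
def S_DL : Prop :=
  ∀ (F : Type) [Field F] [CharZero F], IsCurve F → ∀ (D : Derivation ℚ F F) (p : GPt F) (a g : F),
    a ≠ 0 → p.ord g ≠ 0 → D g ≠ 0 →
    p.Val (D a / a / (D g / g)) ((p.ord a : Qb) / (p.ord g : Qb))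

/-- regular forms: change of the variable -/
def S_Reg : Prop :=
  ∀ (F : Type) [Field F] [CharZero F], IsCurve F → ∀ φ f : F, Transcendental ℚ f →
    (IsRegular (φ • KaehlerDifferential.D ℚ F f) → RegV φ f) ∧
    ∀ (g : F) (D : Derivation ℚ F F), D g = 1 → RegV φ f → RegV (φ * D f) g

/-- regular forms: sums, constants, extensions -/
def S_RegM : Prop :=
  (∀ (F : Type) [Field F] [CharZero F] (f : F), RegV 0 f ∧
    (∀ φ ψ, RegV φ f → RegV ψ f → RegV (φ + ψ) f) ∧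
    ∀ φ w, IsAlgebraic ℚ w → RegV φ f → RegV (w * φ) f) ∧
  ∀ (F M : Type) [Field F] [CharZero F] [Field M] [CharZero M] (j : F →+* M), IsCurve F →
    IsCurve M → ∀ φ f : F, RegV φ f ↔ RegV (j φ) (j f)

/-- the trace of a regular form to the projective line vanishes -/
def S_TrZ : Prop :=
  ∀ (k F : Type) [Field k] [NumberField k] [Field F] [CharZero F] [Algebra k F], IsCurve F →
    ∀ φ f : F, Transcendental ℚ f → RegV φ f → Algebra.trace k⟮f⟯ F φ = 0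

/-- a function is unramified at almost all points -/
def S_Unr : Prop :=
  ∀ (F : Type) [Field F] [CharZero F], IsCurve F → ∀ z : F, Transcendental ℚ z →
    ∃ q : ℚ[X], q ≠ 0 ∧ ∀ (p : GPt F) (a : Qb), p.Val z a → aeval a q ≠ 0 →
      p.ord (aeval z (minpoly ℚ a)) = 1

/-- a functional that kills the exact forms and the forms that vanish to a high order at the zeros
and at the pole of `z` kills the regular forms -/
def S_FA : Prop :=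
  ∀ (F : Type) [Field F] [CharZero F], IsCurve F → ∀ (O : GPt F) (z : F) (τ : ℤ) (n n' : ℕ)
    (D : Derivation ℚ F F) (L : F →+ ℝ), Reg O z → O.ord z < 0 → τ ≠ 0 → D z = 1 →
    (∀ b, L (D b) = 0) →
    (∀ (h : F) (M : ℕ), h ≠ 0 → Reg O h → O.ord z * M ≤ O.ord h + O.ord z * n' →
      L (z ^ n * h / (z - τ) ^ M) = 0) →
    ∀ φ, RegV φ z → L φ = 0

/-! ### part E: the engine -/

/-- the integral model -/
def S_Mod : Prop :=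
  ∀ (A : Type) [CommRing A] [Algebra ℚ A] (cv : Cv ℚ A) (e₀ Q : ℕ) (k : A → ℕ), 0 < Q →
    ∃ (R : Type) (_ : CommRing R) (_ : Algebra ℤ[X] R) (m : VC.Mod R) (j : R →+* A) (τ : ℤ) (z₀ : A)
      (n : ℕ), Gen j ∧ e₀ < m.e ∧ m.G = X ∧ m.τ0 = τ ∧ cv.δ (j (zR R)) = m.e ∧
      (∀ i, cv.δ (j (m.y i)) = m.δ i) ∧ (Q : A) ^ k z₀ * j (zR R) = (1 + Q * n) * z₀

/-- the fibre side of the cochain -/
def S_C1 : Prop :=
  ∀ (R A A' : Type) [CommRing R] [Algebra ℤ[X] R] [CommRing A] [CommRing A'] [IsDedekindDomain A']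
    [Algebra ℚ A'] (p : VC.Par R) (D : Dbl A A' p.r) (j : R →+* A)
    (φ : MaximalSpectrum A' → A' → ℝ), Gen j → IsFn0 φ → Anti D.ι φ → ∀ t, p.Adm t →
    ∃ c₁ : p.Pn → ℝ, (∀ x, p.IsPt x → p.OnT x t → c₁ (p.inv x) = -c₁ x) ∧ p.fib D j t ≠ 0 ∧
      ∀ (n : ℕ) (s : p.Co) (x : Fin n → p.Pn), p.Good t s x →
        IsCoprime (p.fib D j t) (p.sec D j s) ∧
          pair φ (p.fib D j t) (p.sec D j s) = ∑ i, c₁ (x i)

/-- the section side of the cochain -/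
def S_C2 : Prop :=
  ∀ (R A A' : Type) [CommRing R] [Algebra ℤ[X] R] [CommRing A] [CommRing A'] [IsDedekindDomain A']
    [Algebra ℚ A'] (p : VC.Par R) (D : Dbl A A' p.r) (j : R →+* A)
    (φ : MaximalSpectrum A' → A' → ℝ), Gen j → IsFn0 φ → ∀ s : p.Co, p.sec D j s ≠ 0 ∧
    ∃ (c₂ : p.Pn → ℝ) (Q : ℝ[X]) (Ar : ℝ → ℝ) (β : ℝ), Q.natDegree ≤ 2 * p.e * p.dd - 1 ∧
      (∀ a, (p.FR s).eval a ≠ 0 → HasDerivAt Ar (Q.eval a / (p.FR s).eval a) a) ∧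
      ∀ (n : ℕ) (t : ℤ × ℤ) (x : Fin n → p.Pn), p.Adm t → p.Good t s x →
        pair φ (p.sec D j s) (p.fib D j t) = β + ∑ i, c₂ (x i) + Ar ((t.1 : ℝ) / t.2)

/-- the design at one scale, for every small width -/
def S_NT : Prop :=
  ∀ (R : Type) [CommRing R] [Algebra ℤ[X] R] (p : VC.Par R), ∃ u : ℕ, 6 ≤ u ∧
    ∀ (Nc : ℕ) [NeZero Nc] (ε : ℝ), 0 < ε → ∃ η₁ : ℝ, 0 < η₁ ∧ ∀ η : ℝ, 0 < η → η ≤ η₁ →
      ∃ c : Cfg, c.τ0 = p.τ0 ∧ c.η = η ∧ p.r ≤ c.z ∧ 1 ≤ η ^ 2 * c.S0 ∧ η * c.S0 / 2 ≤ c.L ∧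
        c.L ≤ η * c.S0 ∧ VC.Fine p c u Nc ε

/-- a bound on most cells, for a derivative that is close to a rational function -/
def S_Rem : Prop :=
  ∀ d : ℕ, ∃ (C δ ϑ : ℝ) (N₀ : ℕ), 1 ≤ C ∧ 0 < δ ∧ 0 < ϑ ∧ ϑ ≤ 1 / 2 ∧ ∀ Nc, N₀ ≤ Nc →
    ∀ (T : Type) [Fintype T] (β : Box T Nc) (F g R : ℝ → ℝ) (Q : ℝ[X]) (a₀ κ c M : ℝ), β.Mem →
    Q.natDegree ≤ d → (∀ a ∈ Set.Icc β.τ0 (β.τ0 + β.η), 0 < F a) →
    (∀ a ∈ Set.Icc β.τ0 (β.τ0 + β.η), ∀ a' ∈ Set.Icc β.τ0 (β.τ0 + β.η), F a ≤ 2 * F a') →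
    (∀ a ∈ Set.Icc β.τ0 (β.τ0 + β.η), HasDerivAt R (g a) a) →
    a₀ ∈ Set.Icc β.τ0 (β.τ0 + β.η) →
    (∀ a ∈ Set.Icc β.τ0 (β.τ0 + β.η), |F a * g a - Q.eval a| ≤ ϑ * |Q.eval a₀|) → 0 ≤ M →
    (1 - δ) * (Nc : ℝ) ^ 2 ≤ ((univ.filter fun e => ∃ t, β.cell t = e ∧
      |R (β.τ t) + κ * Real.log (β.b t) + c| ≤ M).card : ℝ) →
    (∀ a ∈ Set.Icc β.τ0 (β.τ0 + β.η), β.η * |g a| ≤ C * M) ∧
      (∀ t, |R (β.τ t) + κ * Real.log (β.b t) + c| ≤ C * M) ∧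
      ∀ t t', β.cell t = β.cell t' → |R (β.τ t) + κ * Real.log (β.b t) -
        (R (β.τ t') + κ * Real.log (β.b t'))| ≤ C / Nc * M

/-- rigidity: on some good section the archimedean part is an affine function of the size -/
def S_BR : Prop :=
  ∀ (κ CR δ : ℝ) (u d N₀ : ℕ), 6 ≤ u → 1 ≤ CR → 0 < δ → ∃ (Nc : ℕ) (ε : ℝ), N₀ ≤ Nc ∧ 1 ≤ Nc ∧
    0 < ε ∧ ∀ (P X T S : Type) [Fintype P] [Fintype X] [Fintype T] [Fintype S]
      (G : Sys P X T S Nc u) (Bad : Finset S), OkR G κ d CR δ Bad ε →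
      (∀ e, ∃ t, G.box.cell t = e) ∧ ∀ lam : ℝ, 0 < lam → ∃ s ∉ Bad, ∃ φ₀ k : ℝ,
        ∀ t, |G.A s (G.box.τ t) + φ₀ + k * G.Lg d s t| ≤ lam

/-- a linear form in the coefficients of a section is rarely small -/
def S_Tent : Prop :=
  ∀ (R : Type) [CommRing R] [Algebra ℤ[X] R] (p : VC.Par R) (S0 L : ℕ) (l : p.Ix → ℝ) (j₀ : p.Ix)
    (c : ℝ), 1 ≤ L → l j₀ ≠ 0 → 0 ≤ c →
    ∑ s ∈ VC.Sset p S0 L with |∑ j, l j * ((s j - VC.cen p S0 j : ℤ) : ℝ)| < c * |l j₀| * L,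
      VC.wS p S0 L s ≤ 2 * c + 1 / L

/-- the coefficients of the norm form are close to those of the central section -/
def S_ContF : Prop :=
  ∀ (R : Type) [CommRing R] [Algebra ℤ[X] R] (p : VC.Par R), p.G = X → ∃ C : ℝ, 0 ≤ C ∧
    ∀ (η : ℝ) (S0 L : ℕ), η ≤ 1 → 1 ≤ η * S0 → L ≤ η * S0 → ∀ s ∈ VC.Sset p S0 L, ∀ k,
      |((p.F s).coeff k : ℝ) - if k = 2 * p.e * p.dd then
        ((p.r : ℝ) ^ p.n0 * S0) ^ (2 * p.e) else 0| ≤ C * η * (S0 : ℝ) ^ (2 * p.e)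

/-- a Taylor coefficient bounds the maximum on an interval from below -/
def S_Coef : Prop :=
  ∀ d : ℕ, ∃ c : ℝ, 0 < c ∧ ∀ (P : ℝ[X]) (τ η : ℝ) (k : ℕ), P.natDegree ≤ d → 0 < η →
    ∃ a ∈ Set.Icc τ (τ + η), c * |(taylor τ P).coeff k| * η ^ k ≤ |P.eval a|

/-- the regulator as a power series in the fibre -/
def S_Ser : Prop :=
  ∀ (E : Type) [Field E] [CharZero E] (a : AnD E) (z s : E) (τ : ℤ) (K ρ η : ℝ) (M : ℕ), s ≠ 0 →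
    z - τ ≠ 0 → a.N (z - τ)⁻¹ ≤ ρ → 0 < η → ρ * η ≤ 1 / 2 →
    (∀ n : ℕ, |a.Λ ((z - τ)⁻¹ ^ (n + 1) * s⁻¹) s| ≤ K * ρ ^ (n + 1)) →
    ∃ R R' : ℝ → ℝ, (∀ x ∈ Set.Icc (τ : ℝ) (τ + η), HasDerivAt R (R' x) x ∧
        |R' x + ∑ n ∈ range M, a.Λ ((z - τ)⁻¹ ^ (n + 1) * s⁻¹) s * (x - τ) ^ n| ≤
          2 * K * ρ * (ρ * η) ^ M) ∧
      ∀ q : ℚ, (q : ℝ) ∈ Set.Icc (τ : ℝ) (τ + η) → z - q ≠ 0 → R q = a.reg (z - q) s

/-- the regulator term on a section -/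
def S_Ana : Prop :=
  ∀ (R E : Type) [CommRing R] [Algebra ℤ[X] R] [Field E] [CharZero E] (p : VC.Par R)
    (θ : R →+* E) (w : E) (a : AnD E) (τ : ℤ) (M : ℕ), p.G = X → Transcendental ℚ (θ (zR R)) →
    (∀ x ∈ ℚ⟮θ (zR R)⟯, ∀ y ∈ ℚ⟮θ (zR R)⟯, a.Λ x y = 0) → 2 * p.e * p.dd < M →
    ∀ ϑ c₀ : ℝ, 0 < ϑ → 0 < c₀ → ∃ η₁ : ℝ, 0 < η₁ ∧ ∀ η : ℝ, 0 < η → η ≤ η₁ → ∀ S0 L : ℕ,
      1 ≤ η ^ 2 * S0 → L ≤ η * S0 → ∀ s ∈ VC.Sset p S0 L, secE p θ w s ≠ 0 →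
      a.Λ (secE p θ w s)⁻¹ (secE p θ w s) = 0 ∧ ∃ Rg R' : ℝ → ℝ,
        (∀ x ∈ Set.Icc (τ : ℝ) (τ + η), HasDerivAt Rg (R' x) x) ∧
        (∀ q : ℚ, (q : ℝ) ∈ Set.Icc (τ : ℝ) (τ + η) →
          Rg q = a.reg (θ (zR R) - q) (secE p θ w s)) ∧
        (c₀ * η * S0 ≤ |∑ j, a.Λ (θ (zR R) ^ (2 * p.e * p.dd) / (θ (zR R) - τ) ^ M) (psi p θ w j) *
            ((s j - VC.cen p S0 j : ℤ) : ℝ)| →
          ∃ c : ℝ, 0 < c ∧ ∀ Q : ℝ[X], Q.natDegree ≤ 2 * p.e * p.dd - 1 →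
            ∃ (P : ℝ[X]) (x₀ : ℝ), x₀ ∈ Set.Icc (τ : ℝ) (τ + η) ∧
              P.natDegree ≤ 2 * p.e * p.dd + M ∧ c ≤ |P.eval x₀| ∧
              ∀ x ∈ Set.Icc (τ : ℝ) (τ + η),
                |Q.eval x - (p.FR s).eval x * R' x - P.eval x| ≤ ϑ * |P.eval x₀|)

/-- the core statement -/
def S_Eng : Prop :=
  ∀ (R A A' E : Type) [CommRing R] [Algebra ℤ[X] R] [CommRing A] [CommRing A']
    [IsDedekindDomain A'] [Algebra ℚ A'] [Field E] [CharZero E] (p : VC.Par R) (D : Dbl A A' p.r)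
    (j : R →+* A) (i : A' →+* E) (φ : MaximalSpectrum A' → A' → ℝ) (a : AnD E) (ν : E → E → ℝ)
    (τ : ℤ) (z : E), Gen j → Function.Injective i → IsFn0 φ → Anti D.ι φ → p.G = X → p.τ0 = τ →
    z = i (D.j (j (zR R))) →
    (∀ f h : A', f ≠ 0 → h ≠ 0 → IsCoprime f h →
      pair φ h f - pair φ f h = a.reg (i f) (i h) + ν (i f) (i h)) →
    (∀ (m n : ℤ) (h : E), h ≠ 0 → n ≠ 0 →
      (∀ q : ℕ, q.Prime → q < p.r → (q : ℤ) ∣ m ∧ (q : ℤ) ∣ n - 1) → ν (n * z - m) h = ν z h) →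
    (∀ x ∈ ℚ⟮z⟯, ∀ y ∈ ℚ⟮z⟯, a.Λ x y = 0) →
    ∀ (M : ℕ) (k : p.Ix), 2 * p.e * p.dd < M →
      a.Λ (z ^ (2 * p.e * p.dd) / (z - τ) ^ M) (psi p (i.comp (D.j.comp j)) (i D.ω) k) = 0

/-- the algebraic form -/
def S_Alg : Prop :=
  ∀ (A A' E : Type) [CommRing A] [Algebra ℚ A] [CommRing A'] [IsDedekindDomain A'] [Algebra ℚ A']
    [Field E] [CharZero E] (cv : Cv ℚ A) (r : ℕ) (D : Dbl A A' r) (i : A' →+* E)
    (φ : MaximalSpectrum A' → A' → ℝ) (a : AnD E) (ν : E → E → ℝ), r.Prime →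
    Function.Injective i → IsFn0 φ → Anti D.ι φ → Vert r ν →
    (∀ f h : A', f ≠ 0 → h ≠ 0 → IsCoprime f h →
      pair φ h f - pair φ f h = a.reg (i f) (i h) + ν (i f) (i h)) →
    (∀ z : A, ∀ x ∈ ℚ⟮i (D.j z)⟯, ∀ y ∈ ℚ⟮i (D.j z)⟯, a.Λ x y = 0) →
    ∃ (z : A) (τ : ℤ) (n n' : ℕ), 0 < cv.δ z ∧ τ ≠ 0 ∧ ∀ (h : A) (M : ℕ),
      cv.δ h + cv.δ z * n' ≤ cv.δ z * M →
      a.Λ (i D.ω * (i (D.j z) ^ n * i (D.j h) / (i (D.j z) - τ) ^ M)) (i (D.j z)) = 0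

/-! ### part S: reduction to the engine -/

/-- transfer of symbols -/
def S_Trf : Prop :=
  ∀ (F : Type) [Field F] [CharZero F] (β : ∀ (M : Type) [Field M] [Algebra F M], M → M → ℝ),
    (∀ (M : Type) [Field M] [Algebra F M] [FiniteDimensional F M],
      (∀ a a' b, a ≠ 0 → a' ≠ 0 → b ≠ 0 → β M (a * a') b = β M a b + β M a' b) ∧
      (∀ a b, a ≠ 0 → b ≠ 0 → β M b a = -β M a b) ∧
      ∀ a, a ≠ 0 → 1 - a ≠ 0 → β M a (1 - a) = 0) →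
    (∀ (M M' : Type) [Field M] [Algebra F M] [FiniteDimensional F M] [Field M'] [Algebra F M']
      [FiniteDimensional F M'] (σ : M →ₐ[F] M') (a b : M), a ≠ 0 → b ≠ 0 →
      β M' (σ a) (σ b) = β M a b) →
    (∀ a b : F, a ≠ 0 → b ≠ 0 → β F a b = 0) →
    ∀ (M : Type) [Field M] [Algebra F M] [FiniteDimensional F M] (a b : M), a ≠ 0 → b ≠ 0 →
      β M a b = 0

/-- extension of vertical symbols -/
def S_VSx : Prop :=
  ∀ (F M : Type) [Field F] [Field M] [Algebra F M] [Algebra.IsAlgebraic F M] (V : VS F),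
    ∃ V' : VS M, ∀ a, a ≠ 0 → V'.o (algebraMap F M a) = V.o a ∧ V'.m (algebraMap F M a) = V.m a

/-- pull-back -/
def S_Up : Prop :=
  ∀ (F M : Type) [Field F] [CharZero F] [Field M] [Algebra F M] [FiniteDimensional F M],
    IsCurve F → ∀ (r : ℕ) (res : GPt M → GPt F) (l : GPt F → Qb → ℝ) (c : Path F →₀ ℝ)
    (c' : Path M →₀ ℝ), (∀ q, Le (algebraMap F M) q (res q)) → IsCycle c →
    IsLift (algebraMap F M) c c' → Rel r l (regC c) → Rel r (fun q => l (res q)) (regC c')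

/-- push-forward -/
def S_Down : Prop :=
  ∀ (F M : Type) [Field F] [CharZero F] [Field M] [Algebra F M] [FiniteDimensional F M],
    IsCurve F → ∀ (r : ℕ) (res : GPt M → GPt F) (e : GPt M → ℕ) (l : GPt M → Qb → ℝ)
    (R : M → M → ℝ), (∀ q, Le (algebraMap F M) q (res q)) →
    (∀ q a, q.ord (algebraMap F M a) = e q * (res q).ord a) → Rel r l R →
    Rel r (fun p u => ∑ᶠ q ∈ {q | res q = p}, (e q : ℝ) * l q u)
      fun f g => R (algebraMap F M f) (algebraMap F M g)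

/-- anti-invariant data on a constant quadratic extension -/
def S_Geo2 : Prop :=
  ∀ (F F' : Type) [Field F] [CharZero F] [Field F'] [CharZero F'] [Algebra F F'], IsCurve F →
    ∀ (r : ℕ) (ω : F') (ι : F' ≃ₐ[F] F') (O : GPt F) (l : GPt F' → Qb → ℝ) (a : AnD F'),
    r.Prime → ω ^ 2 = -(r : F') →
    (∀ x : F', ∃ g c : F, x = algebraMap F F' g + algebraMap F F' c * ω) → ι ω = -ω →
    IsRat ℚ O → Rel r l a.reg →
    (∀ q q', Le (ι : F' →+* F') q q' → ∀ u, u ≠ 0 → l q' u = -l q u) →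
    (∀ x y, a.Λ (ι x) (ι y) = -a.Λ x y) →
    Van fun φ f : F => a.Λ (ω * algebraMap F F' φ) (algebraMap F F' f)

/-- equivariant data -/
def S_Geo : Prop :=
  ∀ (M G : Type) [Field M] [CharZero M] [Group G] [Finite G] [MulSemiringAction G M], IsCurve M →
    ∀ (χ : G →* ℤˣ) (r : ℕ) (ω : M) (O : GPt M) (l : GPt M → Qb → ℝ) (a : AnD M), r.Prime →
    ω ^ 2 = -(r : M) → (∀ g, g • ω = (χ g : ℤ) * ω) → (∃ g, χ g = -1) →
    (∀ x c, (∀ g : G, g • x = x) → O.Val x c → ∃ b : ℚ, c = b) → Rel r l a.reg →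
    (∀ g q q', Le (MulSemiringAction.toRingHom G M g) q q' → ∀ u, u ≠ 0 →
      l q' u = (χ g : ℤ) * l q u) →
    (∀ (g : G) x y, a.Λ (g • x) (g • y) = (χ g : ℤ) * a.Λ x y) → Van fun φ f => a.Λ φ f

/-- the Weil restriction cover -/
def S_Wr : Prop :=
  ∀ (k F : Type) [Field k] [NumberField k] [Field F] [CharZero F] [Algebra k F], IsCurve F →
    ∀ (O : GPt F) (r : ℕ), IsRat k O → r.Prime →
    ∃ (f : F) (M G : Type) (_ : Field M) (_ : CharZero M) (_ : Group G) (_ : Fintype G)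
      (_ : MulSemiringAction G M) (χ : G →* ℤˣ) (ω : M) (O' : GPt M) (j : G → F →+* M),
      Transcendental ℚ f ∧ IsCurve M ∧ ω ^ 2 = -(r : M) ∧ (∀ g, g • ω = (χ g : ℤ) * ω) ∧
      (∃ g, χ g = -1) ∧ (∀ x c, (∀ g : G, g • x = x) → O'.Val x c → ∃ b : ℚ, c = b) ∧
      (∀ (g s : G) x, g • j s x = j (g * s) x) ∧
      ∀ s, s ≠ 1 → ∃ ρ : M, (∀ D : Derivation ℚ M M, D (j 1 f) = ρ * D (j s f)) ∧
        ∀ φ : F, Algebra.trace k⟮f⟯ F φ = 0 →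
          @Algebra.trace F M _ _ (j s).toAlgebra (j 1 φ * ρ) = 0

/-- curves with a rational point -/
def S_Cov : Prop :=
  ∀ (k F : Type) [Field k] [NumberField k] [Field F] [CharZero F] [Algebra k F], IsCurve F →
    ∀ (O : GPt F) (r : ℕ) (l : GPt F → Qb → ℝ) (c : Path F →₀ ℝ), IsRat k O → r.Prime →
    IsCycle c → Rel r l (regC c) → Van (lamC c)

/-- a rational point over a finite extension -/
def S_Const : Prop :=
  ∀ (F : Type) [Field F] [CharZero F], IsCurve F →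
    ∃ (k M : Type) (_ : Field k) (_ : NumberField k) (_ : Field M) (_ : CharZero M)
      (_ : Algebra k M) (_ : Algebra F M) (_ : FiniteDimensional F M) (O : GPt M), IsRat k O

/-- if the regulator of a cycle factors through the tame symbols, the periods are real -/
def S_ClA : Prop :=
  ∀ (F : Type) [Field F] [CharZero F], IsCurve F → ∀ (r : ℕ) (l : GPt F → Qb → ℝ)
    (c : Path F →₀ ℝ), IsCycle c → Rel r l (regC c) → Van (lamC c)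

/-- a functional that vanishes on the kernel of the tame symbols factors through them -/
def S_Fac : Prop :=
  ∀ (F : Type) [Field F] [CharZero F], IsCurve F → ∀ (V : Finset (DVal F)) (R : K2 F →+ ℝ)
    (R' : F → F → ℝ), (∀ f g : Fˣ, R (sym f g) = R' f g) →
    (∀ α, (∀ p : DVal F, p.Hor ∨ p ∈ V → p.Kills α) → R α = 0) → ∃ r l, Rel r l R'

end Pool.Agent.P.MP_b8021b_nt.KR
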