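import Mathlib

/-!
The regulator on `K₂` of a smooth projective curve over a number field, in terms of its function
field `F`.
-/

open scoped WithZero IntermediateField TensorProduct Classical

namespace Pool.Agent.P.MP_b8021b_nt.KR

noncomputable section

/-- `K₂` of a field in Matsumoto's presentation. -/
abbrev K2 (F : Type) [Field F] : Type :=
  (Additive Fˣ ⊗[ℤ] Additive Fˣ) ⧸ Submodule.span ℤ
    {x | ∃ a b : Fˣ, (a : F) + b = 1 ∧ x = Additive.ofMul a ⊗ₜ[ℤ] Additive.ofMul b}

variable {F : Type} [Field F]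

/-- The symbol `{f, g}`. -/
def sym (f g : Fˣ) : K2 F := Submodule.Quotient.mk (Additive.ofMul f ⊗ₜ[ℤ] Additive.ofMul g)

/-- A normalised discrete valuation. -/
structure DVal (F : Type) [Field F] where
  /-- the valuation -/
  v : Valuation F ℤᵐ⁰
  surj : Function.Surjective v

/-- The residue field. -/
abbrev DVal.κ (p : DVal F) : Type := IsLocalRing.ResidueField p.v.valuationSubring

/-- The order of `f` at `p` (Mathlib's valuations are multiplicative). -/
def DVal.ord (p : DVal F) (f : F) : ℤ := - WithZero.log (p.v f)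

/-- The valuation is trivial on the rationals: a closed point of the curve. -/
def DVal.Hor (p : DVal F) : Prop := ∀ n : ℕ, n ≠ 0 → p.v n = 1

/-- `c` is the tame symbol of `f` and `g` at `p`: the residue of `(-1) ^ (a b) f ^ b / g ^ a`,
where `a` and `b` are the orders of `f` and `g` at `p`. -/
def DVal.IsTame (p : DVal F) (f g : F) (c : p.κ) : Prop :=
  ∃ h : (-1) ^ (p.ord f * p.ord g) * f ^ p.ord g / g ^ p.ord f ∈ p.v.valuationSubring,
    IsLocalRing.residue p.v.valuationSubring ⟨_, h⟩ = c

/-- The tame symbol of `α` at `p` is trivial. -/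
def DVal.Kills (p : DVal F) (α : K2 F) : Prop :=
  ∃ T : K2 F →+ Additive p.κˣ,
    (∀ f g : Fˣ, p.IsTame f g (Additive.toMul (T (sym f g)) : p.κˣ)) ∧ T α = 0

/-- A continuously differentiable path in the complex points of the curve that avoids the
algebraic points: a family of embeddings of the function field. -/
structure Path (F : Type) [Field F] where
  /-- the embedding at time `t` -/
  j : ℝ → F →+* ℂ
  smooth : ∀ f, ContDiff ℝ 1 fun t => j t f

/-- The real chain `c` of paths, each run through for `0 ≤ t ≤ 1`, has no boundary. -/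
def IsCycle (c : Path F →₀ ℝ) : Prop :=
  c.mapDomain (fun γ => γ.j 1) = c.mapDomain fun γ => γ.j 0

/-- The derivative of the argument of `f` along a path. -/
def Path.darg (γ : Path F) (f : F) (t : ℝ) : ℝ := (deriv (fun s => γ.j s f) t / γ.j t f).im

/-- The integral of `log |f| d arg g - log |g| d arg f` along a path. -/
def Path.reg (γ : Path F) (f g : F) : ℝ :=
  ∫ t in (0 : ℝ)..1, (Real.log ‖γ.j t f‖ * γ.darg g t - Real.log ‖γ.j t g‖ * γ.darg f t)

/-- `R` is the regulator paired with the chain `c`. -/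
def IsReg (c : Path F →₀ ℝ) (R : K2 F →+ ℝ) : Prop :=
  ∀ f g : Fˣ, R (sym f g) = c.sum fun γ n => n * γ.reg f g

/-- The differential form `ω` has no pole at any closed point of the curve. -/
def IsRegular [CharZero F] (ω : Ω[F⁄ℚ]) : Prop :=
  ∀ p : DVal F, p.Hor → ∃ π a : F, p.ord π = 1 ∧ a ∈ p.v.valuationSubring ∧
    ω = a • KaehlerDifferential.D ℚ F π

/-- The statement. -/
def S_Main : Prop :=
  ∀ (F : Type) [Field F] [CharZero F], (∃ t : F, Transcendental ℚ t ∧ FiniteDimensional ℚ⟮t⟯ F) →
    ∀ (V : Finset (DVal F)) (n : ℕ) (ω : Fin n → Ω[F⁄ℚ]), LinearIndependent ℚ ω →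
    (∀ i, IsRegular (ω i)) →
    ∃ (α : Fin n → K2 F) (c : Fin n → Path F →₀ ℝ) (R : Fin n → K2 F →+ ℝ),
      (∀ (j : Fin n) (p : DVal F), p.Hor ∨ p ∈ V → p.Kills (α j)) ∧
      (∀ i, IsCycle (c i) ∧ IsReg (c i) (R i)) ∧ (Matrix.of fun i j => R i (α j)).det ≠ 0

end

end Pool.Agent.P.MP_b8021b_nt.KR
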